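import Mathlib

set_option autoImplicit false

namespace Pool.SF

/-- The letters of the stacks. -/
inductive Kd (G I S E : Type) : Type
  | kill | noop | fin | hash | bot
  | ex (a : Bool) | cq | cs
  | cg (g : G) | inp (i : I) | mk (s : S) | ext (e : E)
deriving DecidableEq, Fintype

/-- The letter on which a command reader continues reading. -/
def Kd.isCmd {G I S E : Type} : Kd G I S E → Prop
  | .noop => True
  | .cq => True
  | .cs => True
  | .cg _ => True
  | _ => False

/-- Guide letters. -/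
def Kd.isInp {G I S E : Type} : Kd G I S E → Prop
  | .inp _ => True
  | _ => False

section words
variable {K B : Type} [Ring B]

/-- the product of the letters of a word -/
def wd (u : K → B) (J : List K) : B := (J.map u).prod

/-- the product of the strips of a word, in the opposite order -/
def wd' (u' : K → B) (J : List K) : B := (J.reverse.map u').prod

/-- the first `n` letters of an infinite word -/
def pre (p : ℕ → K) (n : ℕ) : List K := (List.range n).map p

/-- The operator moving the top letter of a stack to the previous letter. -/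
def qq [Fintype K] {N : ℕ} (idx : K ≃ Fin N) (u u' : K → B) : B :=
  ∑ a, ∑ b, if (idx b : ℕ) = (idx a : ℕ) + 1 then u a * u' b else 0

end words

/-- `u, u'` are the letters and the strips of a stack without completeness. -/
def Orth {K B : Type} [DecidableEq K] [Ring B] (u u' : K → B) : Prop :=
  ∀ i j, u' i * u j = if i = j then 1 else 0

/-- The system: an algebra `B` with a homomorphism from `C`, two stacks and the readers. -/
structure Sys (F B C G I S E : Type) [Field F] [Ring B] [Algebra F B] [Ring C] [Algebra F C]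
    [Fintype G] [DecidableEq G] [Fintype I] [DecidableEq I] [Fintype S] [DecidableEq S]
    [Fintype E] [DecidableEq E] where
  N : ℕ
  idx : Kd G I S E ≃ Fin N
  idx_kill : (idx .kill : ℕ) = 0
  idx_noop : (idx .noop : ℕ) = 1
  γ : C →ₐ[F] B
  cgen : G → C
  cgen_top : Algebra.adjoin F (Set.range cgen) = ⊤
  t : Kd G I S E → C
  t' : Kd G I S E → C
  tt : Orth t t'
  x : Kd G I S E → B
  x' : Kd G I S E → B
  y : Kd G I S E → B
  y' : Kd G I S E → B
  R0 : B
  RX : B
  RY : B
  H : Bool → B
  R : S → B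
  io : S → B
  ps : S → B
  ph : I → S → S → B
  xx : Orth x x'
  yy : Orth y y'
  xone : ∑ j, x j * x' j = 1
  yone : ∑ j, y j * y' j = 1
  cxy : ∀ i j, Commute (x i) (y j)
  cxy' : ∀ i j, Commute (x i) (y' j)
  cx'y : ∀ i j, Commute (x' i) (y j)
  cx'y' : ∀ i j, Commute (x' i) (y' j)
  cx : ∀ c j, Commute (γ c) (x j)
  cx' : ∀ c j, Commute (γ c) (x' j)
  cy : ∀ c j, Commute (γ c) (y j)
  cy' : ∀ c j, Commute (γ c) (y' j)
  io_mem : ∀ s, io s ∈ Algebra.adjoin F (Set.range γ ∪ Set.range x ∪ Set.range x')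
  ps_mem : ∀ s, ps s ∈ Algebra.adjoin F (Set.range γ ∪ Set.range x ∪ Set.range x')
  ph_mem : ∀ i s s', ph i s s' ∈ Algebra.adjoin F (Set.range γ ∪ Set.range x ∪ Set.range x')
  -- the virgin reader
  R0_inp : ∀ i, R0 * x (.inp i) = R0 * y (.inp i)
  R0_hash : R0 * x .hash = ∑ s, R s * io s
  R0_ex : ∀ a, R0 * x (.ex a) = H a
  R0_other : ∀ j, ¬ j.isInp → j ≠ .hash → (∀ a, j ≠ .ex a) → R0 * x j = 0
  R0_y : R0 * y .bot = 0
  -- the exit readers
  H_inp : ∀ a i, H a * y (.inp i) = H a * γ (t (.inp i))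
  H_bot : ∀ a, H a * y .bot = 0
  H_ex : ∀ a, H a * y (.ex a) = RY
  H_other : ∀ a j, ¬ j.isInp → j ≠ .bot → j ≠ .ex a → H a * y j = RX * γ (t j)
  -- the machine readers
  R_inp : ∀ s i, R s * y (.inp i) = ∑ s', R s' * ph i s s'
  R_bot : ∀ s, R s * y .bot = ps s
  R_mk : ∀ s s', R s * y (.mk s') = if s = s' then RY else 0
  R_other : ∀ s j, ¬ j.isInp → j ≠ .bot → (∀ s', j ≠ .mk s') → R s * y j = 0
  -- the command readers
  RX_noop : RX * x .noop = RX
  RX_fin : RX * x .fin = y' .fin
  RX_cq : RX * x .cq = RX * qq idx y y'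
  RX_cs : RX * x .cs = RX * y' .kill
  RX_cg : ∀ g, RX * x (.cg g) = RX * γ (cgen g)
  RX_other : ∀ j, ¬ j.isCmd → j ≠ .fin → RX * x j = 0
  RY_noop : RY * y .noop = RY
  RY_fin : RY * y .fin = x' .fin
  RY_cq : RY * y .cq = RY * qq idx x x'
  RY_cs : RY * y .cs = RY * x' .kill
  RY_cg : ∀ g, RY * y (.cg g) = RY * γ (cgen g)
  RY_other : ∀ j, ¬ j.isCmd → j ≠ .fin → RY * y j = 0
  -- generation
  gen : Algebra.adjoin F (Set.range γ ∪ Set.range x ∪ Set.range x' ∪ Set.range y ∪ Set.range y' ∪
    {R0, RX, RY} ∪ Set.range H ∪ Set.range R) = ⊤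

end Pool.SF
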