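import Pool.Agent.Helper702.SF.Defs

set_option autoImplicit false

namespace Pool.SF

section nuDefs

/-- `S` is finitely presented in the class of associative algebras without unit: `S` is generated
(without unit) by the elements `c i`, and the relations between them, i.e. the elements without
constant term of the free algebra which vanish at `c`, form the ideal generated by a finite set `R`
of elements without constant term. -/
def FinPresNU (F S : Type) [Field F] [Ring S] [Algebra F S] : Prop :=
  ∃ (n : ℕ) (c : Fin n → S) (R : Finset (FreeAlgebra F (Fin n))),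
    NonUnitalAlgebra.adjoin F (Set.range c) = ⊤ ∧
    (∀ r ∈ R, r ∈ NonUnitalAlgebra.adjoin F (Set.range (FreeAlgebra.ι F (X := Fin n)))) ∧
    ∀ p ∈ NonUnitalAlgebra.adjoin F (Set.range (FreeAlgebra.ι F (X := Fin n))),
      FreeAlgebra.lift F c p = 0 ↔ p ∈ TwoSidedIdeal.span (R : Set (FreeAlgebra F (Fin n)))

/-- product of a nonempty word in an algebra which need not have a unit -/
def nprod {A : Type} [NonUnitalRing A] : List A → A
  | [] => 0
  | [x] => x
  | x :: y :: l => x * nprod (y :: l)

/-- A recursive basis of a finitely generated associative algebra which need not have a unit. The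
basis consists of nonempty words in the generators. -/
def HasRecBasisNU (F : Type) {A : Type} [Field F] [NonUnitalRing A] [Module F A] {n : ℕ}
    (a : Fin n → A) : Prop :=
  ∃ (Bs : Set (List (Fin n))) (nf : List (Fin n) → ℕ × List (ℤ × List (Fin n))),
    [] ∉ Bs ∧ ComputablePred (fun w => w ∈ Bs) ∧ Computable nf ∧
    LinearIndependent F (fun w : Bs => nprod (w.1.map a)) ∧
    ∀ w, w ≠ [] → ((nf w).1 : F) ≠ 0 ∧ (∀ p ∈ (nf w).2, p.2 ∈ Bs) ∧
      ((nf w).1 : F) • nprod (w.map a) =
        ((nf w).2.map (fun p => (p.1 : F) • nprod (p.2.map a))).sum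

end nuDefs

end Pool.SF
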