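import Pool.Agent.Helper702.SF.PresD

set_option autoImplicit false

namespace Pool.SF

section machSem
open Turing

/-- content of the stack `x` after spelling (last letter first) -/
def tapeR {G Γ : Type} (cd : G ⊕ Bool → List Γ) : List (G ⊕ Bool) → List Γ
  | [] => []
  | l :: w => cd l ++ tapeR cd w

/-- abstract configurations -/
inductive Cf (G Γ Λ : Type) : Type
  | sp (w : List (G ⊕ Bool))
  | rn (w : List (G ⊕ Bool)) (l : Λ) (L R : List Γ)
  | dead

/-- action of an instruction -/
def ins {G Γ Λ : Type} (w : List (G ⊕ Bool)) (g : Γ) (L R : List Γ) :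
    Option (Λ × TM0.Stmt Γ) → Cf G Γ Λ
  | none => .dead
  | some (l', .move .right) => .rn w l' (g :: L) R
  | some (l', .write b) => .rn w l' L (b :: R)
  | some (l', .move .left) => match L with
    | [] => .dead
    | h :: L' => .rn w l' L' (h :: g :: R)

/-- abstract transition for a guide letter -/
def nxt {G Γ Λ : Type} [Inhabited Γ] [Inhabited Λ] (M : TM0.Machine Γ Λ) (cd : G ⊕ Bool → List Γ)
    (top : List Γ) : Cf G Γ Λ → Gl G → Cf G Γ Λ
  | .sp w, .sp l => .sp (l :: w)
  | .sp w, .dol => .rn w default [] (top ++ tapeR cd w)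
  | .rn w l L (g :: R), .stp => ins w g L R (M l g)
  | .rn w l [] R, .blT => .rn w l [default] R
  | .rn w l L [], .blX => .rn w l L [default]
  | _, _ => .dead

variable {A G Γ Λ : Type} [Ring A]

/-- value of the current word -/
def mv (a : G → A) : List (G ⊕ Bool) → A
  | [] => 1
  | .inl g :: w => a g * mv a w
  | .inr _ :: _ => 1

/-- value of the formal sum spelled so far -/
def sv (a : G → A) : List (G ⊕ Bool) → A
  | [] => 0
  | .inl _ :: w => sv a w
  | .inr b :: w => sv a w + (if b then mv a w else -mv a w)

/-- the vector of a configuration -/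
def vec [DecidableEq Λ] (cd : G ⊕ Bool → List Γ) (a : G → A) (x t : KK G Γ Λ → A) :
    Cf G Γ Λ → Stt Λ → A
  | .sp w, .c => mv a w * wd x ((tapeR cd w).map sy' ++ [bz'])
  | .sp w, .d => sv a w * wd x ((tapeR cd w).map sy' ++ [bz'])
  | .sp w, .e => wd x ((tapeR cd w).map sy' ++ [bz'])
  | .rn w l L R, .q l' => if l' = l then
      wd t (L.map sy' ++ [bz']) * sv a w * wd x (R.map sy' ++ [bz']) else 0
  | _, _ => 0

/-- the output of a configuration -/
def outp [Inhabited Λ] (M : TM0.Machine Γ Λ) (a : G → A) (x t : KK G Γ Λ → A) : Cf G Γ Λ → A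
  | .rn w l L (g :: R) => match M l g with
    | none => wd t (L.map sy' ++ [bz']) * sv a w * wd x ((g :: R).map sy' ++ [bz'])
    | some _ => 0
  | _ => 0

/-- the hypotheses on the elements of the algebra -/
structure MH [DecidableEq G] [DecidableEq Γ] [DecidableEq Λ]
    (a : G → A) (x x' t t' : KK G Γ Λ → A) : Prop where
  xx : Orth x x'
  tt : Orth t t'
  ax : ∀ g j, Commute (a g) (x j)
  ax' : ∀ g j, Commute (a g) (x' j)
  tx : ∀ i j, Commute (t i) (x j)
  tx' : ∀ i j, Commute (t i) (x' j)
  t'x : ∀ i j, Commute (t' i) (x j)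
  t'x' : ∀ i j, Commute (t' i) (x' j)

end machSem

section codeDefs
open Turing

/-- bits of a spelling letter -/
def cdb {G : Type} (e : G ⊕ Bool → ℕ) (l : G ⊕ Bool) : List Bool :=
  List.replicate (e l) true ++ [false]

/-- number with given binary digits (least significant first) below a leading digit 1 -/
def nb (bs : List Bool) : ℕ := bs.foldr (fun b n => 2 * n + (if b then 1 else 0)) 1

/-- the number of a spelling (last letter first) -/
def num {G : Type} (e : G ⊕ Bool → ℕ) (w : List (G ⊕ Bool)) : ℕ :=
  nb (w.reverse.map (cdb e)).flatten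

/-- the spelling of a formal sum -/
def spl {G : Type} : List (Bool × List G) → List (G ⊕ Bool)
  | [] => []
  | (b, w) :: r => .inr b :: (w.map .inl ++ spl r)

/-- tape alphabet -/
abbrev TA : Type := TM2to1.Γ' PartrecToTM2.K' (fun _ => PartrecToTM2.Γ')

/-- The tape symbol carrying the symbol `a` on the main stack. -/
noncomputable def sym (b : Bool) (a : PartrecToTM2.Γ') : TA :=
  (b, Function.update (fun _ => none) PartrecToTM2.K'.main (some a))

/-- the symbol of a bit -/
noncomputable def bsy (b : Bool) : TA := sym false (if b then .bit1 else .bit0)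

noncomputable def cdT {G : Type} (e : G ⊕ Bool → ℕ) (l : G ⊕ Bool) : List TA :=
  ((cdb e l).reverse).map bsy

noncomputable def topT : List TA := [sym true .cons, bsy true]

end codeDefs

end Pool.SF
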