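import Pool.Agent.Helper702.SF.PresD

set_option autoImplicit false

namespace Pool.SF

section finPresDefs

/-- `S` is a finitely presented associative `F`-algebra (with unit): a quotient of a free algebra
on finitely many generators by the two-sided ideal generated by finitely many elements. -/
def FinPres (F S : Type) [Field F] [Ring S] [Algebra F S] : Prop :=
  ∃ (n : ℕ) (R : Finset (FreeAlgebra F (Fin n))),
    Nonempty (S ≃ₐ[F] RingQuot (fun p q : FreeAlgebra F (Fin n) => p ∈ R ∧ q = 0))

end finPresDefs

end Pool.SF
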