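import Pool.Agent.Helper702.SF.MainD

set_option autoImplicit false
set_option linter.unusedSectionVars false

namespace Pool.SF
section target
open Turing
variable {F : Type} [Field F]

variable {G Γ Λ : Type} [Fintype G] [DecidableEq G] [Fintype Γ]
  [DecidableEq Γ] [Inhabited Γ] [Fintype Λ] [DecidableEq Λ] [Inhabited Λ]
theorem map_lhs_lift_aux {A A' : Type} [Ring A] [Algebra F A] [Ring A'] [Algebra F A']
    (φ : A →ₐ[F] A') (a : G → A) (p : FreeAlgebra F G) :
    φ (FreeAlgebra.lift F a p) = FreeAlgebra.lift F (fun g => φ (a g)) p := by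
  have h : φ.comp (FreeAlgebra.lift F a) = FreeAlgebra.lift F (fun g => φ (a g)) := by
    apply FreeAlgebra.hom_ext
    funext g
    simp
  exact DFunLike.congr_fun h p

/-- Naturality of the left hand sides. -/
theorem map_lhs {A A' : Type} [Ring A] [Algebra F A] [Ring A'] [Algebra F A'] (φ : A →ₐ[F] A')
    (M : TM0.Machine Γ Λ) (cd : G ⊕ Bool → List Γ) (top : List Γ)
    (tp tp' : KK G Γ Λ → FreeAlgebra F G) (f : Gn G (Gl G) (Stt Λ) (Ex Γ) → A)
    (r : RI G (Gl G) (Stt Λ) (Ex Γ)) :
    φ (lhs (mkEl M cd top tp tp' f) r) = lhs (mkEl M cd top tp tp' (fun g => φ (f g))) r := by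
  cases r with
  | st k i j =>
    cases k <;> simp only [lhs, mkEl, map_mul, map_lhs_lift_aux]
  | one b =>
    cases b <;> simp only [lhs, mkEl, map_mul, map_sum]
  | co k g j =>
    cases k <;> simp only [lhs, mkEl, map_mul]
  | r0 j => simp only [lhs, mkEl, map_mul]
  | r0y => simp only [lhs, mkEl, map_mul]
  | h a j => simp only [lhs, mkEl, map_mul]
  | r q j => simp only [lhs, mkEl, map_mul]
  | cm b j => cases b <;> simp only [lhs, mkEl, map_mul]

end target

end Pool.SF
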