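import Pool.Agent.Helper702.SF.MainD

set_option autoImplicit false
set_option linter.unusedSectionVars false

namespace Pool.SF
section map_rhs_helpers

variable {A A' G I S E : Type} [Ring A] [Ring A'] [Fintype G] [DecidableEq G] [Fintype I]
  [DecidableEq I] [Fintype S] [DecidableEq S] [Fintype E] [DecidableEq E]

/-- image of the elements under a ring homomorphism -/
def map_rhs_el (φ : A →+* A') (e : El A G I S E) : El A' G I S E where
  a g := φ (e.a g)
  x j := φ (e.x j)
  x' j := φ (e.x' j)
  y j := φ (e.y j)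
  y' j := φ (e.y' j)
  R0 := φ e.R0
  RX := φ e.RX
  RY := φ e.RY
  H a := φ (e.H a)
  R q := φ (e.R q)
  t j := φ (e.t j)
  t' j := φ (e.t' j)
  io s := φ (e.io s)
  ps s := φ (e.ps s)
  ph i s s' := φ (e.ph i s s')

theorem map_rhs_qq {K : Type} [Fintype K] (φ : A →+* A') {N : ℕ} (idx : K ≃ Fin N) (u u' : K → A) :
    φ (qq idx u u') = qq idx (fun j => φ (u j)) (fun j => φ (u' j)) := by
  unfold qq
  rw [map_sum]
  refine Finset.sum_congr rfl fun a _ => ?_
  rw [map_sum]
  refine Finset.sum_congr rfl fun b _ => ?_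
  split_ifs
  · rw [map_mul]
  · rw [map_zero]

theorem map_rhs_gen (φ : A →+* A') {N : ℕ} (idx : Kd G I S E ≃ Fin N) (e : El A G I S E)
    (r : RI G I S E) : φ (rhs idx e r) = rhs idx (map_rhs_el φ e) r := by
  cases r with
  | st k i j =>
    cases k <;> simp only [rhs, map_rhs_el, map_mul] <;>
    · split_ifs <;> simp
  | one b => simp only [rhs, map_one]
  | co k g j => cases k <;> simp only [rhs, map_rhs_el, map_mul]
  | r0 j => cases j <;> simp only [rhs, r0R, map_rhs_el, map_mul, map_sum, map_zero]
  | r0y => simp only [rhs, map_zero]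
  | h a j =>
    cases j <;> simp only [rhs, hR, map_rhs_el, map_mul, map_zero]
    split_ifs <;> simp
  | r q j =>
    cases j <;> simp only [rhs, rR, map_rhs_el, map_mul, map_sum, map_zero]
    split_ifs <;> simp
  | cm b j =>
    cases b <;> cases j <;>
      simp only [rhs, rxR, ryR, map_rhs_el, map_mul, map_zero, map_rhs_qq]

end map_rhs_helpers

section map_rhs_helpers2

variable {A A' G Γ Λ : Type} [Ring A] [Ring A'] [Fintype Γ] [DecidableEq Γ] [Inhabited Γ]
  [DecidableEq Λ] [Inhabited Λ]

theorem map_rhs_wd {K : Type} (φ : A →+* A') (u : K → A) (J : List K) :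
    φ (wd u J) = wd (fun j => φ (u j)) J := by
  unfold wd
  rw [map_list_prod, List.map_map]
  rfl

theorem map_rhs_smat (φ : A →+* A') (a : G → A) (l : G ⊕ Bool) (s s' : Stt Λ) :
    φ (smat a l s s') = smat (fun g => φ (a g)) l s s' := by
  rcases l with g | b <;> cases s <;> cases s' <;> simp only [smat, map_one, map_zero]
  split_ifs <;> simp

theorem map_rhs_mop (φ : A →+* A') (x x' t t' : KK G Γ Λ → A) (st : Turing.TM0.Stmt Γ) (g : Γ) :
    φ (mop x x' t t' st g) = mop (fun j => φ (x j)) (fun j => φ (x' j)) (fun j => φ (t j))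
      (fun j => φ (t' j)) st g := by
  cases st with
  | move d => cases d <;> simp only [mop, map_mul, map_sum]
  | write b => simp only [mop, map_mul]

theorem map_rhs_mio (φ : A →+* A') (x : KK G Γ Λ → A) (s : Stt Λ) :
    φ (mio x s) = mio (fun j => φ (x j)) s := by
  cases s <;> simp only [mio, map_zero]

theorem map_rhs_mps (φ : A →+* A') (M : Turing.TM0.Machine Γ Λ) (x x' : KK G Γ Λ → A)
    (s : Stt Λ) : φ (mps M x x' s) = mps M (fun j => φ (x j)) (fun j => φ (x' j)) s := by
  cases s with
  | q l =>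
    simp only [mps, map_sum]
    refine Finset.sum_congr rfl fun g _ => ?_
    cases M l g with
    | none => simp only [map_mul]
    | some _ => simp only [map_zero]
  | c => simp only [mps, map_zero]
  | d => simp only [mps, map_zero]
  | e => simp only [mps, map_zero]

theorem map_rhs_mph (φ : A →+* A') (M : Turing.TM0.Machine Γ Λ) (cd : G ⊕ Bool → List Γ)
    (top : List Γ) (a : G → A) (x x' t t' : KK G Γ Λ → A) (i : Gl G) (s s' : Stt Λ) :
    φ (mph M cd top a x x' t t' i s s') =
      mph M cd top (fun g => φ (a g)) (fun j => φ (x j)) (fun j => φ (x' j)) (fun j => φ (t j))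
        (fun j => φ (t' j)) i s s' := by
  cases i with
  | sp l =>
    simp only [mph, map_mul, map_rhs_smat, map_rhs_wd]
  | dol =>
    cases s <;> cases s' <;> simp only [mph, map_zero]
    split_ifs <;> simp [map_rhs_wd]
  | stp =>
    cases s <;> cases s' <;> simp only [mph, map_zero, map_sum]
    refine Finset.sum_congr rfl fun g _ => ?_
    rename_i l l' _
    cases M l g with
    | none => simp only [map_zero]
    | some p =>
      obtain ⟨l'', st⟩ := p
      simp only
      split_ifs
      · rw [map_rhs_mop]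
      · rw [map_zero]
  | blT =>
    cases s <;> cases s' <;> simp only [mph, map_zero]
    split_ifs <;> simp
  | blX =>
    cases s <;> cases s' <;> simp only [mph, map_zero]
    split_ifs <;> simp

end map_rhs_helpers2


section target
open Turing
variable {F : Type} [Field F]

variable {G Γ Λ : Type} [Fintype G] [DecidableEq G] [Fintype Γ]
  [DecidableEq Γ] [Inhabited Γ] [Fintype Λ] [DecidableEq Λ] [Inhabited Λ]

theorem map_rhs_lift {A A' : Type} [Ring A] [Algebra F A] [Ring A'] [Algebra F A']
    (φ : A →ₐ[F] A') (f : G → A) (p : FreeAlgebra F G) :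
    φ (FreeAlgebra.lift F f p) = FreeAlgebra.lift F (fun g => φ (f g)) p := by
  have h : φ.comp (FreeAlgebra.lift F f) = FreeAlgebra.lift F (fun g => φ (f g)) := by
    apply FreeAlgebra.hom_ext
    funext g
    simp
  rw [← h]
  rfl

/-- Naturality of the right hand sides. -/
theorem map_rhs {A A' : Type} [Ring A] [Algebra F A] [Ring A'] [Algebra F A'] (φ : A →ₐ[F] A')
    {N : ℕ} (idx : KK G Γ Λ ≃ Fin N)
    (M : TM0.Machine Γ Λ) (cd : G ⊕ Bool → List Γ) (top : List Γ)
    (tp tp' : KK G Γ Λ → FreeAlgebra F G) (f : Gn G (Gl G) (Stt Λ) (Ex Γ) → A)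
    (r : RI G (Gl G) (Stt Λ) (Ex Γ)) :
    φ (rhs idx (mkEl M cd top tp tp' f) r) =
      rhs idx (mkEl M cd top tp tp' (fun g => φ (f g))) r := by
  have h1 := map_rhs_gen (φ : A →+* A') idx (mkEl M cd top tp tp' f) r
  have h2 : map_rhs_el (φ : A →+* A') (mkEl M cd top tp tp' f) =
      mkEl M cd top tp tp' (fun g => φ (f g)) := by
    have e1 : (fun j => φ (FreeAlgebra.lift F (fun g => f (.c g)) (tp j))) =
        (fun j => FreeAlgebra.lift F (fun g => φ (f (.c g))) (tp j)) :=
      funext fun j => map_rhs_lift φ _ _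
    have e2 : (fun j => φ (FreeAlgebra.lift F (fun g => f (.c g)) (tp' j))) =
        (fun j => FreeAlgebra.lift F (fun g => φ (f (.c g))) (tp' j)) :=
      funext fun j => map_rhs_lift φ _ _
    have e3 := fun s => map_rhs_mio (φ : A →+* A') (fun j => f (.x j)) (s : Stt Λ)
    have e4 := fun s => map_rhs_mps (φ : A →+* A') M (fun j => f (.x j)) (fun j => f (.x' j))
      (s : Stt Λ)
    have e5 := fun i s s' => map_rhs_mph (φ : A →+* A') M cd top (fun g => f (.c g))
      (fun j => f (.x j)) (fun j => f (.x' j))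
      (fun j => FreeAlgebra.lift F (fun g => f (.c g)) (tp j))
      (fun j => FreeAlgebra.lift F (fun g => f (.c g)) (tp' j)) i (s : Stt Λ) (s' : Stt Λ)
    unfold map_rhs_el mkEl
    simp only [AlgHom.coe_toRingHom] at e3 e4 e5 ⊢
    simp only [e3, e4, e5, map_rhs_lift]
  rw [← h2]
  exact h1

end target

end Pool.SF
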