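import Pool.Agent.Helper702.SF.PresD

set_option autoImplicit false

namespace Pool.SF

section partIDefs

/-- `n` is a square whose root `m` has `(unpair m).1 = c`. -/
def sqc (c n : ℕ) : Prop := Nat.sqrt n * Nat.sqrt n = n ∧ (Nat.unpair (Nat.sqrt n)).1 = c

instance (c n : ℕ) : Decidable (sqc c n) := by unfold sqc; infer_instance

/-- Data for the construction of a simple algebra: an algebra `Cp` with a central element `τ`, a
basis `β`, and a generic linear functional. -/
structure LamData (F Cp ι : Type) [Field F] [Ring Cp] [Algebra F Cp] where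
  τ : Cp
  cτ : ∀ c, Commute τ c
  β : Module.Basis ι F Cp
  lam : Cp →ₗ[F] F
  coord : ∀ (s : Finset ι) (i : ι), i ∈ s → ∃ m : ℕ, lam (β i * τ ^ m) = 1 ∧
    ∀ j ∈ s, j ≠ i → lam (β j * τ ^ m) = 0
  gen : ∀ (s : Finset Cp) (p : Cp), p ≠ 0 → ∃ m m' : ℕ, (∀ c ∈ s, lam (c * τ ^ m) = 0) ∧
    (∀ c ∈ s, lam (c * τ ^ m') = 0) ∧ lam (p * τ ^ (m + m')) ≠ 0

variable {F Cp ι D : Type} [Field F] [Ring Cp] [Algebra F Cp] [Ring D] [Algebra F D]

/-- words in `v` -/
def PP (j : Cp →ₐ[F] D) (v : D) : ℕ → Submodule F D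
  | 0 => LinearMap.range j.toLinearMap
  | k + 1 => PP j v k ⊔ Submodule.span F {z | ∃ c, ∃ w ∈ PP j v k, z = j c * v * w}

/-- words in `v` followed by words in `u` -/
def QQ (j : Cp →ₐ[F] D) (u v : D) : ℕ → Submodule F D
  | 0 => ⨆ k, PP j v k
  | l + 1 => QQ j u v l ⊔ Submodule.span F {z | ∃ c, ∃ w ∈ QQ j u v l, z = w * u * j c}

/-- elements ending with `u c` -/
def XR (j : Cp →ₐ[F] D) (u : D) : Submodule F D :=
  Submodule.span F {z | ∃ c, ∃ w : D, z = w * u * j c}

/-- elements beginning with `c v` -/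
def XL (j : Cp →ₐ[F] D) (v : D) : Submodule F D :=
  Submodule.span F {z | ∃ c, ∃ w : D, z = j c * v * w}

/-- A recursive basis, in the sense of the problem: the words `w ∈ Bs` form a basis of `A`, the set
`Bs` is recursive, and an algorithm `nf` writes every word as a linear combination of words of
`Bs`, with common denominator `(nf w).1` and integer numerators. -/
def HasRecBasis (F : Type) {A : Type} [Field F] [Ring A] [Algebra F A] {n : ℕ} (a : Fin n → A) :
    Prop :=
  ∃ (Bs : Set (List (Fin n))) (nf : List (Fin n) → ℕ × List (ℤ × List (Fin n))),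
    ComputablePred (fun w => w ∈ Bs) ∧ Computable nf ∧
    LinearIndependent F (fun w : Bs => (w.1.map a).prod) ∧
    ∀ w, ((nf w).1 : F) ≠ 0 ∧ (∀ p ∈ (nf w).2, p.2 ∈ Bs) ∧
      ((nf w).1 : F) • (w.map a).prod =
        ((nf w).2.map (fun p => (p.1 : F) • (p.2.map a).prod)).sum

/-- generators of the simple algebra: the `a`'s, `τ`, `u`, `v` -/
abbrev GD (n : ℕ) : Type := Fin n ⊕ Fin 3

/-- relators of the first kind: `d w - Σ z b` -/
def rel1 {n : ℕ} (w : List (Fin n)) (p : ℕ × List (ℤ × List (Fin n))) : List (Bool × List (GD n)) :=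
  List.replicate p.1 (true, w.map .inl) ++
    p.2.flatMap (fun q => List.replicate q.1.natAbs (decide (q.1 < 0), q.2.map .inl))

/-- relators of the second kind: `a τ - τ a` -/
def rel2 {n : ℕ} (i : Fin n) : List (Bool × List (GD n)) :=
  [(true, [.inl i, .inr 0]), (false, [.inr 0, .inl i])]

/-- relators of the third kind: `u w τ^m v - (0 or 1)` -/
def rel3 {n : ℕ} (w : List (Fin n)) (m : ℕ) : List (Bool × List (GD n)) :=
  (true, .inr 1 :: (w.map .inl ++ (List.replicate m (.inr 0) ++ [.inr 2]))) ::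
    (if sqc (Encodable.encode w) m then [(false, [])] else [])

open Classical in
/-- all relators -/
noncomputable def relD {n : ℕ} (Bs : Set (List (Fin n)))
    (nf : List (Fin n) → ℕ × List (ℤ × List (Fin n))) (i : ℕ) : List (Bool × List (GD n)) :=
  match (Encodable.decode i : Option (List (Fin n) ⊕ (Fin n ⊕ (List (Fin n) × ℕ)))) with
  | none => []
  | some (.inl w) => rel1 w (nf w)
  | some (.inr (.inl k)) => rel2 k
  | some (.inr (.inr p)) => if p.1 ∈ Bs then rel3 p.1 p.2 else []

end partIDefs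

end Pool.SF
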