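import Pool.Agent.Helper702.SF.PresD

set_option autoImplicit false

namespace Pool.SF

section repDefs

/-- Two complete stacks on a vector space, with an action of `C`. -/
structure Stk (F C V : Type) [Field F] [Ring C] [Algebra F C] [AddCommGroup V] [Module F V]
    (K : Type) [Fintype K] [DecidableEq K] (k0 : K) where
  x : K → Module.End F V
  x' : K → Module.End F V
  y : K → Module.End F V
  y' : K → Module.End F V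
  γ : C →ₐ[F] Module.End F V
  xx : Orth x x'
  yy : Orth y y'
  xone : ∑ j, x j * x' j = 1
  yone : ∑ j, y j * y' j = 1
  cxy : ∀ i j, Commute (x i) (y j)
  cxy' : ∀ i j, Commute (x i) (y' j)
  cx'y : ∀ i j, Commute (x' i) (y j)
  cx'y' : ∀ i j, Commute (x' i) (y' j)
  cx : ∀ c j, Commute (γ c) (x j)
  cx' : ∀ c j, Commute (γ c) (x' j)
  cy : ∀ c j, Commute (γ c) (y j)
  cy' : ∀ c j, Commute (γ c) (y' j)
  fX : ℕ → Submodule F V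
  fY : ℕ → Submodule F V
  fXtop : ∀ v, ∃ n, v ∈ fX n
  fYtop : ∀ v, ∃ n, v ∈ fY n
  fXx' : ∀ n j, ∀ v ∈ fX (n + 1), x' j v ∈ fX n
  fYy' : ∀ n j, ∀ v ∈ fY (n + 1), y' j v ∈ fY n
  fX0 : ∀ j, ∀ v ∈ fX 0, j ≠ k0 → x' j v = 0
  fY0 : ∀ j, ∀ v ∈ fY 0, j ≠ k0 → y' j v = 0
  fX00 : ∀ v ∈ fX 0, x' k0 v ∈ fX 0
  fY00 : ∀ v ∈ fY 0, y' k0 v ∈ fY 0
  fXy : ∀ n j, ∀ v ∈ fX n, y j v ∈ fX n
  fXy' : ∀ n j, ∀ v ∈ fX n, y' j v ∈ fX n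
  fYx : ∀ n j, ∀ v ∈ fY n, x j v ∈ fY n
  fYx' : ∀ n j, ∀ v ∈ fY n, x' j v ∈ fY n
  fXγ : ∀ n c, ∀ v ∈ fX n, γ c v ∈ fX n
  fYγ : ∀ n c, ∀ v ∈ fY n, γ c v ∈ fY n

end repDefs

end Pool.SF
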