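import Pool.Agent.Helper702.SF.SimpleD
import Pool.Agent.Helper702.SF.RepD
import Pool.Agent.Helper702.SF.MachD
import Pool.Agent.Helper702.SF.MainD
import Pool.Agent.Helper702.SF.PartID
import Pool.Agent.Helper702.SF.Main2D
import Pool.Agent.Helper702.SF.P_map_lhs
import Pool.Agent.Helper702.SF.P_map_rhs

set_option autoImplicit false
set_option linter.unusedSectionVars false

namespace Pool.SF
section target
open Turing
variable {F : Type} [Field F] {G Γ Λ : Type} [Fintype G] [DecidableEq G] [Fintype Γ]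
  [DecidableEq Γ] [Inhabited Γ] [Fintype Λ] [DecidableEq Λ] [Inhabited Λ]
/-- The relations hold in the finitely presented algebra. -/
theorem B_rel {N : ℕ} (idx : KK G Γ Λ ≃ Fin N)
    (M : TM0.Machine Γ Λ) (cd : G ⊕ Bool → List Γ) (top : List Γ)
    (tp tp' : KK G Γ Λ → FreeAlgebra F G) (r : RI G (Gl G) (Stt Λ) (Ex Γ)) :
    lhs (mkEl M cd top tp tp' (fun g => RingQuot.mkAlgHom F (Rln (F := F) idx M cd top tp tp')
      (FreeAlgebra.ι F g))) r =
    rhs idx (mkEl M cd top tp tp' (fun g => RingQuot.mkAlgHom F (Rln (F := F) idx M cd top tp tp')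
      (FreeAlgebra.ι F g))) r := by
  rw [← map_lhs (RingQuot.mkAlgHom F (Rln (F := F) idx M cd top tp tp')) M cd top tp tp'
      (fun g => FreeAlgebra.ι F g) r,
    ← map_rhs (RingQuot.mkAlgHom F (Rln (F := F) idx M cd top tp tp')) idx M cd top tp tp'
      (fun g => FreeAlgebra.ι F g) r]
  exact RingQuot.mkAlgHom_rel F ⟨r, rfl, rfl⟩

end target

end Pool.SF
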