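import Pool.Agent.Helper702.SF.MainD

set_option autoImplicit false
set_option linter.unusedSectionVars false

namespace Pool.SF
section target
open Turing
variable {F : Type} [Field F]
theorem exists_idx (G I S E : Type) [Fintype G] [DecidableEq G] [Fintype I] [DecidableEq I]
    [Fintype S] [DecidableEq S] [Fintype E] [DecidableEq E] :
    ∃ (N : ℕ) (idx : Kd G I S E ≃ Fin N), (idx .kill : ℕ) = 0 ∧ (idx .noop : ℕ) = 1 := by
  have hne : (Kd.kill : Kd G I S E) ≠ Kd.noop := by
    intro h
    cases h
  have hN : 1 < Fintype.card (Kd G I S E) := Fintype.one_lt_card_iff.2 ⟨_, _, hne⟩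
  let e := Fintype.equivFin (Kd G I S E)
  let z : Fin (Fintype.card (Kd G I S E)) := ⟨0, by omega⟩
  let o : Fin (Fintype.card (Kd G I S E)) := ⟨1, hN⟩
  let e1 := e.trans (Equiv.swap (e .kill) z)
  have h1 : e1 .kill = z := by
    simp [e1]
  let e2 := e1.trans (Equiv.swap (e1 .noop) o)
  have h2 : e2 .noop = o := by
    show Equiv.swap (e1 .noop) o (e1 .noop) = o
    exact Equiv.swap_apply_left _ _
  have h3 : e2 .kill = z := by
    show Equiv.swap (e1 .noop) o (e1 .kill) = z
    rw [h1]
    apply Equiv.swap_apply_of_ne_of_ne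
    · rw [← h1]
      exact fun h => hne (e1.injective h)
    · intro h
      have := congrArg Fin.val h
      simp [z, o] at this
  exact ⟨_, e2, by rw [h3], by rw [h2]⟩

end target

end Pool.SF
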