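import Pool.Agent.Helper702.SF.MachD

set_option autoImplicit false
set_option linter.unusedSectionVars false

namespace Pool.SF
section target
open Turing
variable {A G : Type} [Ring A] [Fintype G] [DecidableEq G]
omit [Ring A] [Fintype G] [DecidableEq G] in
theorem exists_machine_code (u : ℕ →. ℕ) (hu : Partrec u) :
    ∃ c : ToPartrec.Code, ∀ n : ℕ, (c.eval [n]).Dom ↔ (u n).Dom := by
  obtain ⟨c, hc⟩ := ToPartrec.Code.exists_code (Nat.Partrec'.part_iff₁.2 hu)
  refine ⟨c, fun n => ?_⟩
  have := hc ⟨[n], rfl⟩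
  simp only at this
  rw [this]
  simp [List.Vector.head]

omit [Ring A] [Fintype G] [DecidableEq G] in
theorem exists_machine_fin {Γ Λ : Type} [Inhabited Γ] [Inhabited Λ] (M : TM0.Machine Γ Λ)
    (S : Set Λ) (hS : S.Finite) (ss : TM0.Supports M S) :
    ∃ (Λ' : Type) (_ : Inhabited Λ') (_ : Finite Λ') (M' : TM0.Machine Γ Λ'),
      ∀ l, (StateTransition.eval (TM0.step M') (TM0.init l)).Dom ↔
        (StateTransition.eval (TM0.step M) (TM0.init l)).Dom := by
  classical
  have : Finite S := hS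
  let _ : Inhabited S := ⟨⟨default, ss.1⟩⟩
  let f₁ : PointedMap Γ Γ := ⟨id, rfl⟩
  let g₁ : PointedMap Λ S := ⟨fun q => if h : q ∈ S then ⟨q, h⟩ else default, by
    simp [ss.1]; rfl⟩
  let M' : TM0.Machine Γ S := M.map f₁ f₁ g₁ Subtype.val
  have hg : ∀ q ∈ S, (g₁ q).val = q := by
    intro q hq
    change (if h : q ∈ S then (⟨q, h⟩ : S) else default).val = q
    simp [hq]
  have hf : Function.RightInverse f₁ f₁ := fun a => rfl
  refine ⟨S, inferInstance, inferInstance, M', fun l => ?_⟩
  have := TM0.Machine.map_respects M f₁ f₁ g₁ Subtype.val ss hf hg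
  refine StateTransition.tr_eval_dom this (a₁ := TM0.init l) (a₂ := TM0.init l) ⟨ss.1, ?_⟩
  have h := TM0.map_init f₁ g₁ l
  rw [h]
  congr 1
  exact List.map_id l

/-- A Turing machine with finitely many states for a partial recursive function. -/
theorem exists_machine (u : ℕ →. ℕ) (hu : Partrec u) :
    ∃ (Λ : Type) (_ : Inhabited Λ) (_ : Finite Λ) (M : TM0.Machine TA Λ),
      ∀ n, (StateTransition.eval (TM0.step M)
        (TM0.init (sym true .cons :: ((PartrecToTM2.trNat n).reverse.map (sym false))))).Dom ↔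
        (u n).Dom := by
  classical
  obtain ⟨c, hc⟩ := exists_machine_code u hu
  let inst : Inhabited PartrecToTM2.Λ' :=
    ⟨PartrecToTM2.trNormal c PartrecToTM2.Cont'.halt⟩
  let M2 := PartrecToTM2.tr
  let M1 := TM2to1.tr M2
  let M0 := TM1to0.tr M1
  have s2 : @TM2.Supports _ _ _ _ inst M2 (PartrecToTM2.codeSupp c PartrecToTM2.Cont'.halt) :=
    PartrecToTM2.tr_supports c PartrecToTM2.Cont'.halt
  have s1 := TM2to1.tr_supports M2 s2
  have s0 := TM1to0.tr_supports M1 s1
  obtain ⟨Λ, i1, i2, M, hM⟩ := exists_machine_fin M0 _ (Finset.finite_toSet _) s0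
  refine ⟨Λ, i1, i2, M, fun n => ?_⟩
  rw [hM, ← hc]
  have h2 := PartrecToTM2.tr_eval c [n]
  have h2' : (StateTransition.eval (TM2.step PartrecToTM2.tr)
      (PartrecToTM2.init c [n])).Dom ↔ (c.eval [n]).Dom := by
    rw [h2]; rfl
  rw [← h2']
  have h1 := StateTransition.tr_eval_dom (TM2to1.tr_respects M2)
    (TM2to1.trCfg_init (K := PartrecToTM2.K') (Γ := fun _ => PartrecToTM2.Γ')
      (Λ := PartrecToTM2.Λ') (σ := Option PartrecToTM2.Γ') PartrecToTM2.K'.main
      (PartrecToTM2.trList [n]))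
  have e1 : (TM2.init PartrecToTM2.K'.main (PartrecToTM2.trList [n]) :
      TM2.Cfg (fun _ : PartrecToTM2.K' => PartrecToTM2.Γ') PartrecToTM2.Λ'
        (Option PartrecToTM2.Γ')) = PartrecToTM2.init c [n] := by
    unfold TM2.init PartrecToTM2.init
    congr 1
    funext k
    cases k <;> rfl
  rw [e1] at h1
  rw [← h1]
  have h0 := StateTransition.tr_eval_dom (TM1to0.tr_respects M1)
    (a₁ := TM1.init (TM2to1.trInit PartrecToTM2.K'.main (PartrecToTM2.trList [n]))) rfl
  rw [← h0]
  have e2 : TM2to1.trInit (Γ := fun _ => PartrecToTM2.Γ') PartrecToTM2.K'.main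
      (PartrecToTM2.trList [n]) =
      sym true .cons :: (PartrecToTM2.trNat n).reverse.map (sym false) := by
    have : (PartrecToTM2.trList [n]).reverse =
      PartrecToTM2.Γ'.cons :: (PartrecToTM2.trNat n).reverse := by simp
    unfold TM2to1.trInit
    rw [this]
    rfl
  rw [← e2]
  rfl

end target

end Pool.SF
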