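import Pool.Agent.Helper702.SF.MachD

set_option autoImplicit false
set_option linter.unusedSectionVars false

namespace Pool.SF
section target
open Turing
variable {A G : Type} [Ring A] [Fintype G] [DecidableEq G]
theorem num_comp_step {G : Type} (e : G ⊕ Bool → ℕ) (l : G ⊕ Bool) (n : ℕ) :
    (cdb e l).foldr (fun b n => 2 * n + (if b then 1 else 0)) n =
      (fun m => 2 * m + 1)^[e l] (2 * n) := by
  unfold cdb
  rw [List.foldr_append]
  generalize e l = k
  induction k with
  | zero => simp
  | succ k ih =>
    rw [List.replicate_succ, List.foldr_cons, ih, Function.iterate_succ_apply']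
    simp

theorem num_comp_fold {G : Type} (e : G ⊕ Bool → ℕ) (u : List (G ⊕ Bool)) :
    nb (u.map (cdb e)).flatten = u.foldr (fun l n => (fun m => 2 * m + 1)^[e l] (2 * n)) 1 := by
  induction u with
  | nil => rfl
  | cons l u ih =>
    rw [List.map_cons, List.flatten_cons, List.foldr_cons, ← ih, ← num_comp_step e l]
    unfold nb
    rw [List.foldr_append]

theorem num_comp_num {G : Type} (e : G ⊕ Bool → ℕ) (w : List (G ⊕ Bool)) :
    num e w = w.foldl (fun n l => (fun m => 2 * m + 1)^[e l] (2 * n)) 1 := by
  unfold num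
  rw [num_comp_fold, List.foldr_reverse]

theorem num_comp_spl {G : Type} (r : List (Bool × List G)) :
    spl r = r.flatMap (fun p => Sum.inr p.1 :: p.2.map Sum.inl) := by
  induction r with
  | nil => rfl
  | cons p r ih =>
    obtain ⟨b, w⟩ := p
    rw [List.flatMap_cons, ← ih]
    rfl

/-- Computability of the number of a relator. -/
theorem num_comp {G : Type} [Primcodable G] [Finite G] (e : G ⊕ Bool → ℕ) (he : Computable e)
    (rel : ℕ → List (Bool × List G)) (hrel : Computable rel) :
    Computable (fun i => num e (spl (rel i))) := by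
  have hep : Primrec e := Primrec.dom_finite e
  have hstep : Primrec₂ (fun (_ : List (G ⊕ Bool)) (p : ℕ × (G ⊕ Bool)) =>
      (fun m => 2 * m + 1)^[e p.2] (2 * p.1)) := by
    refine Primrec.nat_iterate (f := fun q : List (G ⊕ Bool) × (ℕ × (G ⊕ Bool)) => e q.2.2)
      (g := fun q : List (G ⊕ Bool) × (ℕ × (G ⊕ Bool)) => 2 * q.2.1)
      (h := fun _ m => 2 * m + 1) ?_ ?_ ?_
    · exact hep.comp (Primrec.snd.comp Primrec.snd)
    · exact Primrec.nat_mul.comp (Primrec.const 2) (Primrec.fst.comp Primrec.snd)
    · exact Primrec.nat_add.comp (Primrec.nat_mul.comp (Primrec.const 2) Primrec.snd)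
        (Primrec.const 1)
  have hnum : Primrec (num e) := by
    have h : Primrec (fun w : List (G ⊕ Bool) =>
        w.foldl (fun n l => (fun m => 2 * m + 1)^[e l] (2 * n)) 1) :=
      Primrec.list_foldl (f := fun w : List (G ⊕ Bool) => w) (g := fun _ => (1 : ℕ))
        (h := fun (_ : List (G ⊕ Bool)) (p : ℕ × (G ⊕ Bool)) =>
          (fun m => 2 * m + 1)^[e p.2] (2 * p.1)) Primrec.id (Primrec.const 1) hstep
    exact h.of_eq (fun w => (num_comp_num e w).symm)
  have hspl : Primrec (spl (G := G)) := by
    have hg : Primrec₂ (fun (_ : List (Bool × List G)) (p : Bool × List G) =>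
        (Sum.inr p.1 :: p.2.map Sum.inl : List (G ⊕ Bool))) := by
      refine Primrec.list_cons.comp ?_ ?_
      · exact Primrec.sumInr.comp (Primrec.fst.comp Primrec.snd)
      · exact Primrec.list_map (Primrec.snd.comp Primrec.snd)
          (Primrec.sumInl.comp Primrec.snd)
    have h : Primrec (fun r : List (Bool × List G) =>
        r.flatMap (fun p => (Sum.inr p.1 :: p.2.map Sum.inl : List (G ⊕ Bool)))) :=
      Primrec.list_flatMap Primrec.id hg
    exact h.of_eq (fun r => (num_comp_spl r).symm)
  exact (hnum.comp hspl).to_comp.comp hrel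

end target

end Pool.SF
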