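import Pool.Agent.Helper702.SF.MachD

set_option autoImplicit false
set_option linter.unusedSectionVars false

namespace Pool.SF
section target
open Turing
variable {A G : Type} [Ring A] [Fintype G] [DecidableEq G]
theorem num_inj_pos (bs : List Bool) : 1 ≤ nb bs := by
  induction bs with
  | nil => exact le_rfl
  | cons b bs ih =>
    show 1 ≤ 2 * nb bs + (if b then 1 else 0)
    omega

theorem num_inj_nb (bs cs : List Bool) (h : nb bs = nb cs) : bs = cs := by
  induction bs generalizing cs with
  | nil =>
    cases cs with
    | nil => rfl
    | cons c cs =>
      have h1 : (1 : ℕ) = 2 * nb cs + (if c then 1 else 0) := h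
      have := num_inj_pos cs
      omega
  | cons b bs ih =>
    cases cs with
    | nil =>
      have h1 : 2 * nb bs + (if b then 1 else 0) = 1 := h
      have := num_inj_pos bs
      omega
    | cons c cs =>
      have h1 : 2 * nb bs + (if b then 1 else 0) = 2 * nb cs + (if c then 1 else 0) := h
      have h2 : nb bs = nb cs ∧ b = c := by
        cases b <;> cases c <;> simp at h1 ⊢ <;> omega
      rw [ih cs h2.1, h2.2]

theorem num_inj_rep (m n : ℕ) (X Y : List Bool)
    (h : List.replicate m true ++ (false :: X) = List.replicate n true ++ (false :: Y)) :
    m = n ∧ X = Y := by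
  induction m generalizing n with
  | zero =>
    cases n with
    | zero => simpa using h
    | succ n => simp [List.replicate_succ] at h
  | succ m ih =>
    cases n with
    | zero => simp [List.replicate_succ] at h
    | succ n =>
      simp only [List.replicate_succ, List.cons_append, List.cons.injEq, true_and] at h
      obtain ⟨h1, h2⟩ := ih n h
      exact ⟨by rw [h1], h2⟩

theorem num_inj_flat {G : Type} (e : G ⊕ Bool → ℕ) (he : Function.Injective e)
    (w w' : List (G ⊕ Bool)) (h : (w.map (cdb e)).flatten = (w'.map (cdb e)).flatten) :
    w = w' := by
  induction w generalizing w' with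
  | nil =>
    cases w' with
    | nil => rfl
    | cons a w' => simp [cdb] at h
  | cons a w ih =>
    cases w' with
    | nil => simp [cdb] at h
    | cons b w' =>
      simp only [List.map_cons, List.flatten_cons, cdb, List.append_assoc, List.singleton_append]
        at h
      obtain ⟨h1, h2⟩ := num_inj_rep _ _ _ _ h
      have h3 := ih w' h2
      rw [he h1, h3]

theorem num_inj (e : G ⊕ Bool → ℕ) (he : Function.Injective e) (w w' : List (G ⊕ Bool))
    (h : num e w = num e w') : w = w' := by
  have h1 := num_inj_nb _ _ h
  have h2 := num_inj_flat e he _ _ h1
  exact List.reverse_injective h2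

end target

end Pool.SF
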