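import Pool.Agent.Helper702.SF.MachD

set_option autoImplicit false
set_option linter.unusedSectionVars false

namespace Pool.SF
section target
open Turing
variable {A G : Type} [Ring A] [Fintype G] [DecidableEq G]
theorem tape_eq_nb (bs : List Bool) : ∃ p : PosNum, Num.ofNat' (nb bs) = Num.pos p ∧
    PartrecToTM2.trPosNum p =
      bs.map (fun b => if b then PartrecToTM2.Γ'.bit1 else PartrecToTM2.Γ'.bit0) ++
        [PartrecToTM2.Γ'.bit1] := by
  induction bs with
  | nil =>
    refine ⟨PosNum.one, ?_, rfl⟩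
    change Num.ofNat' 1 = Num.pos PosNum.one
    rw [Num.ofNat'_one]
    rfl
  | cons b bs ih =>
    obtain ⟨p, hp1, hp2⟩ := ih
    have h1 : nb (b :: bs) = Nat.bit b (nb bs) := by
      rw [Nat.bit_val]
      cases b <;> rfl
    rw [h1, Num.ofNat'_bit, hp1]
    cases b
    · refine ⟨PosNum.bit0 p, rfl, ?_⟩
      simp [PartrecToTM2.trPosNum, hp2]
    · refine ⟨PosNum.bit1 p, rfl, ?_⟩
      simp [PartrecToTM2.trPosNum, hp2]

theorem tape_eq_tr (bs : List Bool) : PartrecToTM2.trNat (nb bs) =
      bs.map (fun b => if b then PartrecToTM2.Γ'.bit1 else PartrecToTM2.Γ'.bit0) ++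
        [PartrecToTM2.Γ'.bit1] := by
  obtain ⟨p, hp1, hp2⟩ := tape_eq_nb bs
  unfold PartrecToTM2.trNat
  rw [← Num.ofNat'_eq, hp1]
  exact hp2

theorem tape_eq_tp (e : G ⊕ Bool → ℕ) (w : List (G ⊕ Bool)) :
    tapeR (cdT e) w = (((w.reverse.map (cdb e)).flatten).reverse).map bsy := by
  induction w with
  | nil => rfl
  | cons l w ih =>
    rw [tapeR, ih]
    simp [cdT]

theorem tape_eq (e : G ⊕ Bool → ℕ) (w : List (G ⊕ Bool)) :
    topT ++ tapeR (cdT e) w =
      sym true .cons :: ((PartrecToTM2.trNat (num e w)).reverse.map (sym false)) := by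
  rw [tape_eq_tp, num, tape_eq_tr]
  unfold topT
  simp only [List.reverse_append, List.reverse_cons, List.reverse_nil, List.nil_append,
    List.cons_append, List.map_cons, List.map_append, List.map_nil]
  congr 1
  congr 1
  rw [← List.map_reverse, List.map_map]
  rfl


end target

end Pool.SF
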