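import Pool.Agent.Helper702.SF.SimpleD
import Pool.Agent.Helper702.SF.RepD
import Pool.Agent.Helper702.SF.MachD
import Pool.Agent.Helper702.SF.MainD
import Pool.Agent.Helper702.SF.PartID
import Pool.Agent.Helper702.SF.Main2D
import Pool.Agent.Helper702.SF.P_tape_eq
import Pool.Agent.Helper702.SF.P_num_inj
import Pool.Agent.Helper702.SF.P_exists_machine
import Pool.Agent.Helper702.SF.P_num_comp

set_option autoImplicit false
set_option linter.unusedSectionVars false

namespace Pool.SF
section target
open Turing
variable {F : Type} [Field F] {G : Type} [Fintype G] [DecidableEq G] [Primcodable G]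
/-- A machine accepting exactly the spellings of the relators. -/
theorem exists_machine_rel (rel : ℕ → List (Bool × List G)) (hrel : Computable rel) :
    ∃ (Λ : Type) (_ : Inhabited Λ) (_ : Fintype Λ) (_ : DecidableEq Λ) (M : TM0.Machine TA Λ)
      (e : G ⊕ Bool → ℕ), ∀ w : List (G ⊕ Bool),
        (StateTransition.eval (TM0.step M) (TM0.init (topT ++ tapeR (cdT e) w))).Dom ↔
          ∃ i, spl (rel i) = w := by
  classical
  let e : G ⊕ Bool → ℕ := Encodable.encode
  have he : Function.Injective e := Encodable.encode_injective
  have hec : Computable e := Computable.encode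
  have hc : Computable (fun i => num e (spl (rel i))) := num_comp e hec rel hrel
  let u : ℕ →. ℕ := fun n => Nat.rfind (fun i => Part.some (decide (num e (spl (rel i)) = n)))
  have hdec : Computable₂ (fun (n i : ℕ) => decide (num e (spl (rel i)) = n)) := by
    have h1 : Computable₂ (fun (a b : ℕ) => decide (a = b)) :=
      (Primrec.eq (α := ℕ)).decide.to_comp
    exact h1.comp (hc.comp Computable.snd) Computable.fst
  have hu : Partrec u := Partrec.rfind hdec.partrec₂
  obtain ⟨Λ, hinh, hfin, M, hM⟩ := exists_machine u hu
  haveI : Fintype Λ := Fintype.ofFinite Λ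
  refine ⟨Λ, hinh, inferInstance, inferInstance, M, e, fun w => ?_⟩
  rw [tape_eq, hM]
  constructor
  · intro h
    obtain ⟨i, hi, -⟩ := Nat.rfind_dom.1 h
    refine ⟨i, num_inj e he _ _ ?_⟩
    simpa using hi
  · rintro ⟨i, hi⟩
    apply Nat.rfind_dom.2
    refine ⟨i, ?_, fun _ => trivial⟩
    simp [hi]

end target

end Pool.SF
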