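import Pool.Agent.Helper702.SF.MainD

set_option autoImplicit false
set_option linter.unusedSectionVars false

namespace Pool.SF
section target
open Turing
variable {F : Type} [Field F]
/-- A quotient of a free algebra on a finite type by finitely many relations is finitely
presented. -/
theorem finPres_of {X R : Type} [Fintype X] [Fintype R] (l r : R → FreeAlgebra F X) :
    FinPres F (RingQuot (fun p q : FreeAlgebra F X => ∃ i, p = l i ∧ q = r i)) := by
  classical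
  obtain ⟨e⟩ : Nonempty (X ≃ Fin (Fintype.card X)) := ⟨Fintype.equivFin X⟩
  obtain ⟨φ, hφ⟩ : ∃ φ : FreeAlgebra F X →ₐ[F] FreeAlgebra F (Fin (Fintype.card X)),
      ∀ x, φ (FreeAlgebra.ι F x) = FreeAlgebra.ι F (e x) :=
    ⟨FreeAlgebra.lift F (fun x => FreeAlgebra.ι F (e x)), fun x => FreeAlgebra.lift_ι_apply _ _⟩
  obtain ⟨ψ, hψ⟩ : ∃ ψ : FreeAlgebra F (Fin (Fintype.card X)) →ₐ[F] FreeAlgebra F X,
      ∀ x, ψ (FreeAlgebra.ι F x) = FreeAlgebra.ι F (e.symm x) :=
    ⟨FreeAlgebra.lift F (fun x => FreeAlgebra.ι F (e.symm x)), fun x => FreeAlgebra.lift_ι_apply _ _⟩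
  have hψφ : ∀ p, ψ (φ p) = p := by
    intro p
    have : ψ.comp φ = AlgHom.id F _ := by
      apply FreeAlgebra.hom_ext
      funext x
      simp [hφ, hψ]
    exact DFunLike.congr_fun this p
  have hφψ : ∀ p, φ (ψ p) = p := by
    intro p
    have : φ.comp ψ = AlgHom.id F _ := by
      apply FreeAlgebra.hom_ext
      funext x
      simp [hφ, hψ]
    exact DFunLike.congr_fun this p
  obtain ⟨R', hR'⟩ : ∃ R' : Finset (FreeAlgebra F (Fin (Fintype.card X))),
      R' = Finset.univ.image (fun i : R => φ (l i - r i)) := ⟨_, rfl⟩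
  refine ⟨Fintype.card X, R', ⟨?_⟩⟩
  have h1 : ∀ ⦃x y : FreeAlgebra F X⦄, (∃ i, x = l i ∧ y = r i) →
      ((RingQuot.mkAlgHom F (fun p q : FreeAlgebra F (Fin (Fintype.card X)) => p ∈ R' ∧ q = 0)).comp φ) x =
      ((RingQuot.mkAlgHom F (fun p q : FreeAlgebra F (Fin (Fintype.card X)) => p ∈ R' ∧ q = 0)).comp φ) y := by
    rintro x y ⟨i, rfl, rfl⟩
    have h2 : φ (l i - r i) ∈ R' := by
      rw [hR']
      exact Finset.mem_image.2 ⟨i, Finset.mem_univ _, rfl⟩
    have h3 := RingQuot.mkAlgHom_rel F (s := fun p q : FreeAlgebra F (Fin (Fintype.card X)) => p ∈ R' ∧ q = 0)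
      (show φ (l i - r i) ∈ R' ∧ (0 : FreeAlgebra F (Fin (Fintype.card X))) = 0 from ⟨h2, rfl⟩)
    rw [map_zero, map_sub, map_sub, sub_eq_zero] at h3
    exact h3
  have h2 : ∀ ⦃x y : FreeAlgebra F (Fin (Fintype.card X))⦄, (x ∈ R' ∧ y = 0) →
      ((RingQuot.mkAlgHom F (fun p q : FreeAlgebra F X => ∃ i, p = l i ∧ q = r i)).comp ψ) x =
      ((RingQuot.mkAlgHom F (fun p q : FreeAlgebra F X => ∃ i, p = l i ∧ q = r i)).comp ψ) y := by
    rintro x y ⟨hx, rfl⟩
    rw [hR', Finset.mem_image] at hx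
    obtain ⟨i, -, rfl⟩ := hx
    have h3 := RingQuot.mkAlgHom_rel F (s := fun p q : FreeAlgebra F X => ∃ i, p = l i ∧ q = r i)
      (show ∃ j, l i = l j ∧ r i = r j from ⟨i, rfl, rfl⟩)
    rw [map_zero, AlgHom.comp_apply, hψφ, map_sub, h3, sub_self]
  refine AlgEquiv.ofAlgHom (RingQuot.liftAlgHom F ⟨_, h1⟩) (RingQuot.liftAlgHom F ⟨_, h2⟩) ?_ ?_
  · apply RingQuot.ringQuot_ext'
    ext x
    simp only [Function.comp_apply, AlgHom.comp_apply, RingQuot.liftAlgHom_mkAlgHom_apply, hφψ, AlgHom.id_apply,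
      AlgHom.coe_comp]
  · apply RingQuot.ringQuot_ext'
    ext x
    simp only [Function.comp_apply, AlgHom.comp_apply, RingQuot.liftAlgHom_mkAlgHom_apply, hψφ, AlgHom.id_apply,
      AlgHom.coe_comp]


end target

end Pool.SF
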