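import Pool.Agent.Helper702.SF.MachD

set_option autoImplicit false
set_option linter.unusedSectionVars false

namespace Pool.SF
section target
open Turing
variable {A G Γ Λ : Type} [Ring A] [Fintype G] [DecidableEq G] [Fintype Γ]
  [DecidableEq Γ] [Inhabited Γ] [Fintype Λ] [DecidableEq Λ] [Inhabited Λ]
omit [Fintype G] [DecidableEq G] [Fintype Γ] [DecidableEq Γ] [Inhabited Γ] [Fintype Λ]
  [DecidableEq Λ] [Inhabited Λ] in
lemma ps_vec_mv (a : G → A) (z : A) (hz : ∀ g, Commute (a g) z) (w : List (G ⊕ Bool)) :
    Commute (mv a w) z := by
  induction w with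
  | nil => exact Commute.one_left z
  | cons l w ih =>
    cases l with
    | inl g => exact (hz g).mul_left ih
    | inr b => exact Commute.one_left z

omit [Fintype G] [DecidableEq G] [Fintype Γ] [DecidableEq Γ] [Inhabited Γ] [Fintype Λ]
  [DecidableEq Λ] [Inhabited Λ] in
lemma ps_vec_sv (a : G → A) (z : A) (hz : ∀ g, Commute (a g) z) (w : List (G ⊕ Bool)) :
    Commute (sv a w) z := by
  induction w with
  | nil => exact Commute.zero_left z
  | cons l w ih =>
    cases l with
    | inl g => exact ih
    | inr b =>
      refine ih.add_left ?_
      cases b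
      · exact (ps_vec_mv a z hz w).neg_left
      · exact ps_vec_mv a z hz w

omit [Fintype G] [DecidableEq G] [Fintype Γ] [DecidableEq Γ] [Inhabited Γ] [Fintype Λ]
  [DecidableEq Λ] [Inhabited Λ] in
lemma ps_vec_wd {K : Type} (u : K → A) (z : A) (hz : ∀ j, Commute (u j) z) (J : List K) :
    Commute (wd u J) z := by
  unfold wd
  refine Commute.list_prod_left _ _ fun v hv => ?_
  rw [List.mem_map] at hv
  obtain ⟨j, _, rfl⟩ := hv
  exact hz j

/-- The output of a configuration. -/
theorem ps_vec (M : TM0.Machine Γ Λ) (cd : G ⊕ Bool → List Γ)
    (a : G → A) (x x' t t' : KK G Γ Λ → A) (h : MH a x x' t t') (c : Cf G Γ Λ) :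
    ∑ s, mps M x x' s * vec cd a x t c s = outp M a x t c := by
  cases c with
  | sp w =>
    rw [Finset.sum_eq_zero]
    · rfl
    · intro s _
      cases s <;> simp [mps, vec]
  | dead =>
    rw [Finset.sum_eq_zero]
    · rfl
    · intro s _
      cases s <;> simp [vec]
  | rn w l L R =>
    rw [Finset.sum_eq_single (Stt.q l)]
    · have hv : vec cd a x t (.rn w l L R) (.q l) =
          wd t (L.map sy' ++ [bz']) * sv a w * wd x (R.map sy' ++ [bz']) := by
        simp [vec]
      rw [hv]
      have hm : mps M x x' (.q l) = ∑ g : Γ, (match M l g with
        | some _ => 0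
        | none => x (sy' g) * x' (sy' g)) := rfl
      rw [hm, Finset.sum_mul]
      have hP : ∀ g, Commute (x (sy' g) * x' (sy' g)) (wd t (L.map sy' ++ [bz']) * sv a w) := by
        intro g
        have h1 : Commute (wd t (L.map sy' ++ [bz'])) (x (sy' g) * x' (sy' g)) :=
          ps_vec_wd t _ (fun j => (h.tx j _).mul_right (h.tx' j _)) _
        have h2 : Commute (sv a w) (x (sy' g) * x' (sy' g)) :=
          ps_vec_sv a _ (fun g' => (h.ax g' _).mul_right (h.ax' g' _)) _
        exact (h1.mul_left h2).symm
      have key : ∀ g, (x (sy' g) * x' (sy' g)) *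
          (wd t (L.map sy' ++ [bz']) * sv a w * wd x (R.map sy' ++ [bz'])) =
          wd t (L.map sy' ++ [bz']) * sv a w *
            (x (sy' g) * (x' (sy' g) * wd x (R.map sy' ++ [bz']))) := by
        intro g
        rw [← mul_assoc, (hP g).eq]
        simp only [mul_assoc]
      cases R with
      | nil =>
        rw [Finset.sum_eq_zero]
        · rfl
        · intro g _
          cases hM : M l g with
          | some p => simp
          | none =>
            simp only
            rw [key g]
            have h1 : wd x (([] : List Γ).map (sy' (G := G) (Λ := Λ)) ++ [bz']) = x bz' := by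
              simp [wd]
            have h2 : x' (sy' g) * x bz' = 0 := by
              rw [h.xx]
              rw [if_neg]
              intro h3
              simp [sy', bz'] at h3
            rw [h1, h2, mul_zero, mul_zero]
      | cons r R =>
        have hx1 : wd x ((r :: R).map (sy' (G := G) (Λ := Λ)) ++ [bz']) =
            x (sy' r) * wd x (R.map sy' ++ [bz']) := by
          simp [wd]
        have hsy : ∀ g, g ≠ r → x' (sy' g) * x (sy' r) = 0 := by
          intro g hg
          rw [h.xx, if_neg]
          intro h3
          apply hg
          simpa [sy'] using h3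
        have hsy1 : x' (sy' r) * x (sy' r) = 1 := by
          rw [h.xx, if_pos rfl]
        rw [Finset.sum_eq_single r]
        · cases hM : M l r with
          | some p => simp [outp, hM]
          | none =>
            simp only [outp, hM]
            rw [key r, hx1, ← mul_assoc (x' (sy' r)), hsy1, one_mul]
        · intro g _ hg
          cases hM : M l g with
          | some p => simp
          | none =>
            simp only
            rw [key g, hx1, ← mul_assoc (x' (sy' g)), hsy g hg, zero_mul, mul_zero, mul_zero]
        · intro h1; exact absurd (Finset.mem_univ _) h1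
    · intro s _ hs
      cases s with
      | q l' =>
        have : l' ≠ l := fun h1 => hs (by rw [h1])
        simp [vec, this]
      | _ => simp [vec]
    · intro h1; exact absurd (Finset.mem_univ _) h1

end target

end Pool.SF
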