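import Pool.Agent.Helper702.SF.MachD

set_option autoImplicit false
set_option linter.unusedSectionVars false

namespace Pool.SF
section target
open Turing
variable {A G Γ Λ : Type} [Ring A] [Fintype G] [DecidableEq G] [Fintype Γ]
  [DecidableEq Γ] [Inhabited Γ] [Fintype Λ] [DecidableEq Λ] [Inhabited Λ]
theorem vn_sum (f : Stt Λ → A) : ∑ s, f s = f .c + f .d + f .e + ∑ l, f (.q l) := by
  have h : (Finset.univ : Finset (Stt Λ)) =
      insert .c (insert .d (insert .e (Finset.univ.image Stt.q))) := by
    ext s
    cases s <;> simp
  rw [h, Finset.sum_insert (by simp), Finset.sum_insert (by simp), Finset.sum_insert (by simp),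
    Finset.sum_image (by intro x _ y _ hxy; exact Stt.q.inj hxy)]
  rw [add_assoc, add_assoc]

theorem vn_cons {K : Type} (u : K → A) (i : K) (W : List K) : wd u (i :: W) = u i * wd u W := by
  simp [wd]

theorem vn_app {K : Type} (u : K → A) (U V : List K) : wd u (U ++ V) = wd u U * wd u V := by
  simp [wd]

theorem vn_nil {K : Type} (u : K → A) : wd u [] = 1 := by simp [wd]

theorem vn_orth {K : Type} [DecidableEq K] {u u' : K → A} (h : Orth u u') (i j : K) (W : List K) :
    u' i * wd u (j :: W) = if i = j then wd u W else 0 := by
  rw [vn_cons, ← mul_assoc, h i j]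
  split_ifs <;> simp

theorem vn_cw {K : Type} {u : K → A} (b : A) (hb : ∀ j, Commute b (u j)) (W : List K) :
    Commute b (wd u W) := by
  unfold wd
  refine Commute.list_prod_right _ _ ?_
  intro y hy
  obtain ⟨j, _, rfl⟩ := List.mem_map.1 hy
  exact hb j

theorem vn_mv {G : Type} {a : G → A} {y : A} (hy : ∀ g, Commute (a g) y) :
    ∀ w : List (G ⊕ Bool), Commute (mv a w) y
  | [] => Commute.one_left _
  | .inl g :: w => (hy g).mul_left (vn_mv hy w)
  | .inr _ :: _ => Commute.one_left _

theorem vn_sv {G : Type} {a : G → A} {y : A} (hy : ∀ g, Commute (a g) y) :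
    ∀ w : List (G ⊕ Bool), Commute (sv a w) y
  | [] => Commute.zero_left _
  | .inl g :: w => vn_sv hy w
  | .inr b :: w => by
    have h1 := vn_sv hy w
    have h2 := vn_mv hy w
    show Commute (sv a w + (if b then mv a w else -mv a w)) y
    cases b
    · exact h1.add_left h2.neg_left
    · exact h1.add_left h2

theorem vn_P {a : G → A} {x x' t t' : KK G Γ Λ → A} (h : MH a x x' t t') (w : List (G ⊕ Bool))
    (W : List (KK G Γ Λ)) : (∀ j, Commute (wd t W * sv a w) (x j)) ∧
      (∀ j, Commute (wd t W * sv a w) (x' j)) := by
  constructor
  · intro j
    refine Commute.mul_left ?_ (vn_sv (fun g => h.ax g j) w)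
    exact (vn_cw _ (fun i => (h.tx i j).symm) W).symm
  · intro j
    refine Commute.mul_left ?_ (vn_sv (fun g => h.ax' g j) w)
    exact (vn_cw _ (fun i => (h.tx' i j).symm) W).symm

theorem vn_sp (M : TM0.Machine Γ Λ) (cd : G ⊕ Bool → List Γ) (top : List Γ)
    (a : G → A) (x x' t t' : KK G Γ Λ → A) (h : MH a x x' t t') (c : Cf G Γ Λ) (l : G ⊕ Bool)
    (s' : Stt Λ) :
    ∑ s, mph M cd top a x x' t t' (.sp l) s s' * vec cd a x t c s =
      vec cd a x t (nxt M cd top c (.sp l)) s' := by
  rw [vn_sum]
  cases c with
  | dead => cases s' <;> simp [vec, nxt]
  | rn w l0 L R =>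
    cases l <;> cases s' <;> simp [vec, nxt, mph, smat]
  | sp w =>
    have hm : Commute (wd x ((cd l).map sy')) (mv a w) :=
      (vn_cw _ (fun j => vn_mv (fun g => h.ax g j) w) _).symm
    have hs : Commute (wd x ((cd l).map sy')) (sv a w) :=
      (vn_cw _ (fun j => vn_sv (fun g => h.ax g j) w) _).symm
    have ht : wd x ((tapeR cd (l :: w)).map sy' ++ [bz']) =
        wd x ((cd l).map sy') * wd x ((tapeR cd w).map sy' ++ [bz']) := by
      show wd x ((cd l ++ tapeR cd w).map sy' ++ [bz']) = _
      rw [List.map_append, List.append_assoc, vn_app]
    obtain ⟨C, hC⟩ : ∃ C, C = wd x ((cd l).map sy') := ⟨_, rfl⟩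
    obtain ⟨V, hV⟩ : ∃ V, V = wd x ((tapeR cd w).map sy' ++ [bz']) := ⟨_, rfl⟩
    rw [← hC] at hm hs ht
    rw [← hV] at ht
    cases s' with
    | q l' => cases l <;> simp [vec, nxt, mph, smat]
    | e =>
      cases l with
      | inl g =>
        simp only [vec, nxt, mph, smat, ← hC, ← hV, ht, zero_mul, zero_add, one_mul,
          Finset.sum_const_zero, add_zero]
      | inr b =>
        simp only [vec, nxt, mph, smat, ← hC, ← hV, ht, zero_mul, zero_add, one_mul,
          Finset.sum_const_zero, add_zero]
    | c =>
      cases l with
      | inl g =>
        simp only [vec, nxt, mph, smat, ← hC, ← hV, ht, zero_mul, zero_add, one_mul,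
          Finset.sum_const_zero, add_zero, mv]
        calc a g * C * (mv a w * V) = a g * (C * mv a w) * V := by noncomm_ring
          _ = a g * (mv a w * C) * V := by rw [hm.eq]
          _ = a g * mv a w * (C * V) := by noncomm_ring
      | inr b =>
        simp only [vec, nxt, mph, smat, ← hC, ← hV, ht, zero_mul, zero_add, one_mul,
          Finset.sum_const_zero, add_zero, mv]
    | d =>
      cases l with
      | inl g =>
        simp only [vec, nxt, mph, smat, ← hC, ← hV, ht, zero_mul, zero_add, one_mul,
          Finset.sum_const_zero, add_zero, sv]
        rw [← mul_assoc, hs.eq, mul_assoc]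
      | inr b =>
        simp only [vec, nxt, mph, smat, ← hC, ← hV, ht, zero_mul, zero_add, one_mul,
          Finset.sum_const_zero, add_zero, sv]
        have h1 : C * (mv a w * V) = mv a w * (C * V) := by rw [← mul_assoc, hm.eq, mul_assoc]
        have h2 : C * (sv a w * V) = sv a w * (C * V) := by rw [← mul_assoc, hs.eq, mul_assoc]
        cases b
        · simp only [Bool.false_eq_true, if_false]
          rw [mul_assoc, h1, h2]
          noncomm_ring
        · simp only [if_true, one_mul]
          rw [h1, h2]
          noncomm_ring

theorem vn_dol (M : TM0.Machine Γ Λ) (cd : G ⊕ Bool → List Γ) (top : List Γ)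
    (a : G → A) (x x' t t' : KK G Γ Λ → A) (h : MH a x x' t t') (c : Cf G Γ Λ)
    (s' : Stt Λ) :
    ∑ s, mph M cd top a x x' t t' .dol s s' * vec cd a x t c s =
      vec cd a x t (nxt M cd top c .dol) s' := by
  rw [vn_sum]
  cases c with
  | dead => cases s' <;> simp [vec, nxt]
  | rn w l0 L R => cases s' <;> simp [vec, nxt, mph]
  | sp w =>
    cases s' with
    | c => simp [vec, nxt, mph]
    | d => simp [vec, nxt, mph]
    | e => simp [vec, nxt, mph]
    | q l' =>
      have hs : Commute (wd x (top.map sy')) (sv a w) :=
        (vn_cw _ (fun j => vn_sv (fun g => h.ax g j) w) _).symm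
      simp only [vec, nxt, mph, zero_mul, zero_add, Finset.sum_const_zero, add_zero]
      by_cases hl : l' = default
      · have ht : wd x ((top ++ tapeR cd w).map sy' ++ [bz']) =
            wd x (top.map sy') * wd x ((tapeR cd w).map sy' ++ [bz']) := by
          rw [List.map_append, List.append_assoc, vn_app]
        have hz : wd t (([] : List Γ).map sy' ++ [bz']) = t (bz' : KK G Γ Λ) := by
          rw [List.map_nil, List.nil_append, vn_cons, vn_nil, mul_one]
        rw [if_pos hl, if_pos hl, ht, hz]
        obtain ⟨C, hC⟩ : ∃ C, C = wd x (top.map sy') := ⟨_, rfl⟩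
        obtain ⟨V, hV⟩ : ∃ V, V = wd x ((tapeR cd w).map sy' ++ [bz']) := ⟨_, rfl⟩
        rw [← hC] at hs
        rw [← hC, ← hV]
        calc t bz' * C * (sv a w * V) = t bz' * (C * sv a w) * V := by noncomm_ring
          _ = t bz' * (sv a w * C) * V := by rw [hs.eq]
          _ = _ := by noncomm_ring
      · rw [if_neg hl, if_neg hl, zero_mul]

theorem vn_blT (M : TM0.Machine Γ Λ) (cd : G ⊕ Bool → List Γ) (top : List Γ)
    (a : G → A) (x x' t t' : KK G Γ Λ → A) (h : MH a x x' t t') (c : Cf G Γ Λ)
    (s' : Stt Λ) :
    ∑ s, mph M cd top a x x' t t' .blT s s' * vec cd a x t c s =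
      vec cd a x t (nxt M cd top c .blT) s' := by
  rw [vn_sum]
  cases c with
  | dead => cases s' <;> simp [vec, nxt]
  | sp w => cases s' <;> simp [vec, nxt, mph]
  | rn w l0 L R =>
    have hV : vec cd a x t (.rn w l0 L R) .c = 0 ∧ vec cd a x t (.rn w l0 L R) .d = 0 ∧
      vec cd a x t (.rn w l0 L R) .e = 0 := ⟨rfl, rfl, rfl⟩
    rw [hV.1, hV.2.1, hV.2.2]
    cases s' with
    | c => cases L <;> simp [vec, nxt, mph]
    | d => cases L <;> simp [vec, nxt, mph]
    | e => cases L <;> simp [vec, nxt, mph]
    | q l' =>
      have h1 : ∑ l, mph M cd top a x x' t t' .blT (.q l) (.q l') *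
          vec cd a x t (.rn w l0 L R) (.q l) =
          if l' = l0 then t (sy' default) * t bz' * (t' bz' * (wd t (L.map sy' ++ [bz']) * sv a w *
            wd x (R.map sy' ++ [bz']))) else 0 := by
        rw [Finset.sum_eq_single l']
        · simp only [vec, mph]
          rw [if_pos trivial]
          split_ifs
          · noncomm_ring
          · rw [mul_zero]
        · intro l _ hl
          simp only [vec, mph]
          rw [if_neg hl, zero_mul]
        · intro hl
          exact absurd (Finset.mem_univ _) hl
      rw [h1]
      cases L with
      | nil =>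
        have h2 : t' bz' * wd t (([] : List Γ).map sy' ++ [bz']) = 1 := by
          rw [List.map_nil, List.nil_append, vn_orth h.tt, if_pos rfl, vn_nil]
        simp only [vec, nxt, mul_zero, add_zero, zero_add]
        split_ifs
        · rw [← mul_assoc (t' bz'), ← mul_assoc (t' bz'), h2, one_mul]
          have h3 : wd t ([default].map sy' ++ [bz']) = t (sy' default) * t (bz' : KK G Γ Λ) := by
            simp [wd]
          rw [h3]
          noncomm_ring
        · rfl
      | cons g L =>
        have h2 : t' bz' * wd t ((g :: L).map sy' ++ [bz']) = 0 := by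
          rw [List.map_cons, List.cons_append, vn_orth h.tt, if_neg]
          intro hc
          simp [sy', bz'] at hc
        simp only [vec, nxt, mul_zero, add_zero, zero_add]
        rw [← mul_assoc (t' bz'), ← mul_assoc (t' bz'), h2, zero_mul, zero_mul, mul_zero, ite_self]

theorem vn_blX (M : TM0.Machine Γ Λ) (cd : G ⊕ Bool → List Γ) (top : List Γ)
    (a : G → A) (x x' t t' : KK G Γ Λ → A) (h : MH a x x' t t') (c : Cf G Γ Λ)
    (s' : Stt Λ) :
    ∑ s, mph M cd top a x x' t t' .blX s s' * vec cd a x t c s =
      vec cd a x t (nxt M cd top c .blX) s' := by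
  rw [vn_sum]
  cases c with
  | dead => cases s' <;> simp [vec, nxt]
  | sp w => cases s' <;> simp [vec, nxt, mph]
  | rn w l0 L R =>
    have hV : vec cd a x t (.rn w l0 L R) .c = 0 ∧ vec cd a x t (.rn w l0 L R) .d = 0 ∧
      vec cd a x t (.rn w l0 L R) .e = 0 := ⟨rfl, rfl, rfl⟩
    rw [hV.1, hV.2.1, hV.2.2]
    cases s' with
    | c => cases R <;> simp [vec, nxt, mph]
    | d => cases R <;> simp [vec, nxt, mph]
    | e => cases R <;> simp [vec, nxt, mph]
    | q l' =>
      obtain ⟨hP, hP'⟩ := vn_P h w (L.map sy' ++ [bz'])
      have h1 : ∑ l, mph M cd top a x x' t t' .blX (.q l) (.q l') *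
          vec cd a x t (.rn w l0 L R) (.q l) =
          if l' = l0 then (wd t (L.map sy' ++ [bz']) * sv a w) * (x (sy' default) * x bz' * (x' bz' *
            wd x (R.map sy' ++ [bz']))) else 0 := by
        rw [Finset.sum_eq_single l']
        · simp only [vec, mph]
          rw [if_pos trivial]
          split_ifs
          · have h2 : Commute (wd t (L.map sy' ++ [bz']) * sv a w) (x (sy' default) * x bz' * x' bz') :=
              ((hP _).mul_right (hP _)).mul_right (hP' _)
            rw [← mul_assoc, ← h2.eq]
            noncomm_ring
          · rw [mul_zero]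
        · intro l _ hl
          simp only [vec, mph]
          rw [if_neg hl, zero_mul]
        · intro hl
          exact absurd (Finset.mem_univ _) hl
      rw [h1]
      cases R with
      | nil =>
        have h2 : x' bz' * wd x (([] : List Γ).map sy' ++ [bz']) = 1 := by
          rw [List.map_nil, List.nil_append, vn_orth h.xx, if_pos rfl, vn_nil]
        simp only [vec, nxt, mul_zero, add_zero, zero_add]
        split_ifs
        · rw [h2, mul_one]
          have h3 : wd x ([default].map sy' ++ [bz']) = x (sy' default) * x (bz' : KK G Γ Λ) := by
            simp [wd]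
          rw [h3]
        · rfl
      | cons g R =>
        have h2 : x' bz' * wd x ((g :: R).map sy' ++ [bz']) = 0 := by
          rw [List.map_cons, List.cons_append, vn_orth h.xx, if_neg]
          intro hc
          simp [sy', bz'] at hc
        simp only [vec, nxt, mul_zero, add_zero, zero_add]
        rw [h2, mul_zero, mul_zero, ite_self]

/-- the reduced instruction -/
theorem vn_mop (cd : G ⊕ Bool → List Γ) (a : G → A) (x x' t t' : KK G Γ Λ → A)
    (h : MH a x x' t t') (w : List (G ⊕ Bool)) (L R : List Γ) (st : TM0.Stmt Γ) (g : Γ)
    (l'' l' : Λ) :
    mop x x' t t' st g * (wd t (L.map sy' ++ [bz']) * sv a w * wd x (R.map sy' ++ [bz'])) =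
      match R with
      | [] => 0
      | g0 :: R' => if g = g0 then (match st with
        | .move .right => wd t ((g :: L).map sy' ++ [bz']) * sv a w * wd x (R'.map sy' ++ [bz'])
        | .write b => wd t (L.map sy' ++ [bz']) * sv a w * wd x ((b :: R').map sy' ++ [bz'])
        | .move .left => match L with
          | [] => 0
          | h0 :: L' => wd t (L'.map sy' ++ [bz']) * sv a w *
              wd x ((h0 :: g :: R').map sy' ++ [bz'])) else 0 := by
  obtain ⟨hP, hP'⟩ := vn_P h w (L.map sy' ++ [bz'])
  have hx' : x' (sy' g) * (wd t (L.map sy' ++ [bz']) * sv a w * wd x (R.map sy' ++ [bz'])) =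
      match R with
      | [] => 0
      | g0 :: R' => if g = g0 then
          wd t (L.map sy' ++ [bz']) * sv a w * wd x (R'.map sy' ++ [bz']) else 0 := by
    rw [← mul_assoc, ← (hP' (sy' g)).eq, mul_assoc]
    cases R with
    | nil =>
      rw [List.map_nil, List.nil_append, vn_orth h.xx, if_neg, mul_zero]
      intro hc
      simp [sy', bz'] at hc
    | cons g0 R' =>
      rw [List.map_cons, List.cons_append, vn_orth h.xx]
      have h2 : ((sy' g : KK G Γ Λ) = sy' g0) ↔ g = g0 := by simp [sy']
      simp only [h2]
      split_ifs
      · rfl
      · rw [mul_zero]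
  cases R with
  | nil =>
    simp only at hx' ⊢
    cases st with
    | move d => cases d <;> simp only [mop, mul_assoc] <;> simp only [mul_assoc] at hx' <;>
        simp only [hx', mul_zero]
    | write b => simp only [mop]; rw [mul_assoc, hx', mul_zero]
  | cons g0 R' =>
    simp only at hx' ⊢
    by_cases hg : g = g0
    · rw [if_pos hg] at hx' ⊢
      subst hg
      cases st with
      | write b =>
        simp only [mop]
        rw [mul_assoc, hx', ← mul_assoc, ← (hP (sy' b)).eq, List.map_cons, List.cons_append,
          vn_cons]
        noncomm_ring
      | move d =>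
        cases d with
        | right =>
          simp only [mop]
          rw [mul_assoc, hx', List.map_cons, List.cons_append, vn_cons]
          noncomm_ring
        | left =>
          simp only [mop]
          rw [mul_assoc, mul_assoc, hx', Finset.sum_mul]
          have hq : ∀ q : Γ, x (sy' q) * t' (sy' q) * (x (sy' g) *
              (wd t (L.map sy' ++ [bz']) * sv a w * wd x (R'.map sy' ++ [bz']))) =
              x (sy' q) * (x (sy' g) * ((t' (sy' q) * wd t (L.map sy' ++ [bz'])) * (sv a w *
                wd x (R'.map sy' ++ [bz'])))) := by
            intro q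
            calc _ = x (sy' q) * ((t' (sy' q) * x (sy' g)) *
                (wd t (L.map sy' ++ [bz']) * sv a w * wd x (R'.map sy' ++ [bz']))) := by
                  noncomm_ring
              _ = x (sy' q) * ((x (sy' g) * t' (sy' q)) *
                (wd t (L.map sy' ++ [bz']) * sv a w * wd x (R'.map sy' ++ [bz']))) := by
                  rw [(h.t'x _ _).eq]
              _ = _ := by noncomm_ring
          rw [Finset.sum_congr rfl fun q _ => hq q]
          cases L with
          | nil =>
            simp only
            refine Finset.sum_eq_zero fun q _ => ?_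
            rw [List.map_nil, List.nil_append, vn_orth h.tt, if_neg, zero_mul, mul_zero, mul_zero]
            intro hc
            simp [sy', bz'] at hc
          | cons h0 L' =>
            simp only
            rw [Finset.sum_eq_single h0]
            · rw [List.map_cons, List.cons_append, vn_orth h.tt, if_pos rfl]
              obtain ⟨hQ, _⟩ := vn_P h w (L'.map sy' ++ [bz'])
              rw [List.map_cons, List.map_cons, List.cons_append, List.cons_append, vn_cons,
                vn_cons]
              have h5 : Commute (wd t (L'.map sy' ++ [bz']) * sv a w) (x (sy' h0) * x (sy' g)) :=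
                (hQ _).mul_right (hQ _)
              calc _ = (x (sy' h0) * x (sy' g)) * (wd t (L'.map sy' ++ [bz']) * sv a w) *
                    wd x (R'.map sy' ++ [bz']) := by noncomm_ring
                _ = (wd t (L'.map sy' ++ [bz']) * sv a w) * (x (sy' h0) * x (sy' g)) *
                    wd x (R'.map sy' ++ [bz']) := by rw [h5.eq]
                _ = _ := by noncomm_ring
            · intro q _ hq0
              rw [List.map_cons, List.cons_append, vn_orth h.tt, if_neg, zero_mul, mul_zero, mul_zero]
              intro hc
              simp [sy'] at hc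
              exact hq0 hc
            · intro hc
              exact absurd (Finset.mem_univ _) hc
    · rw [if_neg hg] at hx' ⊢
      cases st with
      | move d => cases d <;> simp only [mop, mul_assoc] <;> simp only [mul_assoc] at hx' <;>
          simp only [hx', mul_zero]
      | write b => simp only [mop]; rw [mul_assoc, hx', mul_zero]

theorem vn_stp (M : TM0.Machine Γ Λ) (cd : G ⊕ Bool → List Γ) (top : List Γ)
    (a : G → A) (x x' t t' : KK G Γ Λ → A) (h : MH a x x' t t') (c : Cf G Γ Λ)
    (s' : Stt Λ) :
    ∑ s, mph M cd top a x x' t t' .stp s s' * vec cd a x t c s =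
      vec cd a x t (nxt M cd top c .stp) s' := by
  rw [vn_sum]
  cases c with
  | dead => cases s' <;> simp [vec, nxt]
  | sp w => cases s' <;> simp [vec, nxt, mph]
  | rn w l0 L R =>
    have hV : vec cd a x t (.rn w l0 L R) .c = 0 ∧ vec cd a x t (.rn w l0 L R) .d = 0 ∧
      vec cd a x t (.rn w l0 L R) .e = 0 := ⟨rfl, rfl, rfl⟩
    rw [hV.1, hV.2.1, hV.2.2, mul_zero, mul_zero, mul_zero, zero_add, zero_add, zero_add]
    have hins : ∀ (g : Γ) (R' : List Γ) (o : Option (Λ × TM0.Stmt Γ)),
        vec cd a x t (ins w g L R' o) .c = 0 ∧ vec cd a x t (ins w g L R' o) .d = 0 ∧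
        vec cd a x t (ins w g L R' o) .e = 0 := by
      intro g R' o
      rcases o with _ | ⟨l1, st⟩
      · exact ⟨rfl, rfl, rfl⟩
      · cases st with
        | write b => exact ⟨rfl, rfl, rfl⟩
        | move d =>
          cases d with
          | right => exact ⟨rfl, rfl, rfl⟩
          | left => cases L <;> exact ⟨rfl, rfl, rfl⟩
    cases s' with
    | c =>
      cases R with
      | nil => simp [vec, nxt, mph]
      | cons g R =>
        simp only [nxt]
        rw [(hins g R _).1]
        exact Finset.sum_eq_zero fun l _ => by simp [mph]
    | d =>
      cases R with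
      | nil => simp [vec, nxt, mph]
      | cons g R =>
        simp only [nxt]
        rw [(hins g R _).2.1]
        exact Finset.sum_eq_zero fun l _ => by simp [mph]
    | e =>
      cases R with
      | nil => simp [vec, nxt, mph]
      | cons g R =>
        simp only [nxt]
        rw [(hins g R _).2.2]
        exact Finset.sum_eq_zero fun l _ => by simp [mph]
    | q l' =>
      rw [Finset.sum_eq_single l0]
      · have h0 : vec cd a x t (.rn w l0 L R) (.q l0) =
            wd t (L.map sy' ++ [bz']) * sv a w * wd x (R.map sy' ++ [bz']) := by
          show (if l0 = l0 then _ else _) = _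
          rw [if_pos rfl]
        rw [h0]
        simp only [mph]
        rw [Finset.sum_mul]
        cases R with
        | nil =>
          have hn : nxt M cd top (.rn w l0 L []) .stp = .dead := by simp [nxt]
          rw [hn]
          show _ = (0 : A)
          refine Finset.sum_eq_zero fun g _ => ?_
          rcases hM : M l0 g with _ | ⟨l1, st⟩
          · simp only [zero_mul]
          · simp only
            split_ifs
            · exact vn_mop cd a x x' t t' h w L [] st g l1 l'
            · rw [zero_mul]
        | cons g0 R' =>
          rw [Finset.sum_eq_single g0]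
          · show _ = vec cd a x t (ins w g0 L R' (M l0 g0)) (.q l')
            rcases hM : M l0 g0 with _ | ⟨l1, st⟩
            · simp only [zero_mul]
              rfl
            · simp only
              by_cases hl : l1 = l'
              · rw [if_pos hl]
                have h1 := vn_mop cd a x x' t t' h w L (g0 :: R') st g0 l1 l'
                rw [h1]
                simp only [if_true]
                cases st with
                | write b =>
                  show _ = (if l' = l1 then _ else _)
                  rw [if_pos hl.symm]
                | move d =>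
                  cases d with
                  | right =>
                    show _ = (if l' = l1 then _ else _)
                    rw [if_pos hl.symm]
                  | left =>
                    cases L with
                    | nil => rfl
                    | cons h0 L' =>
                      show _ = (if l' = l1 then _ else _)
                      rw [if_pos hl.symm]
              · rw [if_neg hl, zero_mul]
                have hl' : ¬ l' = l1 := fun h => hl h.symm
                cases st with
                | write b =>
                  show _ = (if l' = l1 then _ else _)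
                  rw [if_neg hl']
                | move d =>
                  cases d with
                  | right =>
                    show _ = (if l' = l1 then _ else _)
                    rw [if_neg hl']
                  | left =>
                    cases L with
                    | nil => rfl
                    | cons h0 L' =>
                      show _ = (if l' = l1 then _ else _)
                      rw [if_neg hl']
          · intro g _ hg
            rcases hM : M l0 g with _ | ⟨l1, st⟩
            · simp only [zero_mul]
            · simp only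
              split_ifs
              · have h1 := vn_mop cd a x x' t t' h w L (g0 :: R') st g l1 l'
                rw [h1]
                simp only
                rw [if_neg hg]
              · rw [zero_mul]
          · intro hc
            exact absurd (Finset.mem_univ _) hc
      · intro l _ hl
        have h0 : vec cd a x t (.rn w l0 L R) (.q l) = 0 := by
          show (if l = l0 then _ else _) = _
          rw [if_neg hl]
        rw [h0, mul_zero]
      · intro hc
        exact absurd (Finset.mem_univ _) hc

/-- The vectors follow the abstract transitions. -/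
theorem vec_nxt (M : TM0.Machine Γ Λ) (cd : G ⊕ Bool → List Γ) (top : List Γ)
    (a : G → A) (x x' t t' : KK G Γ Λ → A) (h : MH a x x' t t') (c : Cf G Γ Λ) (i : Gl G)
    (s' : Stt Λ) :
    ∑ s, mph M cd top a x x' t t' i s s' * vec cd a x t c s = vec cd a x t (nxt M cd top c i) s' := by
  cases i with
  | sp l => exact vn_sp M cd top a x x' t t' h c l s'
  | dol => exact vn_dol M cd top a x x' t t' h c s'
  | stp => exact vn_stp M cd top a x x' t t' h c s'
  | blT => exact vn_blT M cd top a x x' t t' h c s'
  | blX => exact vn_blX M cd top a x x' t t' h c s'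

end target

end Pool.SF
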