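import Pool.Agent.Helper702.SF.MachD
import Pool.Agent.Helper702.SF.P_vec_nxt
import Pool.Agent.Helper702.SF.P_ps_vec

set_option autoImplicit false
set_option linter.unusedSectionVars false

namespace Pool.SF
section target
open Turing
variable {A G Γ Λ : Type} [Ring A] [Fintype G] [DecidableEq G] [Fintype Γ]
  [DecidableEq Γ] [Inhabited Γ] [Fintype Λ] [DecidableEq Λ] [Inhabited Λ]
theorem Vz_phv (M : TM0.Machine Γ Λ) (cd : G ⊕ Bool → List Γ) (top : List Γ)
    (a : G → A) (x x' t t' : KK G Γ Λ → A) (h : MH a x x' t t') (z : List (Gl G)) :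
    ∀ c : Cf G Γ Λ, phv (mph M cd top a x x' t t') z (vec cd a x t c) =
      vec cd a x t (z.foldl (nxt M cd top) c) := by
  induction z with
  | nil => intro c; rfl
  | cons i z ih =>
    intro c
    have h1 : (fun s' => ∑ s, mph M cd top a x x' t t' i s s' * vec cd a x t c s) =
        vec cd a x t (nxt M cd top c i) := by
      funext s'
      exact vec_nxt M cd top a x x' t t' h c i s'
    show phv (mph M cd top a x x' t t') z
      (fun s' => ∑ s, mph M cd top a x x' t t' i s s' * vec cd a x t c s) = _
    rw [h1, ih]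
    rfl

/-- The output for a word of guide letters. -/
theorem Vz_eq (M : TM0.Machine Γ Λ) (cd : G ⊕ Bool → List Γ) (top : List Γ)
    (a : G → A) (x x' t t' : KK G Γ Λ → A) (h : MH a x x' t t') (z : List (Gl G)) :
    Vz (mio x) (mps M x x') (mph M cd top a x x' t t') z =
      outp M a x t (z.foldl (nxt M cd top) (.sp [])) := by
  have h0 : mio x = vec cd a x t (.sp [] : Cf G Γ Λ) := by
    funext s
    cases s with
    | c => simp [mio, vec, mv, tapeR, wd]
    | d => simp [mio, vec, sv, tapeR, wd]
    | e => simp [mio, vec, tapeR, wd]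
    | q l => simp [mio, vec]
  unfold Vz
  rw [h0, Vz_phv M cd top a x x' t t' h z]
  exact ps_vec M cd a x x' t t' h _


end target

end Pool.SF
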