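import Pool.Agent.Helper702.SF.RepD

set_option autoImplicit false
set_option linter.unusedSectionVars false

namespace Pool.SF
section target
variable {A G I S E : Type} [Ring A] [Fintype G] [DecidableEq G] [Fintype I] [DecidableEq I]
  [Fintype S] [DecidableEq S] [Fintype E] [DecidableEq E]
theorem Vz_zero_wd {K B : Type} [Ring B] (u : K → B) (a : K) (L : List K) :
    wd u (a :: L) = u a * wd u L := by
  unfold wd; rw [List.map_cons, List.prod_cons]

theorem Vz_zero_wda {K B : Type} [Ring B] (u : K → B) (L L' : List K) :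
    wd u (L ++ L') = wd u L * wd u L' := by
  unfold wd; rw [List.map_append, List.prod_append]

theorem Vz_zero_wdn {K B : Type} [Ring B] (u : K → B) : wd u [] = 1 := by
  unfold wd; rfl

theorem Vz_zero_comm {K B : Type} [Ring B] (u : K → B) (b : B) (hb : ∀ i, Commute (u i) b)
    (L : List K) : Commute (wd u L) b := by
  induction L with
  | nil => rw [Vz_zero_wdn]; exact Commute.one_left b
  | cons a L ih => rw [Vz_zero_wd]; exact (hb a).mul_left ih

/-- The relation `R0 * y bot = 0` forces all outputs of the machine to vanish. -/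
theorem Vz_zero {N : ℕ} (idx : Kd G I S E ≃ Fin N) (e : El A G I S E)
    (h : ∀ r, lhs e r = rhs idx e r)
    (hio : ∀ q j, Commute (e.io q) (e.y j))
    (hph : ∀ i q q' j, Commute (e.ph i q q') (e.y j)) (z : List I) :
    Vz e.io e.ps e.ph z = 0 := by
  have hxy : ∀ i j, Commute (e.x i) (e.y j) := fun i j => h (.st .xy i j)
  have h0inp : ∀ i, e.R0 * e.x (.inp i) = e.R0 * e.y (.inp i) := fun i => h (.r0 (.inp i))
  have h0hash : e.R0 * e.x .hash = ∑ s, e.R s * e.io s := h (.r0 .hash)
  have h0y : e.R0 * e.y .bot = 0 := h .r0y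
  have hRinp : ∀ q i, e.R q * e.y (.inp i) = ∑ s', e.R s' * e.ph i q s' := fun q i => h (.r q (.inp i))
  have hRbot : ∀ q, e.R q * e.y .bot = e.ps q := fun q => h (.r q .bot)
  have step1 : ∀ w : List I, e.R0 * wd e.x (w.map Kd.inp) =
      e.R0 * wd e.y ((w.map Kd.inp).reverse) := by
    intro w
    induction w with
    | nil => simp [Vz_zero_wdn]
    | cons i w ih =>
      rw [List.map_cons, Vz_zero_wd, List.reverse_cons, Vz_zero_wda, Vz_zero_wd, Vz_zero_wdn, mul_one,
        ← mul_assoc, h0inp, mul_assoc,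
        ← (Vz_zero_comm e.x (e.y (.inp i)) (fun k => hxy k _) (w.map Kd.inp)).eq, ← mul_assoc, ih,
        mul_assoc]
  have hphv : ∀ (w : List I) (v : S → A), (∀ s j, Commute (v s) (e.y j)) →
      ∀ s j, Commute (phv e.ph w v s) (e.y j) := by
    intro w
    induction w with
    | nil => intro v hv; exact hv
    | cons i w ih =>
      intro v hv
      exact ih _ fun s j => Commute.sum_left _ _ _ fun s' _ => (hph i s' s j).mul_left (hv s' j)
  have step2 : ∀ (w : List I) (v : S → A), (∀ s j, Commute (v s) (e.y j)) →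
      (∑ s, e.R s * v s) * wd e.y (w.map Kd.inp) = ∑ s, e.R s * phv e.ph w v s := by
    intro w
    induction w with
    | nil => intro v hv; simp [Vz_zero_wdn, phv]
    | cons i w ih =>
      intro v hv
      rw [List.map_cons, Vz_zero_wd, ← mul_assoc]
      have e1 : (∑ s, e.R s * v s) * e.y (.inp i) =
          ∑ s', e.R s' * (∑ s, e.ph i s s' * v s) := by
        rw [Finset.sum_mul]
        have e2 : ∀ s, e.R s * v s * e.y (.inp i) = ∑ s', e.R s' * (e.ph i s s' * v s) := by
          intro s
          rw [mul_assoc, (hv s _).eq, ← mul_assoc, hRinp, Finset.sum_mul]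
          exact Finset.sum_congr rfl fun s' _ => by rw [mul_assoc]
        rw [Finset.sum_congr rfl fun s _ => e2 s, Finset.sum_comm]
        exact Finset.sum_congr rfl fun s' _ => by rw [Finset.mul_sum]
      rw [e1]
      exact ih _ fun s j => Commute.sum_left _ _ _ fun s' _ => (hph i s' s j).mul_left (hv s' j)
  have e3 : Vz e.io e.ps e.ph z = (∑ s, e.R s * phv e.ph z e.io s) * e.y .bot := by
    unfold Vz
    rw [Finset.sum_mul]
    refine Finset.sum_congr rfl fun s _ => ?_
    rw [mul_assoc, (hphv z e.io hio s .bot).eq, ← mul_assoc, hRbot]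
  rw [e3, ← step2 z e.io hio, ← h0hash]
  have e4 := step1 z.reverse
  rw [List.map_reverse, List.reverse_reverse] at e4
  have c1 : Commute (e.x .hash) (wd e.y (z.map Kd.inp) * e.y .bot) := by
    refine Commute.mul_right ?_ (hxy _ _)
    exact (Vz_zero_comm e.y (e.x .hash) (fun k => (hxy _ k).symm) _).symm
  calc e.R0 * e.x .hash * wd e.y (z.map Kd.inp) * e.y .bot
      = e.R0 * (e.x .hash * (wd e.y (z.map Kd.inp) * e.y .bot)) := by
        simp only [mul_assoc]
    _ = e.R0 * ((wd e.y (z.map Kd.inp) * e.y .bot) * e.x .hash) := by rw [c1.eq]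
    _ = (e.R0 * wd e.y (z.map Kd.inp)) * e.y .bot * e.x .hash := by simp only [mul_assoc]
    _ = (e.R0 * wd e.x ((z.map Kd.inp).reverse)) * e.y .bot * e.x .hash := by rw [e4]
    _ = e.R0 * (wd e.x ((z.map Kd.inp).reverse) * e.y .bot) * e.x .hash := by
        simp only [mul_assoc]
    _ = e.R0 * (e.y .bot * wd e.x ((z.map Kd.inp).reverse)) * e.x .hash := by
        rw [(Vz_zero_comm e.x (e.y .bot) (fun k => hxy k _) _).eq]
    _ = (e.R0 * e.y .bot) * wd e.x ((z.map Kd.inp).reverse) * e.x .hash := by
        simp only [mul_assoc]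
    _ = 0 := by rw [h0y, zero_mul, zero_mul]

end target

end Pool.SF
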