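import Pool.Agent.Helper702.SF.MainD

set_option autoImplicit false
set_option linter.unusedSectionVars false

namespace Pool.SF
section target
open Turing
variable {F : Type} [Field F]

variable {G Γ Λ : Type} [Fintype G] [DecidableEq G] [Fintype Γ]
  [DecidableEq Γ] [Inhabited Γ] [Fintype Λ] [DecidableEq Λ] [Inhabited Λ]
/-- Polynomials in the generators `a` commute with the stacks. -/
theorem comm_t {A : Type} [Ring A] [Algebra F A] (a : G → A) (z : A)
    (h : ∀ g, Commute (a g) z) (p : FreeAlgebra F G) : Commute (FreeAlgebra.lift F a p) z := by
  induction p using FreeAlgebra.induction with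
  | grade0 r =>
    rw [AlgHom.commutes]
    exact Algebra.commutes r z
  | grade1 x =>
    rw [FreeAlgebra.lift_ι_apply]
    exact h x
  | mul p q hp hq =>
    rw [map_mul]
    exact hp.mul_left hq
  | add p q hp hq =>
    rw [map_add]
    exact hp.add_left hq

end target

end Pool.SF
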