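import Pool.Agent.Helper702.SF.MachD

set_option autoImplicit false
set_option linter.unusedSectionVars false

namespace Pool.SF
section target0
open Turing
variable {A G Γ Λ : Type} [DecidableEq G] [Inhabited Γ] [Inhabited Λ]

theorem foldl_sp (M : TM0.Machine Γ Λ) (cd : G ⊕ Bool → List Γ) (top : List Γ)
    (l v : List (G ⊕ Bool)) :
    (l.map Gl.sp).foldl (nxt M cd top) (.sp v) = .sp (l.reverse ++ v) := by
  induction l generalizing v with
  | nil => rfl
  | cons a l ih =>
    rw [List.map_cons, List.foldl_cons]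
    have : nxt M cd top (.sp v) (.sp a) = .sp (a :: v) := rfl
    rw [this, ih]
    simp

theorem mk_default : ListBlank.mk [(default : Γ)] = ListBlank.mk [] :=
  Quotient.sound' (Or.inr ⟨1, rfl⟩)

/-- invariant -/
def Inv0 (M : TM0.Machine Γ Λ) (cd : G ⊕ Bool → List Γ) (top : List Γ)
    (w : List (G ⊕ Bool)) (c : TM0.Cfg Γ Λ) : Prop :=
  ∃ (z : List (Gl G)) (l : Λ) (L R : List Γ),
    z.foldl (nxt M cd top) (.sp []) = .rn w l L R ∧
      c = ⟨l, Tape.mk' (ListBlank.mk L) (ListBlank.mk R)⟩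

theorem Inv0.cons {M : TM0.Machine Γ Λ} {cd : G ⊕ Bool → List Γ} {top : List Γ}
    {w : List (G ⊕ Bool)} {c : TM0.Cfg Γ Λ} (h : Inv0 M cd top w c) :
    ∃ (z : List (Gl G)) (l : Λ) (L R : List Γ) (g : Γ),
      z.foldl (nxt M cd top) (.sp []) = .rn w l L (g :: R) ∧
      c = ⟨l, Tape.mk' (ListBlank.mk L) (ListBlank.mk (g :: R))⟩ := by
  obtain ⟨z, l, L, R, hz, hc⟩ := h
  cases R with
  | cons g R => exact ⟨z, l, L, R, g, hz, hc⟩
  | nil =>
    refine ⟨z ++ [.blX], l, L, [], default, ?_, ?_⟩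
    · rw [List.foldl_append, hz]
      cases L <;> rfl
    · rw [hc, mk_default]

theorem Inv0.consL {M : TM0.Machine Γ Λ} {cd : G ⊕ Bool → List Γ} {top : List Γ}
    {w : List (G ⊕ Bool)} {c : TM0.Cfg Γ Λ} (h : Inv0 M cd top w c) :
    ∃ (z : List (Gl G)) (l : Λ) (L R : List Γ) (g h : Γ),
      z.foldl (nxt M cd top) (.sp []) = .rn w l (h :: L) (g :: R) ∧
      c = ⟨l, Tape.mk' (ListBlank.mk (h :: L)) (ListBlank.mk (g :: R))⟩ := by
  obtain ⟨z, l, L, R, g, hz, hc⟩ := h.cons
  cases L with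
  | cons h L => exact ⟨z, l, L, R, g, h, hz, hc⟩
  | nil =>
    refine ⟨z ++ [.blT], l, [], R, g, default, ?_, ?_⟩
    · rw [List.foldl_append, hz]
      rfl
    · rw [hc, mk_default]

theorem Inv0.step {M : TM0.Machine Γ Λ} {cd : G ⊕ Bool → List Γ} {top : List Γ}
    {w : List (G ⊕ Bool)} {c c' : TM0.Cfg Γ Λ} (h : Inv0 M cd top w c)
    (hs : c' ∈ TM0.step M c) : Inv0 M cd top w c' := by
  obtain ⟨z, l, L, R, g, k, hz, hc⟩ := h.consL
  subst hc
  rw [TM0.step] at hs
  simp only [Tape.mk'_head, ListBlank.head_mk, List.headI_cons, Option.mem_def,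
    Option.map_eq_some_iff] at hs
  obtain ⟨⟨l', a⟩, hM, hs⟩ := hs
  subst hs
  refine ⟨z ++ [.stp], l', ?_⟩
  cases a with
  | move d =>
    cases d with
    | left =>
      refine ⟨L, k :: g :: R, ?_, ?_⟩
      · rw [List.foldl_append, hz]
        show nxt M cd top (.rn w l (k :: L) (g :: R)) .stp = _
        show ins w g (k :: L) R (M l g) = _
        rw [hM]
        rfl
      · simp only [Tape.move_left_mk', ListBlank.tail_mk, ListBlank.head_mk, ListBlank.cons_mk,
          List.tail_cons, List.headI_cons]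
    | right =>
      refine ⟨g :: k :: L, R, ?_, ?_⟩
      · rw [List.foldl_append, hz]
        show ins w g (k :: L) R (M l g) = _
        rw [hM]
        rfl
      · simp only [Tape.move_right_mk', ListBlank.tail_mk, ListBlank.head_mk, ListBlank.cons_mk,
          List.tail_cons, List.headI_cons]
  | write b =>
    refine ⟨k :: L, b :: R, ?_, ?_⟩
    · rw [List.foldl_append, hz]
      show ins w g (k :: L) R (M l g) = _
      rw [hM]
      rfl
    · simp only [Tape.write_mk', ListBlank.tail_mk, ListBlank.head_mk, ListBlank.cons_mk,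
        List.tail_cons, List.headI_cons]

theorem Inv0.init (M : TM0.Machine Γ Λ) (cd : G ⊕ Bool → List Γ) (top : List Γ)
    (w : List (G ⊕ Bool)) : Inv0 M cd top w (TM0.init (top ++ tapeR cd w)) := by
  refine ⟨(w.reverse.map .sp) ++ [.dol], default, [], top ++ tapeR cd w, ?_, rfl⟩
  rw [List.foldl_append, foldl_sp]
  simp only [List.reverse_reverse, List.append_nil]
  rfl

end target0

section target
open Turing
variable {A G Γ Λ : Type} [Ring A] [Fintype G] [DecidableEq G] [Fintype Γ]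
  [DecidableEq Γ] [Inhabited Γ] [Fintype Λ] [DecidableEq Λ] [Inhabited Λ]
theorem run_complete (M : TM0.Machine Γ Λ) (cd : G ⊕ Bool → List Γ) (top : List Γ)
    (w : List (G ⊕ Bool))
    (h : (StateTransition.eval (TM0.step M) (TM0.init (top ++ tapeR cd w))).Dom) :
    ∃ (z : List (Gl G)) (l : Λ) (L R : List Γ) (g : Γ),
      z.foldl (nxt M cd top) (.sp []) = .rn w l L (g :: R) ∧ M l g = none := by
  obtain ⟨b, hb⟩ := Part.dom_iff_mem.mp h
  obtain ⟨hr, hn⟩ := StateTransition.mem_eval.mp hb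
  have hgen : ∀ c, StateTransition.Reaches (TM0.step M) (TM0.init (top ++ tapeR cd w)) c →
      Inv0 M cd top w c := by
    intro c hc
    induction hc with
    | refl => exact Inv0.init M cd top w
    | tail h1 h2 ih => exact ih.step h2
  have hI := hgen b hr
  obtain ⟨z, l, L, R, g, hz, hc⟩ := hI.cons
  refine ⟨z, l, L, R, g, hz, ?_⟩
  subst hc
  rw [TM0.step] at hn
  simpa using hn

end target

end Pool.SF
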