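import Pool.Agent.Helper702.SF.SimpleD

set_option autoImplicit false

set_option linter.unusedSectionVars false

namespace Pool.SF
section target
variable {K B : Type} [DecidableEq K] [Ring B] {u u' : K → B}
theorem wd'_wd (h : Orth u u') (J : List K) : wd' u' J * wd u J = 1 := by
  induction J with
  | nil => simp [wd, wd']
  | cons j J ih =>
    have e1 : wd u (j :: J) = u j * wd u J := by simp [wd]
    have e2 : wd' u' (j :: J) = wd' u' J * u' j := by simp [wd']
    have e3 : u' j * u j = 1 := by rw [h j j]; simp
    calc wd' u' (j :: J) * wd u (j :: J) = wd' u' J * (u' j * u j) * wd u J := by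
          rw [e1, e2]; simp only [mul_assoc]
      _ = 1 := by rw [e3, mul_one, ih]

end target

end Pool.SF
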