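import Pool.Agent.Helper702.SF.SimpleD
import Pool.Agent.Helper702.SF.RepD
import Pool.Agent.Helper702.SF.MachD
import Pool.Agent.Helper702.SF.MainD
import Pool.Agent.Helper702.SF.PartID
import Pool.Agent.Helper702.SF.Main2D
import Pool.Agent.Helper702.SF.P_wdp_wd
import Pool.Agent.Helper702.SF.P_Vz_zero
import Pool.Agent.Helper702.SF.P_Vz_eq
import Pool.Agent.Helper702.SF.P_run_complete
import Pool.Agent.Helper702.SF.P_comm_t

set_option autoImplicit false
set_option linter.unusedSectionVars false

namespace Pool.SF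
section target
open Turing
variable {F : Type} [Field F] {G Γ Λ : Type} [Fintype G] [DecidableEq G] [Fintype Γ]
  [DecidableEq Γ] [Inhabited Γ] [Fintype Λ] [DecidableEq Λ] [Inhabited Λ]

theorem wd_comm0 {K A : Type} [Ring A] (u : K → A) (z : A) (h : ∀ j, Commute (u j) z)
    (J : List K) : Commute (wd u J) z := by
  induction J with
  | nil => simp [wd]
  | cons j J ih =>
    have : Commute (u j * wd u J) z := (h j).mul_left ih
    simpa [wd] using this

theorem sum_comm0 {K A : Type} [Ring A] [Fintype K] (u : K → A) (z : A)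
    (h : ∀ j, Commute (u j) z) : Commute (∑ j, u j) z :=
  Commute.sum_left _ _ _ (fun j _ => h j)

section mcomm
variable {A G Γ Λ : Type} [Ring A] [Fintype Γ] [DecidableEq Γ] [Inhabited Γ] [DecidableEq Λ]
  [Inhabited Λ]

theorem smat_comm (a : G → A) (z : A) (ha : ∀ g, Commute (a g) z) (l : G ⊕ Bool)
    (s s' : Stt Λ) : Commute (smat a l s s') z := by
  rcases l with g | b
  · rcases s with _ | _ | _ | l1 <;> rcases s' with _ | _ | _ | l2 <;>
      simp [smat, ha]
  · rcases s with _ | _ | _ | l1 <;> rcases s' with _ | _ | _ | l2 <;>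
      simp [smat]
    split_ifs <;> simp

theorem mop_comm (x x' t t' : KK G Γ Λ → A) (z : A) (hx : ∀ j, Commute (x j) z)
    (hx' : ∀ j, Commute (x' j) z) (ht : ∀ j, Commute (t j) z) (ht' : ∀ j, Commute (t' j) z)
    (st : Turing.TM0.Stmt Γ) (g : Γ) : Commute (mop x x' t t' st g) z := by
  rcases st with (_ | _) | b
  · exact (sum_comm0 _ z (fun h => (hx _).mul_left (ht' _))).mul_left ((hx _).mul_left (hx' _))
  · exact (ht _).mul_left (hx' _)
  · exact (hx _).mul_left (hx' _)

theorem mph_comm (M : Turing.TM0.Machine Γ Λ) (cd : G ⊕ Bool → List Γ) (top : List Γ)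
    (a : G → A) (x x' t t' : KK G Γ Λ → A) (z : A) (ha : ∀ g, Commute (a g) z)
    (hx : ∀ j, Commute (x j) z)
    (hx' : ∀ j, Commute (x' j) z) (ht : ∀ j, Commute (t j) z) (ht' : ∀ j, Commute (t' j) z)
    (i : Gl G) (s s' : Stt Λ) : Commute (mph M cd top a x x' t t' i s s') z := by
  rcases i with l | _ | _ | _ | _
  · exact (smat_comm a z ha l s s').mul_left (wd_comm0 x z hx _)
  · rcases s with _ | _ | _ | l1 <;> rcases s' with _ | _ | _ | l2 <;>
      simp only [mph, Commute.zero_left]
    split_ifs
    · exact (ht _).mul_left (wd_comm0 x z hx _)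
    · exact Commute.zero_left _
  · rcases s with _ | _ | _ | l1 <;> rcases s' with _ | _ | _ | l2 <;>
      simp only [mph, Commute.zero_left]
    refine sum_comm0 _ z (fun g => ?_)
    rcases M l1 g with _ | ⟨l3, st⟩
    · exact Commute.zero_left _
    · dsimp only
      split_ifs
      · exact mop_comm x x' t t' z hx hx' ht ht' st g
      · exact Commute.zero_left _
  · rcases s with _ | _ | _ | l1 <;> rcases s' with _ | _ | _ | l2 <;>
      simp only [mph, Commute.zero_left]
    split_ifs
    · exact ((ht _).mul_left (ht _)).mul_left (ht' _)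
    · exact Commute.zero_left _
  · rcases s with _ | _ | _ | l1 <;> rcases s' with _ | _ | _ | l2 <;>
      simp only [mph, Commute.zero_left]
    split_ifs
    · exact ((hx _).mul_left (hx _)).mul_left (hx' _)
    · exact Commute.zero_left _

theorem mio_comm (x : KK G Γ Λ → A) (z : A) (hx : ∀ j, Commute (x j) z) (s : Stt Λ) :
    Commute (mio x s) z := by
  rcases s with _ | _ | _ | l1
  · exact hx _
  · exact Commute.zero_left _
  · exact hx _
  · exact Commute.zero_left _

theorem mv_comm (a : G → A) (z : A) (ha : ∀ g, Commute (a g) z) (w : List (G ⊕ Bool)) :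
    Commute (mv a w) z := by
  induction w with
  | nil => exact Commute.one_left _
  | cons l w ih =>
    rcases l with g | b
    · exact (ha g).mul_left ih
    · exact Commute.one_left _

theorem sv_comm (a : G → A) (z : A) (ha : ∀ g, Commute (a g) z) (w : List (G ⊕ Bool)) :
    Commute (sv a w) z := by
  induction w with
  | nil => exact Commute.zero_left _
  | cons l w ih =>
    rcases l with g | b
    · exact ih
    · simp only [sv]
      refine ih.add_left ?_
      split_ifs
      · exact mv_comm a z ha w
      · exact (mv_comm a z ha w).neg_left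

end mcomm

/-- In an algebra satisfying the relations the accepted formal sums vanish. -/
theorem rel_zero {A : Type} [Ring A] [Algebra F A] {N : ℕ} (idx : KK G Γ Λ ≃ Fin N)
    (M : TM0.Machine Γ Λ) (cd : G ⊕ Bool → List Γ) (top : List Γ)
    (tp tp' : KK G Γ Λ → FreeAlgebra F G) (f : Gn G (Gl G) (Stt Λ) (Ex Γ) → A)
    (h : ∀ r, lhs (mkEl M cd top tp tp' f) r = rhs idx (mkEl M cd top tp tp' f) r)
    (w : List (G ⊕ Bool))
    (hw : (StateTransition.eval (TM0.step M) (TM0.init (top ++ tapeR cd w))).Dom) :
    sv (fun g => f (.c g)) w = 0 := by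
  classical
  have hxx : Orth (fun j => f (.x j)) (fun j => f (.x' j)) := by
    intro i j
    exact h (.st .xx i j)
  have htt : Orth (fun j => FreeAlgebra.lift F (fun g => f (.c g)) (tp j))
      (fun j => FreeAlgebra.lift F (fun g => f (.c g)) (tp' j)) := by
    intro i j
    exact h (.st .tt i j)
  have hax : ∀ g j, Commute (f (.c g)) (f (.x j)) := fun g j => h (.co .x g j)
  have hax' : ∀ g j, Commute (f (.c g)) (f (.x' j)) := fun g j => h (.co .x' g j)
  have hay : ∀ g j, Commute (f (.c g)) (f (.y j)) := fun g j => h (.co .y g j)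
  have hxy : ∀ i j, Commute (f (.x i)) (f (.y j)) := fun i j => h (.st .xy i j)
  have hx'y : ∀ i j, Commute (f (.x' i)) (f (.y j)) := fun i j => h (.st .x'y i j)
  have hMH : MH (fun g => f (.c g)) (fun j => f (.x j)) (fun j => f (.x' j))
      (fun j => FreeAlgebra.lift F (fun g => f (.c g)) (tp j))
      (fun j => FreeAlgebra.lift F (fun g => f (.c g)) (tp' j)) :=
    { xx := hxx
      tt := htt
      ax := hax
      ax' := hax'
      tx := fun i j => comm_t _ _ (fun g => hax g j) _
      tx' := fun i j => comm_t _ _ (fun g => hax' g j) _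
      t'x := fun i j => comm_t _ _ (fun g => hax g j) _
      t'x' := fun i j => comm_t _ _ (fun g => hax' g j) _ }
  obtain ⟨z, l, L, R, g, hz, hM⟩ := run_complete M cd top w hw
  have h0 := Vz_zero idx (mkEl M cd top tp tp' f) h
    (fun q j => mio_comm _ _ (fun i => hxy i j) q)
    (fun i q q' j => mph_comm M cd top _ _ _ _ _ _ (fun g => hay g j) (fun i => hxy i j)
      (fun i => hx'y i j) (fun i => comm_t _ _ (fun g => hay g j) _)
      (fun i => comm_t _ _ (fun g => hay g j) _) i q q') z
  have h1 := Vz_eq M cd top (fun g => f (.c g)) (fun j => f (.x j)) (fun j => f (.x' j))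
      (fun j => FreeAlgebra.lift F (fun g => f (.c g)) (tp j))
      (fun j => FreeAlgebra.lift F (fun g => f (.c g)) (tp' j)) hMH z
  rw [hz] at h1
  have h2 : outp M (fun g => f (.c g)) (fun j => f (.x j))
      (fun j => FreeAlgebra.lift F (fun g => f (.c g)) (tp j)) (.rn w l L (g :: R)) =
      wd (fun j => FreeAlgebra.lift F (fun g => f (.c g)) (tp j)) (L.map sy' ++ [bz']) *
        sv (fun g => f (.c g)) w * wd (fun j => f (.x j)) ((g :: R).map sy' ++ [bz']) := by
    simp only [outp, hM]
  rw [h2] at h1
  have h3 := h1.symm.trans h0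
  have h4 := congrArg (fun b => wd' (fun j => FreeAlgebra.lift F (fun g => f (.c g)) (tp' j))
    (L.map sy' ++ [bz']) * b) h3
  simp only [mul_zero] at h4
  rw [mul_assoc, ← mul_assoc (wd' _ _), wd'_wd htt, one_mul] at h4
  have hc : Commute (sv (fun g => f (.c g)) w)
      (wd (fun j => f (.x j)) ((g :: R).map sy' ++ [bz'])) :=
    (wd_comm0 _ _ (fun j => (sv_comm _ _ (fun g => hax g j) w).symm) _).symm
  rw [hc.eq] at h4
  have h5 := congrArg (fun b => wd' (fun j => f (.x' j)) ((g :: R).map sy' ++ [bz']) * b) h4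
  simp only [mul_zero] at h5
  rw [← mul_assoc, wd'_wd hxx, one_mul] at h5
  exact h5

end target

end Pool.SF
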