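import Pool.Agent.Helper702.SF.SimpleD

set_option autoImplicit false

set_option linter.unusedSectionVars false

namespace Pool.SF
section target
variable {F B C G I S E : Type} [Field F] [Ring B] [Algebra F B] [Ring C] [Algebra F C]
  [Fintype G] [DecidableEq G] [Fintype I] [DecidableEq I] [Fintype S] [DecidableEq S]
  [Fintype E] [DecidableEq E]
  (s : Sys F B C G I S E)
theorem exists_words_step (T : B) (hT : T ≠ 0) : ∃ i j, T * s.x i * s.y j ≠ 0 := by
  by_contra hcon
  push Not at hcon
  apply hT
  have h1 : ∀ i, T * s.x i = 0 := by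
    intro i
    calc T * s.x i = T * s.x i * ∑ j, s.y j * s.y' j := by rw [s.yone, mul_one]
      _ = ∑ j, (T * s.x i * s.y j) * s.y' j := by
          rw [Finset.mul_sum]
          exact Finset.sum_congr rfl fun j _ => by rw [← mul_assoc]
      _ = 0 := Finset.sum_eq_zero fun j _ => by rw [hcon i j, zero_mul]
  calc T = T * ∑ j, s.x j * s.x' j := by rw [s.xone, mul_one]
    _ = ∑ j, (T * s.x j) * s.x' j := by
        rw [Finset.mul_sum]
        exact Finset.sum_congr rfl fun j _ => by rw [← mul_assoc]
    _ = 0 := Finset.sum_eq_zero fun j _ => by rw [h1 j, zero_mul]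

theorem exists_words_pre_succ {K : Type} (u : K → B) (p : ℕ → K) (n : ℕ) :
    wd u (pre p (n + 1)) = wd u (pre p n) * u (p n) := by
  simp [wd, pre, List.range_succ]

theorem exists_words_comm (i : Kd G I S E) (L : List (Kd G I S E)) :
    Commute (s.x i) (wd s.y L) := by
  induction L with
  | nil => simp [wd]
  | cons a L ih =>
      have : wd s.y (a :: L) = s.y a * wd s.y L := by simp [wd]
      rw [this]
      exact (s.cxy i a).mul_right ih

/-- A nonzero element stays nonzero along some pair of infinite words. -/
theorem exists_words (T : B) (hT : T ≠ 0) :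
    ∃ p q : ℕ → Kd G I S E, ∀ r1 r2, T * wd s.x (pre p r1) * wd s.y (pre q r2) ≠ 0 := by
  classical
  choose fi fj hf using exists_words_step s
  let st : ℕ → {T : B // T ≠ 0} := fun n =>
    Nat.rec ⟨T, hT⟩ (fun _ A => ⟨A.1 * s.x (fi A.1 A.2) * s.y (fj A.1 A.2), hf A.1 A.2⟩) n
  let p : ℕ → Kd G I S E := fun n => fi (st n).1 (st n).2
  let q : ℕ → Kd G I S E := fun n => fj (st n).1 (st n).2
  have hst : ∀ n, (st (n + 1)).1 = (st n).1 * s.x (p n) * s.y (q n) := fun n => rfl
  have hkey : ∀ n, (st n).1 = T * wd s.x (pre p n) * wd s.y (pre q n) := by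
    intro n
    induction n with
    | zero =>
        show T = _
        simp [wd, pre]
    | succ n ih =>
        rw [hst, ih, exists_words_pre_succ, exists_words_pre_succ]
        have hc := (exists_words_comm s (p n) (pre q n)).eq
        calc T * wd s.x (pre p n) * wd s.y (pre q n) * s.x (p n) * s.y (q n)
            = T * wd s.x (pre p n) * (wd s.y (pre q n) * s.x (p n)) * s.y (q n) := by
              simp only [mul_assoc]
          _ = T * wd s.x (pre p n) * (s.x (p n) * wd s.y (pre q n)) * s.y (q n) := by rw [hc]
          _ = T * (wd s.x (pre p n) * s.x (p n)) * (wd s.y (pre q n) * s.y (q n)) := by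
              simp only [mul_assoc]
  refine ⟨p, q, fun r1 r2 h0 => ?_⟩
  have hy : ∀ k, T * wd s.x (pre p r1) * wd s.y (pre q (r2 + k)) = 0 := by
    intro k
    induction k with
    | zero => simpa using h0
    | succ k ih =>
        rw [← Nat.add_assoc, exists_words_pre_succ, ← mul_assoc, ih, zero_mul]
  have hx : ∀ (m k : ℕ), T * wd s.x (pre p r1) * wd s.y (pre q m) = 0 →
      T * wd s.x (pre p (r1 + k)) * wd s.y (pre q m) = 0 := by
    intro m k hm
    induction k with
    | zero => simpa using hm
    | succ k ih =>
        rw [← Nat.add_assoc, exists_words_pre_succ]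
        have hc := (exists_words_comm s (p (r1 + k)) (pre q m)).eq
        calc T * (wd s.x (pre p (r1 + k)) * s.x (p (r1 + k))) * wd s.y (pre q m)
            = T * wd s.x (pre p (r1 + k)) * (s.x (p (r1 + k)) * wd s.y (pre q m)) := by
              simp only [mul_assoc]
          _ = T * wd s.x (pre p (r1 + k)) * (wd s.y (pre q m) * s.x (p (r1 + k))) := by rw [hc]
          _ = (T * wd s.x (pre p (r1 + k)) * wd s.y (pre q m)) * s.x (p (r1 + k)) := by
              simp only [mul_assoc]
          _ = 0 := by rw [ih, zero_mul]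
  have h1 := hx (r2 + r1) r2 (hy r1)
  have h2 : (st (r1 + r2)).1 = 0 := by
    rw [hkey, Nat.add_comm r1 r2]
    rw [Nat.add_comm r1 r2] at h1
    exact h1
  exact (st (r1 + r2)).2 h2

end target

end Pool.SF
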