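import Pool.Agent.Helper702.SF.SimpleD

set_option autoImplicit false

set_option linter.unusedSectionVars false

namespace Pool.SF
section target
variable {F B C G I S E : Type} [Field F] [Ring B] [Algebra F B] [Ring C] [Algebra F C]
  [Fintype G] [DecidableEq G] [Fintype I] [DecidableEq I] [Fintype S] [DecidableEq S]
  [Fintype E] [DecidableEq E]
  (s : Sys F B C G I S E)
theorem GG_mono (k : ℕ) : GG s k ≤ GG s (k + 1) := by
  cases k with
  | zero => exact le_sup_right
  | succ k =>
    have hl : lev s k ≤ lev s (k + 1) := le_sup_left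
    refine sup_le_sup (sup_le_sup (sup_le_sup ?_ ?_) ?_) le_rfl
    · apply Submodule.span_mono
      rintro z ⟨b, hb, h⟩
      exact ⟨b, hl hb, h⟩
    · apply Submodule.span_mono
      rintro z ⟨b, hb, h⟩
      exact ⟨b, hl hb, h⟩
    · apply Submodule.span_mono
      rintro z ⟨b, hb, h⟩
      exact ⟨b, hl hb, h⟩


end target

end Pool.SF
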