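import Pool.Agent.Helper702.SF.SimpleD

set_option autoImplicit false

set_option linter.unusedSectionVars false

namespace Pool.SF
section target
variable {F B C G I S E : Type} [Field F] [Ring B] [Algebra F B] [Ring C] [Algebra F C]
  [Fintype G] [DecidableEq G] [Fintype I] [DecidableEq I] [Fintype S] [DecidableEq S]
  [Fintype E] [DecidableEq E]
  (s : Sys F B C G I S E)
theorem GG_mul_span (S' : Set B) (g : B) (h : ∀ z ∈ S', z * g ∈ Submodule.span F S') (z : B)
    (hz : z ∈ Submodule.span F S') : z * g ∈ Submodule.span F S' := by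
  have h1 : Submodule.span F S' ≤ (Submodule.span F S').comap (LinearMap.mulRight F g) := by
    rw [Submodule.span_le]
    intro z hz
    exact h z hz
  exact h1 hz

theorem GG_mul (k : ℕ) (z : B) (hz : z ∈ GG s k) (c : C) : z * s.γ c ∈ GG s k := by
  have hLoc : ∀ z ∈ Loc s, z * s.γ c ∈ Loc s := by
    intro z hz
    refine GG_mul_span (F := F) _ _ ?_ z hz
    rintro z ⟨p, c0, rfl⟩
    apply Submodule.subset_span
    exact ⟨p, c0 * c, by rw [map_mul, mul_assoc _ (s.γ c0)]⟩
  have hLY : ∀ k, ∀ z ∈ LY s k, z * s.γ c ∈ LY s k := by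
    intro k z hz
    refine GG_mul_span (F := F) _ _ ?_ z hz
    rintro z ⟨b, hb, p, c0, rfl⟩
    apply Submodule.subset_span
    exact ⟨b, hb, p, c0 * c, by rw [map_mul, mul_assoc _ (s.γ c0)]⟩
  have hLR : ∀ k, ∀ z ∈ LR s k, z * s.γ c ∈ LR s k := by
    intro k z hz
    refine GG_mul_span (F := F) _ _ ?_ z hz
    rintro z ⟨b, hb, p, c0, rfl⟩
    apply Submodule.subset_span
    exact ⟨b, hb, p, c0 * c, by rw [map_mul, mul_assoc _ (s.γ c0)]⟩
  have hLX : ∀ k, ∀ z ∈ LX s k, z * s.γ c ∈ LX s k := by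
    intro k z hz
    refine GG_mul_span (F := F) _ _ ?_ z hz
    rintro z ⟨b, hb, ω, hω, rfl⟩
    apply Submodule.subset_span
    refine ⟨b, hb, ω * s.γ c, ?_, by rw [mul_assoc]⟩
    apply (OmX s).mul_mem hω
    apply Algebra.subset_adjoin
    left; left
    exact ⟨c, rfl⟩
  cases k with
  | zero => exact hLoc z hz
  | succ k =>
    have hz' : z ∈ LY s k ⊔ LX s k ⊔ LR s k ⊔ Loc s := hz
    obtain ⟨w1, hw1, w2, hw2, rfl⟩ := Submodule.mem_sup.1 hz'
    obtain ⟨w3, hw3, w4, hw4, rfl⟩ := Submodule.mem_sup.1 hw1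
    obtain ⟨w5, hw5, w6, hw6, rfl⟩ := Submodule.mem_sup.1 hw3
    rw [add_mul, add_mul, add_mul]
    show _ ∈ LY s k ⊔ LX s k ⊔ LR s k ⊔ Loc s
    apply Submodule.add_mem_sup
    · apply Submodule.add_mem_sup
      · apply Submodule.add_mem_sup
        · exact hLY k _ hw5
        · exact hLX k _ hw6
      · exact hLR k _ hw4
    · exact hLoc _ hw2

end target

end Pool.SF
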