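import Pool.Agent.Helper702.SF.SimpleD

set_option autoImplicit false

set_option linter.unusedSectionVars false

namespace Pool.SF
section target
variable {F B C G I S E : Type} [Field F] [Ring B] [Algebra F B] [Ring C] [Algebra F C]
  [Fintype G] [DecidableEq G] [Fintype I] [DecidableEq I] [Fintype S] [DecidableEq S]
  [Fintype E] [DecidableEq E]
  (s : Sys F B C G I S E)
theorem gm_pre_succ {K : Type} (p : ℕ → K) (n : ℕ) :
    pre p (n + 1) = p 0 :: pre (fun n => p (n + 1)) n := by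
  unfold pre
  rw [List.range_succ_eq_map]
  simp [Function.comp_def]

theorem gm_wd_cons {K B : Type} [Ring B] (u : K → B) (k : K) (J : List K) :
    wd u (k :: J) = u k * wd u J := by
  simp [wd]

theorem gm_comm {K B : Type} [Ring B] (z : B) (u : K → B) (h : ∀ k, Commute z (u k)) (J : List K) :
    Commute z (wd u J) := by
  induction J with
  | nil => simp [wd]
  | cons k J ih => rw [gm_wd_cons]; exact (h k).mul_right ih

/-- Being eventually good is stable under right multiplication. -/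
theorem good_mul (P : Submodule F B) (hP : ∀ z ∈ P, ∀ c, z * s.γ c ∈ P) (T : B)
    (hT : Good s P T) (w : B) (hw : w ∈ Om s) : Good s P (T * w) := by
  revert T
  unfold Om at hw
  induction hw using Algebra.adjoin_induction with
  | mem w hw =>
    intro T hT p q
    rcases hw with (((⟨c, rfl⟩ | ⟨j, rfl⟩) | ⟨j, rfl⟩) | ⟨j, rfl⟩) | ⟨j, rfl⟩
    · obtain ⟨a, ha⟩ := hT p q
      refine ⟨a, fun r2 hr2 => ?_⟩
      obtain ⟨a', ha'⟩ := ha r2 hr2
      refine ⟨a', fun r1 hr1 => ?_⟩
      have h1 : T * s.γ c * wd s.x (pre p r1) * wd s.y (pre q r2) =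
          T * wd s.x (pre p r1) * wd s.y (pre q r2) * s.γ c := by
        have e1 := gm_comm (s.γ c) s.x (s.cx c) (pre p r1)
        have e2 := gm_comm (s.γ c) s.y (s.cy c) (pre q r2)
        rw [mul_assoc T, e1.eq, ← mul_assoc T, mul_assoc (T * _), e2.eq, ← mul_assoc]
      rw [h1]
      exact hP _ (ha' r1 hr1) c
    · obtain ⟨a, ha⟩ := hT (fun n => Nat.casesOn n j p) q
      refine ⟨a, fun r2 hr2 => ?_⟩
      obtain ⟨a', ha'⟩ := ha r2 hr2
      refine ⟨a', fun r1 hr1 => ?_⟩
      have h1 := ha' (r1 + 1) (by omega)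
      rw [gm_pre_succ, gm_wd_cons, ← mul_assoc] at h1
      exact h1
    · obtain ⟨a, ha⟩ := hT (fun n => p (n + 1)) q
      refine ⟨a, fun r2 hr2 => ?_⟩
      obtain ⟨a', ha'⟩ := ha r2 hr2
      refine ⟨a' + 1, fun r1 hr1 => ?_⟩
      obtain ⟨r, rfl⟩ : ∃ r, r1 = r + 1 := ⟨r1 - 1, by omega⟩
      rw [gm_pre_succ, gm_wd_cons, mul_assoc T, ← mul_assoc (s.x' j), s.xx]
      split_ifs with h
      · rw [one_mul]
        exact ha' r (by omega)
      · rw [zero_mul, mul_zero, zero_mul]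
        exact zero_mem _
    · obtain ⟨a, ha⟩ := hT p (fun n => Nat.casesOn n j q)
      refine ⟨a, fun r2 hr2 => ?_⟩
      obtain ⟨a', ha'⟩ := ha (r2 + 1) (by omega)
      refine ⟨a', fun r1 hr1 => ?_⟩
      have h1 := ha' r1 hr1
      rw [gm_pre_succ, gm_wd_cons, ← mul_assoc] at h1
      have e1 := gm_comm (s.y j) s.x (fun k => (s.cxy k j).symm) (pre p r1)
      rw [mul_assoc T, e1.eq, ← mul_assoc T]
      exact h1
    · obtain ⟨a, ha⟩ := hT p (fun n => q (n + 1))
      refine ⟨a + 1, fun r2 hr2 => ?_⟩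
      obtain ⟨r, rfl⟩ : ∃ r, r2 = r + 1 := ⟨r2 - 1, by omega⟩
      obtain ⟨a', ha'⟩ := ha r (by omega)
      refine ⟨a', fun r1 hr1 => ?_⟩
      have e1 := gm_comm (s.y' j) s.x (fun k => (s.cxy' k j).symm) (pre p r1)
      rw [mul_assoc T, e1.eq, ← mul_assoc T, gm_pre_succ, gm_wd_cons, mul_assoc (T * _),
        ← mul_assoc (s.y' j), s.yy]
      split_ifs with h
      · rw [one_mul]
        exact ha' r1 hr1
      · rw [zero_mul, mul_zero]
        exact zero_mem _
  | algebraMap r =>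
    intro T hT p q
    obtain ⟨a, ha⟩ := hT p q
    refine ⟨a, fun r2 hr2 => ?_⟩
    obtain ⟨a', ha'⟩ := ha r2 hr2
    refine ⟨a', fun r1 hr1 => ?_⟩
    have h1 : T * algebraMap F B r = r • T := by
      rw [← Algebra.commutes, Algebra.smul_def]
    rw [h1, smul_mul_assoc, smul_mul_assoc]
    exact P.smul_mem r (ha' r1 hr1)
  | add u v _ _ hu hv =>
    intro T hT p q
    obtain ⟨a, ha⟩ := hu T hT p q
    obtain ⟨b, hb⟩ := hv T hT p q
    refine ⟨max a b, fun r2 hr2 => ?_⟩
    obtain ⟨a', ha'⟩ := ha r2 (le_trans (le_max_left _ _) hr2)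
    obtain ⟨b', hb'⟩ := hb r2 (le_trans (le_max_right _ _) hr2)
    refine ⟨max a' b', fun r1 hr1 => ?_⟩
    rw [mul_add, add_mul, add_mul]
    exact add_mem (ha' r1 (le_trans (le_max_left _ _) hr1)) (hb' r1 (le_trans (le_max_right _ _) hr1))
  | mul u v _ _ hu hv =>
    intro T hT
    rw [← mul_assoc]
    exact hv _ (hu T hT)

end target

end Pool.SF
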