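import Pool.Agent.Helper702.SF.SimpleD

set_option autoImplicit false

set_option linter.unusedSectionVars false

namespace Pool.SF
section target
variable {F B C G I S E : Type} [Field F] [Ring B] [Algebra F B] [Ring C] [Algebra F C]
  [Fintype G] [DecidableEq G] [Fintype I] [DecidableEq I] [Fintype S] [DecidableEq S]
  [Fintype E] [DecidableEq E]
  (s : Sys F B C G I S E)
theorem lev_mul (k : ℕ) (b w : B) (hb : b ∈ lev s k) (hw : w ∈ Om s) : b * w ∈ lev s k := by
  induction k generalizing b with
  | zero =>
    exact (Om s).mul_mem hb hw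
  | succ k ih =>
    rw [lev, Submodule.mem_sup] at hb
    obtain ⟨u, hu, v, hv, rfl⟩ := hb
    rw [add_mul, lev]
    refine Submodule.add_mem_sup (ih u hu) ?_
    induction hv using Submodule.span_induction with
    | mem z hz =>
      obtain ⟨b, hb, ρ, hρ, ω, hω, rfl⟩ := hz
      refine Submodule.subset_span ⟨b, hb, ρ, hρ, ω * w, (Om s).mul_mem hω hw, ?_⟩
      rw [mul_assoc]
    | zero => rw [zero_mul]; exact Submodule.zero_mem _
    | add z z' _ _ h1 h2 => rw [add_mul]; exact Submodule.add_mem _ h1 h2
    | smul c z _ h1 => rw [smul_mul_assoc]; exact Submodule.smul_mem _ c h1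


end target

end Pool.SF
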