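import Pool.Agent.Helper702.SF.SimpleD

set_option autoImplicit false
set_option linter.unusedSectionVars false

namespace Pool.SF

section target
variable {K B : Type} [DecidableEq K] [Ring B] {u u' : K → B}


theorem wd_append (u : K → B) (J L : List K) : wd u (J ++ L) = wd u J * wd u L := by
  simp [wd]

end target

end Pool.SF
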