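import Pool.Agent.Helper702.SF.SimpleD
import Pool.Agent.Helper702.SF.P_wd_append
import Pool.Agent.Helper702.SF.P_lev_mul
import Pool.Agent.Helper702.SF.P_GG_mul
import Pool.Agent.Helper702.SF.P_GG_mono
import Pool.Agent.Helper702.SF.P_good_mul

set_option autoImplicit false

set_option linter.unusedSectionVars false

namespace Pool.SF
section target
variable {F B C G I S E : Type} [Field F] [Ring B] [Algebra F B] [Ring C] [Algebra F C]
  [Fintype G] [DecidableEq G] [Fintype I] [DecidableEq I] [Fintype S] [DecidableEq S]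
  [Fintype E] [DecidableEq E]
  (s : Sys F B C G I S E)

omit [Fintype G] [DecidableEq G] [Fintype I] [DecidableEq I] [Fintype S] [DecidableEq S]
  [Fintype E] [DecidableEq E] in
lemma good_H_pre {K : Type} (q : ℕ → K) (n m : ℕ) :
    pre q (n + m) = pre q n ++ pre (fun i => q (n + i)) m := by
  unfold pre
  rw [List.range_add, List.map_append, List.map_map]
  rfl

lemma good_H_xy (J L : List (Kd G I S E)) : Commute (wd s.x J) (wd s.y L) := by
  unfold wd
  refine Commute.list_prod_right _ _ fun v hv => ?_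
  refine Commute.list_prod_left _ _ fun u hu => ?_
  rw [List.mem_map] at hu hv
  obtain ⟨i, _, rfl⟩ := hu
  obtain ⟨j, _, rfl⟩ := hv
  exact s.cxy i j

lemma good_H_gx (c : C) (J : List (Kd G I S E)) : Commute (s.γ c) (wd s.x J) := by
  unfold wd
  refine Commute.list_prod_right _ _ fun v hv => ?_
  rw [List.mem_map] at hv
  obtain ⟨j, _, rfl⟩ := hv
  exact s.cx c j

lemma good_H_gy (c : C) (J : List (Kd G I S E)) : Commute (s.γ c) (wd s.y J) := by
  unfold wd
  refine Commute.list_prod_right _ _ fun v hv => ?_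
  rw [List.mem_map] at hv
  obtain ⟨j, _, rfl⟩ := hv
  exact s.cy c j

lemma good_H_inp (a : Bool) (J : List (Kd G I S E)) (hJ : ∀ j ∈ J, j.isInp) :
    ∃ c, s.H a * wd s.y J = s.H a * s.γ c := by
  induction J with
  | nil => exact ⟨1, by simp [wd]⟩
  | cons j J ih =>
    obtain ⟨c, hc⟩ := ih (fun j' hj' => hJ j' (List.mem_cons_of_mem _ hj'))
    have hj := hJ j List.mem_cons_self
    obtain ⟨i, rfl⟩ : ∃ i, j = .inp i := by
      cases j <;> simp [Kd.isInp] at hj
      exact ⟨_, rfl⟩
    refine ⟨c * s.t (.inp i), ?_⟩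
    have h1 : wd s.y (.inp i :: J) = s.y (.inp i) * wd s.y J := by simp [wd]
    rw [h1, ← mul_assoc, s.H_inp, mul_assoc, (good_H_gy s _ J).eq, ← mul_assoc, hc, mul_assoc,
      ← map_mul]

lemma good_H_gOm (c : C) : s.γ c ∈ Om s := by
  unfold Om
  refine Algebra.subset_adjoin ?_
  simp

theorem good_H (k : ℕ)
    (hRX : ∀ b ∈ lev s k, Good s (GG s (k + 1)) (b * s.RX))
    (hRY : ∀ b ∈ lev s k, Good s (GG s (k + 1)) (b * s.RY))
    (b : B) (hb : b ∈ lev s k) (a : Bool) :
    Good s (GG s (k + 1)) (b * s.H a) := by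
  classical
  intro p q
  by_cases hq : ∀ n, (q n).isInp
  · refine ⟨0, fun r2 _ => ⟨0, fun r1 _ => ?_⟩⟩
    obtain ⟨c, hc⟩ := good_H_inp s a (pre q r2) (by
      intro j hj
      unfold pre at hj
      rw [List.mem_map] at hj
      obtain ⟨n, _, rfl⟩ := hj
      exact hq n)
    have h1 : b * s.H a * wd s.x (pre p r1) * wd s.y (pre q r2) =
        b * (rd s (YR.h a) * wd s.x (pre p r1)) * s.γ c := by
      show _ = b * (s.H a * wd s.x (pre p r1)) * s.γ c
      calc b * s.H a * wd s.x (pre p r1) * wd s.y (pre q r2)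
          = b * s.H a * (wd s.x (pre p r1) * wd s.y (pre q r2)) := by rw [mul_assoc]
        _ = b * s.H a * (wd s.y (pre q r2) * wd s.x (pre p r1)) := by
            rw [(good_H_xy s (pre p r1) (pre q r2)).eq]
        _ = b * (s.H a * wd s.y (pre q r2)) * wd s.x (pre p r1) := by simp only [mul_assoc]
        _ = b * (s.H a * s.γ c) * wd s.x (pre p r1) := by rw [hc]
        _ = b * s.H a * (s.γ c * wd s.x (pre p r1)) := by simp only [mul_assoc]
        _ = b * (s.H a * wd s.x (pre p r1)) * s.γ c := by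
            rw [(good_H_gx s c (pre p r1)).eq]; simp only [mul_assoc]
    rw [h1]
    have h2 : b * (rd s (YR.h a) * wd s.x (pre p r1)) * s.γ c ∈ LY s k :=
      Submodule.subset_span ⟨b, hb, (YR.h a, pre p r1), c, rfl⟩
    have h3 : LY s k ≤ GG s (k + 1) :=
      (le_sup_left.trans le_sup_left).trans le_sup_left
    exact h3 h2
  · push Not at hq
    let n0 := Nat.find hq
    have hn0 : ¬ (q n0).isInp := Nat.find_spec hq
    have hlt : ∀ n < n0, (q n).isInp := fun n hn => by
      by_contra h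
      exact Nat.find_min hq hn h
    obtain ⟨c, hc⟩ := good_H_inp s a (pre q n0) (by
      intro j hj
      unfold pre at hj
      rw [List.mem_map] at hj
      obtain ⟨n, hn, rfl⟩ := hj
      exact hlt n (List.mem_range.1 hn))
    have hP : ∀ z ∈ GG s (k + 1), ∀ c, z * s.γ c ∈ GG s (k + 1) := fun z hz c =>
      GG_mul s (k + 1) z hz c
    have hT : Good s (GG s (k + 1)) (b * (s.H a * s.y (q n0) * s.γ c)) := by
      by_cases h1 : q n0 = .bot
      · rw [h1, s.H_bot, zero_mul, mul_zero]
        intro p' q'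
        refine ⟨0, fun r2 _ => ⟨0, fun r1 _ => ?_⟩⟩
        rw [zero_mul, zero_mul]
        exact Submodule.zero_mem _
      · by_cases h2 : q n0 = .ex a
        · rw [h2, s.H_ex, ← mul_assoc]
          exact good_mul s _ hP _ (hRY b hb) _ (good_H_gOm s c)
        · rw [s.H_other a _ hn0 h1 h2, mul_assoc, ← mul_assoc]
          exact good_mul s _ hP _ (hRX b hb) _
            (Subalgebra.mul_mem _ (good_H_gOm s _) (good_H_gOm s c))
    have hpre : s.H a * wd s.y (pre q (n0 + 1)) = s.H a * s.y (q n0) * s.γ c := by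
      rw [good_H_pre, wd_append, ← mul_assoc, hc]
      have : wd s.y (pre (fun i => q (n0 + i)) 1) = s.y (q n0) := by
        simp [wd, pre]
      rw [this, mul_assoc, (s.cy c _).eq, ← mul_assoc]
    obtain ⟨a1, ha1⟩ := hT p (fun i => q (n0 + 1 + i))
    refine ⟨n0 + 1 + a1, fun r2 hr2 => ?_⟩
    obtain ⟨m, rfl⟩ : ∃ m, r2 = n0 + 1 + m := ⟨r2 - (n0 + 1), by omega⟩
    obtain ⟨a', ha'⟩ := ha1 m (by omega)
    refine ⟨a', fun r1 hr1 => ?_⟩
    have h := ha' r1 hr1
    have h1 : b * s.H a * wd s.x (pre p r1) * wd s.y (pre q (n0 + 1 + m)) =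
        b * (s.H a * s.y (q n0) * s.γ c) * wd s.x (pre p r1) *
          wd s.y (pre (fun i => q (n0 + 1 + i)) m) := by
      rw [good_H_pre q (n0 + 1) m, wd_append, ← hpre]
      calc b * s.H a * wd s.x (pre p r1) *
            (wd s.y (pre q (n0 + 1)) * wd s.y (pre (fun i => q (n0 + 1 + i)) m))
          = b * s.H a * (wd s.x (pre p r1) * wd s.y (pre q (n0 + 1))) *
              wd s.y (pre (fun i => q (n0 + 1 + i)) m) := by simp only [mul_assoc]
        _ = b * s.H a * (wd s.y (pre q (n0 + 1)) * wd s.x (pre p r1)) *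
              wd s.y (pre (fun i => q (n0 + 1 + i)) m) := by
            rw [(good_H_xy s (pre p r1) (pre q (n0 + 1))).eq]
        _ = b * (s.H a * wd s.y (pre q (n0 + 1))) * wd s.x (pre p r1) *
              wd s.y (pre (fun i => q (n0 + 1 + i)) m) := by simp only [mul_assoc]
    rw [h1]
    exact h

end target

end Pool.SF
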