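import Pool.Agent.Helper702.SF.SimpleD

set_option autoImplicit false

set_option linter.unusedSectionVars false

namespace Pool.SF
section target
variable {F B C G I S E : Type} [Field F] [Ring B] [Algebra F B] [Ring C] [Algebra F C]
  [Fintype G] [DecidableEq G] [Fintype I] [DecidableEq I] [Fintype S] [DecidableEq S]
  [Fintype E] [DecidableEq E]
  (s : Sys F B C G I S E)

theorem pos_x_comm (c : C) (J : List (Kd G I S E)) : s.γ c * wd s.x J = wd s.x J * s.γ c := by
  induction J with
  | nil => simp [wd]
  | cons j J ih =>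
    have e : wd s.x (j :: J) = s.x j * wd s.x J := by simp [wd]
    rw [e, ← mul_assoc, (s.cx c j).eq, mul_assoc, ih, mul_assoc]

/-- long words -/
def PosX (m : ℕ) : Submodule F B :=
  Submodule.span F {z | ∃ (L : List (Kd G I S E)) (c : C), m ≤ L.length ∧ z = wd s.x L * s.γ c}

theorem PosX_right (m : ℕ) (c : C) (z : B) (hz : z ∈ PosX s m) : z * s.γ c ∈ PosX s m := by
  unfold PosX at *
  induction hz using Submodule.span_induction with
  | mem z h =>
    obtain ⟨L, c', hL, rfl⟩ := h
    apply Submodule.subset_span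
    exact ⟨L, c' * c, hL, by rw [map_mul, mul_assoc]⟩
  | zero => rw [zero_mul]; exact Submodule.zero_mem _
  | add a b _ _ ha hb => rw [add_mul]; exact Submodule.add_mem _ ha hb
  | smul r a _ ha => rw [smul_mul_assoc]; exact Submodule.smul_mem _ _ ha

theorem pos_x_aux (w : B) (hw : w ∈ OmY s) : ∃ n, ∀ m, ∀ J : List (Kd G I S E), n + m ≤ J.length →
    w * wd s.x J ∈ PosX s m := by
  unfold OmY at hw
  induction hw using Algebra.adjoin_induction with
  | mem w h =>
    rcases h with (⟨c, rfl⟩ | ⟨j, rfl⟩) | ⟨j, rfl⟩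
    · refine ⟨0, fun m J hJ => ?_⟩
      rw [pos_x_comm]
      exact Submodule.subset_span ⟨J, c, by omega, rfl⟩
    · refine ⟨0, fun m J hJ => ?_⟩
      refine Submodule.subset_span ⟨j :: J, 1, by simp only [List.length_cons]; omega, ?_⟩
      simp [wd]
    · refine ⟨1, fun m J hJ => ?_⟩
      cases J with
      | nil => simp at hJ
      | cons i J =>
        have e : wd s.x (i :: J) = s.x i * wd s.x J := by simp [wd]
        rw [e, ← mul_assoc, s.xx j i]
        by_cases h : j = i
        · rw [if_pos h, one_mul]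
          refine Submodule.subset_span ⟨J, 1, ?_, by simp⟩
          simp only [List.length_cons] at hJ
          omega
        · rw [if_neg h, zero_mul]
          exact Submodule.zero_mem _
  | algebraMap r =>
    refine ⟨0, fun m J hJ => ?_⟩
    rw [← Algebra.smul_def]
    apply Submodule.smul_mem
    exact Submodule.subset_span ⟨J, 1, by omega, by simp⟩
  | add a b _ _ ha hb =>
    obtain ⟨n1, h1⟩ := ha
    obtain ⟨n2, h2⟩ := hb
    refine ⟨n1 + n2, fun m J hJ => ?_⟩
    rw [add_mul]
    exact Submodule.add_mem _ (h1 m J (by omega)) (h2 m J (by omega))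
  | mul a b _ _ ha hb =>
    obtain ⟨n1, h1⟩ := ha
    obtain ⟨n2, h2⟩ := hb
    refine ⟨n1 + n2, fun m J hJ => ?_⟩
    rw [mul_assoc]
    have h3 := h2 (n1 + m) J (by omega)
    generalize b * wd s.x J = z at h3
    unfold PosX at h3
    induction h3 using Submodule.span_induction with
    | mem z h =>
      obtain ⟨L, c, hL, rfl⟩ := h
      rw [← mul_assoc]
      exact PosX_right s m c _ (h1 m L hL)
    | zero => rw [mul_zero]; exact Submodule.zero_mem _
    | add x y _ _ hx hy => rw [mul_add]; exact Submodule.add_mem _ hx hy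
    | smul r x _ hx => rw [mul_smul_comm]; exact Submodule.smul_mem _ _ hx

/-- Positivity: a long word of the stack `x` absorbs all strips. -/
theorem pos_x (w : B) (hw : w ∈ OmY s) : ∃ n, ∀ J : List (Kd G I S E), n ≤ J.length →
    w * wd s.x J ∈ Submodule.span F {z | ∃ (L : List (Kd G I S E)) (c : C),
      z = wd s.x L * s.γ c} := by
  obtain ⟨n, hn⟩ := pos_x_aux s w hw
  refine ⟨n, fun J hJ => ?_⟩
  have h := hn 0 J (by omega)
  unfold PosX at h
  refine Submodule.span_mono ?_ h
  rintro z ⟨L, c, _, rfl⟩
  exact ⟨L, c, rfl⟩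

end target

end Pool.SF
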