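import Pool.Agent.Helper702.SF.SimpleD
import Pool.Agent.Helper702.SF.P_wd_append
import Pool.Agent.Helper702.SF.P_pos_x
import Pool.Agent.Helper702.SF.P_lev_mul
import Pool.Agent.Helper702.SF.P_GG_mul
import Pool.Agent.Helper702.SF.P_GG_mono
import Pool.Agent.Helper702.SF.P_good_mul

set_option autoImplicit false

set_option linter.unusedSectionVars false

namespace Pool.SF
section target
variable {F B C G I S E : Type} [Field F] [Ring B] [Algebra F B] [Ring C] [Algebra F C]
  [Fintype G] [DecidableEq G] [Fintype I] [DecidableEq I] [Fintype S] [DecidableEq S]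
  [Fintype E] [DecidableEq E]
  (s : Sys F B C G I S E)
theorem h636_pre_add {K : Type} (q : ℕ → K) (n m : ℕ) :
    pre q (n + m) = pre q n ++ pre (fun i => q (n + i)) m := by
  unfold pre
  rw [List.range_add, List.map_append, List.map_map]
  rfl

theorem h636_pre_succ {K : Type} (q : ℕ → K) (n : ℕ) : pre q (n + 1) = pre q n ++ [q n] := by
  unfold pre
  rw [List.range_succ, List.map_append]; rfl

theorem h636_wd_comm (J L : List (Kd G I S E)) : Commute (wd s.x J) (wd s.y L) := by
  unfold wd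
  apply Commute.list_prod_left
  intro a ha
  apply Commute.list_prod_right
  intro b hb
  simp only [List.mem_map] at ha hb
  obtain ⟨i, _, rfl⟩ := ha
  obtain ⟨j, _, rfl⟩ := hb
  exact s.cxy i j

theorem h636_OmY_comm (w : B) (hw : w ∈ OmY s) (j : Kd G I S E) : Commute w (s.y j) := by
  unfold OmY at hw
  induction hw using Algebra.adjoin_induction with
  | mem a ha =>
    rcases ha with (⟨c, rfl⟩ | ⟨i, rfl⟩) | ⟨i, rfl⟩
    · exact s.cy c j
    · exact s.cxy i j
    · exact s.cx'y i j
  | algebraMap r => exact Algebra.commutes r (s.y j)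
  | add a b _ _ ha hb => exact ha.add_left hb
  | mul a b _ _ ha hb => exact ha.mul_left hb

theorem h636_OmY_le : OmY s ≤ Om s := by
  unfold OmY Om
  apply Algebra.adjoin_mono
  intro a ha
  rcases ha with (h | h) | h
  · exact Or.inl (Or.inl (Or.inl (Or.inl h)))
  · exact Or.inl (Or.inl (Or.inl (Or.inr h)))
  · exact Or.inl (Or.inl (Or.inr h))

theorem h636_read (q : ℕ → Kd G I S E) (n : ℕ) (hq : ∀ i < n, (q i).isInp) (q0 : S) :
    ∃ Φ : S → B, (∀ t, Φ t ∈ OmY s) ∧ s.R q0 * wd s.y (pre q n) = ∑ t, s.R t * Φ t := by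
  induction n with
  | zero =>
    refine ⟨fun t => if t = q0 then 1 else 0, fun t => ?_, ?_⟩
    · dsimp only
      split_ifs
      · exact one_mem _
      · exact zero_mem _
    · simp [pre, wd]
  | succ n ihn =>
    obtain ⟨Φ, hΦ, he⟩ := ihn (fun i hi => hq i (by omega))
    have h1 := hq n (by omega)
    obtain ⟨i, hi⟩ : ∃ i, q n = Kd.inp i := by
      cases h : q n with
      | inp i => exact ⟨i, rfl⟩
      | _ => rw [h] at h1; exact h1.elim
    refine ⟨fun t => ∑ t', s.ph i t' t * Φ t', fun t => ?_, ?_⟩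
    · exact sum_mem (fun t' _ => mul_mem (s.ph_mem i t' t) (hΦ t'))
    · rw [h636_pre_succ, wd_append, ← mul_assoc, he]
      have h2 : wd s.y [q n] = s.y (Kd.inp i) := by simp [wd, hi]
      rw [h2, Finset.sum_mul]
      have h3 : ∀ t, s.R t * Φ t * s.y (Kd.inp i) = ∑ t', s.R t' * (s.ph i t t' * Φ t) := by
        intro t
        rw [mul_assoc, (h636_OmY_comm s _ (hΦ t) _).eq, ← mul_assoc, s.R_inp, Finset.sum_mul]
        exact Finset.sum_congr rfl (fun t' _ => mul_assoc _ _ _)
      simp only [h3, Finset.mul_sum]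
      exact Finset.sum_comm

theorem h636_shift (P : Submodule F B) (T : B) (p q : ℕ → Kd G I S E) (n : ℕ)
    (h : ∃ a, ∀ r2 ≥ a, ∃ a', ∀ r1 ≥ a',
      (T * wd s.y (pre q n)) * wd s.x (pre p r1) * wd s.y (pre (fun i => q (n + i)) r2) ∈ P) :
    ∃ a, ∀ r2 ≥ a, ∃ a', ∀ r1 ≥ a', T * wd s.x (pre p r1) * wd s.y (pre q r2) ∈ P := by
  obtain ⟨a, ha⟩ := h
  refine ⟨n + a, fun r2 hr2 => ?_⟩
  obtain ⟨m, rfl⟩ : ∃ m, r2 = n + m := ⟨r2 - n, by omega⟩
  obtain ⟨a', ha'⟩ := ha m (by omega)
  refine ⟨a', fun r1 hr1 => ?_⟩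
  have h1 := ha' r1 hr1
  rw [h636_pre_add, wd_append]
  have h2 : T * wd s.x (pre p r1) * (wd s.y (pre q n) * wd s.y (pre (fun i => q (n + i)) m)) =
      (T * wd s.y (pre q n)) * wd s.x (pre p r1) * wd s.y (pre (fun i => q (n + i)) m) := by
    rw [← mul_assoc, mul_assoc T, (h636_wd_comm s _ _).eq, ← mul_assoc]
  rw [h2]
  exact h1

/-- The machine readers, from the command reader `RY`. -/
theorem good_R (k : ℕ) (ih : ∀ b ∈ lev s k, Good s (GG s k) b)
    (hRY : ∀ b ∈ lev s k, Good s (GG s (k + 1)) (b * s.RY))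
    (b : B) (hb : b ∈ lev s k) (q : S) :
    Good s (GG s (k + 1)) (b * s.R q) := by
  classical
  intro p w
  by_cases hall : ∀ i, (w i).isInp
  · refine ⟨0, fun r2 _ => ?_⟩
    obtain ⟨Φ, hΦ, he⟩ := h636_read s w r2 (fun i _ => hall i) q
    choose n hn using fun t => pos_x s (Φ t) (hΦ t)
    refine ⟨∑ t, n t, fun r1 hr1 => ?_⟩
    have h1 : b * s.R q * wd s.x (pre p r1) * wd s.y (pre w r2) =
        ∑ t, b * s.R t * (Φ t * wd s.x (pre p r1)) := by
      rw [mul_assoc (b * s.R q), (h636_wd_comm s _ _).eq, ← mul_assoc, mul_assoc b, he,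
        Finset.mul_sum, Finset.sum_mul]
      refine Finset.sum_congr rfl (fun t _ => ?_)
      simp only [mul_assoc]
    rw [h1]
    refine Submodule.sum_mem _ (fun t _ => ?_)
    have hlen : n t ≤ (pre p r1).length := by
      have : n t ≤ ∑ t, n t := Finset.single_le_sum (f := n) (fun _ _ => Nat.zero_le _)
        (Finset.mem_univ t)
      simp [pre]
      omega
    have h2 := hn t (pre p r1) hlen
    have h3 : b * s.R t * (Φ t * wd s.x (pre p r1)) ∈ LY s k := by
      generalize Φ t * wd s.x (pre p r1) = zz at h2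
      induction h2 using Submodule.span_induction with
      | mem z hz =>
        obtain ⟨L, c, rfl⟩ := hz
        apply Submodule.subset_span
        refine ⟨b, hb, (YR.r t, L), c, ?_⟩
        simp only [rd, mul_assoc]
      | zero => rw [mul_zero]; exact zero_mem _
      | add x y _ _ hx hy => rw [mul_add]; exact add_mem hx hy
      | smul r x _ hx => rw [mul_smul_comm]; exact Submodule.smul_mem _ _ hx
    have h4 : LY s k ≤ GG s (k + 1) := by
      show LY s k ≤ LY s k ⊔ LX s k ⊔ LR s k ⊔ Loc s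
      exact (le_sup_left.trans le_sup_left).trans le_sup_left
    exact h4 h3
  · push Not at hall
    have hex : ∃ i, ¬ (w i).isInp := hall
    obtain ⟨n, hn, hmin⟩ : ∃ n, ¬ (w n).isInp ∧ ∀ i < n, (w i).isInp := by
      refine ⟨Nat.find hex, Nat.find_spec hex, fun i hi => ?_⟩
      exact not_not.1 (Nat.find_min hex hi)
    obtain ⟨Φ, hΦ, he⟩ := h636_read s w n hmin q
    apply h636_shift s _ _ _ _ (n + 1)
    have h1 : b * s.R q * wd s.y (pre w (n + 1)) = b * ∑ t, s.R t * s.y (w n) * Φ t := by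
      rw [h636_pre_succ, wd_append, mul_assoc, ← mul_assoc (s.R q), he]
      congr 1
      have h2 : wd s.y [w n] = s.y (w n) := by simp [wd]
      rw [h2, Finset.sum_mul]
      refine Finset.sum_congr rfl (fun t _ => ?_)
      rw [mul_assoc, (h636_OmY_comm s _ (hΦ t) _).eq, ← mul_assoc]
    rw [h1]
    by_cases hbot : w n = Kd.bot
    · simp only [hbot, s.R_bot]
      have hT : b * ∑ t, s.ps t * Φ t ∈ lev s k := by
        apply lev_mul s k b _ hb
        exact sum_mem (fun t _ => h636_OmY_le s (mul_mem (s.ps_mem t) (hΦ t)))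
      obtain ⟨a, ha⟩ := ih _ hT p (fun i => w (n + 1 + i))
      refine ⟨a, fun r2 hr2 => ?_⟩
      obtain ⟨a', ha'⟩ := ha r2 hr2
      exact ⟨a', fun r1 hr1 => GG_mono s k (ha' r1 hr1)⟩
    · by_cases hmk : ∃ t, w n = Kd.mk t
      · obtain ⟨t0, ht0⟩ := hmk
        have h2 : b * ∑ t, s.R t * s.y (w n) * Φ t = b * s.RY * Φ t0 := by
          rw [ht0]
          simp only [s.R_mk, ite_mul, zero_mul, Finset.sum_ite_eq', Finset.mem_univ, if_true,
            mul_assoc]
        rw [h2]
        exact good_mul s (GG s (k + 1)) (fun z hz c => GG_mul s (k + 1) z hz c) _ (hRY b hb)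
          (Φ t0) (h636_OmY_le s (hΦ t0)) p _
      · push Not at hmk
        have h2 : b * ∑ t, s.R t * s.y (w n) * Φ t = 0 := by
          have : ∀ t, s.R t * s.y (w n) * Φ t = 0 := by
            intro t
            rw [s.R_other t (w n) hn hbot hmk, zero_mul]
          simp [this]
        rw [h2]
        exact ⟨0, fun r2 _ => ⟨0, fun r1 _ => by simp⟩⟩

end target

end Pool.SF
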