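import Pool.Agent.Helper702.SF.SimpleD
import Pool.Agent.Helper702.SF.P_wd_append
import Pool.Agent.Helper702.SF.P_lev_mul
import Pool.Agent.Helper702.SF.P_GG_mul
import Pool.Agent.Helper702.SF.P_GG_mono
import Pool.Agent.Helper702.SF.P_good_mul

set_option autoImplicit false

set_option linter.unusedSectionVars false

namespace Pool.SF
section target
variable {F B C G I S E : Type} [Field F] [Ring B] [Algebra F B] [Ring C] [Algebra F C]
  [Fintype G] [DecidableEq G] [Fintype I] [DecidableEq I] [Fintype S] [DecidableEq S]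
  [Fintype E] [DecidableEq E]
  (s : Sys F B C G I S E)

theorem gr0_wd_cons {K B : Type} [Ring B] (u : K → B) (i : K) (J : List K) :
    wd u (i :: J) = u i * wd u J := by
  simp [wd]

theorem gr0_wd_single {K B : Type} [Ring B] (u : K → B) (i : K) : wd u [i] = u i := by
  simp [wd]

theorem gr0_comm_wd {K B : Type} [Ring B] (u : K → B) (z : B) (J : List K)
    (h : ∀ i, Commute (u i) z) : Commute (wd u J) z := by
  induction J with
  | nil => simp [wd]
  | cons i J ih =>
    rw [gr0_wd_cons]
    exact (h i).mul_left ih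

theorem gr0_rev (J : List (Kd G I S E)) (hJ : ∀ j ∈ J, j.isInp) :
    s.R0 * wd s.x J = s.R0 * wd s.y J.reverse := by
  induction J with
  | nil => rfl
  | cons j J ih =>
    have h1 : ∀ j ∈ J, j.isInp := fun i hi => hJ i (List.mem_cons_of_mem _ hi)
    have h2 : j.isInp := hJ j List.mem_cons_self
    have h3 : s.R0 * s.x j = s.R0 * s.y j := by
      cases j <;> first | exact s.R0_inp _ | exact absurd h2 (by simp [Kd.isInp])
    have hc : Commute (wd s.x J) (s.y j) := gr0_comm_wd s.x (s.y j) J fun i => s.cxy i j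
    rw [gr0_wd_cons, List.reverse_cons, wd_append, gr0_wd_single, ← mul_assoc, h3, mul_assoc,
      ← hc.eq, ← mul_assoc, ih h1, mul_assoc]

theorem gr0_wd_mem (J : List (Kd G I S E)) : wd s.y J ∈ Om s := by
  induction J with
  | nil => simpa [wd] using (Om s).one_mem
  | cons j J ih =>
    rw [gr0_wd_cons]
    refine (Om s).mul_mem (Algebra.subset_adjoin ?_) ih
    left; right; exact ⟨j, rfl⟩

theorem gr0_io_mem (q : S) : s.io q ∈ Om s := by
  refine Algebra.adjoin_mono ?_ (s.io_mem q)
  intro z hz
  left; left; exact hz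

theorem gr0_good_zero (P : Submodule F B) : Good s P 0 := by
  intro p q
  refine ⟨0, fun r2 _ => ⟨0, fun r1 _ => ?_⟩⟩
  rw [zero_mul, zero_mul]
  exact P.zero_mem

theorem gr0_good_add (P : Submodule F B) {T1 T2 : B} (h1 : Good s P T1) (h2 : Good s P T2) :
    Good s P (T1 + T2) := by
  intro p q
  obtain ⟨a1, ha1⟩ := h1 p q
  obtain ⟨a2, ha2⟩ := h2 p q
  refine ⟨max a1 a2, fun r2 hr2 => ?_⟩
  obtain ⟨b1, hb1⟩ := ha1 r2 ((le_max_left _ _).trans hr2)
  obtain ⟨b2, hb2⟩ := ha2 r2 ((le_max_right _ _).trans hr2)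
  refine ⟨max b1 b2, fun r1 hr1 => ?_⟩
  rw [add_mul, add_mul]
  exact P.add_mem (hb1 r1 ((le_max_left _ _).trans hr1)) (hb2 r1 ((le_max_right _ _).trans hr1))

theorem gr0_good_sum (P : Submodule F B) {ι : Type} (t : Finset ι) (T : ι → B)
    (h : ∀ i ∈ t, Good s P (T i)) : Good s P (∑ i ∈ t, T i) := by
  classical
  induction t using Finset.induction_on with
  | empty => rw [Finset.sum_empty]; exact gr0_good_zero s P
  | insert a t ha ih =>
    rw [Finset.sum_insert ha]
    exact gr0_good_add s P (h a (Finset.mem_insert_self _ _))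
      (ih fun i hi => h i (Finset.mem_insert_of_mem hi))

theorem gr0_pre_split {K : Type} (p : ℕ → K) (n m : ℕ) :
    pre p (n + 1 + m) = pre p n ++ ([p n] ++ pre (fun i => p (n + 1 + i)) m) := by
  unfold pre
  rw [List.range_add, List.range_succ, List.map_append, List.map_append, List.map_map,
    List.append_assoc]
  rfl

theorem good_R0 (k : ℕ)
    (hR : ∀ b ∈ lev s k, ∀ q, Good s (GG s (k + 1)) (b * s.R q))
    (hH : ∀ b ∈ lev s k, ∀ a, Good s (GG s (k + 1)) (b * s.H a))
    (b : B) (hb : b ∈ lev s k) :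
    Good s (GG s (k + 1)) (b * s.R0) := by
  classical
  intro p q
  by_cases hall : ∀ n, (p n).isInp
  · -- all letters are guide letters
    refine ⟨0, fun r2 _ => ⟨0, fun r1 _ => ?_⟩⟩
    have h1 : b * s.R0 * wd s.x (pre p r1) * wd s.y (pre q r2) =
        b * (s.R0 * wd s.y ((pre p r1).reverse ++ pre q r2)) * s.γ 1 := by
      rw [wd_append, map_one, mul_one, mul_assoc b s.R0, gr0_rev s (pre p r1)]
      · simp only [mul_assoc]
      · intro j hj
        obtain ⟨n, -, rfl⟩ := List.mem_map.1 hj
        exact hall n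
    rw [h1]
    have h2 : b * (s.R0 * wd s.y ((pre p r1).reverse ++ pre q r2)) * s.γ 1 ∈ LR s k :=
      Submodule.subset_span ⟨b, hb, _, 1, rfl⟩
    show _ ∈ LY s k ⊔ LX s k ⊔ LR s k ⊔ Loc s
    exact Submodule.mem_sup_left (Submodule.mem_sup_right h2)
  · -- the first other letter
    push Not at hall
    have hn := Nat.find_spec hall
    have hmin : ∀ m < Nat.find hall, (p m).isInp := fun m hm => by
      have := Nat.find_min hall hm
      exact not_not.1 this
    obtain ⟨n, hnn⟩ : ∃ n, n = Nat.find hall := ⟨_, rfl⟩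
    rw [← hnn] at hn hmin
    have hJ : ∀ j ∈ pre p n, j.isInp := by
      intro j hj
      obtain ⟨m, hm, rfl⟩ := List.mem_map.1 hj
      exact hmin m (List.mem_range.1 hm)
    have hT : Good s (GG s (k + 1)) (b * (s.R0 * s.x (p n)) * wd s.y (pre p n).reverse) := by
      by_cases h1 : p n = .hash
      · rw [h1, s.R0_hash, Finset.mul_sum, Finset.sum_mul]
        apply gr0_good_sum
        intro r _
        have e : b * (s.R r * s.io r) * wd s.y (pre p n).reverse =
            b * s.R r * (s.io r * wd s.y (pre p n).reverse) := by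
          simp only [mul_assoc]
        rw [e]
        exact good_mul s _ (fun z hz c => GG_mul s (k + 1) z hz c) _ (hR b hb r) _
          ((Om s).mul_mem (gr0_io_mem s r) (gr0_wd_mem s _))
      · by_cases h2 : ∃ a, p n = .ex a
        · obtain ⟨a, ha⟩ := h2
          rw [ha, s.R0_ex]
          exact good_mul s _ (fun z hz c => GG_mul s (k + 1) z hz c) _ (hH b hb a) _
            (gr0_wd_mem s _)
        · push Not at h2
          rw [s.R0_other (p n) hn h1 h2, mul_zero, zero_mul]
          exact gr0_good_zero s _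
    obtain ⟨a, ha⟩ := hT (fun i => p (n + 1 + i)) q
    refine ⟨a, fun r2 hr2 => ?_⟩
    obtain ⟨a', ha'⟩ := ha r2 hr2
    refine ⟨n + 1 + a', fun r1 hr1 => ?_⟩
    obtain ⟨m, rfl⟩ := Nat.exists_eq_add_of_le ((Nat.le_add_right (n + 1) a').trans hr1)
    have h3 := ha' m (by omega)
    have hc : Commute (s.x (p n)) (wd s.y (pre p n).reverse) :=
      (gr0_comm_wd s.y (s.x (p n)) _ fun i => (s.cxy (p n) i).symm).symm
    have h4 : b * s.R0 * wd s.x (pre p (n + 1 + m)) * wd s.y (pre q r2) =
        b * (s.R0 * s.x (p n)) * wd s.y (pre p n).reverse *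
          wd s.x (pre (fun i => p (n + 1 + i)) m) * wd s.y (pre q r2) := by
      rw [gr0_pre_split, wd_append, wd_append, gr0_wd_single]
      have e1 : b * s.R0 * (wd s.x (pre p n) * (s.x (p n) * wd s.x (pre (fun i => p (n + 1 + i)) m)))
          = b * ((s.R0 * wd s.x (pre p n)) * s.x (p n)) *
            wd s.x (pre (fun i => p (n + 1 + i)) m) := by
        simp only [mul_assoc]
      have e2 : s.R0 * wd s.y (pre p n).reverse * s.x (p n) =
          s.R0 * s.x (p n) * wd s.y (pre p n).reverse := by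
        rw [mul_assoc, ← hc.eq, mul_assoc]
      rw [e1, gr0_rev s _ hJ, e2]
      simp only [mul_assoc]
    rw [h4]
    exact h3

end target

end Pool.SF
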