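import Pool.Agent.Helper702.SF.SimpleD
import Pool.Agent.Helper702.SF.P_wd_append
import Pool.Agent.Helper702.SF.P_lev_mul
import Pool.Agent.Helper702.SF.P_GG_mul
import Pool.Agent.Helper702.SF.P_GG_mono
import Pool.Agent.Helper702.SF.P_good_mul

set_option autoImplicit false

set_option linter.unusedSectionVars false

namespace Pool.SF
section target
variable {F B C G I S E : Type} [Field F] [Ring B] [Algebra F B] [Ring C] [Algebra F C]
  [Fintype G] [DecidableEq G] [Fintype I] [DecidableEq I] [Fintype S] [DecidableEq S]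
  [Fintype E] [DecidableEq E]
  (s : Sys F B C G I S E)
theorem gRX_comm (W : B) (hW : W ∈ OmX s) (j : Kd G I S E) : Commute (s.x j) W := by
  have h : OmX s ≤ Subalgebra.centralizer F {s.x j} := by
    refine Algebra.adjoin_le ?_
    rintro z ((⟨c, rfl⟩ | ⟨i, rfl⟩) | ⟨i, rfl⟩)
    · refine Subalgebra.mem_centralizer_iff F |>.2 ?_
      rintro g (rfl : g = s.x j)
      exact ((s.cx c j).eq).symm
    · refine Subalgebra.mem_centralizer_iff F |>.2 ?_
      rintro g (rfl : g = s.x j)
      exact (s.cxy j i).eq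
    · refine Subalgebra.mem_centralizer_iff F |>.2 ?_
      rintro g (rfl : g = s.x j)
      exact (s.cxy' j i).eq
  exact (Subalgebra.mem_centralizer_iff F).1 (h hW) _ rfl

theorem gRX_γ (c : C) : s.γ c ∈ OmX s :=
  Algebra.subset_adjoin (Or.inl (Or.inl ⟨c, rfl⟩))
theorem gRX_y (j : Kd G I S E) : s.y j ∈ OmX s :=
  Algebra.subset_adjoin (Or.inl (Or.inr ⟨j, rfl⟩))
theorem gRX_y' (j : Kd G I S E) : s.y' j ∈ OmX s :=
  Algebra.subset_adjoin (Or.inr ⟨j, rfl⟩)

theorem gRX_wd (J : List (Kd G I S E)) : wd s.y J ∈ OmX s := by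
  unfold wd
  refine Subalgebra.list_prod_mem _ ?_
  intro z hz
  obtain ⟨j, -, rfl⟩ := List.mem_map.1 hz
  exact gRX_y s j

theorem gRX_le : OmX s ≤ Om s := by
  refine Algebra.adjoin_mono ?_
  rintro z ((h | h) | h)
  · exact Or.inl (Or.inl (Or.inl (Or.inl h)))
  · exact Or.inl (Or.inr h)
  · exact Or.inr h

theorem gRX_cmd (j : Kd G I S E) (hj : j.isCmd) : ∃ W ∈ OmX s, s.RX * s.x j = s.RX * W := by
  cases j with
  | noop => exact ⟨1, (OmX s).one_mem, by rw [s.RX_noop, mul_one]⟩
  | cq =>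
    refine ⟨qq s.idx s.y s.y', ?_, s.RX_cq⟩
    unfold qq
    refine Subalgebra.sum_mem _ fun a _ => Subalgebra.sum_mem _ fun b _ => ?_
    split_ifs
    · exact (OmX s).mul_mem (gRX_y s a) (gRX_y' s b)
    · exact (OmX s).zero_mem
  | cs => exact ⟨s.y' .kill, gRX_y' s _, s.RX_cs⟩
  | cg g => exact ⟨s.γ (s.cgen g), gRX_γ s _, s.RX_cg g⟩
  | kill => exact absurd hj id
  | fin => exact absurd hj id
  | hash => exact absurd hj id
  | bot => exact absurd hj id
  | ex a => exact absurd hj id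
  | inp a => exact absurd hj id
  | mk a => exact absurd hj id
  | ext a => exact absurd hj id

theorem gRX_pre (p : ℕ → Kd G I S E) (n : ℕ) (h : ∀ i < n, (p i).isCmd) :
    ∃ W ∈ OmX s, s.RX * wd s.x (pre p n) = s.RX * W := by
  induction n with
  | zero => exact ⟨1, (OmX s).one_mem, by simp [pre, wd]⟩
  | succ n ih =>
    obtain ⟨W, hW, hWe⟩ := ih fun i hi => h i (by omega)
    obtain ⟨W', hW', hWe'⟩ := gRX_cmd s (p n) (h n (by omega))
    refine ⟨W' * W, (OmX s).mul_mem hW' hW, ?_⟩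
    have h1 : pre p (n + 1) = pre p n ++ [p n] := by
      simp [pre, List.range_succ]
    have h2 : wd s.x [p n] = s.x (p n) := by simp [wd]
    rw [h1, wd_append, h2, ← mul_assoc, hWe, mul_assoc, ← (gRX_comm s W hW (p n)).eq, ← mul_assoc,
      hWe', mul_assoc]

theorem gRX_LX (k : ℕ) (b : B) (hb : b ∈ lev s k) (W : B) (hW : W ∈ OmX s) :
    b * s.RX * W ∈ GG s (k + 1) := by
  have h : b * s.RX * W ∈ LX s k := Submodule.subset_span ⟨b, hb, W, hW, rfl⟩
  change b * s.RX * W ∈ LY s k ⊔ LX s k ⊔ LR s k ⊔ Loc s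
  exact Submodule.mem_sup_left (Submodule.mem_sup_left (Submodule.mem_sup_right h))

theorem good_RX (k : ℕ) (ih : ∀ b ∈ lev s k, Good s (GG s k) b) (b : B) (hb : b ∈ lev s k) :
    Good s (GG s (k + 1)) (b * s.RX) := by
  classical
  intro p q
  by_cases hA : ∀ n, (p n).isCmd
  · refine ⟨0, fun r2 _ => ⟨0, fun r1 _ => ?_⟩⟩
    obtain ⟨W, hW, hWe⟩ := gRX_pre s p r1 fun i _ => hA i
    have h1 : b * s.RX * wd s.x (pre p r1) * wd s.y (pre q r2) =
        b * s.RX * (W * wd s.y (pre q r2)) := by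
      rw [mul_assoc b, hWe]
      simp only [mul_assoc]
    rw [h1]
    exact gRX_LX s k b hb _ ((OmX s).mul_mem hW (gRX_wd s _))
  · have hex : ∃ n, ¬ (p n).isCmd := by
      by_contra hc
      push Not at hc
      exact hA hc
    obtain ⟨n, hn, hmin⟩ : ∃ n, ¬ (p n).isCmd ∧ ∀ i < n, (p i).isCmd := by
      refine ⟨Nat.find hex, Nat.find_spec hex, fun i hi => ?_⟩
      exact not_not.1 (Nat.find_min hex hi)
    obtain ⟨W, hW, hWe⟩ := gRX_pre s p n hmin
    have hsplit : ∀ r, wd s.x (pre p (n + 1 + r)) =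
        wd s.x (pre p n) * s.x (p n) * wd s.x (pre (fun i => p (i + (n + 1))) r) := by
      intro r
      have h1 : pre p (n + 1 + r) = (pre p n ++ [p n]) ++ pre (fun i => p (i + (n + 1))) r := by
        have h0 : pre p n ++ [p n] = pre p (n + 1) := by simp [pre, List.range_succ]
        rw [h0]
        unfold pre
        rw [List.range_add, List.map_append, List.map_map]
        congr 1
        apply List.map_congr_left
        intro i _
        simp only [Function.comp_apply]
        congr 1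
        omega
      have h2 : wd s.x [p n] = s.x (p n) := by simp [wd]
      rw [h1, wd_append, wd_append, h2]
    have hkey : ∀ r, b * s.RX * wd s.x (pre p (n + 1 + r)) =
        b * (s.RX * s.x (p n) * W) * wd s.x (pre (fun i => p (i + (n + 1))) r) := by
      intro r
      rw [hsplit r]
      have h3 : s.RX * (wd s.x (pre p n) * s.x (p n)) = s.RX * s.x (p n) * W := by
        rw [← mul_assoc, hWe, mul_assoc, ← (gRX_comm s W hW (p n)).eq, ← mul_assoc]
      rw [← h3]
      simp only [mul_assoc]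
    by_cases hf : p n = .fin
    · have hmem : b * (s.RX * s.x (p n) * W) ∈ lev s k := by
        rw [hf, s.RX_fin]
        exact lev_mul s k b _ hb (gRX_le s ((OmX s).mul_mem (gRX_y' s _) hW))
      obtain ⟨a, ha⟩ := ih _ hmem (fun i => p (i + (n + 1))) q
      refine ⟨a, fun r2 hr2 => ?_⟩
      obtain ⟨a', ha'⟩ := ha r2 hr2
      refine ⟨n + 1 + a', fun r1 hr1 => ?_⟩
      obtain ⟨r, rfl⟩ : ∃ r, r1 = n + 1 + r := ⟨r1 - (n + 1), by omega⟩
      rw [hkey r]
      exact GG_mono s k (ha' r (by omega))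
    · refine ⟨0, fun r2 _ => ⟨n + 1, fun r1 hr1 => ?_⟩⟩
      obtain ⟨r, rfl⟩ : ∃ r, r1 = n + 1 + r := ⟨r1 - (n + 1), by omega⟩
      rw [hkey r, s.RX_other _ hn hf]
      simp only [zero_mul, mul_zero]
      exact Submodule.zero_mem _

end target

end Pool.SF
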