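import Pool.Agent.Helper702.SF.SimpleD
import Pool.Agent.Helper702.SF.P_wd_append
import Pool.Agent.Helper702.SF.P_pos_x
import Pool.Agent.Helper702.SF.P_lev_mul
import Pool.Agent.Helper702.SF.P_GG_mul
import Pool.Agent.Helper702.SF.P_GG_mono
import Pool.Agent.Helper702.SF.P_good_mul

set_option autoImplicit false

set_option linter.unusedSectionVars false

namespace Pool.SF
section target
variable {F B C G I S E : Type} [Field F] [Ring B] [Algebra F B] [Ring C] [Algebra F C]
  [Fintype G] [DecidableEq G] [Fintype I] [DecidableEq I] [Fintype S] [DecidableEq S]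
  [Fintype E] [DecidableEq E]
  (s : Sys F B C G I S E)
theorem gRY_comm (J L : List (Kd G I S E)) : wd s.x J * wd s.y L = wd s.y L * wd s.x J := by
  have h1 : ∀ (i : Kd G I S E) (L : List (Kd G I S E)), Commute (s.x i) (wd s.y L) := by
    intro i L
    induction L with
    | nil => exact Commute.one_right _
    | cons l L ih =>
      have : wd s.y (l :: L) = s.y l * wd s.y L := by simp [wd]
      rw [this]
      exact (s.cxy i l).mul_right ih
  have h2 : Commute (wd s.x J) (wd s.y L) := by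
    induction J with
    | nil => exact Commute.one_left _
    | cons l J ih =>
      have : wd s.x (l :: J) = s.x l * wd s.x J := by simp [wd]
      rw [this]
      exact (h1 l L).mul_left ih
  exact h2

theorem gRY_OmY (w : B) (hw : w ∈ OmY s) (j : Kd G I S E) : Commute w (s.y j) := by
  unfold OmY at hw
  induction hw using Algebra.adjoin_induction with
  | mem x hx =>
    rcases hx with (⟨c, rfl⟩ | ⟨i, rfl⟩) | ⟨i, rfl⟩
    · exact s.cy c j
    · exact s.cxy i j
    · exact s.cx'y i j
  | algebraMap r => exact Algebra.commute_algebraMap_left r _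
  | add x y _ _ hx hy => exact hx.add_left hy
  | mul x y _ _ hx hy => exact hx.mul_left hy

theorem gRY_OmY_Om (w : B) (hw : w ∈ OmY s) : w ∈ Om s := by
  unfold OmY at hw
  unfold Om
  refine Algebra.adjoin_mono ?_ hw
  rintro z ((h | h) | h)
  · exact Or.inl (Or.inl (Or.inl (Or.inl h)))
  · exact Or.inl (Or.inl (Or.inl (Or.inr h)))
  · exact Or.inl (Or.inl (Or.inr h))

theorem gRY_xY (i : Kd G I S E) : s.x i ∈ OmY s :=
  Algebra.subset_adjoin (Or.inl (Or.inr ⟨i, rfl⟩))

theorem gRY_x'Y (i : Kd G I S E) : s.x' i ∈ OmY s :=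
  Algebra.subset_adjoin (Or.inr ⟨i, rfl⟩)

theorem gRY_γY (c : C) : s.γ c ∈ OmY s :=
  Algebra.subset_adjoin (Or.inl (Or.inl ⟨c, rfl⟩))

theorem gRY_cmd (j : Kd G I S E) (hj : j.isCmd) : ∃ W ∈ OmY s, s.RY * s.y j = s.RY * W := by
  cases j with
  | noop => exact ⟨1, one_mem _, by rw [s.RY_noop, mul_one]⟩
  | cq =>
    refine ⟨qq s.idx s.x s.x', ?_, s.RY_cq⟩
    unfold qq
    refine sum_mem fun a _ => sum_mem fun b _ => ?_
    split_ifs
    · exact mul_mem (gRY_xY s a) (gRY_x'Y s b)
    · exact zero_mem _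
  | cs => exact ⟨s.x' .kill, gRY_x'Y s _, s.RY_cs⟩
  | cg g => exact ⟨s.γ (s.cgen g), gRY_γY s _, s.RY_cg g⟩
  | kill => exact absurd hj (by simp [Kd.isCmd])
  | fin => exact absurd hj (by simp [Kd.isCmd])
  | hash => exact absurd hj (by simp [Kd.isCmd])
  | bot => exact absurd hj (by simp [Kd.isCmd])
  | ex a => exact absurd hj (by simp [Kd.isCmd])
  | inp i => exact absurd hj (by simp [Kd.isCmd])
  | mk i => exact absurd hj (by simp [Kd.isCmd])
  | ext e => exact absurd hj (by simp [Kd.isCmd])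

theorem gRY_wd_one (u : Kd G I S E → B) (j : Kd G I S E) : wd u [j] = u j := by
  simp [wd]

theorem gRY_pre (q : ℕ → Kd G I S E) (n : ℕ) (hq : ∀ i < n, (q i).isCmd) :
    ∃ W ∈ OmY s, s.RY * wd s.y (pre q n) = s.RY * W := by
  induction n with
  | zero => exact ⟨1, one_mem _, by simp [pre, wd]⟩
  | succ n ih =>
    obtain ⟨W, hW, hWe⟩ := ih (fun i hi => hq i (by omega))
    obtain ⟨W', hW', hWe'⟩ := gRY_cmd s (q n) (hq n (by omega))
    refine ⟨W' * W, mul_mem hW' hW, ?_⟩
    have h1 : pre q (n + 1) = pre q n ++ [q n] := by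
      simp [pre, List.range_succ]
    rw [h1, wd_append, gRY_wd_one, ← mul_assoc, hWe, mul_assoc, (gRY_OmY s W hW (q n)).eq,
      ← mul_assoc, hWe', mul_assoc]

theorem good_RY (k : ℕ) (ih : ∀ b ∈ lev s k, Good s (GG s k) b) (b : B) (hb : b ∈ lev s k) :
    Good s (GG s (k + 1)) (b * s.RY) := by
  classical
  intro p q
  have hre : ∀ r1 r2, b * s.RY * wd s.x (pre p r1) * wd s.y (pre q r2) =
      b * (s.RY * wd s.y (pre q r2)) * wd s.x (pre p r1) := by
    intro r1 r2
    rw [mul_assoc (b * s.RY), gRY_comm]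
    noncomm_ring
  by_cases hA : ∀ n, (q n).isCmd
  · refine ⟨0, fun r2 _ => ?_⟩
    obtain ⟨W, hW, hWe⟩ := gRY_pre s q r2 (fun i _ => hA i)
    obtain ⟨n, hn⟩ := pos_x s W hW
    refine ⟨n, fun r1 hr1 => ?_⟩
    have h1 := hn (pre p r1) (by simpa [pre] using hr1)
    rw [hre, hWe]
    have h2 : b * (s.RY * W) * wd s.x (pre p r1) = b * s.RY * (W * wd s.x (pre p r1)) := by
      noncomm_ring
    rw [h2]
    have h3 : ∀ z ∈ Submodule.span F {z | ∃ (L : List (Kd G I S E)) (c : C),
      z = wd s.x L * s.γ c}, b * s.RY * z ∈ LY s k := by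
      intro z hz
      induction hz using Submodule.span_induction with
      | mem z hz =>
        obtain ⟨L, c, rfl⟩ := hz
        refine Submodule.subset_span ⟨b, hb, (YR.ry, L), c, ?_⟩
        change b * s.RY * (wd s.x L * s.γ c) = b * (s.RY * wd s.x L) * s.γ c
        noncomm_ring
      | zero => rw [mul_zero]; exact zero_mem _
      | add x y _ _ hx hy => rw [mul_add]; exact add_mem hx hy
      | smul a x _ hx => rw [mul_smul_comm]; exact Submodule.smul_mem _ _ hx
    have h4 : LY s k ≤ GG s (k + 1) :=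
      le_sup_of_le_left (le_sup_of_le_left le_sup_left)
    exact h4 (h3 _ h1)
  · push Not at hA
    have hex : ∃ n, ¬ (q n).isCmd := hA
    have hn0 := Nat.find_spec hex
    have hmin : ∀ i < Nat.find hex, (q i).isCmd := fun i hi => by
      have := Nat.find_min hex hi
      exact not_not.mp this
    generalize Nat.find hex = n0 at hn0 hmin
    obtain ⟨W, hW, hWe⟩ := gRY_pre s q n0 hmin
    let q' : ℕ → Kd G I S E := fun i => q (n0 + 1 + i)
    have hsplit : ∀ r', pre q (n0 + 1 + r') = pre q n0 ++ ([q n0] ++ pre q' r') := by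
      intro r'
      simp only [pre, List.range_add, List.map_append, q']
      simp [List.range_succ, Function.comp_def]
    have hprod : ∀ r1 r', b * s.RY * wd s.x (pre p r1) * wd s.y (pre q (n0 + 1 + r')) =
        b * (s.RY * s.y (q n0)) * W * (wd s.x (pre p r1) * wd s.y (pre q' r')) := by
      intro r1 r'
      rw [hre, hsplit, wd_append, wd_append, gRY_wd_one, gRY_comm]
      have e1 : s.RY * (wd s.y (pre q n0) * (s.y (q n0) * wd s.y (pre q' r'))) =
          s.RY * s.y (q n0) * W * wd s.y (pre q' r') := by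
        rw [← mul_assoc, hWe, mul_assoc, ← mul_assoc W, (gRY_OmY s W hW (q n0)).eq]
        noncomm_ring
      rw [e1]
      noncomm_ring
    by_cases hfin : q n0 = .fin
    · have hb' : b * (s.x' .fin * W) ∈ lev s k :=
        lev_mul s k b _ hb (gRY_OmY_Om s _ (mul_mem (gRY_x'Y s _) hW))
      obtain ⟨a0, ha0⟩ := ih _ hb' p q'
      refine ⟨n0 + 1 + a0, fun r2 hr2 => ?_⟩
      obtain ⟨r', rfl⟩ : ∃ r', r2 = n0 + 1 + r' := ⟨r2 - (n0 + 1), by omega⟩
      obtain ⟨a', ha'⟩ := ha0 r' (by omega)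
      refine ⟨a', fun r1 hr1 => ?_⟩
      have h1 := ha' r1 hr1
      rw [hprod, hfin, s.RY_fin]
      have h2 : b * s.x' Kd.fin * W * (wd s.x (pre p r1) * wd s.y (pre q' r')) =
          b * (s.x' .fin * W) * wd s.x (pre p r1) * wd s.y (pre q' r') := by
        noncomm_ring
      rw [h2]
      exact GG_mono s k h1
    · refine ⟨n0 + 1, fun r2 hr2 => ⟨0, fun r1 _ => ?_⟩⟩
      obtain ⟨r', rfl⟩ : ∃ r', r2 = n0 + 1 + r' := ⟨r2 - (n0 + 1), by omega⟩
      rw [hprod, s.RY_other _ hn0 hfin, mul_zero, zero_mul, zero_mul]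
      exact zero_mem _


end target

end Pool.SF
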