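import Pool.Agent.Helper702.SF.SimpleD

set_option autoImplicit false

set_option linter.unusedSectionVars false

namespace Pool.SF
section target
variable {F B C G I S E : Type} [Field F] [Ring B] [Algebra F B] [Ring C] [Algebra F C]
  [Fintype G] [DecidableEq G] [Fintype I] [DecidableEq I] [Fintype S] [DecidableEq S]
  [Fintype E] [DecidableEq E]
  (s : Sys F B C G I S E)
theorem good_one : Good s (Loc s) 1 := by
  intro p q
  refine ⟨0, fun r2 _ => ⟨0, fun r1 _ => ?_⟩⟩
  refine Submodule.subset_span ⟨(pre p r1, pre q r2), 1, ?_⟩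
  rw [one_mul, map_one, mul_one]

end target

end Pool.SF
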