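import Pool.Agent.Helper702.SF.SimpleD
import Pool.Agent.Helper702.SF.P_wd_append
import Pool.Agent.Helper702.SF.P_lev_mul
import Pool.Agent.Helper702.SF.P_GG_mul
import Pool.Agent.Helper702.SF.P_GG_mono
import Pool.Agent.Helper702.SF.P_good_mul
import Pool.Agent.Helper702.SF.P_good_one
import Pool.Agent.Helper702.SF.P_good_RX
import Pool.Agent.Helper702.SF.P_good_RY
import Pool.Agent.Helper702.SF.P_good_R
import Pool.Agent.Helper702.SF.P_good_H
import Pool.Agent.Helper702.SF.P_good_R0

set_option autoImplicit false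

set_option linter.unusedSectionVars false

namespace Pool.SF
section target
variable {F B C G I S E : Type} [Field F] [Ring B] [Algebra F B] [Ring C] [Algebra F C]
  [Fintype G] [DecidableEq G] [Fintype I] [DecidableEq I] [Fintype S] [DecidableEq S]
  [Fintype E] [DecidableEq E]
  (s : Sys F B C G I S E)
theorem good_all_aux_add (P : Submodule F B) (T T' : B) (h : Good s P T) (h' : Good s P T') :
    Good s P (T + T') := by
  intro p q
  obtain ⟨a, ha⟩ := h p q
  obtain ⟨b, hb⟩ := h' p q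
  refine ⟨max a b, fun r2 hr2 => ?_⟩
  obtain ⟨a', ha'⟩ := ha r2 (le_trans (le_max_left _ _) hr2)
  obtain ⟨b', hb'⟩ := hb r2 (le_trans (le_max_right _ _) hr2)
  refine ⟨max a' b', fun r1 hr1 => ?_⟩
  rw [add_mul, add_mul]
  exact P.add_mem (ha' r1 (le_trans (le_max_left _ _) hr1))
    (hb' r1 (le_trans (le_max_right _ _) hr1))

theorem good_all_aux_smul (P : Submodule F B) (c : F) (T : B) (h : Good s P T) :
    Good s P (c • T) := by
  intro p q
  obtain ⟨a, ha⟩ := h p q
  refine ⟨a, fun r2 hr2 => ?_⟩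
  obtain ⟨a', ha'⟩ := ha r2 hr2
  refine ⟨a', fun r1 hr1 => ?_⟩
  rw [smul_mul_assoc, smul_mul_assoc]
  exact P.smul_mem c (ha' r1 hr1)

theorem good_all_aux_mono (P Q : Submodule F B) (hPQ : P ≤ Q) (T : B) (h : Good s P T) :
    Good s Q T := by
  intro p q
  obtain ⟨a, ha⟩ := h p q
  refine ⟨a, fun r2 hr2 => ?_⟩
  obtain ⟨a', ha'⟩ := ha r2 hr2
  exact ⟨a', fun r1 hr1 => hPQ (ha' r1 hr1)⟩

theorem good_all_aux_zero (P : Submodule F B) : Good s P (0 : B) := by
  intro p q
  refine ⟨0, fun r2 _ => ⟨0, fun r1 _ => ?_⟩⟩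
  rw [zero_mul, zero_mul]
  exact P.zero_mem

theorem good_all (k : ℕ) : ∀ b ∈ lev s k, Good s (GG s k) b := by
  induction k with
  | zero =>
    intro b hb
    have h1 := good_mul s (Loc s) (GG_mul s 0) 1 (good_one s) b hb
    rw [one_mul] at h1
    exact h1
  | succ k ih =>
    intro b hb
    have hb' : b ∈ lev s k ⊔ Submodule.span F {z | ∃ b ∈ lev s k, ∃ ρ,
      (ρ = s.R0 ∨ ρ = s.RX ∨ ∃ r, ρ = rd s r) ∧ ∃ ω ∈ Om s, z = b * ρ * ω} := hb
    rw [Submodule.mem_sup] at hb'
    obtain ⟨u, hu, v, hv, rfl⟩ := hb'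
    refine good_all_aux_add s _ _ _ (good_all_aux_mono s _ _ (GG_mono s k) _ (ih u hu)) ?_
    have hRX := good_RX s k ih
    have hRY := good_RY s k ih
    have hR := fun b hb q => good_R s k ih hRY b hb q
    have hH := fun b hb a => good_H s k hRX hRY b hb a
    have hR0 := fun b hb => good_R0 s k hR hH b hb
    refine Submodule.span_induction (p := fun z _ => Good s (GG s (k + 1)) z) ?_ ?_ ?_ ?_ hv
    · rintro z ⟨b, hb, ρ, hρ, ω, hω, rfl⟩
      refine good_mul s _ (GG_mul s (k + 1)) _ ?_ ω hω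
      rcases hρ with rfl | rfl | ⟨r, rfl⟩
      · exact hR0 b hb
      · exact hRX b hb
      · cases r with
        | ry => exact hRY b hb
        | h a => exact hH b hb a
        | r q => exact hR b hb q
    · exact good_all_aux_zero s _
    · intro x y _ _ hx hy
      exact good_all_aux_add s _ _ _ hx hy
    · intro c x _ hx
      exact good_all_aux_smul s _ c _ hx

end target

end Pool.SF
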