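import Pool.Agent.Helper702.SF.SimpleD

set_option autoImplicit false

set_option linter.unusedSectionVars false

namespace Pool.SF
section target
variable {F B C G I S E : Type} [Field F] [Ring B] [Algebra F B] [Ring C] [Algebra F C]
  [Fintype G] [DecidableEq G] [Fintype I] [DecidableEq I] [Fintype S] [DecidableEq S]
  [Fintype E] [DecidableEq E]
  (s : Sys F B C G I S E)
theorem lev_top_aux_mono : Monotone (fun k => lev s k) := by
  apply monotone_nat_of_le_succ
  intro k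
  exact le_sup_left

theorem lev_top_aux_mul (k : ℕ) : ∀ z ∈ lev s k, ∀ ω ∈ Om s, z * ω ∈ lev s k := by
  induction k with
  | zero =>
    intro z hz ω hω
    exact (Om s).mul_mem hz hω
  | succ k ih =>
    intro z hz ω hω
    have hz' : z ∈ lev s k ⊔ Submodule.span F {z | ∃ b ∈ lev s k, ∃ ρ,
      (ρ = s.R0 ∨ ρ = s.RX ∨ ∃ r, ρ = rd s r) ∧ ∃ ω ∈ Om s, z = b * ρ * ω} := hz
    obtain ⟨a, ha, b, hb, rfl⟩ := Submodule.mem_sup.mp hz'
    rw [add_mul]
    refine Submodule.add_mem _ ?_ ?_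
    · exact le_sup_left (a := lev s k) (ih a ha ω hω)
    · refine (le_sup_right (a := lev s k) :
        Submodule.span F {z | ∃ b ∈ lev s k, ∃ ρ,
          (ρ = s.R0 ∨ ρ = s.RX ∨ ∃ r, ρ = rd s r) ∧ ∃ ω ∈ Om s, z = b * ρ * ω} ≤
            lev s (k + 1)) ?_
      clear hz hz'
      induction hb using Submodule.span_induction with
      | mem x hx =>
        obtain ⟨b, hb, ρ, hρ, ω', hω', rfl⟩ := hx
        apply Submodule.subset_span
        exact ⟨b, hb, ρ, hρ, ω' * ω, (Om s).mul_mem hω' hω, by rw [mul_assoc]⟩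
      | zero => rw [zero_mul]; exact Submodule.zero_mem _
      | add x y _ _ hx hy => rw [add_mul]; exact Submodule.add_mem _ hx hy
      | smul c x _ hx => rw [smul_mul_assoc]; exact Submodule.smul_mem _ _ hx

theorem lev_top_aux_rd (k : ℕ) (z : B) (hz : z ∈ lev s k) (ρ : B)
    (hρ : ρ = s.R0 ∨ ρ = s.RX ∨ ∃ r, ρ = rd s r) : z * ρ ∈ lev s (k + 1) := by
  refine (le_sup_right (a := lev s k) :
        Submodule.span F {z | ∃ b ∈ lev s k, ∃ ρ,
          (ρ = s.R0 ∨ ρ = s.RX ∨ ∃ r, ρ = rd s r) ∧ ∃ ω ∈ Om s, z = b * ρ * ω} ≤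
            lev s (k + 1)) ?_
  apply Submodule.subset_span
  exact ⟨z, hz, ρ, hρ, 1, (Om s).one_mem, by rw [mul_one]⟩

theorem lev_top (z : B) : ∃ k, z ∈ lev s k := by
  have key : ∀ w : B, ∀ z : B, (∃ k, z ∈ lev s k) → ∃ k, z * w ∈ lev s k := by
    intro w
    have hw : w ∈ Algebra.adjoin F (Set.range s.γ ∪ Set.range s.x ∪ Set.range s.x' ∪
        Set.range s.y ∪ Set.range s.y' ∪ {s.R0, s.RX, s.RY} ∪ Set.range s.H ∪
        Set.range s.R) := by
      rw [s.gen]
      exact Algebra.mem_top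
    induction hw using Algebra.adjoin_induction with
    | mem x hx =>
      rintro z ⟨k, hk⟩
      rcases hx with (((hx | hx) | hx) | hx)
      · exact ⟨k, lev_top_aux_mul s k z hk x (Algebra.subset_adjoin hx)⟩
      · rcases hx with rfl | rfl | hx
        · exact ⟨k + 1, lev_top_aux_rd s k z hk _ (Or.inl rfl)⟩
        · exact ⟨k + 1, lev_top_aux_rd s k z hk _ (Or.inr (Or.inl rfl))⟩
        · rw [Set.mem_singleton_iff] at hx
          subst hx
          exact ⟨k + 1, lev_top_aux_rd s k z hk _ (Or.inr (Or.inr ⟨.ry, rfl⟩))⟩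
      · obtain ⟨a, rfl⟩ := hx
        exact ⟨k + 1, lev_top_aux_rd s k z hk _ (Or.inr (Or.inr ⟨.h a, rfl⟩))⟩
      · obtain ⟨a, rfl⟩ := hx
        exact ⟨k + 1, lev_top_aux_rd s k z hk _ (Or.inr (Or.inr ⟨.r a, rfl⟩))⟩
    | algebraMap r =>
      rintro z ⟨k, hk⟩
      exact ⟨k, lev_top_aux_mul s k z hk _ ((Om s).algebraMap_mem r)⟩
    | add x y _ _ hx hy =>
      intro z hz
      obtain ⟨k1, h1⟩ := hx z hz
      obtain ⟨k2, h2⟩ := hy z hz
      refine ⟨max k1 k2, ?_⟩
      rw [mul_add]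
      exact Submodule.add_mem _ (lev_top_aux_mono s (le_max_left k1 k2) h1)
        (lev_top_aux_mono s (le_max_right k1 k2) h2)
    | mul x y _ _ hx hy =>
      intro z hz
      rw [← mul_assoc]
      exact hy _ (hx z hz)
  have h1 := key z 1 ⟨0, (Om s).one_mem⟩
  rwa [one_mul] at h1

end target

end Pool.SF
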