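import Pool.Agent.Helper702.SF.SimpleD

set_option autoImplicit false
set_option linter.unusedSectionVars false

namespace Pool.SF

section target
variable {K B : Type} [DecidableEq K] [Ring B] {u u' : K → B}


theorem wd'_append (u' : K → B) (J L : List K) : wd' u' (J ++ L) = wd' u' L * wd' u' J := by
  simp [wd']

end target

end Pool.SF
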