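import Pool.Agent.Helper702.SF.SimpleD

set_option autoImplicit false

set_option linter.unusedSectionVars false

namespace Pool.SF
section target
variable {K B : Type} [DecidableEq K] [Ring B] {u u' : K → B}
theorem wd'_wd_ne (h : Orth u u') (J L : List K) (h1 : ¬ J <+: L) (h2 : ¬ L <+: J) :
    wd' u' J * wd u L = 0 := by
  induction J generalizing L with
  | nil => exact absurd (List.nil_prefix) h1
  | cons a J' ih =>
    cases L with
    | nil => exact absurd (List.nil_prefix) h2
    | cons b L' =>
      have e1 : wd' u' (a :: J') = wd' u' J' * u' a := by
        unfold wd'
        rw [List.reverse_cons, List.map_append, List.prod_append]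
        simp
      have e2 : wd u (b :: L') = u b * wd u L' := by
        unfold wd
        rw [List.map_cons, List.prod_cons]
      have e3 : wd' u' (a :: J') * wd u (b :: L') = wd' u' J' * (u' a * u b) * wd u L' := by
        rw [e1, e2]
        simp only [mul_assoc]
      rw [e3, h a b]
      by_cases hab : a = b
      · rw [if_pos hab, mul_one]
        subst hab
        apply ih
        · intro h3
          exact h1 (List.cons_prefix_cons.2 ⟨rfl, h3⟩)
        · intro h3
          exact h2 (List.cons_prefix_cons.2 ⟨rfl, h3⟩)
      · rw [if_neg hab, mul_zero, zero_mul]

end target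

end Pool.SF
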