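import Pool.Agent.Helper702.SF.SimpleD
import Pool.Agent.Helper702.SF.P_wd_append
import Pool.Agent.Helper702.SF.P_wdp_append
import Pool.Agent.Helper702.SF.P_wdp_wd
import Pool.Agent.Helper702.SF.P_wdp_wd_ne

set_option autoImplicit false

set_option linter.unusedSectionVars false

namespace Pool.SF
section target
variable {K B : Type} [DecidableEq K] [Ring B] {u u' : K → B}
/-- Aux: prefix incomparability. -/
theorem aux_not_prefix {K : Type} {a b : K} (hab : a ≠ b) (N : ℕ) (J L : List K)
    (hL : L.length ≤ N) (hne : J ≠ L) :
    ¬ (J ++ (List.replicate N a ++ [b])) <+: (L ++ (List.replicate N a ++ [b])) := by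
  intro h
  have hlen := h.length_le
  simp only [List.length_append, List.length_replicate, List.length_cons, List.length_nil] at hlen
  have hle : J.length ≤ L.length := by omega
  rcases Nat.lt_or_ge J.length L.length with hlt | hge
  · obtain ⟨t, ht⟩ := h
    have h1 : (J ++ (List.replicate N a ++ [b]) ++ t)[J.length + N]? = some b := by
      rw [List.append_assoc, List.getElem?_append_right (by omega), List.append_assoc,
        List.getElem?_append_right (by simp)]
      simp
    have h2 : (L ++ (List.replicate N a ++ [b]))[J.length + N]? = some a := by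
      rw [List.getElem?_append_right (by omega),
        List.getElem?_append_left (by rw [List.length_replicate]; omega)]
      rw [List.getElem?_replicate, if_pos (by omega)]
    rw [ht, h2] at h1
    exact hab (Option.some.inj h1)
  · have h3 : J ++ (List.replicate N a ++ [b]) = L ++ (List.replicate N a ++ [b]) := by
      apply h.eq_of_length
      simp only [List.length_append, List.length_replicate, List.length_cons, List.length_nil]
      omega
    exact hne (List.append_cancel_right h3)

/-- Generic conjugation: `M = replicate N a ++ [b]` for large `N`. -/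
theorem generic_conj (h : Orth u u') {a b : K} (hab : a ≠ b) (W : Finset (List K)) (J0 : List K) :
    ∃ M : List K, ∀ J ∈ W, wd' u' M * (wd' u' J0 * wd u J) * wd u M = if J = J0 then 1 else 0 := by
  obtain ⟨N, hN⟩ : ∃ N, N = J0.length + W.sup List.length := ⟨_, rfl⟩
  refine ⟨List.replicate N a ++ [b], ?_⟩
  intro J hJ
  have hJl : J.length ≤ W.sup List.length := Finset.le_sup (f := List.length) hJ
  have e : wd' u' (List.replicate N a ++ [b]) * (wd' u' J0 * wd u J) *
      wd u (List.replicate N a ++ [b]) =
      wd' u' (J0 ++ (List.replicate N a ++ [b])) * wd u (J ++ (List.replicate N a ++ [b])) := by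
    rw [wd'_append u' J0, wd_append u J]
    simp only [mul_assoc]
  rw [e]
  by_cases hJJ : J = J0
  · rw [if_pos hJJ, hJJ]
    exact wd'_wd h _
  · rw [if_neg hJJ]
    apply wd'_wd_ne h
    · exact aux_not_prefix hab N J0 J (by omega) (fun e => hJJ e.symm)
    · exact aux_not_prefix hab N J J0 (by omega) hJJ

end target

end Pool.SF
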