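import Pool.Agent.Helper702.SF.SimpleD
import Pool.Agent.Helper702.SF.P_wd_append
import Pool.Agent.Helper702.SF.P_wdp_append
import Pool.Agent.Helper702.SF.P_wdp_wd
import Pool.Agent.Helper702.SF.P_wdp_wd_ne
import Pool.Agent.Helper702.SF.P_generic_conj

set_option autoImplicit false

set_option linter.unusedSectionVars false

namespace Pool.SF
section target
variable {F B C G I S E : Type} [Field F] [Ring B] [Algebra F B] [Ring C] [Algebra F C]
  [Fintype G] [DecidableEq G] [Fintype I] [DecidableEq I] [Fintype S] [DecidableEq S]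
  [Fintype E] [DecidableEq E]
  (s : Sys F B C G I S E)

theorem loc_iso_comm {K : Type} {u v : K → B} (h : ∀ i j, Commute (u i) (v j)) (P Q : List K) :
    Commute ((P.map u).prod) ((Q.map v).prod) := by
  refine Commute.list_prod_left _ _ fun a ha => ?_
  refine Commute.list_prod_right _ _ fun b hb => ?_
  obtain ⟨i, -, rfl⟩ := List.mem_map.1 ha
  obtain ⟨j, -, rfl⟩ := List.mem_map.1 hb
  exact h i j

theorem loc_iso_comm1 {K : Type} {v : K → B} {g : B} (h : ∀ j, Commute g (v j)) (Q : List K) :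
    Commute g ((Q.map v).prod) := by
  refine Commute.list_prod_right _ _ fun b hb => ?_
  obtain ⟨j, -, rfl⟩ := List.mem_map.1 hb
  exact h j

theorem loc_iso_repr (z : B) (hz : z ∈ Loc s) :
    ∃ f : (List (Kd G I S E) × List (Kd G I S E)) →₀ C,
      z = f.sum fun p c => wd s.x p.1 * wd s.y p.2 * s.γ c := by
  unfold Loc at hz
  induction hz using Submodule.span_induction with
  | mem z h =>
    obtain ⟨p, c, rfl⟩ := h
    refine ⟨Finsupp.single p c, ?_⟩
    rw [Finsupp.sum_single_index]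
    rw [map_zero, mul_zero]
  | zero => exact ⟨0, by rw [Finsupp.sum_zero_index]⟩
  | add z1 z2 _ _ h1 h2 =>
    obtain ⟨f1, rfl⟩ := h1
    obtain ⟨f2, rfl⟩ := h2
    refine ⟨f1 + f2, ?_⟩
    classical
    rw [Finsupp.sum_add_index']
    · intro a
      rw [map_zero, mul_zero]
    · intro a b1 b2
      rw [map_add, mul_add]
  | smul r z _ h =>
    obtain ⟨f, rfl⟩ := h
    refine ⟨r • f, ?_⟩
    rw [Finsupp.sum_smul_index', Finsupp.smul_sum]
    · refine Finsupp.sum_congr fun p _ => ?_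
      rw [map_smul, mul_smul_comm]
    · intro a
      rw [map_zero, mul_zero]

theorem loc_iso_step1 (P Q A D : List (Kd G I S E)) (c : C) :
    wd s.x P * wd s.y Q * s.γ c * (wd s.x A * wd s.y D) =
      wd s.x (P ++ A) * wd s.y (Q ++ D) * s.γ c := by
  have c1 : s.γ c * wd s.x A = wd s.x A * s.γ c := loc_iso_comm1 (s.cx c) A
  have c2 : s.γ c * wd s.y D = wd s.y D * s.γ c := loc_iso_comm1 (s.cy c) D
  have c3 : wd s.x A * wd s.y Q = wd s.y Q * wd s.x A := loc_iso_comm s.cxy A Q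
  calc
    _ = wd s.x P * wd s.y Q * (s.γ c * wd s.x A) * wd s.y D := by noncomm_ring
    _ = wd s.x P * (wd s.y Q * wd s.x A) * (s.γ c * wd s.y D) := by
      rw [c1]
      noncomm_ring
    _ = _ := by
      rw [c2, ← c3, wd_append, wd_append]
      noncomm_ring

theorem loc_iso_step2 (P P0 M Q Q0 M' : List (Kd G I S E)) (c : C) :
    (wd' s.x' M * wd' s.x' P0) * (wd' s.y' M' * wd' s.y' Q0) *
      (wd s.x P * wd s.y Q * s.γ c) * (wd s.x M * wd s.y M') =
    (wd' s.x' M * (wd' s.x' P0 * wd s.x P) * wd s.x M) *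
      (wd' s.y' M' * (wd' s.y' Q0 * wd s.y Q) * wd s.y M') * s.γ c := by
  have c1 : s.γ c * wd s.x M = wd s.x M * s.γ c := loc_iso_comm1 (s.cx c) M
  have c2 : s.γ c * wd s.y M' = wd s.y M' * s.γ c := loc_iso_comm1 (s.cy c) M'
  have c3 : wd s.x M * wd s.y Q = wd s.y Q * wd s.x M := loc_iso_comm s.cxy M Q
  have c4 : ∀ P R, wd s.x P * wd' s.y' R = wd' s.y' R * wd s.x P := fun P R =>
    loc_iso_comm s.cxy' P R.reverse
  calc
    _ = wd' s.x' M * wd' s.x' P0 * wd' s.y' M' * (wd' s.y' Q0 * wd s.x P) * wd s.y Q *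
        (s.γ c * wd s.x M) * wd s.y M' := by noncomm_ring
    _ = wd' s.x' M * wd' s.x' P0 * (wd' s.y' M' * wd s.x P) * wd' s.y' Q0 * (wd s.y Q *
        wd s.x M) * (s.γ c * wd s.y M') := by
      rw [← c4, c1]
      noncomm_ring
    _ = wd' s.x' M * wd' s.x' P0 * wd s.x P * wd' s.y' M' * (wd' s.y' Q0 * wd s.x M) *
        wd s.y Q * wd s.y M' * s.γ c := by
      rw [← c4, ← c3, c2]
      noncomm_ring
    _ = wd' s.x' M * wd' s.x' P0 * wd s.x P * (wd' s.y' M' * wd s.x M) * wd' s.y' Q0 *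
        wd s.y Q * wd s.y M' * s.γ c := by
      rw [← c4]
      noncomm_ring
    _ = _ := by
      rw [← c4]
      noncomm_ring

/-- A nonzero local element generates the whole algebra, even after a multiplication by words. -/
theorem loc_iso [IsSimpleRing C] (J : TwoSidedIdeal B) (z : B) (hz : z ∈ Loc s)
    (A D : List (Kd G I S E)) (hJ : z * (wd s.x A * wd s.y D) ∈ J) : z = 0 ∨ (1 : B) ∈ J := by
  classical
  obtain ⟨f, hf⟩ := loc_iso_repr s z hz
  rcases eq_or_ne f 0 with h0 | h0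
  · left
    rw [hf, h0, Finsupp.sum_zero_index]
  right
  obtain ⟨p0, hp0⟩ : ∃ p0, p0 ∈ f.support := by
    rw [← Finsupp.support_nonempty_iff] at h0
    exact h0
  have hc0 : f p0 ≠ 0 := Finsupp.mem_support_iff.1 hp0
  have hab : (Kd.kill : Kd G I S E) ≠ Kd.noop := by simp
  obtain ⟨M, hM⟩ := generic_conj s.xx hab (f.support.image fun p => p.1 ++ A) (p0.1 ++ A)
  obtain ⟨M', hM'⟩ := generic_conj s.yy hab (f.support.image fun p => p.2 ++ D) (p0.2 ++ D)
  have h1 : z * (wd s.x A * wd s.y D) =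
      ∑ p ∈ f.support, wd s.x (p.1 ++ A) * wd s.y (p.2 ++ D) * s.γ (f p) := by
    rw [hf, Finsupp.sum, Finset.sum_mul]
    exact Finset.sum_congr rfl fun p _ => loc_iso_step1 s _ _ _ _ _
  have h2 : (wd' s.x' M * wd' s.x' (p0.1 ++ A)) * (wd' s.y' M' * wd' s.y' (p0.2 ++ D)) *
      (z * (wd s.x A * wd s.y D)) * (wd s.x M * wd s.y M') = s.γ (f p0) := by
    rw [h1, Finset.mul_sum, Finset.sum_mul, Finset.sum_eq_single p0]
    · rw [loc_iso_step2, hM _ (Finset.mem_image_of_mem _ hp0), hM' _ (Finset.mem_image_of_mem _ hp0),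
        if_pos rfl, if_pos rfl, one_mul, one_mul]
    · intro p hp hne
      rw [loc_iso_step2, hM _ (Finset.mem_image_of_mem (fun p => p.1 ++ A) hp),
        hM' _ (Finset.mem_image_of_mem (fun p => p.2 ++ D) hp)]
      by_cases e1 : p.1 ++ A = p0.1 ++ A
      · by_cases e2 : p.2 ++ D = p0.2 ++ D
        · exact absurd (Prod.ext (List.append_cancel_right e1) (List.append_cancel_right e2)) hne
        · rw [if_neg e2, mul_zero, zero_mul]
      · rw [if_neg e1, zero_mul, zero_mul]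
    · intro h
      exact absurd hp0 h
  have h3 : s.γ (f p0) ∈ J := by
    rw [← h2]
    exact J.mul_mem_right _ _ (J.mul_mem_left _ _ hJ)
  have h4 : f p0 ∈ TwoSidedIdeal.comap s.γ J := by
    rw [TwoSidedIdeal.mem_comap]
    exact h3
  have h5 : TwoSidedIdeal.comap s.γ J = ⊤ := by
    rcases eq_bot_or_eq_top (TwoSidedIdeal.comap s.γ J) with h | h
    · rw [h] at h4
      exact absurd ((TwoSidedIdeal.mem_bot C).1 h4) hc0
    · exact h
  have h6 : (1 : C) ∈ TwoSidedIdeal.comap s.γ J := by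
    rw [h5]
    exact TwoSidedIdeal.mem_top C
  rw [TwoSidedIdeal.mem_comap, map_one] at h6
  exact h6

end target

end Pool.SF
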