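import Pool.Agent.Helper702.SF.SimpleD

set_option autoImplicit false
set_option linter.unusedSectionVars false

namespace Pool.SF

section target
variable {F B C G I S E : Type} [Field F] [Ring B] [Algebra F B] [Ring C] [Algebra F C]
  [Fintype G] [DecidableEq G] [Fintype I] [DecidableEq I] [Fintype S] [DecidableEq S]
  [Fintype E] [DecidableEq E]
  {N : ℕ} {idx : Kd G I S E ≃ Fin N} {γ : C →ₐ[F] B} {cgen : G → C} {R : B}
  {u u' v v' : Kd G I S E → B}


theorem cmdX (s : Sys F B C G I S E) : CmdRd s.idx s.γ s.cgen s.RX s.x s.x' s.y s.y' := by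
  exact ⟨s.idx_kill, s.idx_noop, s.cgen_top, s.xx, s.yy, s.cxy, s.cxy', s.cx'y, s.cx'y', s.cx,
    s.cx', s.cy, s.cy', s.RX_noop, s.RX_fin, s.RX_cq, s.RX_cs, s.RX_cg, s.RX_other⟩

end target

end Pool.SF
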