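import Pool.Agent.Helper702.SF.SimpleD

set_option autoImplicit false

set_option linter.unusedSectionVars false

namespace Pool.SF
section target
variable {F B C G I S E : Type} [Field F] [Ring B] [Algebra F B] [Ring C] [Algebra F C]
  [Fintype G] [DecidableEq G] [Fintype I] [DecidableEq I] [Fintype S] [DecidableEq S]
  [Fintype E] [DecidableEq E]
  {N : ℕ} {idx : Kd G I S E ≃ Fin N} {γ : C →ₐ[F] B} {cgen : G → C} {R : B}
  {u u' v v' : Kd G I S E → B}
theorem cga_wd {K : Type} {u : K → B} {X : B} (hX : ∀ j, Commute X (u j)) (J : List K) :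
    Commute X (wd u J) := by
  unfold wd
  apply Commute.list_prod_right
  intro x hx
  obtain ⟨j, -, rfl⟩ := List.mem_map.1 hx
  exact hX j

theorem cga_qq_comm (h : CmdRd idx γ cgen R u u' v v') (j : Kd G I S E) :
    Commute (qq idx v v') (u j) := by
  unfold qq
  refine Commute.sum_left _ _ _ fun a _ => Commute.sum_left _ _ _ fun b _ => ?_
  split_ifs
  · exact Commute.mul_left (h.cuv j a).symm (h.cuv' j b).symm
  · exact Commute.zero_left _

theorem cga_qq_mul (h : CmdRd idx γ cgen R u u' v v') (k : Kd G I S E) :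
    qq idx v v' * v k = ∑ a, if (idx k : ℕ) = (idx a : ℕ) + 1 then v a else 0 := by
  unfold qq
  rw [Finset.sum_mul]
  refine Finset.sum_congr rfl fun a _ => ?_
  rw [Finset.sum_mul, Finset.sum_eq_single k]
  · split_ifs with h1
    · rw [mul_assoc, h.vv k k, if_pos rfl, mul_one]
    · rw [zero_mul]
  · intro b _ hb
    split_ifs with h1
    · rw [mul_assoc, h.vv b k, if_neg hb, mul_zero]
    · rw [zero_mul]
  · intro h1; exact absurd (Finset.mem_univ _) h1

theorem cga_qq_noop (h : CmdRd idx γ cgen R u u' v v') : qq idx v v' * v .noop = v .kill := by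
  rw [cga_qq_mul h, Finset.sum_eq_single .kill]
  · rw [if_pos (by rw [h.idx_noop, h.idx_kill])]
  · intro a _ ha
    rw [if_neg]
    intro h1
    apply ha
    apply idx.injective
    apply Fin.ext
    rw [h.idx_noop] at h1
    rw [h.idx_kill]
    omega
  · intro h1; exact absurd (Finset.mem_univ _) h1

theorem cga_qq_kill (h : CmdRd idx γ cgen R u u' v v') : qq idx v v' * v .kill = 0 := by
  rw [cga_qq_mul h]
  refine Finset.sum_eq_zero fun a _ => ?_
  rw [if_neg]
  rw [h.idx_kill]
  omega

theorem cga_main (h : CmdRd idx γ cgen R u u' v v') (J : List (Kd G I S E)) :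
    ∀ (m : ℕ), J.length < m → ∀ c : C,
      R * (wd u J * u .kill) * (v .noop ^ m * γ c) = 0 ∧
      R * (wd u J * u .kill) * (v .kill * (v .noop ^ m * γ c)) = 0 := by
  induction J with
  | nil =>
    intro m hm c
    have h0 : R * u .kill = 0 := h.other _ (by simp [Kd.isCmd]) (by simp)
    simp only [wd, List.map_nil, List.prod_nil, one_mul]
    rw [h0]; simp
  | cons j J ih =>
    intro m hm c
    obtain ⟨m, rfl⟩ : ∃ m', m = m' + 1 := ⟨m - 1, by omega⟩
    have hm' : J.length < m := by simpa using hm
    have hm'' : J.length < m + 1 := by omega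
    have hw : wd u (j :: J) * u .kill = u j * (wd u J * u .kill) := by
      simp only [wd, List.map_cons, List.prod_cons]; rw [mul_assoc]
    set W : B := wd u J * u .kill with hW
    have hcomm : ∀ X : B, (∀ j, Commute X (u j)) → X * W = W * X := fun X hX =>
      ((cga_wd hX J).mul_right (hX .kill)).eq
    rw [hw]
    have key : ∀ (X T : B), R * u j = R * X → (∀ j, Commute X (u j)) →
        R * (u j * W) * T = R * W * (X * T) := by
      intro X T h1 h2
      calc R * (u j * W) * T = (R * u j) * W * T := by noncomm_ring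
        _ = R * (X * W) * T := by rw [h1]; noncomm_ring
        _ = R * W * (X * T) := by rw [hcomm X h2]; noncomm_ring
    have hn : v .noop ^ (m + 1) = v .noop * v .noop ^ m := pow_succ' _ _
    have hbad : ∀ k : Kd G I S E, ¬ k.isCmd → k ≠ .fin → j = k → ∀ T, R * (u j * W) * T = 0 := by
      rintro k h1 h2 rfl T
      have : R * (u j * W) * T = (R * u j) * W * T := by noncomm_ring
      rw [this, h.other _ h1 h2]; simp
    cases j with
    | kill => exact ⟨hbad _ (by simp [Kd.isCmd]) (by simp) rfl _, hbad _ (by simp [Kd.isCmd]) (by simp) rfl _⟩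
    | hash => exact ⟨hbad _ (by simp [Kd.isCmd]) (by simp) rfl _, hbad _ (by simp [Kd.isCmd]) (by simp) rfl _⟩
    | bot => exact ⟨hbad _ (by simp [Kd.isCmd]) (by simp) rfl _, hbad _ (by simp [Kd.isCmd]) (by simp) rfl _⟩
    | ex a => exact ⟨hbad _ (by simp [Kd.isCmd]) (by simp) rfl _, hbad _ (by simp [Kd.isCmd]) (by simp) rfl _⟩
    | inp i => exact ⟨hbad _ (by simp [Kd.isCmd]) (by simp) rfl _, hbad _ (by simp [Kd.isCmd]) (by simp) rfl _⟩
    | mk s => exact ⟨hbad _ (by simp [Kd.isCmd]) (by simp) rfl _, hbad _ (by simp [Kd.isCmd]) (by simp) rfl _⟩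
    | ext e => exact ⟨hbad _ (by simp [Kd.isCmd]) (by simp) rfl _, hbad _ (by simp [Kd.isCmd]) (by simp) rfl _⟩
    | noop =>
      have k1 := fun T => key 1 T (by rw [h.noop, mul_one]) (fun j => Commute.one_left _)
      rw [k1, k1, one_mul, one_mul]
      exact ih (m + 1) hm'' c
    | cg g =>
      have k1 := fun T => key (γ (cgen g)) T (h.cg g) (fun j => h.cu _ j)
      rw [k1, k1]
      have e1 : γ (cgen g) * (v .noop ^ (m + 1) * γ c) = v .noop ^ (m + 1) * γ (cgen g * c) := by
        rw [← mul_assoc, ((h.cv (cgen g) .noop).pow_right (m + 1)).eq, mul_assoc, map_mul]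
      have e2 : γ (cgen g) * (v .kill * (v .noop ^ (m + 1) * γ c)) =
          v .kill * (v .noop ^ (m + 1) * γ (cgen g * c)) := by
        rw [← mul_assoc, (h.cv (cgen g) .kill).eq, mul_assoc, e1]
      rw [e1, e2]
      exact ih (m + 1) hm'' _
    | cq =>
      have k1 := fun T => key (qq idx v v') T h.cq (cga_qq_comm h)
      rw [k1, k1]
      constructor
      · have : qq idx v v' * (v .noop ^ (m + 1) * γ c) = v .kill * (v .noop ^ m * γ c) := by
          rw [hn, ← cga_qq_noop h]; noncomm_ring
        rw [this]
        exact (ih m hm' c).2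
      · rw [← mul_assoc (qq idx v v'), cga_qq_kill h, zero_mul, mul_zero]
    | cs =>
      have k1 := fun T => key (v' .kill) T h.cs (fun j => (h.cuv' j .kill).symm)
      rw [k1, k1]
      constructor
      · have h1 : v' .kill * v .noop = 0 := by rw [h.vv]; simp
        have : v' .kill * (v .noop ^ (m + 1) * γ c) = (v' .kill * v .noop) * (v .noop ^ m * γ c) := by
          rw [hn]; noncomm_ring
        rw [this, h1, zero_mul, mul_zero]
      · have h1 : v' .kill * v .kill = 1 := by rw [h.vv]; simp
        rw [← mul_assoc (v' .kill), h1, one_mul]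
        exact (ih (m + 1) hm'' c).1
    | fin =>
      have k1 : ∀ T, R * (u .fin * W) * T = W * (v' .fin * T) := by
        intro T
        calc R * (u .fin * W) * T = (R * u .fin) * W * T := by noncomm_ring
          _ = (v' .fin * W) * T := by rw [h.fin]
          _ = W * (v' .fin * T) := by
            rw [hcomm _ (fun j => (h.cuv' j .fin).symm)]; noncomm_ring
      rw [k1, k1]
      have h1 : v' .fin * v .noop = 0 := by rw [h.vv]; simp
      have h2 : v' .fin * v .kill = 0 := by rw [h.vv]; simp
      constructor
      · have : v' .fin * (v .noop ^ (m + 1) * γ c) = (v' .fin * v .noop) * (v .noop ^ m * γ c) := by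
          rw [hn]; noncomm_ring
        rw [this, h1, zero_mul, mul_zero]
      · rw [← mul_assoc (v' .fin), h2, zero_mul, mul_zero]

/-- A command reader with a finite word before the letter `kill` is annihilated by a long word of
letters `noop` of the other stack. -/
theorem cmd_garbage (h : CmdRd idx γ cgen R u u' v v') (J : List (Kd G I S E)) (m : ℕ)
    (hm : J.length < m) : R * wd u J * u .kill * v .noop ^ m = 0 := by
  have := (cga_main h J m hm 1).1
  rw [map_one, mul_one] at this
  rw [mul_assoc R]
  exact this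

end target

end Pool.SF
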