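import Pool.Agent.Helper702.SF.SimpleD

set_option autoImplicit false

set_option linter.unusedSectionVars false

namespace Pool.SF
section target
variable {F B C G I S E : Type} [Field F] [Ring B] [Algebra F B] [Ring C] [Algebra F C]
  [Fintype G] [DecidableEq G] [Fintype I] [DecidableEq I] [Fintype S] [DecidableEq S]
  [Fintype E] [DecidableEq E]
  {N : ℕ} {idx : Kd G I S E ≃ Fin N} {γ : C →ₐ[F] B} {cgen : G → C} {R : B}
  {u u' v v' : Kd G I S E → B}
lemma j20927_comm (u : Kd G I S E → B) (w : B) (h : ∀ j, Commute (u j) w) :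
    ∀ α ∈ Algebra.adjoin F (Set.range u), Commute α w := by
  intro α hα
  induction hα using Algebra.adjoin_induction with
  | mem x hx =>
    obtain ⟨j, rfl⟩ := hx
    exact h j
  | algebraMap r => exact Algebra.commutes r w
  | add x y _ _ hx hy => exact hx.add_left hy
  | mul x y _ _ hx hy => exact hx.mul_left hy

/-- the elements which are commands -/
def j20927_X (F : Type) {B G I S E : Type} [Field F] [Ring B] [Algebra F B]
    (R : B) (u : Kd G I S E → B) : Subalgebra F B where
  carrier := {w | (∀ α ∈ Algebra.adjoin F (Set.range u), Commute α w) ∧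
    ∃ α ∈ Algebra.adjoin F (Set.range u), R * α = R * w}
  mul_mem' := by
    rintro w1 w2 ⟨h1, α1, hα1, e1⟩ ⟨h2, α2, hα2, e2⟩
    refine ⟨fun α hα => (h1 α hα).mul_right (h2 α hα), α2 * α1,
      Subalgebra.mul_mem _ hα2 hα1, ?_⟩
    rw [← mul_assoc, e2, mul_assoc, ← (h2 α1 hα1).eq, ← mul_assoc, e1, mul_assoc]
  add_mem' := by
    rintro w1 w2 ⟨h1, α1, hα1, e1⟩ ⟨h2, α2, hα2, e2⟩
    refine ⟨fun α hα => (h1 α hα).add_right (h2 α hα), α1 + α2,
      Subalgebra.add_mem _ hα1 hα2, ?_⟩
    rw [mul_add, mul_add, e1, e2]
  algebraMap_mem' := by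
    intro r
    exact ⟨fun α _ => (Algebra.commutes r α).symm, algebraMap F B r,
      Subalgebra.algebraMap_mem _ r, rfl⟩

/-- Every element generated by the strips of the other stack and by `C` is a command. -/
theorem cmd_word (h : CmdRd idx γ cgen R u u' v v') (w : B)
    (hw : w ∈ Algebra.adjoin F (Set.range γ ∪ Set.range v')) :
    ∃ α ∈ Algebra.adjoin F (Set.range u), R * α = R * w := by
  classical
  have hu : ∀ j, u j ∈ Algebra.adjoin F (Set.range u) := fun j =>
    Algebra.subset_adjoin ⟨j, rfl⟩
  have hle : Algebra.adjoin F (Set.range γ ∪ Set.range v') ≤ j20927_X F R u := by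
    have hγ : ∀ c, γ c ∈ j20927_X F R u := by
      intro c
      have h1 : (⊤ : Subalgebra F C) ≤ (j20927_X F R u).comap γ := by
        rw [← h.cgen_top]
        refine Algebra.adjoin_le ?_
        rintro _ ⟨g, rfl⟩
        show γ (cgen g) ∈ j20927_X F R u
        exact ⟨j20927_comm u _ fun j => (h.cu _ j).symm, u (.cg g), hu _, h.cg g⟩
      exact h1 (Algebra.mem_top)
    have hkill : v' .kill ∈ j20927_X F R u :=
      ⟨j20927_comm u _ fun j => h.cuv' j _, u .cs, hu _, h.cs⟩
    have hq : qq idx v v' ∈ j20927_X F R u := by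
      refine ⟨j20927_comm u _ fun j => ?_, u .cq, hu _, h.cq⟩
      unfold qq
      refine Commute.sum_right _ _ _ fun a _ => Commute.sum_right _ _ _ fun b _ => ?_
      split_ifs
      · exact (h.cuv j a).mul_right (h.cuv' j b)
      · exact Commute.zero_right _
    have hstep : ∀ a b, (idx b : ℕ) = (idx a : ℕ) + 1 → v' b = v' a * qq idx v v' := by
      intro a b hab
      unfold qq
      rw [Finset.mul_sum, Finset.sum_eq_single a]
      · rw [Finset.mul_sum, Finset.sum_eq_single b]
        · rw [if_pos hab, ← mul_assoc, h.vv a a, if_pos rfl, one_mul]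
        · intro b' _ hb'
          rw [if_neg, mul_zero]
          intro h2
          exact hb' (idx.injective (Fin.ext (by omega)))
        · intro h2
          exact absurd (Finset.mem_univ b) h2
      · intro a' _ ha'
        rw [Finset.mul_sum]
        refine Finset.sum_eq_zero fun b' _ => ?_
        split_ifs
        · rw [← mul_assoc, h.vv a a', if_neg (Ne.symm ha'), zero_mul]
        · rw [mul_zero]
      · intro h2
        exact absurd (Finset.mem_univ a) h2
    have hall : ∀ n : ℕ, ∀ j, (idx j : ℕ) = n → v' j ∈ j20927_X F R u := by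
      intro n
      induction n with
      | zero =>
        intro j hj
        have : j = .kill := idx.injective (Fin.ext (by rw [hj, h.idx_kill]))
        rw [this]
        exact hkill
      | succ n ih =>
        intro j hj
        have hn : n < N := by
          have := (idx j).2
          omega
        have h3 : (idx (idx.symm ⟨n, hn⟩) : ℕ) = n := by
          rw [Equiv.apply_symm_apply]
        rw [hstep (idx.symm ⟨n, hn⟩) j (by rw [h3, hj])]
        exact Subalgebra.mul_mem _ (ih _ h3) hq
    refine Algebra.adjoin_le ?_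
    rintro x (⟨c, rfl⟩ | ⟨j, rfl⟩)
    · exact hγ c
    · exact hall _ j rfl
  exact (hle hw).2

end target

end Pool.SF
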