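import Pool.Agent.Helper702.SF.SimpleD

set_option autoImplicit false

set_option linter.unusedSectionVars false

namespace Pool.SF
section target
variable {F C : Type} [Field F] [Ring C] [Algebra F C]
section densityhelpers
variable {C : Type} [Ring C]

/-- multiplication operators -/
def density_MO (T : C → C) : Prop :=
  ∃ l : List (C × C), ∀ x, T x = (l.map (fun p => p.1 * x * p.2)).sum

theorem density_one (a b : C) : density_MO (fun x => a * x * b) :=
  ⟨[(a, b)], fun x => by simp⟩

theorem density_zero : density_MO (fun _ : C => (0 : C)) :=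
  ⟨[], fun x => by simp⟩

theorem density_add {T U : C → C} (hT : density_MO T) (hU : density_MO U) :
    density_MO (fun x => T x + U x) := by
  obtain ⟨l, hl⟩ := hT
  obtain ⟨m, hm⟩ := hU
  exact ⟨l ++ m, fun x => by simp [hl, hm]⟩

theorem density_lr (c d : C) {T : C → C} (hT : density_MO T) :
    density_MO (fun x => c * T x * d) := by
  obtain ⟨l, hl⟩ := hT
  refine ⟨l.map (fun p => (c * p.1, p.2 * d)), fun x => ?_⟩
  simp only [hl x, List.map_map]
  induction l with
  | nil => simp
  | cons p l ih =>
    have ih' : c * (l.map (fun p => p.1 * x * p.2)).sum * d =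
        (l.map ((fun p => p.1 * x * p.2) ∘ fun p => (c * p.1, p.2 * d))).sum := by
      clear hl
      clear ih
      induction l with
      | nil => simp
      | cons q l ih =>
        simp only [List.map_cons, List.sum_cons, Function.comp_apply, mul_add, add_mul]
        rw [← ih]
        simp only [mul_assoc]
    simp only [List.map_cons, List.sum_cons, Function.comp_apply, mul_add, add_mul]
    rw [← ih']
    simp only [mul_assoc]

theorem density_comp {T U : C → C} (hT : density_MO T) (hU : density_MO U) :
    density_MO (fun x => T (U x)) := by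
  obtain ⟨l, hl⟩ := hT
  have : (fun x => T (U x)) = fun x => (l.map (fun p => p.1 * U x * p.2)).sum := by
    funext x
    exact hl (U x)
  rw [this]
  clear this hl
  induction l with
  | nil => simpa using density_zero
  | cons p l ih =>
    have := density_add (density_lr p.1 p.2 hU) ih
    simpa using this

theorem density_mapzero {T : C → C} (hT : density_MO T) : T 0 = 0 := by
  obtain ⟨l, hl⟩ := hT
  rw [hl 0]
  induction l with
  | nil => simp
  | cons p l ih => simp

theorem density_mapadd {T : C → C} (hT : density_MO T) (x y : C) : T (x + y) = T x + T y := by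
  obtain ⟨l, hl⟩ := hT
  rw [hl, hl, hl]
  clear hl
  induction l with
  | nil => simp
  | cons p l ih =>
    simp only [List.map_cons, List.sum_cons]
    rw [ih]
    noncomm_ring

theorem density_mapsmul {F : Type} [Field F] [Algebra F C] {T : C → C} (hT : density_MO T) (r : F)
    (x : C) : T (r • x) = r • T x := by
  obtain ⟨l, hl⟩ := hT
  rw [hl, hl]
  clear hl
  induction l with
  | nil => simp
  | cons p l ih =>
    simp only [List.map_cons, List.sum_cons]
    rw [ih, smul_add, mul_smul_comm, smul_mul_assoc]

theorem density_ideal [IsSimpleRing C] (v : C) (hv : v ≠ 0) : ∃ T : C → C, density_MO T ∧ T v = 1 := by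
  let J : TwoSidedIdeal C := TwoSidedIdeal.mk' {z | ∃ T : C → C, density_MO T ∧ T v = z}
    ⟨fun _ => 0, density_zero, rfl⟩
    (by
      rintro x y ⟨T, hT, rfl⟩ ⟨U, hU, rfl⟩
      exact ⟨_, density_add hT hU, rfl⟩)
    (by
      rintro x ⟨T, hT, rfl⟩
      exact ⟨_, density_lr (-1) 1 hT, by simp⟩)
    (by
      rintro x y ⟨T, hT, rfl⟩
      exact ⟨_, density_lr x 1 hT, by simp⟩)
    (by
      rintro x y ⟨T, hT, rfl⟩
      exact ⟨_, density_lr 1 y hT, by simp⟩)
  have hmem : ∀ z, z ∈ J ↔ ∃ T : C → C, density_MO T ∧ T v = z := by
    intro z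
    exact TwoSidedIdeal.mem_mk' _ _ _ _ _ _ _
  have hvJ : v ∈ J := (hmem v).2 ⟨_, density_one 1 1, by simp⟩
  have hJ : J = ⊤ := by
    rcases eq_bot_or_eq_top J with h | h
    · rw [h, TwoSidedIdeal.mem_bot] at hvJ
      exact absurd hvJ hv
    · exact h
  have h1 : (1 : C) ∈ J := by
    rw [hJ]
    trivial
  exact (hmem 1).1 h1

theorem density_main {F : Type} [Field F] [Algebra F C] [IsSimpleRing C]
    (hcen : ∀ z : C, (∀ c, z * c = c * z) → ∃ r : F, algebraMap F C r = z)
    {ι : Type} [DecidableEq ι] (n : ℕ) : ∀ (v : ι → C) (s : Finset ι), s.card = n →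
    (∀ g : ι → F, ∑ i ∈ s, g i • v i = 0 → ∀ i ∈ s, g i = 0) →
    ∀ i0 ∈ s, ∃ T : C → C, density_MO T ∧ ∀ i ∈ s, T (v i) = if i = i0 then 1 else 0 := by
  induction n with
  | zero =>
    intro v s hs _ i0 hi0
    rw [Finset.card_eq_zero] at hs
    rw [hs] at hi0
    simp at hi0
  | succ n ih =>
    intro v s hs hv i0 hi0
    by_cases hk : ∃ k ∈ s, k ≠ i0
    · obtain ⟨k, hks, hki⟩ := hk
      obtain ⟨T, hT, hTv⟩ := ih v (s.erase k) (by rw [Finset.card_erase_of_mem hks, hs]; rfl) (by
        intro g hg i hi
        have h1 := hv (Function.update g k 0) (by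
          rw [← Finset.add_sum_erase s _ hks, Function.update_self, zero_smul, zero_add, ← hg]
          apply Finset.sum_congr rfl
          intro j hj
          rw [Function.update_of_ne (Finset.ne_of_mem_erase hj)]) i (Finset.mem_of_mem_erase hi)
        rwa [Function.update_of_ne (Finset.ne_of_mem_erase hi)] at h1) i0
        (Finset.mem_erase.2 ⟨hki.symm, hi0⟩)
      have hTi0 : T (v i0) = 1 := by
        rw [hTv i0 (Finset.mem_erase.2 ⟨hki.symm, hi0⟩), if_pos rfl]
      have hTj : ∀ j ∈ s, j ≠ i0 → j ≠ k → T (v j) = 0 := by
        intro j hj h1 h2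
        rw [hTv j (Finset.mem_erase.2 ⟨h2, hj⟩), if_neg h1]
      by_cases hc : ∀ c, T (v k) * c = c * T (v k)
      · obtain ⟨r, hr⟩ := hcen _ hc
        obtain ⟨S, hS, hSv⟩ := ih (Function.update v k (v k - r • v i0)) (s.erase i0)
          (by rw [Finset.card_erase_of_mem hi0, hs]; rfl) (by
            intro g hg i hi
            have hke : k ∈ s.erase i0 := Finset.mem_erase.2 ⟨hki, hks⟩
            have h1 := hv (Function.update g i0 (-(g k * r))) (by
              rw [← Finset.add_sum_erase s _ hi0, Function.update_self,
                ← Finset.add_sum_erase (s.erase i0) _ hke, Function.update_of_ne hki]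
              rw [← Finset.add_sum_erase (s.erase i0) _ hke, Function.update_self] at hg
              have h2 : ∑ x ∈ (s.erase i0).erase k, g x • Function.update v k (v k - r • v i0) x =
                  ∑ x ∈ (s.erase i0).erase k, Function.update g i0 (-(g k * r)) x • v x := by
                apply Finset.sum_congr rfl
                intro j hj
                rw [Function.update_of_ne (Finset.ne_of_mem_erase hj),
                  Function.update_of_ne (Finset.ne_of_mem_erase (Finset.mem_of_mem_erase hj))]
              rw [h2] at hg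
              rw [← hg, smul_sub, smul_smul, neg_smul]
              abel) i (Finset.mem_of_mem_erase hi)
            rwa [Function.update_of_ne (Finset.ne_of_mem_erase hi)] at h1) k
          (Finset.mem_erase.2 ⟨hki, hks⟩)
        have hSk : S (v k - r • v i0) = 1 := by
          have := hSv k (Finset.mem_erase.2 ⟨hki, hks⟩)
          rwa [Function.update_self, if_pos rfl] at this
        have hSj : ∀ j ∈ s, j ≠ i0 → j ≠ k → S (v j) = 0 := by
          intro j hj h1 h2
          have := hSv j (Finset.mem_erase.2 ⟨h1, hj⟩)
          rwa [Function.update_of_ne h2, if_neg h2] at this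
        have hSk2 : S (v k) = 1 + r • S (v i0) := by
          have h3 : v k = (v k - r • v i0) + r • v i0 := by abel
          rw [h3, density_mapadd hS, hSk, density_mapsmul hS]
        refine ⟨fun x => T x + (-(T (v k))) * (S x + (-(S (v i0))) * T x * 1) * 1,
          density_add hT (density_lr _ _ (density_add hS (density_lr _ _ hT))), ?_⟩
        intro i hi
        by_cases h1 : i = i0
        · subst h1
          rw [if_pos rfl]
          show T (v i) + (-(T (v k))) * (S (v i) + (-(S (v i))) * T (v i) * 1) * 1 = 1
          rw [hTi0]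
          simp
        · rw [if_neg h1]
          by_cases h2 : i = k
          · subst h2
            show T (v i) + (-(T (v i))) * (S (v i) + (-(S (v i0))) * T (v i) * 1) * 1 = 0
            rw [hSk2, ← hr, mul_one, mul_one, neg_mul (S (v i0)), Algebra.smul_def,
              Algebra.commutes r (S (v i0))]
            simp
          · show T (v i) + (-(T (v k))) * (S (v i) + (-(S (v i0))) * T (v i) * 1) * 1 = 0
            rw [hTj i hi h1 h2, hSj i hi h1 h2]
            simp
      · push Not at hc
        obtain ⟨c, hc⟩ := hc
        obtain ⟨P, hP, hPv⟩ := density_ideal (T (v k) * c - c * T (v k)) (sub_ne_zero.2 hc)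
        have hU : density_MO (fun x => 1 * T x * c + (-c) * T x * 1) :=
          density_add (density_lr _ _ hT) (density_lr _ _ hT)
        refine ⟨fun x => T x + (-(T (v k))) * P (1 * T x * c + (-c) * T x * 1) * 1,
          density_add hT (density_lr _ _ (density_comp hP hU)), ?_⟩
        intro i hi
        by_cases h1 : i = i0
        · subst h1
          rw [if_pos rfl]
          show T (v i) + (-(T (v k))) * P (1 * T (v i) * c + (-c) * T (v i) * 1) * 1 = 1
          rw [hTi0, show (1 * 1 * c + -c * 1 * 1 : C) = 0 by simp, density_mapzero hP]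
          simp
        · rw [if_neg h1]
          by_cases h2 : i = k
          · subst h2
            show T (v i) + (-(T (v i))) * P (1 * T (v i) * c + (-c) * T (v i) * 1) * 1 = 0
            rw [show (1 * T (v i) * c + -c * T (v i) * 1 : C) = T (v i) * c - c * T (v i) by
              noncomm_ring, hPv]
            simp
          · show T (v i) + (-(T (v k))) * P (1 * T (v i) * c + (-c) * T (v i) * 1) * 1 = 0
            rw [hTj i hi h1 h2, show (1 * 0 * c + -c * 0 * 1 : C) = 0 by simp, density_mapzero hP]
            simp
    · push Not at hk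
      have hv0 : v i0 ≠ 0 := by
        intro h0
        have h1 := hv (fun i => if i = i0 then 1 else 0) (by
          apply Finset.sum_eq_zero
          intro j hj
          rw [hk j hj, h0, smul_zero]) i0 hi0
        simp at h1
      obtain ⟨T, hT, hTv⟩ := density_ideal (v i0) hv0
      refine ⟨T, hT, ?_⟩
      intro i hi
      rw [hk i hi, hTv, if_pos rfl]

end densityhelpers

/-- Artin-Whaples density for a central simple algebra. -/
theorem density [IsSimpleRing C]
    (hcen : ∀ z : C, (∀ c, z * c = c * z) → ∃ r : F, algebraMap F C r = z)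
    {ι : Type} [DecidableEq ι] (v : ι → C) (s : Finset ι) (hv : LinearIndependent F (fun i : s => v i))
    (i0 : ι) (hi0 : i0 ∈ s) :
    ∃ (n : ℕ) (g h : Fin n → C), ∀ i ∈ s, ∑ j, g j * v i * h j = if i = i0 then 1 else 0 := by
  obtain ⟨T, ⟨l, hl⟩, hTv⟩ := density_main hcen s.card v s rfl (by
    intro g hg i hi
    have := Fintype.linearIndependent_iff.1 hv (fun i => g i) (by
      rw [Finset.sum_coe_sort s (fun i => g i • v i)]
      exact hg) ⟨i, hi⟩
    exact this) i0 hi0
  refine ⟨l.length, fun j => (l.get j).1, fun j => (l.get j).2, ?_⟩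
  intro i hi
  rw [← hTv i hi, hl, ← List.sum_ofFn]
  congr 1
  apply List.ext_get
  · simp
  · intro m h1 h2
    simp

end target

end Pool.SF
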