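import Pool.Agent.Helper702.SF.SimpleD
import Pool.Agent.Helper702.SF.P_wd_append
import Pool.Agent.Helper702.SF.P_wdp_append
import Pool.Agent.Helper702.SF.P_wdp_wd
import Pool.Agent.Helper702.SF.P_wdp_wd_ne
import Pool.Agent.Helper702.SF.P_generic_conj
import Pool.Agent.Helper702.SF.P_density
import Pool.Agent.Helper702.SF.P_cmd_word

set_option autoImplicit false

set_option linter.unusedSectionVars false

namespace Pool.SF
section target
variable {F B C G I S E : Type} [Field F] [Ring B] [Algebra F B] [Ring C] [Algebra F C]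
  [Fintype G] [DecidableEq G] [Fintype I] [DecidableEq I] [Fintype S] [DecidableEq S]
  [Fintype E] [DecidableEq E]
  {N : ℕ} {idx : Kd G I S E ≃ Fin N} {γ : C →ₐ[F] B} {cgen : G → C} {R : B}
  {u u' v v' : Kd G I S E → B}
/-- Isolation of a coefficient with the commands. -/
theorem cmd_iso (h : CmdRd idx γ cgen R u u' v v') [IsSimpleRing C]
    (hcen : ∀ z : C, (∀ c, z * c = c * z) → ∃ r : F, algebraMap F C r = z)
    {ι : Type} (bC : Module.Basis ι F C) (J : TwoSidedIdeal B)
    (s : Finset (List (Kd G I S E) × ι)) (b : List (Kd G I S E) × ι → B)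
    (hs : ∑ p ∈ s, b p * (R * wd v p.1) * γ (bC p.2) ∈ J) : ∀ p ∈ s, b p ∈ J := by
  classical
  rintro ⟨J0, i0⟩ hp0
  obtain ⟨M, hM⟩ := generic_conj h.vv (a := Kd.kill) (b := Kd.noop) (by simp)
    (s.image Prod.fst) J0
  have hv : LinearIndependent F (fun i : (s.image Prod.snd : Finset ι) => bC i) :=
    bC.linearIndependent.comp (fun i : (s.image Prod.snd : Finset ι) => (i : ι))
      Subtype.val_injective
  obtain ⟨n, g, h', hg⟩ := density hcen bC (s.image Prod.snd) hv i0
    (Finset.mem_image.2 ⟨_, hp0, rfl⟩)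
  have hwdmem : ∀ L : List (Kd G I S E),
      wd' v' L ∈ Algebra.adjoin F (Set.range γ ∪ Set.range v') := by
    intro L
    unfold wd'
    apply list_prod_mem
    intro z hz
    obtain ⟨k, -, rfl⟩ := List.mem_map.1 hz
    exact Algebra.subset_adjoin (Or.inr ⟨k, rfl⟩)
  have hw : ∀ j, γ (g j) * wd' v' M * wd' v' J0 ∈
      Algebra.adjoin F (Set.range γ ∪ Set.range v') := fun j =>
    mul_mem (mul_mem (Algebra.subset_adjoin (Or.inl ⟨g j, rfl⟩)) (hwdmem M)) (hwdmem J0)
  choose α hα hRα using fun j => cmd_word h _ (hw j)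
  have hcomm : ∀ z : B, (∀ i, Commute (u i) z) → ∀ a ∈ Algebra.adjoin F (Set.range u),
      Commute a z := by
    intro z hz a ha
    induction ha using Algebra.adjoin_induction with
    | mem x hx =>
      obtain ⟨i, rfl⟩ := hx
      exact hz i
    | algebraMap r => exact Algebra.commute_algebraMap_left r z
    | add x y _ _ hx hy => exact hx.add_left hy
    | mul x y _ _ hx hy => exact hx.mul_left hy
  have hwdc : ∀ (z : B), (∀ i, Commute z (v i)) → ∀ L : List (Kd G I S E),
      Commute z (wd v L) := by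
    intro z hz L
    unfold wd
    apply Commute.list_prod_right
    intro y hy
    obtain ⟨k, -, rfl⟩ := List.mem_map.1 hy
    exact hz k
  have hαw : ∀ j L, Commute (α j) (wd v L) := fun j L =>
    hcomm _ (fun i => hwdc _ (h.cuv i) L) _ (hα j)
  have hαc : ∀ j c, Commute (α j) (γ c) := fun j c =>
    hcomm _ (fun i => (h.cu c i).symm) _ (hα j)
  have hcw : ∀ c L, Commute (γ c) (wd v L) := fun c L => hwdc _ (h.cv c) L
  have hterm : ∀ p ∈ s, ∀ j, b p * (R * wd v p.1) * γ (bC p.2) * (α j * (wd v M * γ (h' j))) =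
      if p.1 = J0 then b p * R * γ (g j * bC p.2 * h' j) else 0 := by
    intro p hp j
    have e1 : b p * (R * wd v p.1) * γ (bC p.2) * (α j * (wd v M * γ (h' j))) =
        b p * R * γ (g j) * (wd' v' M * (wd' v' J0 * wd v p.1) * wd v M) *
          (γ (bC p.2) * γ (h' j)) := by
      calc b p * (R * wd v p.1) * γ (bC p.2) * (α j * (wd v M * γ (h' j)))
          = b p * R * (wd v p.1 * (γ (bC p.2) * α j)) * wd v M * γ (h' j) := by
            simp only [mul_assoc]
        _ = b p * R * (wd v p.1 * (α j * γ (bC p.2))) * wd v M * γ (h' j) := by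
            rw [(hαc j (bC p.2)).eq]
        _ = b p * R * (wd v p.1 * α j) * γ (bC p.2) * wd v M * γ (h' j) := by
            simp only [mul_assoc]
        _ = b p * R * (α j * wd v p.1) * γ (bC p.2) * wd v M * γ (h' j) := by
            rw [(hαw j p.1).eq]
        _ = b p * (R * α j) * wd v p.1 * (γ (bC p.2) * wd v M) * γ (h' j) := by
            simp only [mul_assoc]
        _ = b p * (R * (γ (g j) * wd' v' M * wd' v' J0)) * wd v p.1 * (wd v M * γ (bC p.2)) *
              γ (h' j) := by
            rw [hRα j, (hcw (bC p.2) M).eq]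
        _ = _ := by simp only [mul_assoc]
    rw [e1, hM p.1 (Finset.mem_image.2 ⟨p, hp, rfl⟩)]
    split_ifs with hpJ
    · rw [mul_one, map_mul, map_mul]
      simp only [mul_assoc]
    · rw [mul_zero, zero_mul]
  have hsum : ∑ j, (∑ p ∈ s, b p * (R * wd v p.1) * γ (bC p.2)) *
      (α j * (wd v M * γ (h' j))) = b (J0, i0) * R := by
    have e2 : ∀ j, (∑ p ∈ s, b p * (R * wd v p.1) * γ (bC p.2)) * (α j * (wd v M * γ (h' j))) =
        ∑ p ∈ s, if p.1 = J0 then b p * R * γ (g j * bC p.2 * h' j) else 0 := by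
      intro j
      rw [Finset.sum_mul]
      exact Finset.sum_congr rfl fun p hp => hterm p hp j
    rw [Finset.sum_congr rfl (fun j _ => e2 j), Finset.sum_comm]
    have e3 : ∀ p ∈ s, (∑ j, if p.1 = J0 then b p * R * γ (g j * bC p.2 * h' j) else 0) =
        if p = (J0, i0) then b p * R else 0 := by
      intro p hp
      by_cases h1 : p.1 = J0
      · simp only [if_pos h1]
        rw [← Finset.mul_sum, ← map_sum, hg p.2 (Finset.mem_image.2 ⟨p, hp, rfl⟩)]
        by_cases h2 : p.2 = i0
        · rw [if_pos h2, if_pos (Prod.ext h1 h2), map_one, mul_one]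
        · rw [if_neg h2, if_neg (fun h3 => h2 (congrArg Prod.snd h3)), map_zero, mul_zero]
      · simp only [if_neg h1]
        rw [Finset.sum_const_zero, if_neg (fun h3 => h1 (congrArg Prod.fst h3))]
    rw [Finset.sum_congr rfl e3, Finset.sum_ite_eq' s (J0, i0), if_pos hp0]
  have hR : b (J0, i0) * R ∈ J := by
    rw [← hsum]
    exact J.finsetSum_mem _ _ fun j _ => J.mul_mem_right _ _ hs
  have hfin : b (J0, i0) * R * (u .fin * v .fin) = b (J0, i0) := by
    have e4 : b (J0, i0) * R * (u .fin * v .fin) = b (J0, i0) * ((R * u .fin) * v .fin) := by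
      simp only [mul_assoc]
    rw [e4, h.fin, h.vv, if_pos rfl, mul_one]
  rw [← hfin]
  exact J.mul_mem_right _ _ hR

end target

end Pool.SF
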