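import Pool.Agent.Helper702.SF.SimpleD

set_option autoImplicit false

set_option linter.unusedSectionVars false

namespace Pool.SF
section target
variable {F B C G I S E : Type} [Field F] [Ring B] [Algebra F B] [Ring C] [Algebra F C]
  [Fintype G] [DecidableEq G] [Fintype I] [DecidableEq I] [Fintype S] [DecidableEq S]
  [Fintype E] [DecidableEq E]
  (s : Sys F B C G I S E)
/-- Representation with a basis of `C`. -/
theorem repr {α ι : Type} (bC : Module.Basis ι F C) (L : Submodule F B) (e : α → B) (z : B)
    (hz : z ∈ Submodule.span F {z | ∃ b ∈ L, ∃ (i : α) (c : C), z = b * e i * s.γ c}) :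
    ∃ (t : Finset (α × ι)) (b : α × ι → B), (∀ p, b p ∈ L) ∧
      z = ∑ p ∈ t, b p * e p.1 * s.γ (bC p.2) := by
  classical
  have key : ∃ (t : Finset (α × ι)) (b : α × ι → B), (∀ p, b p ∈ L) ∧ (∀ p, p ∉ t → b p = 0) ∧
      z = ∑ p ∈ t, b p * e p.1 * s.γ (bC p.2) := by
    induction hz using Submodule.span_induction with
    | mem z hz =>
      obtain ⟨b, hb, i, c, rfl⟩ := hz
      refine ⟨(bC.repr c).support.map ⟨fun j => (i, j), fun a b h => (Prod.mk.inj h).2⟩,
        fun p => if p.1 = i then (bC.repr c p.2) • b else 0, ?_, ?_, ?_⟩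
      · intro p
        dsimp only
        split_ifs
        · exact Submodule.smul_mem _ _ hb
        · exact Submodule.zero_mem _
      · rintro ⟨i', j⟩ hp
        dsimp only
        split_ifs with h
        · subst h
          have : bC.repr c j = 0 := by
            by_contra h0
            apply hp
            rw [Finset.mem_map]
            exact ⟨j, Finsupp.mem_support_iff.2 h0, rfl⟩
          rw [this, zero_smul]
        · rfl
      · rw [Finset.sum_map]
        simp only [Function.Embedding.coeFn_mk, if_true]
        have hc : c = ∑ j ∈ (bC.repr c).support, (bC.repr c j) • bC j := by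
          conv_lhs => rw [← bC.linearCombination_repr c]
          rfl
        conv_lhs => rw [hc]
        rw [map_sum, Finset.mul_sum]
        apply Finset.sum_congr rfl
        intro j _
        rw [map_smul, mul_smul_comm, smul_mul_assoc, smul_mul_assoc]
    | zero =>
      exact ⟨∅, fun _ => 0, fun _ => Submodule.zero_mem _, fun _ _ => rfl, by simp⟩
    | add x y _ _ h1 h2 =>
      obtain ⟨t1, b1, h11, h12, rfl⟩ := h1
      obtain ⟨t2, b2, h21, h22, rfl⟩ := h2
      refine ⟨t1 ∪ t2, fun p => b1 p + b2 p, fun p => Submodule.add_mem _ (h11 p) (h21 p), ?_, ?_⟩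
      · intro p hp
        rw [Finset.mem_union, not_or] at hp
        dsimp only
        rw [h12 p hp.1, h22 p hp.2, add_zero]
      · have e1 : ∑ p ∈ t1, b1 p * e p.1 * s.γ (bC p.2) =
            ∑ p ∈ t1 ∪ t2, b1 p * e p.1 * s.γ (bC p.2) := by
          apply Finset.sum_subset Finset.subset_union_left
          intro p _ hp
          rw [h12 p hp, zero_mul, zero_mul]
        have e2 : ∑ p ∈ t2, b2 p * e p.1 * s.γ (bC p.2) =
            ∑ p ∈ t1 ∪ t2, b2 p * e p.1 * s.γ (bC p.2) := by
          apply Finset.sum_subset Finset.subset_union_right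
          intro p _ hp
          rw [h22 p hp, zero_mul, zero_mul]
        rw [e1, e2, ← Finset.sum_add_distrib]
        apply Finset.sum_congr rfl
        intro p _
        rw [add_mul, add_mul]
    | smul k x _ h1 =>
      obtain ⟨t1, b1, h11, h12, rfl⟩ := h1
      refine ⟨t1, fun p => k • b1 p, fun p => Submodule.smul_mem _ _ (h11 p), ?_, ?_⟩
      · intro p hp
        dsimp only
        rw [h12 p hp, smul_zero]
      · rw [Finset.smul_sum]
        apply Finset.sum_congr rfl
        intro p _
        rw [smul_mul_assoc, smul_mul_assoc]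
  obtain ⟨t, b, h1, _, h3⟩ := key
  exact ⟨t, b, h1, h3⟩


end target

end Pool.SF
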