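import Pool.Agent.Helper702.SF.SimpleD
import Pool.Agent.Helper702.SF.P_wd_append
import Pool.Agent.Helper702.SF.P_wdp_append
import Pool.Agent.Helper702.SF.P_wdp_wd
import Pool.Agent.Helper702.SF.P_wdp_wd_ne
import Pool.Agent.Helper702.SF.P_cmdX
import Pool.Agent.Helper702.SF.P_cmdY
import Pool.Agent.Helper702.SF.P_cmd_iso
import Pool.Agent.Helper702.SF.P_cmd_garbage
import Pool.Agent.Helper702.SF.P_repr
import Pool.Agent.Helper702.SF.P_loc_iso

set_option autoImplicit false

set_option linter.unusedSectionVars false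

namespace Pool.SF
section target
variable {F B C G I S E : Type} [Field F] [Ring B] [Algebra F B] [Ring C] [Algebra F C]
  [Fintype G] [DecidableEq G] [Fintype I] [DecidableEq I] [Fintype S] [DecidableEq S]
  [Fintype E] [DecidableEq E]
  (s : Sys F B C G I S E)
theorem st1_wd_comm (J : List (Kd G I S E)) (b : B) (h : ∀ j, Commute (s.x j) b) :
    Commute (wd s.x J) b := by
  unfold wd
  refine Commute.list_prod_left _ _ ?_
  intro z hz
  obtain ⟨j, _, rfl⟩ := List.mem_map.1 hz
  exact h j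

theorem st1_wdy_comm (J : List (Kd G I S E)) (b : B) (h : ∀ j, Commute (s.y j) b) :
    Commute (wd s.y J) b := by
  unfold wd
  refine Commute.list_prod_left _ _ ?_
  intro z hz
  obtain ⟨j, _, rfl⟩ := List.mem_map.1 hz
  exact h j

theorem st1_LX (k : ℕ) (l : B) (hl : l ∈ LX s k) : l * s.x .kill = 0 := by
  unfold LX at hl
  induction hl using Submodule.span_induction with
  | mem z hz =>
    obtain ⟨b, _, ω, hω, rfl⟩ := hz
    have hc : Commute ω (s.x .kill) := by
      unfold OmX at hω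
      induction hω using Algebra.adjoin_induction with
      | mem w hw =>
        rcases hw with (⟨c, rfl⟩ | ⟨j, rfl⟩) | ⟨j, rfl⟩
        · exact s.cx c _
        · exact (s.cxy _ j).symm
        · exact (s.cxy' _ j).symm
      | algebraMap r => exact Algebra.commutes r _
      | add a b _ _ ha hb => exact ha.add_left hb
      | mul a b _ _ ha hb => exact ha.mul_left hb
    have h0 : s.RX * s.x .kill = 0 := s.RX_other _ (by simp [Kd.isCmd]) (by simp)
    rw [mul_assoc, hc.eq, ← mul_assoc, mul_assoc b, h0, mul_zero, zero_mul]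
  | zero => rw [zero_mul]
  | add a b _ _ ha hb => rw [add_mul, ha, hb, add_zero]
  | smul r a _ ha => rw [smul_mul_assoc, ha, smul_zero]

theorem st1_LR (k : ℕ) (l : B) (hl : l ∈ LR s k) : l * s.x .kill = 0 := by
  unfold LR at hl
  induction hl using Submodule.span_induction with
  | mem z hz =>
    obtain ⟨b, _, J, c, rfl⟩ := hz
    have h0 : s.R0 * s.x .kill = 0 := s.R0_other _ (by simp [Kd.isInp]) (by simp) (by simp)
    have h1 : Commute (s.γ c) (s.x .kill) := s.cx c _
    have h2 : Commute (wd s.y J) (s.x .kill) := st1_wdy_comm s J _ (fun j => (s.cxy _ j).symm)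
    calc b * (s.R0 * wd s.y J) * s.γ c * s.x .kill
        = b * s.R0 * (wd s.y J * (s.γ c * s.x .kill)) := by noncomm_ring
      _ = b * s.R0 * ((wd s.y J * s.x .kill) * s.γ c) := by rw [h1.eq]; noncomm_ring
      _ = b * (s.R0 * s.x .kill) * wd s.y J * s.γ c := by rw [h2.eq]; noncomm_ring
      _ = 0 := by rw [h0]; simp
  | zero => rw [zero_mul]
  | add a b _ _ ha hb => rw [add_mul, ha, hb, add_zero]
  | smul r a _ ha => rw [smul_mul_assoc, ha, smul_zero]

theorem st1_key (ρ : YR S) (L : List (Kd G I S E)) (c : C) (μ : Kd G I S E) (m : ℕ) :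
    (rd s ρ * wd s.x L) * s.γ c * (s.x .kill * s.y μ * s.y .noop ^ m) =
      (rd s ρ * s.y μ) * (wd s.x L * s.x .kill * s.y .noop ^ m) * s.γ c := by
  have h1 : Commute (s.γ c) (s.x .kill * s.y μ * s.y .noop ^ m) :=
    ((s.cx c _).mul_right (s.cy c _)).mul_right ((s.cy c _).pow_right m)
  have h2 : Commute (wd s.x L * s.x .kill) (s.y μ) :=
    (st1_wd_comm s L _ (fun j => s.cxy j _)).mul_left (s.cxy _ _)
  calc (rd s ρ * wd s.x L) * s.γ c * (s.x .kill * s.y μ * s.y .noop ^ m)
      = (rd s ρ * wd s.x L) * (s.γ c * (s.x .kill * s.y μ * s.y .noop ^ m)) := by noncomm_ring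
    _ = rd s ρ * ((wd s.x L * s.x .kill) * s.y μ) * s.y .noop ^ m * s.γ c := by
        rw [h1.eq]; simp only [mul_assoc]
    _ = _ := by rw [h2.eq]; simp only [mul_assoc]

theorem st1_garb (ρ : YR S) (L : List (Kd G I S E)) (c : C) (μ : Kd G I S E) (m : ℕ)
    (hm : L.length < m) (h : rd s ρ * s.y μ = 0 ∨ ∃ d : C, rd s ρ * s.y μ = s.RX * s.γ d) :
    (rd s ρ * wd s.x L) * s.γ c * (s.x .kill * s.y μ * s.y .noop ^ m) = 0 := by
  rw [st1_key]
  rcases h with h | ⟨d, h⟩
  · rw [h]; simp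
  · have h1 : Commute (s.γ d) (wd s.x L * s.x .kill * s.y .noop ^ m) :=
      ((st1_wd_comm s L _ (fun j => (s.cx d j).symm)).symm.mul_right (s.cx d _)).mul_right
        ((s.cy d _).pow_right m)
    have h2 := cmd_garbage (cmdX s) L m hm
    rw [h, mul_assoc s.RX, h1.eq]
    have h3 : s.RX * (wd s.x L * s.x .kill * s.y .noop ^ m * s.γ d) * s.γ c =
        (s.RX * wd s.x L * s.x .kill * s.y .noop ^ m) * s.γ d * s.γ c := by
      simp only [mul_assoc]
    rw [h3, h2]
    simp

theorem st1_RYpow (m : ℕ) : s.RY * s.y .noop ^ m = s.RY := by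
  induction m with
  | zero => rw [pow_zero, mul_one]
  | succ m ih => rw [pow_succ', ← mul_assoc, s.RY_noop, ih]

theorem st1_good (ρ : YR S) (L : List (Kd G I S E)) (c : C) (μ : Kd G I S E) (m : ℕ)
    (h : rd s ρ * s.y μ = s.RY) :
    (rd s ρ * wd s.x L) * s.γ c * (s.x .kill * s.y μ * s.y .noop ^ m) =
      (s.RY * wd s.x (L ++ [.kill])) * s.γ c := by
  rw [st1_key, h]
  have h1 : Commute (wd s.x L * s.x .kill) (s.y .noop ^ m) :=
    ((st1_wd_comm s L _ (fun j => s.cxy j _)).mul_left (s.cxy _ _)).pow_right m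
  have h2 : wd s.x (L ++ [.kill]) = wd s.x L * s.x .kill := by
    simp [wd]
  rw [h1.eq, ← mul_assoc, st1_RYpow, h2]

/-- the letter which isolates a reader of `y` -/
def st1_mu : YR S → Kd G I S E
  | .ry => .noop
  | .h a => .ex a
  | .r q => .mk q

theorem st1_mu_eq (ρ : YR S) : rd s ρ * s.y (st1_mu ρ) = s.RY := by
  cases ρ with
  | ry => exact s.RY_noop
  | h a => exact s.H_ex a
  | r q =>
    show s.R q * s.y (.mk q) = s.RY
    rw [s.R_mk, if_pos rfl]

theorem st1_mu_ne (ρ ρ' : YR S) (hne : ρ' ≠ ρ) :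
    rd s ρ' * s.y (st1_mu ρ) = 0 ∨ ∃ d : C, rd s ρ' * s.y (st1_mu ρ) = s.RX * s.γ d := by
  cases ρ' with
  | ry =>
    left
    cases ρ with
    | ry => exact absurd rfl hne
    | h a => exact s.RY_other _ (by simp [st1_mu, Kd.isCmd]) (by simp [st1_mu])
    | r q => exact s.RY_other _ (by simp [st1_mu, Kd.isCmd]) (by simp [st1_mu])
  | h a =>
    right
    cases ρ with
    | ry =>
      exact ⟨_, s.H_other a .noop (by simp [Kd.isInp]) (by simp) (by simp)⟩
    | h a' =>
      refine ⟨_, s.H_other a _ (by simp [st1_mu, Kd.isInp]) (by simp [st1_mu]) ?_⟩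
      intro h
      apply hne
      simp only [st1_mu, Kd.ex.injEq] at h
      rw [h]
    | r q =>
      exact ⟨_, s.H_other a (.mk q) (by simp [Kd.isInp]) (by simp) (by simp)⟩
  | r q =>
    left
    cases ρ with
    | ry =>
      exact s.R_other q .noop (by simp [Kd.isInp]) (by simp) (by simp)
    | h a' =>
      exact s.R_other q (.ex a') (by simp [Kd.isInp]) (by simp) (by simp)
    | r q' =>
      show s.R q * s.y (.mk q') = 0
      rw [s.R_mk, if_neg]
      intro h
      exact hne (by rw [h])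

theorem st1_kill (ρ : YR S) :
    rd s ρ * s.y .kill = 0 ∨ ∃ d : C, rd s ρ * s.y .kill = s.RX * s.γ d := by
  cases ρ with
  | ry => left; exact s.RY_other _ (by simp [Kd.isCmd]) (by simp)
  | h a => right; exact ⟨_, s.H_other a _ (by simp [Kd.isInp]) (by simp) (by simp)⟩
  | r q => left; exact s.R_other q _ (by simp [Kd.isInp]) (by simp) (by simp)

/-- The readers of `y` and the local part are isolated. -/
theorem step1 [IsSimpleRing C]
    (hcen : ∀ z : C, (∀ c, z * c = c * z) → ∃ r : F, algebraMap F C r = z)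
    (J : TwoSidedIdeal B) (h1 : (1 : B) ∉ J) (k : ℕ) (hk : ∀ z ∈ lev s k, z ∈ J → z = 0)
    (T : B) (hT : T ∈ GG s (k + 1)) (hTJ : T ∈ J) : T ∈ LX s k ⊔ LR s k := by
  classical
  obtain ⟨T1, hT1, z, hz, rfl⟩ := Submodule.mem_sup.1 hT
  obtain ⟨T2, hT2, r, hr, rfl⟩ := Submodule.mem_sup.1 hT1
  obtain ⟨a, ha, l, hl, rfl⟩ := Submodule.mem_sup.1 hT2
  obtain ⟨ι, ⟨bC⟩⟩ : ∃ ι : Type, Nonempty (Module.Basis ι F C) :=
    ⟨_, ⟨Module.Basis.ofVectorSpace F C⟩⟩
  obtain ⟨t, b, hb, hab⟩ := repr s bC (lev s k)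
    (fun p : YR S × List (Kd G I S E) => rd s p.1 * wd s.x p.2) a ha
  obtain ⟨m, hm⟩ : ∃ m : ℕ, ∀ p ∈ t, p.1.2.length < m :=
    ⟨t.sup (fun p => p.1.2.length) + 1, fun p hp =>
      Nat.lt_succ_of_le (Finset.le_sup (f := fun p => p.1.2.length) hp)⟩
  have hl0 := st1_LX s k l hl
  have hr0 := st1_LR s k r hr
  -- step 0
  have hz0 : z = 0 := by
    have ha0 : a * (s.x .kill * s.y .kill * s.y .noop ^ m) = 0 := by
      rw [hab, Finset.sum_mul]
      refine Finset.sum_eq_zero (fun p hp => ?_)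
      have := st1_garb s p.1.1 p.1.2 (bC p.2) .kill m (hm p hp)
        (st1_kill s p.1.1)
      simp only [mul_assoc] at this ⊢
      rw [this, mul_zero]
    have hJ : (a + l + r + z) * (s.x .kill * s.y .kill * s.y .noop ^ m) ∈ J :=
      J.mul_mem_right _ _ hTJ
    have hl1 : l * (s.x .kill * s.y .kill * s.y .noop ^ m) = 0 := by
      rw [mul_assoc, ← mul_assoc, hl0, zero_mul]
    have hr1 : r * (s.x .kill * s.y .kill * s.y .noop ^ m) = 0 := by
      rw [mul_assoc, ← mul_assoc, hr0, zero_mul]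
    rw [add_mul, add_mul, add_mul, ha0, hl1, hr1, add_zero, add_zero, zero_add] at hJ
    have hw : s.x .kill * s.y .kill * s.y .noop ^ m =
        wd s.x [.kill] * wd s.y (.kill :: List.replicate m .noop) := by
      simp [wd, mul_assoc]
    rw [hw] at hJ
    rcases loc_iso s J z hz _ _ hJ with h | h
    · exact h
    · exact absurd h h1
  -- step 1
  have hbJ : ∀ p ∈ t, b p = 0 := by
    intro p0 hp0
    obtain ⟨ρ, hρ⟩ : ∃ ρ : YR S, ρ = p0.1.1 := ⟨_, rfl⟩
    have hJ : (a + l + r + z) * (s.x .kill * s.y (st1_mu ρ) * s.y .noop ^ m) ∈ J :=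
      J.mul_mem_right _ _ hTJ
    have hl1 : l * (s.x .kill * s.y (st1_mu ρ) * s.y .noop ^ m) = 0 := by
      rw [mul_assoc, ← mul_assoc, hl0, zero_mul]
    have hr1 : r * (s.x .kill * s.y (st1_mu ρ) * s.y .noop ^ m) = 0 := by
      rw [mul_assoc, ← mul_assoc, hr0, zero_mul]
    rw [add_mul, add_mul, add_mul, hz0, hl1, hr1, zero_mul, add_zero, add_zero, add_zero] at hJ
    have ha1 : a * (s.x .kill * s.y (st1_mu ρ) * s.y .noop ^ m) =
        ∑ p ∈ t.filter (fun p => p.1.1 = ρ),
          b p * (s.RY * wd s.x (p.1.2 ++ [.kill])) * s.γ (bC p.2) := by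
      rw [hab, Finset.sum_mul, Finset.sum_filter]
      refine Finset.sum_congr rfl (fun p hp => ?_)
      by_cases h : p.1.1 = ρ
      · rw [if_pos h]
        have := st1_good s p.1.1 p.1.2 (bC p.2) (st1_mu ρ) m
          (by rw [h]; exact st1_mu_eq s ρ)
        simp only [mul_assoc] at this ⊢
        rw [this]
      · rw [if_neg h]
        have := st1_garb s p.1.1 p.1.2 (bC p.2) (st1_mu ρ) m (hm p hp)
          (st1_mu_ne s ρ p.1.1 h)
        simp only [mul_assoc] at this ⊢
        rw [this, mul_zero]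
    rw [ha1] at hJ
    have hinj : Set.InjOn (fun p : (YR S × List (Kd G I S E)) × ι =>
        ((p.1.2 ++ [Kd.kill], p.2) : List (Kd G I S E) × ι))
        (↑(t.filter (fun p => p.1.1 = ρ)) : Set ((YR S × List (Kd G I S E)) × ι)) := by
      intro p hp q hq hpq
      have hp1 := (Finset.mem_filter.1 hp).2
      have hq1 := (Finset.mem_filter.1 hq).2
      obtain ⟨h3, h4⟩ := Prod.ext_iff.1 hpq
      have h5 : p.1.2 = q.1.2 := List.append_cancel_right h3
      exact Prod.ext (Prod.ext (by rw [hp1, hq1]) h5) h4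
    have hsum := Finset.sum_image (f := fun q : List (Kd G I S E) × ι =>
      b ((ρ, q.1.dropLast), q.2) * (s.RY * wd s.x q.1) *
        s.γ (bC q.2)) hinj
    have hsum2 : ∑ q ∈ (t.filter (fun p => p.1.1 = ρ)).image
        (fun p => ((p.1.2 ++ [Kd.kill], p.2) : List (Kd G I S E) × ι)),
        b ((ρ, q.1.dropLast), q.2) * (s.RY * wd s.x q.1) *
          s.γ (bC q.2) ∈ J := by
      rw [hsum]
      have heq : ∑ p ∈ t.filter (fun p => p.1.1 = ρ),
          b ((ρ, (p.1.2 ++ [Kd.kill]).dropLast), p.2) * (s.RY * wd s.x (p.1.2 ++ [.kill])) *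
            s.γ (bC p.2) = ∑ p ∈ t.filter (fun p => p.1.1 = ρ),
          b p * (s.RY * wd s.x (p.1.2 ++ [.kill])) * s.γ (bC p.2) := by
        refine Finset.sum_congr rfl (fun p hp => ?_)
        have hp1 := (Finset.mem_filter.1 hp).2
        rw [List.dropLast_concat, ← hp1]
      simp only
      rw [heq]
      exact hJ
    have hall := cmd_iso (cmdY s) hcen bC J _ _ hsum2
    have hmem : ((p0.1.2 ++ [Kd.kill], p0.2) : List (Kd G I S E) × ι) ∈
        (t.filter (fun p => p.1.1 = ρ)).image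
        (fun p => ((p.1.2 ++ [Kd.kill], p.2) : List (Kd G I S E) × ι)) :=
      Finset.mem_image_of_mem _ (Finset.mem_filter.2 ⟨hp0, hρ.symm⟩)
    have h6 := hall _ hmem
    simp only [List.dropLast_concat] at h6
    rw [hρ] at h6
    exact hk _ (hb p0) h6
  have ha0 : a = 0 := by
    rw [hab]
    refine Finset.sum_eq_zero (fun p hp => ?_)
    rw [hbJ p hp, zero_mul, zero_mul]
  rw [ha0, hz0, zero_add, add_zero]
  exact Submodule.add_mem_sup hl hr

end target

end Pool.SF
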