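import Pool.Agent.Helper702.SF.SimpleD

set_option autoImplicit false

set_option linter.unusedSectionVars false

namespace Pool.SF
section target
variable {F B C G I S E : Type} [Field F] [Ring B] [Algebra F B] [Ring C] [Algebra F C]
  [Fintype G] [DecidableEq G] [Fintype I] [DecidableEq I] [Fintype S] [DecidableEq S]
  [Fintype E] [DecidableEq E]
  (s : Sys F B C G I S E)
def PyM (m : ℕ) : Submodule F B := Submodule.span F
  {z | ∃ (L : List (Kd G I S E)) (c : C), m ≤ L.length ∧ z = wd s.y L * s.γ c}

theorem PyM_mul (m : ℕ) (c : C) (z : B) (hz : z ∈ PyM s m) : z * s.γ c ∈ PyM s m := by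
  unfold PyM at hz ⊢
  induction hz using Submodule.span_induction with
  | mem z hz =>
    obtain ⟨L, c', hL, rfl⟩ := hz
    refine Submodule.subset_span ⟨L, c' * c, hL, ?_⟩
    rw [map_mul, mul_assoc]
  | zero => rw [zero_mul]; exact Submodule.zero_mem _
  | add a b _ _ ha hb => rw [add_mul]; exact Submodule.add_mem _ ha hb
  | smul r a _ ha => rw [smul_mul_assoc]; exact Submodule.smul_mem _ r ha

theorem PyM_comm (c : C) (J : List (Kd G I S E)) : s.γ c * wd s.y J = wd s.y J * s.γ c := by
  unfold wd
  have : Commute (s.γ c) (J.map s.y).prod := by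
    induction J with
    | nil => simp
    | cons j J ih =>
      rw [List.map_cons, List.prod_cons]
      exact (s.cy c j).mul_right ih
  exact this.eq

theorem pos_y_aux (w : B) (hw : w ∈ OmX s) : ∃ n, ∀ m, ∀ J : List (Kd G I S E), n + m ≤ J.length →
    w * wd s.y J ∈ PyM s m := by
  unfold OmX at hw
  induction hw using Algebra.adjoin_induction with
  | mem w hw =>
    rcases hw with (⟨c, rfl⟩ | ⟨j, rfl⟩) | ⟨j, rfl⟩
    · refine ⟨0, fun m J hJ => Submodule.subset_span ⟨J, c, by omega, PyM_comm s c J⟩⟩
    · refine ⟨0, fun m J hJ => Submodule.subset_span ⟨j :: J, 1, by simp; omega, ?_⟩⟩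
      rw [map_one, mul_one]
      simp [wd]
    · refine ⟨1, fun m J hJ => ?_⟩
      cases J with
      | nil => simp at hJ
      | cons i J =>
        have e : s.y' j * wd s.y (i :: J) = (if j = i then 1 else 0) * wd s.y J := by
          rw [← s.yy j i]
          simp [wd, mul_assoc]
        rw [e]
        split_ifs
        · rw [one_mul]
          refine Submodule.subset_span ⟨J, 1, ?_, ?_⟩
          · simp only [List.length_cons] at hJ; omega
          · rw [map_one, mul_one]
        · rw [zero_mul]; exact Submodule.zero_mem _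
  | algebraMap r =>
    refine ⟨0, fun m J hJ => ?_⟩
    rw [Algebra.algebraMap_eq_smul_one, smul_mul_assoc, one_mul]
    refine Submodule.smul_mem _ r (Submodule.subset_span ⟨J, 1, by omega, ?_⟩)
    rw [map_one, mul_one]
  | add a b _ _ ha hb =>
    obtain ⟨n1, h1⟩ := ha
    obtain ⟨n2, h2⟩ := hb
    refine ⟨n1 + n2, fun m J hJ => ?_⟩
    rw [add_mul]
    exact Submodule.add_mem _ (h1 m J (by omega)) (h2 m J (by omega))
  | mul a b _ _ ha hb =>
    obtain ⟨n1, h1⟩ := ha
    obtain ⟨n2, h2⟩ := hb
    refine ⟨n1 + n2, fun m J hJ => ?_⟩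
    rw [mul_assoc]
    have h3 := h2 (n1 + m) J (by omega)
    have h4 : ∀ z ∈ PyM s (n1 + m), a * z ∈ PyM s m := by
      intro z hz
      unfold PyM at hz
      induction hz using Submodule.span_induction with
      | mem z hz =>
        obtain ⟨L, c', hL, rfl⟩ := hz
        rw [← mul_assoc]
        exact PyM_mul s m c' _ (h1 m L hL)
      | zero => rw [mul_zero]; exact Submodule.zero_mem _
      | add a b _ _ ha hb => rw [mul_add]; exact Submodule.add_mem _ ha hb
      | smul r a _ ha => rw [mul_smul_comm]; exact Submodule.smul_mem _ r ha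
    exact h4 _ h3

theorem pos_y (w : B) (hw : w ∈ OmX s) : ∃ n, ∀ J : List (Kd G I S E), n ≤ J.length →
    w * wd s.y J ∈ Submodule.span F {z | ∃ (L : List (Kd G I S E)) (c : C),
      z = wd s.y L * s.γ c} := by
  obtain ⟨n, hn⟩ := pos_y_aux s w hw
  refine ⟨n, fun J hJ => ?_⟩
  have h := hn 0 J (by omega)
  unfold PyM at h
  refine Submodule.span_mono ?_ h
  rintro z ⟨L, c, _, rfl⟩
  exact ⟨L, c, rfl⟩

end target

end Pool.SF
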