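import Pool.Agent.Helper702.SF.SimpleD
import Pool.Agent.Helper702.SF.P_wd_append
import Pool.Agent.Helper702.SF.P_pos_y
import Pool.Agent.Helper702.SF.P_exists_words

set_option autoImplicit false

set_option linter.unusedSectionVars false

namespace Pool.SF
section target
variable {F B C G I S E : Type} [Field F] [Ring B] [Algebra F B] [Ring C] [Algebra F C]
  [Fintype G] [DecidableEq G] [Fintype I] [DecidableEq I] [Fintype S] [DecidableEq S]
  [Fintype E] [DecidableEq E]
  (s : Sys F B C G I S E)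
theorem step2_comm (c : C) (D : List (Kd G I S E)) : Commute (s.γ c) (wd s.y D) := by
  unfold wd
  refine Commute.list_prod_right _ _ ?_
  intro b hb
  obtain ⟨j, _, rfl⟩ := List.mem_map.mp hb
  exact s.cy c j

theorem step2_LX (k : ℕ) (l : B) (hl : l ∈ LX s k) :
    ∃ n, ∀ D : List (Kd G I S E), n ≤ D.length → l * wd s.y D ∈ LXp s k := by
  unfold LX at hl
  induction hl using Submodule.span_induction with
  | mem x hx =>
    obtain ⟨b, hb, ω, hω, rfl⟩ := hx
    obtain ⟨n, hn⟩ := pos_y s ω hω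
    refine ⟨n, fun D hD => ?_⟩
    have h1 := hn D hD
    have key : ∀ z ∈ Submodule.span F {z | ∃ (L : List (Kd G I S E)) (c : C),
        z = wd s.y L * s.γ c}, b * s.RX * z ∈ LXp s k := by
      intro z hz
      induction hz using Submodule.span_induction with
      | mem x hx =>
        obtain ⟨L, c, rfl⟩ := hx
        refine Submodule.subset_span ⟨b, hb, L, c, ?_⟩
        simp only [mul_assoc]
      | zero => rw [mul_zero]; exact Submodule.zero_mem _
      | add x y _ _ hx hy => rw [mul_add]; exact Submodule.add_mem _ hx hy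
      | smul a x _ hx => rw [mul_smul_comm]; exact Submodule.smul_mem _ _ hx
    have h2 := key _ h1
    rwa [← mul_assoc] at h2
  | zero => exact ⟨0, fun D _ => by rw [zero_mul]; exact Submodule.zero_mem _⟩
  | add x y _ _ hx hy =>
    obtain ⟨n, hn⟩ := hx
    obtain ⟨m, hm⟩ := hy
    refine ⟨max n m, fun D hD => ?_⟩
    rw [add_mul]
    exact Submodule.add_mem _ (hn D (le_trans (le_max_left _ _) hD))
      (hm D (le_trans (le_max_right _ _) hD))
  | smul a x _ hx =>
    obtain ⟨n, hn⟩ := hx
    refine ⟨n, fun D hD => ?_⟩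
    rw [smul_mul_assoc]
    exact Submodule.smul_mem _ _ (hn D hD)

theorem step2_LR (k : ℕ) (l : B) (hl : l ∈ LR s k) (D : List (Kd G I S E)) :
    l * wd s.y D ∈ LR s k := by
  unfold LR at hl
  induction hl using Submodule.span_induction with
  | mem x hx =>
    obtain ⟨b, hb, J, c, rfl⟩ := hx
    refine Submodule.subset_span ⟨b, hb, J ++ D, c, ?_⟩
    rw [mul_assoc (b * (s.R0 * wd s.y J)), (step2_comm s c D).eq, wd_append]
    simp only [mul_assoc]
  | zero => rw [zero_mul]; exact Submodule.zero_mem _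
  | add x y _ _ hx hy => rw [add_mul]; exact Submodule.add_mem _ hx hy
  | smul a x _ hx => rw [smul_mul_assoc]; exact Submodule.smul_mem _ _ hx

theorem step2 (J : TwoSidedIdeal B) (k : ℕ) (T : B) (hT : T ∈ LX s k ⊔ LR s k) (hTJ : T ∈ J)
    (h0 : T ≠ 0) : ∃ T' ∈ LXp s k ⊔ LR s k, T' ∈ J ∧ T' ≠ 0 := by
  obtain ⟨p, q, hpq⟩ := exists_words s T h0
  obtain ⟨l, hl, r, hr, hlr⟩ := Submodule.mem_sup.mp hT
  obtain ⟨n, hn⟩ := step2_LX s k l hl
  refine ⟨T * wd s.y (pre q n), ?_, J.mul_mem_right _ _ hTJ, ?_⟩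
  · rw [← hlr, add_mul]
    refine Submodule.add_mem_sup (hn _ ?_) (step2_LR s k r hr _)
    simp [pre]
  · have h1 := hpq 0 n
    have h2 : wd s.x (pre p 0) = 1 := by simp [wd, pre]
    rwa [h2, mul_one] at h1

end target

end Pool.SF
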