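import Pool.Agent.Helper702.SF.SimpleD
import Pool.Agent.Helper702.SF.P_wd_append
import Pool.Agent.Helper702.SF.P_wdp_append
import Pool.Agent.Helper702.SF.P_wdp_wd
import Pool.Agent.Helper702.SF.P_wdp_wd_ne
import Pool.Agent.Helper702.SF.P_cmdX
import Pool.Agent.Helper702.SF.P_cmd_iso
import Pool.Agent.Helper702.SF.P_repr

set_option autoImplicit false

set_option linter.unusedSectionVars false

namespace Pool.SF
section target
variable {F B C G I S E : Type} [Field F] [Ring B] [Algebra F B] [Ring C] [Algebra F C]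
  [Fintype G] [DecidableEq G] [Fintype I] [DecidableEq I] [Fintype S] [DecidableEq S]
  [Fintype E] [DecidableEq E]
  (s : Sys F B C G I S E)
theorem step3_aux_wd {K B : Type} [Ring B] (x : B) (u : K → B) (h : ∀ j, Commute x (u j))
    (J : List K) : Commute x (wd u J) := by
  unfold wd
  induction J with
  | nil => simp
  | cons a J ih =>
    simp only [List.map_cons, List.prod_cons]
    exact (h a).mul_right ih

theorem step3 [IsSimpleRing C]
    (hcen : ∀ z : C, (∀ c, z * c = c * z) → ∃ r : F, algebraMap F C r = z)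
    (J : TwoSidedIdeal B) (k : ℕ) (hk : ∀ z ∈ lev s k, z ∈ J → z = 0)
    (T : B) (hT : T ∈ LXp s k ⊔ LR s k) (hTJ : T ∈ J) : T ∈ LR s k := by
  obtain ⟨l, hl, r, hr, rfl⟩ := Submodule.mem_sup.1 hT
  have hmove : ∀ (b R : B) (L : List (Kd G I S E)) (c : C),
      b * (R * wd s.y L) * s.γ c * s.x .noop = b * (R * s.x .noop * wd s.y L) * s.γ c := by
    intro b R L c
    have h1 : s.γ c * s.x .noop = s.x .noop * s.γ c := s.cx c .noop
    have h2 : s.x .noop * wd s.y L = wd s.y L * s.x .noop :=
      step3_aux_wd (s.x .noop) s.y (fun j => s.cxy .noop j) L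
    rw [mul_assoc (b * (R * wd s.y L)), h1, ← mul_assoc, mul_assoc b, mul_assoc R, ← h2,
      ← mul_assoc R]
  have hlx : l * s.x .noop = l := by
    clear hTJ hT
    unfold LXp at hl
    induction hl using Submodule.span_induction with
    | mem z hz =>
      obtain ⟨b, _, L, c, rfl⟩ := hz
      rw [hmove, s.RX_noop]
    | zero => rw [zero_mul]
    | add a b _ _ ha hb => rw [add_mul, ha, hb]
    | smul a z _ hz => rw [smul_mul_assoc, hz]
  have hrx : r * s.x .noop = 0 := by
    clear hTJ hT
    unfold LR at hr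
    induction hr using Submodule.span_induction with
    | mem z hz =>
      obtain ⟨b, _, L, c, rfl⟩ := hz
      rw [hmove, s.R0_other .noop (by simp [Kd.isInp]) (by simp) (by simp), zero_mul, mul_zero,
        zero_mul]
    | zero => rw [zero_mul]
    | add a b _ _ ha hb => rw [add_mul, ha, hb, add_zero]
    | smul a z _ hz => rw [smul_mul_assoc, hz, smul_zero]
  have hlJ : l ∈ J := by
    have h := J.mul_mem_right _ (s.x .noop) hTJ
    rw [add_mul, hlx, hrx, add_zero] at h
    exact h
  let bC := Module.Basis.ofVectorSpace F C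
  obtain ⟨t, b, hb, hl2⟩ := repr s bC (lev s k) (fun L : List (Kd G I S E) => s.RX * wd s.y L) l hl
  have hlJ2 := hlJ
  rw [hl2] at hlJ2
  have h0 := cmd_iso (cmdX s) hcen bC J t b hlJ2
  have hl0 : l = 0 := by
    rw [hl2]
    refine Finset.sum_eq_zero fun p hp => ?_
    rw [hk _ (hb p) (h0 p hp), zero_mul, zero_mul]
  rw [hl0, zero_add]
  exact hr

end target

end Pool.SF
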