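import Pool.Agent.Helper702.SF.SimpleD
import Pool.Agent.Helper702.SF.P_wd_append
import Pool.Agent.Helper702.SF.P_wdp_append
import Pool.Agent.Helper702.SF.P_wdp_wd
import Pool.Agent.Helper702.SF.P_wdp_wd_ne
import Pool.Agent.Helper702.SF.P_generic_conj
import Pool.Agent.Helper702.SF.P_density
import Pool.Agent.Helper702.SF.P_cmd_word
import Pool.Agent.Helper702.SF.P_cmd_iso

set_option autoImplicit false

set_option linter.unusedSectionVars false

namespace Pool.SF
section target
variable {F B C G I S E : Type} [Field F] [Ring B] [Algebra F B] [Ring C] [Algebra F C]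
  [Fintype G] [DecidableEq G] [Fintype I] [DecidableEq I] [Fintype S] [DecidableEq S]
  [Fintype E] [DecidableEq E]
  {N : ℕ} {idx : Kd G I S E ≃ Fin N} {γ : C →ₐ[F] B} {cgen : G → C} {R : B}
  {u u' v v' : Kd G I S E → B}
/-- Isolation of a coefficient with the commands, in the presence of the words `A p`. -/
theorem cmd_iso_t (h : CmdRd idx γ cgen R u u' v v') [IsSimpleRing C]
    (hcen : ∀ z : C, (∀ c, z * c = c * z) → ∃ r : F, algebraMap F C r = z)
    {ι : Type} (bC : Module.Basis ι F C) (J : TwoSidedIdeal B) {t t' : Kd G I S E → C}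
    (ht : Orth t t')
    (s : Finset (List (Kd G I S E) × ι)) (b : List (Kd G I S E) × ι → B)
    (A D : List (Kd G I S E) → List (Kd G I S E))
    (hA : ∀ p ∈ s, ∀ q ∈ s, A p.1 <+: A q.1 → A p.1 = A q.1)
    (hAD : ∀ p ∈ s, ∀ q ∈ s, A p.1 = A q.1 → D p.1 = D q.1 → p.1 = q.1)
    (hs : ∑ p ∈ s, b p * (R * (γ (wd t (A p.1)) * wd v (D p.1))) * γ (bC p.2) ∈ J) :
    ∀ p ∈ s, b p ∈ J := by
  classical
  intro p0 hp0
  have hw : γ (wd' t' (A p0.1)) ∈ Algebra.adjoin F (Set.range γ ∪ Set.range v') :=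
    Algebra.subset_adjoin (Or.inl ⟨_, rfl⟩)
  obtain ⟨α, hα, hRα⟩ := cmd_word h _ hw
  have cαγ : ∀ c, Commute (γ c) α := by
    intro c
    refine Algebra.adjoin_induction (p := fun x _ => Commute (γ c) x) ?_ ?_ ?_ ?_ hα
    · rintro _ ⟨j, rfl⟩
      exact h.cu c j
    · intro r
      exact (Algebra.commutes r (γ c)).symm
    · intro x y _ _ hx hy
      exact hx.add_right hy
    · intro x y _ _ hx hy
      exact hx.mul_right hy
  have cαv : ∀ L : List (Kd G I S E), Commute (wd v L) α := by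
    intro L
    refine Algebra.adjoin_induction (p := fun x _ => Commute (wd v L) x) ?_ ?_ ?_ ?_ hα
    · rintro _ ⟨j, rfl⟩
      induction L with
      | nil => simp [wd]
      | cons a L ih =>
        have e : wd v (a :: L) = v a * wd v L := by simp [wd]
        rw [e]
        exact (h.cuv j a).symm.mul_left ih
    · intro r
      exact (Algebra.commutes r (wd v L)).symm
    · intro x y _ _ hx hy
      exact hx.add_right hy
    · intro x y _ _ hx hy
      exact hx.mul_right hy
  have hfac : ∀ p ∈ s, wd' t' (A p0.1) * wd t (A p.1) = if A p.1 = A p0.1 then 1 else 0 := by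
    intro p hp
    split_ifs with hc
    · rw [hc]; exact wd'_wd ht _
    · refine wd'_wd_ne ht _ _ (fun hpre => hc ?_) (fun hpre => hc ?_)
      · exact (hA p0 hp0 p hp hpre).symm
      · exact hA p hp p0 hp0 hpre
  have hterm : ∀ p ∈ s, b p * (R * (γ (wd t (A p.1)) * wd v (D p.1))) * γ (bC p.2) * α =
      if A p.1 = A p0.1 then b p * (R * wd v (D p.1)) * γ (bC p.2) else 0 := by
    intro p hp
    have e1 : b p * (R * (γ (wd t (A p.1)) * wd v (D p.1))) * γ (bC p.2) * α
        = b p * (R * α * (γ (wd t (A p.1)) * wd v (D p.1))) * γ (bC p.2) := by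
      have c1 : γ (bC p.2) * α = α * γ (bC p.2) := (cαγ _).eq
      have c2 : γ (wd t (A p.1)) * wd v (D p.1) * α = α * (γ (wd t (A p.1)) * wd v (D p.1)) :=
        ((cαγ _).mul_left (cαv _)).eq
      calc b p * (R * (γ (wd t (A p.1)) * wd v (D p.1))) * γ (bC p.2) * α
          = b p * R * (γ (wd t (A p.1)) * wd v (D p.1)) * (γ (bC p.2) * α) := by
            simp only [mul_assoc]
        _ = b p * R * ((γ (wd t (A p.1)) * wd v (D p.1)) * α) * γ (bC p.2) := by
            rw [c1]; simp only [mul_assoc]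
        _ = b p * (R * α * (γ (wd t (A p.1)) * wd v (D p.1))) * γ (bC p.2) := by
            rw [c2]; simp only [mul_assoc]
    have e2 : R * α * (γ (wd t (A p.1)) * wd v (D p.1))
        = R * (γ (wd' t' (A p0.1) * wd t (A p.1)) * wd v (D p.1)) := by
      rw [hRα, map_mul]; simp only [mul_assoc]
    rw [e1, e2, hfac p hp]
    split_ifs with hc
    · rw [map_one, one_mul]
    · rw [map_zero, zero_mul, mul_zero, mul_zero, zero_mul]
  have hsum : ∑ p ∈ s.filter (fun p => A p.1 = A p0.1),
      b p * (R * wd v (D p.1)) * γ (bC p.2) ∈ J := by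
    rw [Finset.sum_filter, ← Finset.sum_congr rfl hterm, ← Finset.sum_mul]
    exact J.mul_mem_right _ _ hs
  set s0 := s.filter (fun p => A p.1 = A p0.1) with hs0
  have hp00 : p0 ∈ s0 := Finset.mem_filter.mpr ⟨hp0, rfl⟩
  let f : List (Kd G I S E) × ι → List (Kd G I S E) × ι := fun p => (D p.1, p.2)
  have hinj : Set.InjOn f (s0 : Set (List (Kd G I S E) × ι)) := by
    intro p hp q hq hpq
    have hp1 := Finset.mem_filter.mp (Finset.mem_coe.mp hp)
    have hq1 := Finset.mem_filter.mp (Finset.mem_coe.mp hq)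
    obtain ⟨h1, h2⟩ : D p.1 = D q.1 ∧ p.2 = q.2 := Prod.mk.inj hpq
    exact Prod.ext (hAD p hp1.1 q hq1.1 (hp1.2.trans hq1.2.symm) h1) h2
  haveI : Nonempty (List (Kd G I S E) × ι) := ⟨p0⟩
  let g := Function.invFunOn f (s0 : Set (List (Kd G I S E) × ι))
  have hg : ∀ p ∈ s0, g (f p) = p := fun p hp => hinj.leftInvOn_invFunOn (Finset.mem_coe.mpr hp)
  have hsum2 : ∑ q ∈ s0.image f, b (g q) * (R * wd v q.1) * γ (bC q.2) ∈ J := by
    rw [Finset.sum_image (fun p hp q hq hpq => hinj hp hq hpq)]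
    refine (congrArg (· ∈ J) (Finset.sum_congr rfl fun p hp => ?_)).mpr hsum
    rw [hg p hp]
  have := cmd_iso h hcen bC J (s0.image f) (fun q => b (g q)) hsum2 (f p0)
    (Finset.mem_image_of_mem f hp00)
  simp only [hg p0 hp00] at this
  exact this

end target

end Pool.SF
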