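import Pool.Agent.Helper702.SF.SimpleD
import Pool.Agent.Helper702.SF.P_wd_append
import Pool.Agent.Helper702.SF.P_wdp_append
import Pool.Agent.Helper702.SF.P_wdp_wd
import Pool.Agent.Helper702.SF.P_wdp_wd_ne
import Pool.Agent.Helper702.SF.P_cmdX
import Pool.Agent.Helper702.SF.P_cmdY
import Pool.Agent.Helper702.SF.P_cmd_iso_t
import Pool.Agent.Helper702.SF.P_cmd_garbage
import Pool.Agent.Helper702.SF.P_lev_mul
import Pool.Agent.Helper702.SF.P_repr

set_option autoImplicit false

set_option linter.unusedSectionVars false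

namespace Pool.SF
section target
variable {F B C G I S E : Type} [Field F] [Ring B] [Algebra F B] [Ring C] [Algebra F C]
  [Fintype G] [DecidableEq G] [Fintype I] [DecidableEq I] [Fintype S] [DecidableEq S]
  [Fintype E] [DecidableEq E]
  (s : Sys F B C G I S E)
theorem s4_nil {K B : Type} [Ring B] (u : K → B) : wd u [] = 1 := by simp [wd]

theorem s4_cons {K B : Type} [Ring B] (u : K → B) (j : K) (J : List K) :
    wd u (j :: J) = u j * wd u J := by simp [wd]

theorem s4_snoc {K B : Type} [Ring B] (u : K → B) (J : List K) (j : K) :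
    wd u (J ++ [j]) = wd u J * u j := by simp [wd]

theorem s4_comm_left {K B : Type} [Ring B] (u : K → B) (z : B) (h : ∀ i, Commute z (u i))
    (J : List K) : Commute z (wd u J) := by
  induction J with
  | nil => rw [s4_nil]; exact Commute.one_right z
  | cons j J ih => rw [s4_cons]; exact (h j).mul_right ih

theorem s4_xy (s : Sys F B C G I S E) (P L : List (Kd G I S E)) :
    Commute (wd s.x P) (wd s.y L) := by
  refine s4_comm_left _ _ (fun j => ?_) L
  exact (s4_comm_left _ _ (fun i => (s.cxy i j).symm) P).symm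

theorem s4_gy (s : Sys F B C G I S E) (c : C) (L : List (Kd G I S E)) :
    Commute (s.γ c) (wd s.y L) := s4_comm_left _ _ (fun j => s.cy c j) L

theorem s4_gx (s : Sys F B C G I S E) (c : C) (L : List (Kd G I S E)) :
    Commute (s.γ c) (wd s.x L) := s4_comm_left _ _ (fun j => s.cx c j) L

theorem s4_inp {j : Kd G I S E} (h : j.isInp) : ∃ i, j = .inp i := by
  cases j <;> simp [Kd.isInp] at h ⊢

theorem s4_R0 (s : Sys F B C G I S E) (P : List (Kd G I S E)) (hP : ∀ j ∈ P, j.isInp) :
    s.R0 * wd s.x P = s.R0 * wd s.y P.reverse := by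
  induction P with
  | nil => simp [wd]
  | cons j P ih =>
    obtain ⟨i, hi⟩ := s4_inp (hP j List.mem_cons_self)
    have ih' := ih (fun j hj => hP j (List.mem_cons_of_mem _ hj))
    have hc : s.y j * wd s.x P = wd s.x P * s.y j :=
      (s4_comm_left _ _ (fun i => (s.cxy i j).symm) P)
    rw [List.reverse_cons, s4_snoc, s4_cons, ← mul_assoc, ← mul_assoc, ← ih', mul_assoc s.R0 _ (s.y j),
      ← hc, ← mul_assoc, hi, s.R0_inp]

theorem s4_H (s : Sys F B C G I S E) (a : Bool) (P : List (Kd G I S E))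
    (hP : ∀ j ∈ P, j.isInp) : s.H a * wd s.y P = s.H a * s.γ (wd s.t P.reverse) := by
  induction P with
  | nil => simp [wd]
  | cons j P ih =>
    obtain ⟨i, hi⟩ := s4_inp (hP j List.mem_cons_self)
    have ih' := ih (fun j hj => hP j (List.mem_cons_of_mem _ hj))
    have hc : s.γ (s.t j) * wd s.y P = wd s.y P * s.γ (s.t j) := (s4_gy s _ P)
    rw [List.reverse_cons, s4_snoc, s4_cons, map_mul, ← mul_assoc, ← mul_assoc, ← ih',
      mul_assoc (s.H a) _ (s.γ (s.t j)), ← hc, ← mul_assoc, hi, s.H_inp]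

theorem s4_noop (s : Sys F B C G I S E) (n : ℕ) : s.RX * s.x .noop ^ n = s.RX := by
  induction n with
  | zero => rw [pow_zero, mul_one]
  | succ n ih => rw [pow_succ', ← mul_assoc, s.RX_noop, ih]

/-- decomposition of a word -/
theorem s4_dec (K : List (Kd G I S E)) : ∃ (K1 : List (Kd G I S E)) (j : Kd G I S E)
    (D : List (Kd G I S E)), (∀ i ∈ K1, i.isInp) ∧ ¬ j.isInp ∧ K ++ [.kill] = K1 ++ j :: D ∧
      (j ≠ .kill → ∃ K2, D = K2 ++ [.kill]) := by
  induction K with
  | nil => exact ⟨[], .kill, [], by simp, by simp [Kd.isInp], rfl, fun h => absurd rfl h⟩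
  | cons x K ih =>
    by_cases hx : x.isInp
    · obtain ⟨K1, j, D, h1, h2, h3, h4⟩ := ih
      refine ⟨x :: K1, j, D, ?_, h2, by rw [List.cons_append, h3, List.cons_append], h4⟩
      intro i hi
      rcases List.mem_cons.1 hi with rfl | hi
      · exact hx
      · exact h1 i hi
    · exact ⟨[], x, K ++ [.kill], by simp, hx, by simp, fun _ => ⟨K, rfl⟩⟩

/-- the value of one term -/
theorem s4_term (s : Sys F B C G I S E) (a : Bool) (N : ℕ) (W K K1 D : List (Kd G I S E))
    (j : Kd G I S E) (hW : ∀ i ∈ W, i.isInp) (hK : K.length < N) (h1 : ∀ i ∈ K1, i.isInp)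
    (h2 : ¬ j.isInp) (h3 : K ++ [.kill] = K1 ++ j :: D)
    (h4 : j ≠ .kill → ∃ K2, D = K2 ++ [.kill]) :
    s.R0 * wd s.y K * (wd s.x W.reverse * s.x (.ex a) * s.y .kill * s.x .noop ^ N) =
      if j = .bot ∨ j = .ex a then 0
      else s.RX * (s.γ (wd s.t (j :: (K1.reverse ++ W.reverse))) * wd s.y D) := by
  have e1 : s.R0 * wd s.y K * (wd s.x W.reverse * s.x (.ex a) * s.y .kill * s.x .noop ^ N)
      = s.H a * wd s.y (W ++ K1) * s.y j * wd s.y D * s.x .noop ^ N := by
    have c1 : wd s.y K * (wd s.x W.reverse * s.x (.ex a))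
        = (wd s.x W.reverse * s.x (.ex a)) * wd s.y K := by
      have := (s4_xy s (W.reverse ++ [.ex a]) K).eq
      rw [s4_snoc] at this
      exact this.symm
    have c2 : s.R0 * (wd s.x W.reverse * s.x (.ex a)) = s.H a * wd s.y W := by
      rw [← mul_assoc, s4_R0 s W.reverse (fun i hi => hW i (List.mem_reverse.1 hi)),
        List.reverse_reverse, mul_assoc]
      have c3 : wd s.y W * s.x (.ex a) = s.x (.ex a) * wd s.y W :=
        ((s4_comm_left _ _ (fun i => s.cxy (.ex a) i) W)).symm
      rw [c3, ← mul_assoc, s.R0_ex]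
    have c4 : wd s.y K * s.y .kill = wd s.y K1 * (s.y j * wd s.y D) := by
      rw [← s4_snoc, h3, wd_append, s4_cons]
    calc s.R0 * wd s.y K * (wd s.x W.reverse * s.x (.ex a) * s.y .kill * s.x .noop ^ N)
        = s.R0 * (wd s.y K * (wd s.x W.reverse * s.x (.ex a))) * s.y .kill * s.x .noop ^ N := by
          simp only [mul_assoc]
      _ = (s.R0 * (wd s.x W.reverse * s.x (.ex a))) * (wd s.y K * s.y .kill) * s.x .noop ^ N := by
          rw [c1]; simp only [mul_assoc]
      _ = s.H a * wd s.y (W ++ K1) * s.y j * wd s.y D * s.x .noop ^ N := by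
          rw [c2, c4, wd_append]; simp only [mul_assoc]
  have hWK : ∀ i ∈ W ++ K1, i.isInp := by
    intro i hi
    rcases List.mem_append.1 hi with h | h
    · exact hW i h
    · exact h1 i h
  have e2 : s.H a * wd s.y (W ++ K1) * s.y j
      = s.H a * s.y j * s.γ (wd s.t (K1.reverse ++ W.reverse)) := by
    rw [s4_H s a _ hWK, List.reverse_append, mul_assoc, (s.cy _ j).eq, ← mul_assoc]
  rw [e1, e2]
  by_cases hb : j = .bot
  · rw [if_pos (Or.inl hb), hb, s.H_bot]
    simp only [zero_mul]
  by_cases he : j = .ex a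
  · rw [if_pos (Or.inr he)]
    obtain ⟨K2, hK2⟩ := h4 (by rw [he]; simp)
    have hlen : K2.length < N := by
      have := congrArg List.length h3
      rw [hK2] at this
      simp only [List.length_append, List.length_cons, List.length_nil] at this
      omega
    have g1 := cmd_garbage (cmdY s) K2 N hlen
    have c5 : s.γ (wd s.t (K1.reverse ++ W.reverse)) * (wd s.y D * s.x .noop ^ N)
        = (wd s.y D * s.x .noop ^ N) * s.γ (wd s.t (K1.reverse ++ W.reverse)) :=
      ((s4_gy s _ D).mul_right ((s.cx _ .noop).pow_right N)).eq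
    rw [he, s.H_ex, mul_assoc, mul_assoc, c5, hK2, s4_snoc]
    have : s.RY * (wd s.y K2 * s.y .kill * s.x .noop ^ N *
        s.γ (wd s.t (K1.reverse ++ W.reverse)))
        = (s.RY * wd s.y K2 * s.y .kill * s.x .noop ^ N) *
          s.γ (wd s.t (K1.reverse ++ W.reverse)) := by
      simp only [mul_assoc]
    rw [this, g1, zero_mul]
  · rw [if_neg (by rintro (h | h); exacts [hb h, he h]), s.H_other a j h2 hb he, s4_cons, map_mul]
    have c6 : (s.γ (s.t j) * s.γ (wd s.t (K1.reverse ++ W.reverse)) * wd s.y D) * s.x .noop ^ N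
        = s.x .noop ^ N * (s.γ (s.t j) * s.γ (wd s.t (K1.reverse ++ W.reverse)) * wd s.y D) := by
      refine (Commute.mul_left (Commute.mul_left ?_ ?_) ?_).eq
      · exact (s.cx _ .noop).pow_right N
      · exact (s.cx _ .noop).pow_right N
      · exact (s4_comm_left _ _ (fun i => ((s.cxy .noop i).pow_left N)) D).symm
    calc s.RX * s.γ (s.t j) * s.γ (wd s.t (K1.reverse ++ W.reverse)) * wd s.y D * s.x .noop ^ N
        = s.RX * ((s.γ (s.t j) * s.γ (wd s.t (K1.reverse ++ W.reverse)) * wd s.y D)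
            * s.x .noop ^ N) := by simp only [mul_assoc]
      _ = (s.RX * s.x .noop ^ N) *
            (s.γ (s.t j) * s.γ (wd s.t (K1.reverse ++ W.reverse)) * wd s.y D) := by
          rw [c6]; simp only [mul_assoc]
      _ = _ := by rw [s4_noop]

/-- words starting with the letter `bot` after guide letters are annihilated -/
theorem s4_bot (s : Sys F B C G I S E) (K K1 D : List (Kd G I S E))
    (h1 : ∀ i ∈ K1, i.isInp) (h3 : K ++ [.kill] = K1 ++ .bot :: D)
    (h4 : ∃ K2, D = K2 ++ [.kill]) : s.R0 * wd s.y K = 0 := by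
  obtain ⟨K2, rfl⟩ := h4
  have h5 : K = K1 ++ .bot :: K2 := by
    have : K ++ [.kill] = (K1 ++ .bot :: K2) ++ [.kill] := by rw [h3]; simp
    exact List.append_cancel_right this
  have h6 := s4_R0 s K1.reverse (fun i hi => h1 i (List.mem_reverse.1 hi))
  rw [List.reverse_reverse] at h6
  have hc : wd s.x K1.reverse * s.y .bot = s.y .bot * wd s.x K1.reverse :=
    ((s4_comm_left _ _ (fun i => (s.cxy i .bot).symm) K1.reverse)).symm
  rw [h5, wd_append, s4_cons, ← mul_assoc, ← h6, mul_assoc, ← mul_assoc (wd s.x K1.reverse), hc,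
    mul_assoc (s.y .bot), ← mul_assoc s.R0, s.R0_y, zero_mul]

/-- the words `A` are prefix incomparable unless equal -/
theorem s4_pref (α β : I) (hαβ : α ≠ β) (N : ℕ) (j j' : Kd G I S E) (L L' : List (Kd G I S E))
    (hL' : L'.length ≤ N)
    (h : (j :: (L ++ (List.replicate N (Kd.inp β : Kd G I S E) ++ [Kd.inp α]).reverse)) <+:
      (j' :: (L' ++ (List.replicate N (Kd.inp β : Kd G I S E) ++ [Kd.inp α]).reverse))) :
    (j :: (L ++ (List.replicate N (Kd.inp β : Kd G I S E) ++ [Kd.inp α]).reverse)) =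
      (j' :: (L' ++ (List.replicate N (Kd.inp β : Kd G I S E) ++ [Kd.inp α]).reverse)) := by
  have hlen := h.length_le
  simp only [List.length_cons, List.length_append, List.length_reverse, List.length_replicate,
    List.length_nil] at hlen
  rcases (show L.length ≤ L'.length by omega).lt_or_eq with hlt | heq
  · exfalso
    have hrev : (List.replicate N (Kd.inp β : Kd G I S E) ++ [Kd.inp α]).reverse
        = Kd.inp α :: List.replicate N (Kd.inp β) := by simp
    rw [hrev] at h
    obtain ⟨r, hr⟩ := h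
    have hr' : (L ++ (Kd.inp α : Kd G I S E) :: List.replicate N (Kd.inp β)) ++ r
        = L' ++ (Kd.inp α : Kd G I S E) :: List.replicate N (Kd.inp β) := by
      have := congrArg List.tail hr
      simpa using this
    have h5 := congrArg (fun l => l[L'.length]?) hr'
    rw [List.getElem?_append_right (l₁ := L') le_rfl, Nat.sub_self,
      List.getElem?_append_left (by simp; omega), List.getElem?_append_right hlt.le] at h5
    obtain ⟨d, hd⟩ : ∃ d, L'.length - L.length = d + 1 := ⟨L'.length - L.length - 1, by omega⟩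
    rw [hd, List.getElem?_cons_succ, List.getElem?_replicate, if_pos (by omega)] at h5
    simp at h5
    exact hαβ h5.symm
  · exact h.eq_of_length (by simp [heq])

theorem step4 [IsSimpleRing C]
    (hcen : ∀ z : C, (∀ c, z * c = c * z) → ∃ r : F, algebraMap F C r = z)
    (hI : ∃ a b : I, a ≠ b)
    (J : TwoSidedIdeal B) (k : ℕ) (hk : ∀ z ∈ lev s k, z ∈ J → z = 0)
    (T : B) (hT : T ∈ LR s k) (hTJ : T ∈ J) : T = 0 := by
  classical
  obtain ⟨α, β, hαβ⟩ := hI
  let bC := Module.Basis.ofVectorSpace F C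
  obtain ⟨t, b, hb, hTe⟩ := repr s bC (lev s k)
    (fun K : List (Kd G I S E) => s.R0 * wd s.y K) T hT
  choose K1 hd D h1 h2 h3 h4 using (s4_dec (G := G) (I := I) (S := S) (E := E))
  -- a bound of the lengths
  obtain ⟨N, hN⟩ : ∃ N : ℕ, ∀ p ∈ t, p.1.length < N := by
    refine ⟨t.sup (fun p => p.1.length) + 1, fun p hp => ?_⟩
    exact Nat.lt_succ_of_le (Finset.le_sup (f := fun p => p.1.length) hp)
  set W : List (Kd G I S E) := List.replicate N (.inp β) ++ [.inp α] with hWdef
  have hW : ∀ i ∈ W, i.isInp := by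
    intro i hi
    rcases List.mem_append.1 hi with h | h
    · rw [List.eq_of_mem_replicate h]; trivial
    · rw [List.mem_singleton.1 h]; trivial
  have hK1 : ∀ K, (K1 K).length ≤ K.length := by
    intro K
    have := congrArg List.length (h3 K)
    simp only [List.length_append, List.length_cons, List.length_nil] at this
    omega
  have key : ∀ a : Bool, ∀ p ∈ t, hd p.1 ≠ .bot → hd p.1 ≠ .ex a → b p = 0 := by
    intro a
    set Z : B := wd s.x W.reverse * s.x (.ex a) * s.y .kill * s.x .noop ^ N with hZ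
    have hTZ : T * Z ∈ J := J.mul_mem_right _ _ hTJ
    have hgZ : ∀ c : C, Commute (s.γ c) Z := by
      intro c
      exact (((s4_gx s c _).mul_right (s.cx c _)).mul_right (s.cy c _)).mul_right
        ((s.cx c _).pow_right N)
    have hsum : T * Z = ∑ p ∈ t.filter (fun p => ¬ (hd p.1 = .bot ∨ hd p.1 = .ex a)),
        b p * (s.RX * (s.γ (wd s.t (hd p.1 :: ((K1 p.1).reverse ++ W.reverse))) * wd s.y (D p.1)))
          * s.γ (bC p.2) := by
      rw [hTe, Finset.sum_mul, Finset.sum_filter]
      refine Finset.sum_congr rfl fun p hp => ?_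
      have e1 : b p * (s.R0 * wd s.y p.1) * s.γ (bC p.2) * Z
          = b p * (s.R0 * wd s.y p.1 * Z) * s.γ (bC p.2) := by
        rw [mul_assoc _ (s.γ _) Z, (hgZ _).eq]
        simp only [mul_assoc]
      rw [e1, hZ, s4_term s a N W p.1 (K1 p.1) (D p.1) (hd p.1) hW (hN p hp) (h1 _) (h2 _) (h3 _)
        (h4 _)]
      by_cases hc : hd p.1 = .bot ∨ hd p.1 = .ex a
      · rw [if_pos hc, if_neg (not_not.2 hc), mul_zero, zero_mul]
      · rw [if_neg hc, if_pos hc]
    rw [hsum] at hTZ
    have hiso := cmd_iso_t (cmdX s) hcen bC J s.tt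
      (t.filter (fun p => ¬ (hd p.1 = .bot ∨ hd p.1 = .ex a))) b
      (fun K => hd K :: ((K1 K).reverse ++ W.reverse)) D ?_ ?_ hTZ
    · intro p hp hp1 hp2
      refine hk _ (hb p) (hiso p ?_)
      rw [Finset.mem_filter]
      exact ⟨hp, by rintro (h | h); exacts [hp1 h, hp2 h]⟩
    · intro p hp q hq hpq
      have hq' := (Finset.mem_filter.1 hq).1
      refine s4_pref α β hαβ N _ _ _ _ ?_ hpq
      rw [List.length_reverse]
      exact (hK1 _).trans (hN q hq').le
    · intro p hp q hq hpq hD
      have e1 : hd p.1 = hd q.1 := (List.cons.inj hpq).1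
      have e2 : K1 p.1 = K1 q.1 :=
        List.reverse_injective (List.append_cancel_right (List.cons.inj hpq).2)
      have e3 : p.1 ++ [.kill] = q.1 ++ [.kill] := by
        rw [h3 p.1, h3 q.1, e1, e2, hD]
      exact List.append_cancel_right e3
  rw [hTe]
  refine Finset.sum_eq_zero fun p hp => ?_
  by_cases hbot : hd p.1 = .bot
  · have h5 := h3 p.1
    have h6 := h4 p.1 (by rw [hbot]; simp)
    rw [hbot] at h5
    change b p * (s.R0 * wd s.y p.1) * s.γ (bC p.2) = 0
    rw [s4_bot s p.1 (K1 p.1) (D p.1) (h1 _) h5 h6, mul_zero, zero_mul]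
  · have h7 : b p = 0 := by
      by_cases ht : hd p.1 = .ex true
      · exact key false p hp hbot (by rw [ht]; simp)
      · exact key true p hp hbot ht
    rw [h7, zero_mul, zero_mul]

end target

end Pool.SF
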