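import Pool.Agent.Helper702.SF.SimpleD
import Pool.Agent.Helper702.SF.P_exists_words
import Pool.Agent.Helper702.SF.P_good_all
import Pool.Agent.Helper702.SF.P_loc_iso
import Pool.Agent.Helper702.SF.P_step1
import Pool.Agent.Helper702.SF.P_step2
import Pool.Agent.Helper702.SF.P_step3
import Pool.Agent.Helper702.SF.P_step4
import Pool.Agent.Helper702.SF.P_lev_top

set_option autoImplicit false
set_option linter.unusedSectionVars false

namespace Pool.SF

section sys
variable {F B C G I S E : Type} [Field F] [Ring B] [Algebra F B] [Ring C] [Algebra F C]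
  [Fintype G] [DecidableEq G] [Fintype I] [DecidableEq I] [Fintype S] [DecidableEq S]
  [Fintype E] [DecidableEq E]
  (s : Sys F B C G I S E)


--@ simple_main
include s in
/-- The algebra is simple. -/
theorem simple_main [IsSimpleRing C]
    (hcen : ∀ z : C, (∀ c, z * c = c * z) → ∃ r : F, algebraMap F C r = z)
    (hI : ∃ a b : I, a ≠ b) (J : TwoSidedIdeal B) (h1 : (1 : B) ∉ J) (T : B) (hT : T ∈ J) :
    T = 0 := by
  have key : ∀ k, ∀ z ∈ lev s k, z ∈ J → z = 0 := by
    intro k
    induction k with
    | zero =>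
      intro z hz hzJ
      by_contra h0
      obtain ⟨p, q, hpq⟩ := exists_words s z h0
      obtain ⟨a, ha⟩ := good_all s 0 z hz p q
      obtain ⟨a', ha'⟩ := ha a le_rfl
      have h2 := ha' a' le_rfl
      have h3 := loc_iso s J _ h2 [] [] (by
        have := J.mul_mem_right _ (wd s.y (pre q a)) (J.mul_mem_right _ (wd s.x (pre p a')) hzJ)
        simpa [wd] using this)
      rcases h3 with h3 | h3
      · exact hpq _ _ h3
      · exact h1 h3
    | succ k ih =>
      intro z hz hzJ
      by_contra h0
      obtain ⟨p, q, hpq⟩ := exists_words s z h0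
      obtain ⟨a, ha⟩ := good_all s (k + 1) z hz p q
      obtain ⟨a', ha'⟩ := ha a le_rfl
      have h2 := ha' a' le_rfl
      have h3 : z * wd s.x (pre p a') * wd s.y (pre q a) ∈ J :=
        J.mul_mem_right _ _ (J.mul_mem_right _ _ hzJ)
      have h4 := step1 s hcen J h1 k ih _ h2 h3
      obtain ⟨T', hT', hT'J, hT'0⟩ := step2 s J k _ h4 h3 (hpq _ _)
      have h5 := step3 s hcen J k ih T' hT' hT'J
      exact hT'0 (step4 s hcen hI J k ih T' h5 hT'J)
  obtain ⟨k, hk⟩ := lev_top s T
  exact key k T hk hT


end sys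

end Pool.SF
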