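import Pool.Agent.Helper702.SF.SimpleD
import Pool.Agent.Helper702.SF.RepD
import Pool.Agent.Helper702.SF.MachD
import Pool.Agent.Helper702.SF.MainD
import Pool.Agent.Helper702.SF.PartID
import Pool.Agent.Helper702.SF.Main2D
import Pool.Agent.Helper702.SF.P_simple_main

set_option autoImplicit false
set_option linter.unusedSectionVars false

namespace Pool.SF
section target
open Turing
variable {F : Type} [Field F] {G Γ Λ : Type} [Fintype G] [DecidableEq G] [Fintype Γ]
  [DecidableEq Γ] [Inhabited Γ] [Fintype Λ] [DecidableEq Λ] [Inhabited Λ]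

theorem sor_wd_mem {B K : Type} [Ring B] [Algebra F B] (S : Subalgebra F B) (u : K → B)
    (hu : ∀ j, u j ∈ S) (J : List K) : wd u J ∈ S := by
  unfold wd
  apply list_prod_mem
  intro x hx
  obtain ⟨j, -, rfl⟩ := List.mem_map.1 hx
  exact hu j

omit [Fintype G] [DecidableEq G] [Fintype Λ] [DecidableEq Λ] [Inhabited Λ] in
theorem sor_smat_mem {B : Type} [Ring B] [Algebra F B] (S : Subalgebra F B) (a : G → B)
    (ha : ∀ g, a g ∈ S) (l : G ⊕ Bool) (s s' : Stt Λ) : smat a l s s' ∈ S := by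
  unfold smat
  split
  · exact ha _
  · exact S.one_mem
  · exact S.one_mem
  · split
    · exact S.one_mem
    · exact S.neg_mem S.one_mem
  · exact S.one_mem
  · exact S.one_mem
  · exact S.one_mem
  · exact S.zero_mem

theorem sor_mop_mem {B : Type} [Ring B] [Algebra F B] (S : Subalgebra F B)
    (x x' t t' : KK G Γ Λ → B) (hx : ∀ j, x j ∈ S) (hx' : ∀ j, x' j ∈ S) (ht : ∀ j, t j ∈ S)
    (ht' : ∀ j, t' j ∈ S) (st : Turing.TM0.Stmt Γ) (g : Γ) : mop x x' t t' st g ∈ S := by
  unfold mop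
  split
  · exact S.mul_mem (ht _) (hx' _)
  · exact S.mul_mem (S.sum_mem fun h _ => S.mul_mem (hx _) (ht' _)) (S.mul_mem (hx _) (hx' _))
  · exact S.mul_mem (hx _) (hx' _)

theorem sor_mph_mem {B : Type} [Ring B] [Algebra F B] (S : Subalgebra F B)
    (M : TM0.Machine Γ Λ) (cd : G ⊕ Bool → List Γ) (top : List Γ)
    (a : G → B) (x x' t t' : KK G Γ Λ → B) (ha : ∀ g, a g ∈ S)
    (hx : ∀ j, x j ∈ S) (hx' : ∀ j, x' j ∈ S) (ht : ∀ j, t j ∈ S)
    (ht' : ∀ j, t' j ∈ S) (i : Gl G) (s s' : Stt Λ) : mph M cd top a x x' t t' i s s' ∈ S := by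
  unfold mph
  split
  · exact S.mul_mem (sor_smat_mem S a ha _ _ _) (sor_wd_mem S x hx _)
  · split
    · exact S.mul_mem (ht _) (sor_wd_mem S x hx _)
    · exact S.zero_mem
  · apply S.sum_mem
    intro g _
    split
    · split
      · exact sor_mop_mem S x x' t t' hx hx' ht ht' _ _
      · exact S.zero_mem
    · exact S.zero_mem
  · split
    · exact S.mul_mem (S.mul_mem (ht _) (ht _)) (ht' _)
    · exact S.zero_mem
  · split
    · exact S.mul_mem (S.mul_mem (hx _) (hx _)) (hx' _)
    · exact S.zero_mem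
  · exact S.zero_mem

theorem sor_mps_mem {B : Type} [Ring B] [Algebra F B] (S : Subalgebra F B)
    (M : TM0.Machine Γ Λ) (x x' : KK G Γ Λ → B)
    (hx : ∀ j, x j ∈ S) (hx' : ∀ j, x' j ∈ S) (s : Stt Λ) : mps M x x' s ∈ S := by
  unfold mps
  split
  · apply S.sum_mem
    intro g _
    split
    · exact S.zero_mem
    · exact S.mul_mem (hx _) (hx' _)
  · exact S.zero_mem

theorem sor_mio_mem {B : Type} [Ring B] [Algebra F B] (S : Subalgebra F B)
    (x : KK G Γ Λ → B) (hx : ∀ j, x j ∈ S) (s : Stt Λ) : mio x s ∈ S := by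
  unfold mio
  split
  · exact hx _
  · exact hx _
  · exact S.zero_mem

theorem sor_comm {B C : Type} [Ring B] [Algebra F B] [Ring C] [Algebra F C]
    (γ : C →ₐ[F] B) (cgen : G → C) (hcgen : Algebra.adjoin F (Set.range cgen) = ⊤) (b : B)
    (hb : ∀ g, Commute (γ (cgen g)) b) (c : C) : Commute (γ c) b := by
  have hc : c ∈ Algebra.adjoin F (Set.range cgen) := by rw [hcgen]; exact Algebra.mem_top
  induction hc using Algebra.adjoin_induction with
  | mem x hx =>
    obtain ⟨g, rfl⟩ := hx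
    exact hb g
  | algebraMap r =>
    rw [AlgHom.commutes]
    exact Algebra.commutes r b
  | add x y _ _ hx hy =>
    rw [map_add]
    exact hx.add_left hy
  | mul x y _ _ hx hy =>
    rw [map_mul]
    exact hx.mul_left hy

theorem sor_lift {B C : Type} [Ring B] [Algebra F B] [Ring C] [Algebra F C]
    (γ : C →ₐ[F] B) (cgen : G → C) (a : G → B) (h : ∀ g, γ (cgen g) = a g)
    (p : FreeAlgebra F G) : γ (FreeAlgebra.lift F cgen p) = FreeAlgebra.lift F a p := by
  have : γ.comp (FreeAlgebra.lift F cgen) = FreeAlgebra.lift F a := by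
    apply FreeAlgebra.hom_ext
    funext g
    simp [h]
  exact DFunLike.congr_fun this p

/-- the system given by the relations -/
theorem sor_sys {B C : Type} [Ring B] [Algebra F B] [Ring C] [Algebra F C]
    {N : ℕ} (idx : KK G Γ Λ ≃ Fin N) (hk : (idx .kill : ℕ) = 0) (hn : (idx .noop : ℕ) = 1)
    (M : TM0.Machine Γ Λ) (cd : G ⊕ Bool → List Γ) (top : List Γ)
    (tp tp' : KK G Γ Λ → FreeAlgebra F G) (f : Gn G (Gl G) (Stt Λ) (Ex Γ) → B)
    (h : ∀ r, lhs (mkEl M cd top tp tp' f) r = rhs idx (mkEl M cd top tp tp' f) r)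
    (hf : Algebra.adjoin F (Set.range f) = ⊤)
    (γ : C →ₐ[F] B) (cgen : G → C) (hγ : ∀ g, γ (cgen g) = f (.c g))
    (hcgen : Algebra.adjoin F (Set.range cgen) = ⊤)
    (ht : Orth (fun j => FreeAlgebra.lift F cgen (tp j)) (fun j => FreeAlgebra.lift F cgen (tp' j))) :
    Nonempty (Sys F B C G (Gl G) (Stt Λ) (Ex Γ)) := by
  have hT : ∀ p : FreeAlgebra F G, γ (FreeAlgebra.lift F cgen p)
      = FreeAlgebra.lift F (fun g => f (.c g)) p := sor_lift γ cgen _ hγ
  set SS : Subalgebra F B := Algebra.adjoin F (Set.range γ ∪ Set.range (fun j => f (.x j)) ∪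
    Set.range (fun j => f (.x' j))) with hSS
  have mx : ∀ j, f (.x j) ∈ SS := fun j => Algebra.subset_adjoin (Or.inl (Or.inr ⟨j, rfl⟩))
  have mx' : ∀ j, f (.x' j) ∈ SS := fun j => Algebra.subset_adjoin (Or.inr ⟨j, rfl⟩)
  have mγ : ∀ c, γ c ∈ SS := fun c => Algebra.subset_adjoin (Or.inl (Or.inl ⟨c, rfl⟩))
  have ma : ∀ g, f (.c g) ∈ SS := fun g => by rw [← hγ]; exact mγ _
  have mt : ∀ p : FreeAlgebra F G, FreeAlgebra.lift F (fun g => f (.c g)) p ∈ SS := fun p => by
    rw [← hT]; exact mγ _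
  exact ⟨{
    N := N
    idx := idx
    idx_kill := hk
    idx_noop := hn
    γ := γ
    cgen := cgen
    cgen_top := hcgen
    t := fun j => FreeAlgebra.lift F cgen (tp j)
    t' := fun j => FreeAlgebra.lift F cgen (tp' j)
    tt := ht
    x := fun j => f (.x j)
    x' := fun j => f (.x' j)
    y := fun j => f (.y j)
    y' := fun j => f (.y' j)
    R0 := f .R0
    RX := f .RX
    RY := f .RY
    H := fun a => f (.H a)
    R := fun q => f (.R q)
    io := mio (fun j => f (.x j))
    ps := mps M (fun j => f (.x j)) (fun j => f (.x' j))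
    ph := mph M cd top (fun g => f (.c g)) (fun j => f (.x j)) (fun j => f (.x' j))
      (fun j => FreeAlgebra.lift F (fun g => f (.c g)) (tp j))
      (fun j => FreeAlgebra.lift F (fun g => f (.c g)) (tp' j))
    xx := fun i j => h (.st .xx i j)
    yy := fun i j => h (.st .yy i j)
    xone := h (.one true)
    yone := h (.one false)
    cxy := fun i j => h (.st .xy i j)
    cxy' := fun i j => h (.st .xy' i j)
    cx'y := fun i j => h (.st .x'y i j)
    cx'y' := fun i j => h (.st .x'y' i j)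
    cx := fun c j => sor_comm γ cgen hcgen _ (fun g => by rw [hγ]; exact h (.co .x g j)) c
    cx' := fun c j => sor_comm γ cgen hcgen _ (fun g => by rw [hγ]; exact h (.co .x' g j)) c
    cy := fun c j => sor_comm γ cgen hcgen _ (fun g => by rw [hγ]; exact h (.co .y g j)) c
    cy' := fun c j => sor_comm γ cgen hcgen _ (fun g => by rw [hγ]; exact h (.co .y' g j)) c
    io_mem := fun s => sor_mio_mem SS _ mx s
    ps_mem := fun s => sor_mps_mem SS M _ _ mx mx' s
    ph_mem := fun i s s' => sor_mph_mem SS M cd top _ _ _ _ _ ma mx mx' (fun j => mt _)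
      (fun j => mt _) i s s'
    R0_inp := fun i => h (.r0 (.inp i))
    R0_hash := h (.r0 .hash)
    R0_ex := fun a => h (.r0 (.ex a))
    R0_other := fun j h1 h2 h3 => by
      cases j <;> first | exact absurd trivial h1 | exact absurd rfl h2 | exact absurd rfl (h3 _) | exact h (.r0 _)
    R0_y := h .r0y
    H_inp := fun a i => by rw [hT]; exact h (.h a (.inp i))
    H_bot := fun a => h (.h a .bot)
    H_ex := fun a => (h (.h a (.ex a))).trans (if_pos rfl)
    H_other := fun a j h1 h2 h3 => by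
      rw [hT]
      cases j with
      | inp i => exact absurd trivial h1
      | bot => exact absurd rfl h2
      | ex b => exact (h (.h a (.ex b))).trans (if_neg (fun e => h3 (by rw [e])))
      | _ => exact h (.h a _)
    R_inp := fun s i => h (.r s (.inp i))
    R_bot := fun s => h (.r s .bot)
    R_mk := fun s s' => h (.r s (.mk s'))
    R_other := fun s j h1 h2 h3 => by
      cases j <;> first | exact absurd trivial h1 | exact absurd rfl h2 | exact absurd rfl (h3 _) | exact h (.r s _)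
    RX_noop := h (.cm true .noop)
    RX_fin := h (.cm true .fin)
    RX_cq := h (.cm true .cq)
    RX_cs := h (.cm true .cs)
    RX_cg := fun g => by rw [hγ]; exact h (.cm true (.cg g))
    RX_other := fun j h1 h2 => by
      cases j <;> first | exact absurd trivial h1 | exact absurd rfl h2 | exact h (.cm true _)
    RY_noop := h (.cm false .noop)
    RY_fin := h (.cm false .fin)
    RY_cq := h (.cm false .cq)
    RY_cs := h (.cm false .cs)
    RY_cg := fun g => by rw [hγ]; exact h (.cm false (.cg g))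
    RY_other := fun j h1 h2 => by
      cases j <;> first | exact absurd trivial h1 | exact absurd rfl h2 | exact h (.cm false _)
    gen := by
      rw [eq_top_iff, ← hf]
      apply Algebra.adjoin_mono
      rintro _ ⟨g, rfl⟩
      cases g with
      | c g => rw [← hγ]; exact Or.inl (Or.inl (Or.inl (Or.inl (Or.inl (Or.inl (Or.inl ⟨_, rfl⟩))))))
      | x j => exact Or.inl (Or.inl (Or.inl (Or.inl (Or.inl (Or.inl (Or.inr ⟨j, rfl⟩))))))
      | x' j => exact Or.inl (Or.inl (Or.inl (Or.inl (Or.inl (Or.inr ⟨j, rfl⟩)))))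
      | y j => exact Or.inl (Or.inl (Or.inl (Or.inl (Or.inr ⟨j, rfl⟩))))
      | y' j => exact Or.inl (Or.inl (Or.inl (Or.inr ⟨j, rfl⟩)))
      | R0 => exact Or.inl (Or.inl (Or.inr (Or.inl rfl)))
      | RX => exact Or.inl (Or.inl (Or.inr (Or.inr (Or.inl rfl))))
      | RY => exact Or.inl (Or.inl (Or.inr (Or.inr (Or.inr rfl))))
      | H a => exact Or.inl (Or.inr ⟨a, rfl⟩)
      | R q => exact Or.inr ⟨q, rfl⟩ }⟩

/-- Simplicity of an algebra defined by the relations. -/
theorem simple_of_rel {B C : Type} [Ring B] [Algebra F B] [Ring C] [Algebra F C] [IsSimpleRing C]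
    (hcen : ∀ z : C, (∀ c, z * c = c * z) → ∃ r : F, algebraMap F C r = z)
    {N : ℕ} (idx : KK G Γ Λ ≃ Fin N) (hk : (idx .kill : ℕ) = 0) (hn : (idx .noop : ℕ) = 1)
    (M : TM0.Machine Γ Λ) (cd : G ⊕ Bool → List Γ) (top : List Γ)
    (tp tp' : KK G Γ Λ → FreeAlgebra F G) (f : Gn G (Gl G) (Stt Λ) (Ex Γ) → B)
    (h : ∀ r, lhs (mkEl M cd top tp tp' f) r = rhs idx (mkEl M cd top tp tp' f) r)
    (hf : Algebra.adjoin F (Set.range f) = ⊤)
    (γ : C →ₐ[F] B) (cgen : G → C) (hγ : ∀ g, γ (cgen g) = f (.c g))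
    (hcgen : Algebra.adjoin F (Set.range cgen) = ⊤)
    (ht : Orth (fun j => FreeAlgebra.lift F cgen (tp j)) (fun j => FreeAlgebra.lift F cgen (tp' j)))
    [Nontrivial B] : IsSimpleRing B := by
  obtain ⟨s⟩ := sor_sys idx hk hn M cd top tp tp' f h hf γ cgen hγ hcgen ht
  refine ⟨⟨fun J => ?_⟩⟩
  by_cases h1 : (1 : B) ∈ J
  · right
    rw [eq_top_iff]
    intro x _
    have := J.mul_mem_left x 1 h1
    rwa [mul_one] at this
  · left
    rw [eq_bot_iff]
    intro T hT
    rw [simple_main s hcen ⟨.dol, .stp, by simp⟩ J h1 T hT]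
    exact zero_mem _

end target

end Pool.SF
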