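import Pool.Agent.Helper702.SF.MachD

set_option autoImplicit false
set_option linter.unusedSectionVars false

namespace Pool.SF
section target
open Turing
variable {A G : Type} [Ring A] [Fintype G] [DecidableEq G]

theorem mv_inl_append (a : G → A) (w : List G) (v : List (G ⊕ Bool)) :
    mv a (w.map .inl ++ v) = (w.map a).prod * mv a v := by
  induction w with
  | nil => simp
  | cons g w ih =>
    show a g * mv a (w.map .inl ++ v) = ((g :: w).map a).prod * mv a v
    rw [ih, List.map_cons, List.prod_cons, mul_assoc]

theorem sv_inl_append (a : G → A) (w : List G) (v : List (G ⊕ Bool)) :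
    sv a (w.map .inl ++ v) = sv a v := by
  induction w with
  | nil => rfl
  | cons g w ih =>
    show sv a (w.map .inl ++ v) = sv a v
    exact ih

theorem mv_spl (a : G → A) (r : List (Bool × List G)) : mv a (spl r) = 1 := by
  cases r with
  | nil => rfl
  | cons p r => rfl

theorem sv_spl (a : G → A) (r : List (Bool × List G)) : sv a (spl r) = ev a r := by
  induction r with
  | nil => simp [spl, sv, ev]
  | cons p r ih =>
    obtain ⟨b, w⟩ := p
    show sv a (w.map .inl ++ spl r) + (if b then mv a (w.map .inl ++ spl r)
      else -mv a (w.map .inl ++ spl r)) = ev a ((b, w) :: r)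
    rw [sv_inl_append, mv_inl_append, mv_spl, mul_one, ih]
    simp only [ev, List.map_cons, List.sum_cons]
    rw [add_comm]
    congr 1
    cases b <;> simp

end target

end Pool.SF
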