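import Pool.Agent.Helper702.SF.SimpleD
import Pool.Agent.Helper702.SF.RepD
import Pool.Agent.Helper702.SF.MachD
import Pool.Agent.Helper702.SF.MainD
import Pool.Agent.Helper702.SF.PartID
import Pool.Agent.Helper702.SF.Main2D
import Pool.Agent.Helper702.SF.P_sv_spl
import Pool.Agent.Helper702.SF.P_exists_idx
import Pool.Agent.Helper702.SF.P_finPres_of
import Pool.Agent.Helper702.SF.P_B_rel
import Pool.Agent.Helper702.SF.P_rel_zero
import Pool.Agent.Helper702.SF.P_simple_of_rel
import Pool.Agent.Helper702.SF.P_nontriv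
import Pool.Agent.Helper702.SF.P_exists_machine_rel

set_option autoImplicit false
set_option linter.unusedSectionVars false

namespace Pool.SF
section target
open Turing
variable {F : Type} [Field F] {G : Type} [Fintype G] [DecidableEq G] [Primcodable G]
/-- evaluation of formal sums commutes with ring homomorphisms -/
theorem map_ev_aux {A A' : Type} [Ring A] [Ring A'] {G : Type} (φ : A →+* A') (a : G → A)
    (r : List (Bool × List G)) : φ (ev a r) = ev (fun g => φ (a g)) r := by
  unfold ev
  rw [map_list_sum, List.map_map]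
  congr 1
  apply List.map_congr_left
  rintro ⟨b, w⟩ _
  simp only [Function.comp_apply, map_mul, map_list_prod, List.map_map]
  congr 1
  cases b <;> simp

/-- Part II: a finitely generated recursively presented central simple algebra with orthogonal
families embeds in a finitely presented simple algebra. -/
theorem partII (rel : ℕ → List (Bool × List G)) (hrel : Computable rel)
    (hsim : IsSimpleRing (CC F rel))
    (hcen : ∀ z : CC F rel, (∀ c, z * c = c * z) → ∃ r : F, algebraMap F (CC F rel) r = z)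
    (hO : ∀ (K : Type) [Fintype K] [DecidableEq K], ∃ tp tp' : K → FreeAlgebra F G,
      Orth (fun j => RingQuot.mkAlgHom F (relC F rel) (tp j))
        (fun j => RingQuot.mkAlgHom F (relC F rel) (tp' j))) :
    ∃ (B : Type) (_ : Ring B) (_ : Algebra F B), FinPres F B ∧ IsSimpleRing B ∧
      ∃ φ : CC F rel →ₐ[F] B, Function.Injective φ := by
  obtain ⟨Λ, i1, i2, i3, M, e, hM⟩ := exists_machine_rel rel hrel
  have hdec : DecidableEq TA := Classical.decEq _
  have hfK : Fintype PartrecToTM2.K' :=
    ⟨{.main, .rev, .aux, .stack}, by intro x; cases x <;> decide⟩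
  have hfT : Fintype TA := inferInstance
  obtain ⟨N, idx, hk, hn⟩ := exists_idx G (Gl G) (Stt Λ) (Ex TA)
  obtain ⟨tp, tp', ht⟩ := hO (KK G TA Λ)
  let cgen : G → CC F rel := fun g => RingQuot.mkAlgHom F (relC F rel) (FreeAlgebra.ι F g)
  have hlift : FreeAlgebra.lift F cgen = RingQuot.mkAlgHom F (relC F rel) := by
    apply FreeAlgebra.hom_ext
    funext g
    simp [cgen]
  have ht' : Orth (fun j => FreeAlgebra.lift F cgen (tp j))
      (fun j => FreeAlgebra.lift F cgen (tp' j)) := by
    rw [hlift]
    exact ht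
  have hev : ∀ i, ev cgen (rel i) = 0 := by
    intro i
    have h1 := map_ev_aux (RingQuot.mkAlgHom F (relC F rel)).toRingHom (FreeAlgebra.ι F) (rel i)
    have h2 : RingQuot.mkAlgHom F (relC F rel) (ev (FreeAlgebra.ι F) (rel i)) =
        RingQuot.mkAlgHom F (relC F rel) 0 := RingQuot.mkAlgHom_rel F ⟨i, rfl, rfl⟩
    rw [map_zero] at h2
    exact h1.symm.trans h2
  have hs : ∀ w, (StateTransition.eval (TM0.step M) (TM0.init (topT ++ tapeR (cdT e) w))).Dom →
      sv cgen w = 0 := by
    intro w hw
    obtain ⟨i, rfl⟩ := (hM w).1 hw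
    rw [sv_spl]
    exact hev i
  have : Nontrivial (BB (F := F) idx M (cdT e) topT tp tp') :=
    nontriv idx M (cdT e) topT tp tp' cgen ht' hs
  let f : Gn G (Gl G) (Stt Λ) (Ex TA) → BB (F := F) idx M (cdT e) topT tp tp' :=
    fun g => RingQuot.mkAlgHom F (Rln (F := F) idx M (cdT e) topT tp tp') (FreeAlgebra.ι F g)
  have hB : ∀ r, lhs (mkEl M (cdT e) topT tp tp' f) r = rhs idx (mkEl M (cdT e) topT tp tp' f) r :=
    fun r => B_rel idx M (cdT e) topT tp tp' r
  have hγ0 : ∀ ⦃x y : FreeAlgebra F G⦄, relC F rel x y →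
      FreeAlgebra.lift F (fun g => f (.c g)) x = FreeAlgebra.lift F (fun g => f (.c g)) y := by
    rintro x y ⟨i, rfl, rfl⟩
    rw [map_zero]
    have h1 := map_ev_aux (FreeAlgebra.lift F (fun g => f (.c g))).toRingHom (FreeAlgebra.ι F) (rel i)
    have h2 : (fun g => (FreeAlgebra.lift F (fun g => f (.c g))).toRingHom (FreeAlgebra.ι F g)) =
        fun g => f (.c g) := by
      funext g
      exact FreeAlgebra.lift_ι_apply _ _
    rw [h2] at h1
    have h3 := rel_zero idx M (cdT e) topT tp tp' f hB (spl (rel i)) ((hM _).2 ⟨i, rfl⟩)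
    rw [sv_spl] at h3
    exact h1.trans h3
  let γ : CC F rel →ₐ[F] BB (F := F) idx M (cdT e) topT tp tp' :=
    RingQuot.liftAlgHom F ⟨FreeAlgebra.lift F (fun g => f (.c g)), hγ0⟩
  have hγ : ∀ g, γ (cgen g) = f (.c g) := by
    intro g
    show RingQuot.liftAlgHom F _ (RingQuot.mkAlgHom F (relC F rel) (FreeAlgebra.ι F g)) = _
    rw [RingQuot.liftAlgHom_mkAlgHom_apply]
    exact FreeAlgebra.lift_ι_apply _ _
  have hf : Algebra.adjoin F (Set.range f) = ⊤ := by
    have h1 : Set.range f = (RingQuot.mkAlgHom F (Rln (F := F) idx M (cdT e) topT tp tp')) ''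
        Set.range (FreeAlgebra.ι F) := by
      rw [← Set.range_comp]
      rfl
    rw [h1, ← AlgHom.map_adjoin, FreeAlgebra.adjoin_range_ι, Algebra.map_top,
      AlgHom.range_eq_top]
    exact RingQuot.mkAlgHom_surjective F _
  have hcgen : Algebra.adjoin F (Set.range cgen) = ⊤ := by
    have h1 : Set.range cgen = (RingQuot.mkAlgHom F (relC F rel)) ''
        Set.range (FreeAlgebra.ι F) := by
      rw [← Set.range_comp]
      rfl
    rw [h1, ← AlgHom.map_adjoin, FreeAlgebra.adjoin_range_ι, Algebra.map_top,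
      AlgHom.range_eq_top]
    exact RingQuot.mkAlgHom_surjective F _
  have hsimB : IsSimpleRing (BB (F := F) idx M (cdT e) topT tp tp') :=
    simple_of_rel hcen idx hk hn M (cdT e) topT tp tp' f hB hf γ cgen hγ hcgen ht'
  refine ⟨BB (F := F) idx M (cdT e) topT tp tp', inferInstance, inferInstance, ?_, hsimB, γ, ?_⟩
  · exact finPres_of (F := F)
      (fun r => lhs (mkEl M (cdT e) topT tp tp' (FreeAlgebra.ι F)) r)
      (fun r => rhs idx (mkEl M (cdT e) topT tp tp' (FreeAlgebra.ι F)) r)
  · exact RingHom.injective γ.toRingHom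

end target

end Pool.SF
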