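import Pool.Agent.Helper702.SF.P_partI
import Pool.Agent.Helper702.SF.P_partII
import Pool.Agent.Helper702.SF.Main2D

set_option autoImplicit false

namespace Pool.SF

/-- The embedding theorem for algebras with unit. -/
theorem embed {F A : Type} [Field F] [Ring A] [Algebra F A] [Nontrivial A] {n : ℕ} (a : Fin n → A)
    (hgen : Algebra.adjoin F (Set.range a) = ⊤) (h : HasRecBasis F a) :
    ∃ (S : Type) (_ : Ring S) (_ : Algebra F S), FinPres F S ∧ IsSimpleRing S ∧
      ∃ φ : A →ₐ[F] S, Function.Injective φ := by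
  obtain ⟨rel, hrel, hsim, hcen, hO, φ, hφ⟩ := partI a hgen h
  obtain ⟨B, iB, iA, hfp, hs, ψ, hψ⟩ := partII rel hrel hsim hcen hO
  exact ⟨B, iB, iA, hfp, hs, ψ.comp φ, hψ.comp hφ⟩

universe u

theorem hasRecBasis_of_equiv {F : Type} {A : Type u} {A' : Type} [Field F] [Ring A] [Algebra F A]
    [Ring A'] [Algebra F A'] (e : A ≃ₐ[F] A') {n : ℕ} (a : Fin n → A)
    (h : ∃ (Bs : Set (List (Fin n))) (nf : List (Fin n) → ℕ × List (ℤ × List (Fin n))),
    ComputablePred (fun w => w ∈ Bs) ∧ Computable nf ∧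
    LinearIndependent F (fun w : Bs => (w.1.map a).prod) ∧
    ∀ w, ((nf w).1 : F) ≠ 0 ∧ (∀ p ∈ (nf w).2, p.2 ∈ Bs) ∧
      ((nf w).1 : F) • (w.map a).prod =
        ((nf w).2.map (fun p => (p.1 : F) • (p.2.map a).prod)).sum) :
    HasRecBasis F (fun i => e (a i)) := by
  obtain ⟨Bs, nf, h1, h2, h3, h4⟩ := h
  have key : ∀ w : List (Fin n), (w.map (fun i => e (a i))).prod = e ((w.map a).prod) := by
    intro w
    rw [map_list_prod, List.map_map]; rfl
  refine ⟨Bs, nf, h1, h2, ?_, ?_⟩
  · have := h3.map' e.toLinearEquiv.toLinearMap (LinearEquiv.ker _)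
    have hh : (fun w : Bs => (w.1.map (fun i => e (a i))).prod) =
        (fun w : Bs => e ((w.1.map a).prod)) := funext (fun w => key w.1)
    rw [hh]
    exact this
  · intro w
    refine ⟨(h4 w).1, (h4 w).2.1, ?_⟩
    rw [key, ← map_smul, (h4 w).2.2, map_list_sum, List.map_map]
    congr 1
    apply List.map_congr_left
    intro p hp
    simp only [Function.comp, map_smul, key]

end Pool.SF
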