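import Pool.Agent.Helper702.SF.SimpleD
import Pool.Agent.Helper702.SF.RepD
import Pool.Agent.Helper702.SF.MachD
import Pool.Agent.Helper702.SF.MainD
import Pool.Agent.Helper702.SF.PartID
import Pool.Agent.Helper702.SF.Main2D

set_option autoImplicit false
set_option linter.unusedSectionVars false

namespace Pool.SF
section target
variable {F A : Type} [Field F] [Ring A] [Algebra F A] {n : ℕ} (a : Fin n → A)
  (Bs : Set (List (Fin n))) (nf : List (Fin n) → ℕ × List (ℤ × List (Fin n)))
/-- The words of `Bs` form a basis. -/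
theorem D_basis (hgen : Algebra.adjoin F (Set.range a) = ⊤)
    (hli : LinearIndependent F (fun w : Bs => (w.1.map a).prod))
    (hd : ∀ w, ((nf w).1 : F) ≠ 0) (hB : ∀ w, ∀ p ∈ (nf w).2, p.2 ∈ Bs)
    (h1 : ∀ w, ((nf w).1 : F) • (w.map a).prod =
        ((nf w).2.map (fun p => (p.1 : F) • (p.2.map a).prod)).sum) :
    ∃ bA : Module.Basis Bs F A, ∀ w, bA w = (w.1.map a).prod := by
  have hw : ∀ w : List (Fin n), (w.map a).prod ∈
      Submodule.span F (Set.range (fun w : Bs => (w.1.map a).prod)) := by
    intro w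
    have h2 : ((nf w).2.map (fun p => (p.1 : F) • (p.2.map a).prod)).sum ∈
        Submodule.span F (Set.range (fun w : Bs => (w.1.map a).prod)) := by
      refine AddSubmonoid.list_sum_mem _ ?_
      intro x hx
      obtain ⟨p, hp, rfl⟩ := List.mem_map.1 hx
      exact Submodule.smul_mem _ _ (Submodule.subset_span ⟨⟨p.2, hB w p hp⟩, rfl⟩)
    rw [← h1 w] at h2
    have h3 := Submodule.smul_mem _ (((nf w).1 : F)⁻¹) h2
    rwa [smul_smul, inv_mul_cancel₀ (hd w), one_smul] at h3
  have hspan : ⊤ ≤ Submodule.span F (Set.range (fun w : Bs => (w.1.map a).prod)) := by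
    intro x _
    have hx : x ∈ Algebra.adjoin F (Set.range a) := by
      rw [hgen]
      trivial
    rw [← Subalgebra.mem_toSubmodule, Algebra.adjoin_eq_span] at hx
    refine Submodule.span_le.2 ?_ hx
    intro y hy
    obtain ⟨l, hl, rfl⟩ := Submonoid.exists_list_of_mem_closure hy
    have hl2 : l ∈ Set.range (List.map a) := by
      rw [Set.range_list_map]
      exact hl
    obtain ⟨w, rfl⟩ := hl2
    exact hw w
  exact ⟨Module.Basis.mk hli hspan, fun w => by rw [Module.Basis.mk_apply]⟩

end target

end Pool.SF
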