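import Pool.Agent.Helper702.SF.PartID

set_option autoImplicit false
set_option linter.unusedSectionVars false

namespace Pool.SF
theorem QQ_top_PP_succ {F Cp D : Type} [Field F] [Ring Cp] [Algebra F Cp] [Ring D] [Algebra F D]
    (j : Cp →ₐ[F] D) (v : D) (k : ℕ) : PP j v k ≤ PP j v (k + 1) := by
  rw [PP]
  exact le_sup_left

theorem QQ_top_PP_mul {F Cp D : Type} [Field F] [Ring Cp] [Algebra F Cp] [Ring D] [Algebra F D]
    (j : Cp →ₐ[F] D) (v : D) (c : Cp) (k : ℕ) : ∀ z ∈ PP j v k, z * j c ∈ PP j v k := by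
  induction k with
  | zero =>
    rintro _ ⟨c', rfl⟩
    exact ⟨c' * c, map_mul j c' c⟩
  | succ k ih =>
    have h : PP j v (k + 1) ≤ (PP j v (k + 1)).comap (LinearMap.mulRight F (j c)) := by
      conv_lhs => rw [PP]
      refine sup_le ?_ (Submodule.span_le.2 ?_)
      · intro z hz
        exact QQ_top_PP_succ j v k (ih z hz)
      · rintro _ ⟨c', w, hw, rfl⟩
        show (j c' * v * w) * j c ∈ PP j v (k + 1)
        rw [PP]
        apply Submodule.mem_sup_right
        apply Submodule.subset_span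
        exact ⟨c', w * j c, ih w hw, by rw [mul_assoc]⟩
    exact fun z hz => h hz

theorem QQ_top_PP_v {F Cp D : Type} [Field F] [Ring Cp] [Algebra F Cp] [Ring D] [Algebra F D]
    (j : Cp →ₐ[F] D) (v : D) (k : ℕ) : ∀ z ∈ PP j v k, z * v ∈ PP j v (k + 1) := by
  induction k with
  | zero =>
    rintro _ ⟨c', rfl⟩
    rw [PP]
    apply Submodule.mem_sup_right
    apply Submodule.subset_span
    exact ⟨c', j 1, ⟨1, rfl⟩, by rw [map_one, mul_one]; rfl⟩
  | succ k ih =>
    have h : PP j v (k + 1) ≤ (PP j v (k + 2)).comap (LinearMap.mulRight F v) := by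
      conv_lhs => rw [PP]
      refine sup_le ?_ (Submodule.span_le.2 ?_)
      · intro z hz
        exact QQ_top_PP_succ j v (k + 1) (ih z hz)
      · rintro _ ⟨c', w, hw, rfl⟩
        show (j c' * v * w) * v ∈ PP j v (k + 2)
        rw [PP]
        apply Submodule.mem_sup_right
        apply Submodule.subset_span
        exact ⟨c', w * v, ih w hw, by rw [mul_assoc]⟩
    exact fun z hz => h hz

theorem QQ_top_QQ_succ {F Cp D : Type} [Field F] [Ring Cp] [Algebra F Cp] [Ring D] [Algebra F D]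
    (j : Cp →ₐ[F] D) (u v : D) (l : ℕ) : QQ j u v l ≤ QQ j u v (l + 1) := by
  rw [QQ]
  exact le_sup_left

theorem QQ_top_QQ_mono {F Cp D : Type} [Field F] [Ring Cp] [Algebra F Cp] [Ring D] [Algebra F D]
    (j : Cp →ₐ[F] D) (u v : D) : Monotone (QQ j u v) :=
  monotone_nat_of_le_succ (QQ_top_QQ_succ j u v)

theorem QQ_top_QQ_mul {F Cp D : Type} [Field F] [Ring Cp] [Algebra F Cp] [Ring D] [Algebra F D]
    (j : Cp →ₐ[F] D) (u v : D) (c : Cp) (l : ℕ) : ∀ z ∈ QQ j u v l, z * j c ∈ QQ j u v l := by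
  induction l with
  | zero =>
    have h : QQ j u v 0 ≤ (QQ j u v 0).comap (LinearMap.mulRight F (j c)) := by
      conv_lhs => rw [QQ]
      refine iSup_le fun k => ?_
      intro z hz
      show z * j c ∈ QQ j u v 0
      rw [QQ]
      exact Submodule.mem_iSup_of_mem k (QQ_top_PP_mul j v c k z hz)
    exact fun z hz => h hz
  | succ l ih =>
    have h : QQ j u v (l + 1) ≤ (QQ j u v (l + 1)).comap (LinearMap.mulRight F (j c)) := by
      conv_lhs => rw [QQ]
      refine sup_le ?_ (Submodule.span_le.2 ?_)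
      · intro z hz
        exact QQ_top_QQ_succ j u v l (ih z hz)
      · rintro _ ⟨c', w, hw, rfl⟩
        show (w * u * j c') * j c ∈ QQ j u v (l + 1)
        rw [QQ]
        apply Submodule.mem_sup_right
        apply Submodule.subset_span
        exact ⟨c' * c, w, hw, by rw [map_mul, mul_assoc]⟩
    exact fun z hz => h hz

theorem QQ_top_QQ_u {F Cp D : Type} [Field F] [Ring Cp] [Algebra F Cp] [Ring D] [Algebra F D]
    (j : Cp →ₐ[F] D) (u v : D) (l : ℕ) (z : D) (hz : z ∈ QQ j u v l) :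
    z * u ∈ QQ j u v (l + 1) := by
  rw [QQ]
  apply Submodule.mem_sup_right
  apply Submodule.subset_span
  exact ⟨1, z, hz, by rw [map_one, mul_one]⟩

theorem QQ_top_QQ_v {F Cp ι D : Type} [Field F] [Ring Cp] [Algebra F Cp] [Ring D] [Algebra F D]
    (L : LamData F Cp ι) (j : Cp →ₐ[F] D) (u v : D)
    (huv : ∀ c, u * j c * v = algebraMap F D (L.lam c)) (l : ℕ) :
    ∀ z ∈ QQ j u v l, z * v ∈ QQ j u v l := by
  induction l with
  | zero =>
    have h : QQ j u v 0 ≤ (QQ j u v 0).comap (LinearMap.mulRight F v) := by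
      conv_lhs => rw [QQ]
      refine iSup_le fun k => ?_
      intro z hz
      show z * v ∈ QQ j u v 0
      rw [QQ]
      exact Submodule.mem_iSup_of_mem (k + 1) (QQ_top_PP_v j v k z hz)
    exact fun z hz => h hz
  | succ l ih =>
    have h : QQ j u v (l + 1) ≤ (QQ j u v (l + 1)).comap (LinearMap.mulRight F v) := by
      conv_lhs => rw [QQ]
      refine sup_le ?_ (Submodule.span_le.2 ?_)
      · intro z hz
        exact QQ_top_QQ_succ j u v l (ih z hz)
      · rintro _ ⟨c', w, hw, rfl⟩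
        show (w * u * j c') * v ∈ QQ j u v (l + 1)
        have e : (w * u * j c') * v = L.lam c' • w := by
          rw [mul_assoc w, mul_assoc w, huv, ← Algebra.commutes, ← Algebra.smul_def]
        rw [e]
        exact QQ_top_QQ_succ j u v l (Submodule.smul_mem _ _ hw)
    exact fun z hz => h hz


section target
variable {F Cp ι D : Type} [Field F] [Ring Cp] [Algebra F Cp] [Ring D] [Algebra F D]
  (L : LamData F Cp ι) (j : Cp →ₐ[F] D) (u v : D)
theorem QQ_top (huv : ∀ c, u * j c * v = algebraMap F D (L.lam c))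
    (hgen : Algebra.adjoin F (Set.range j ∪ {u, v}) = ⊤) (z : D) : ∃ l, z ∈ QQ j u v l := by
  have key : ∀ w ∈ Algebra.adjoin F (Set.range j ∪ {u, v}), ∀ l, ∀ y ∈ QQ j u v l,
      ∃ l', y * w ∈ QQ j u v l' := by
    intro w hw
    induction hw using Algebra.adjoin_induction with
    | mem x hx =>
      intro l y hy
      rcases hx with ⟨c, rfl⟩ | rfl | hx
      · exact ⟨l, QQ_top_QQ_mul j u v c l y hy⟩
      · exact ⟨l + 1, QQ_top_QQ_u j x v l y hy⟩
      · rw [Set.mem_singleton_iff] at hx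
        subst hx
        exact ⟨l, QQ_top_QQ_v L j u x huv l y hy⟩
    | algebraMap r =>
      intro l y hy
      refine ⟨l, ?_⟩
      rw [← Algebra.commutes, ← Algebra.smul_def]
      exact Submodule.smul_mem _ _ hy
    | add a b _ _ iha ihb =>
      intro l y hy
      obtain ⟨l1, h1⟩ := iha l y hy
      obtain ⟨l2, h2⟩ := ihb l y hy
      refine ⟨max l1 l2, ?_⟩
      rw [mul_add]
      exact Submodule.add_mem _ (QQ_top_QQ_mono j u v (le_max_left _ _) h1)
        (QQ_top_QQ_mono j u v (le_max_right _ _) h2)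
    | mul a b _ _ iha ihb =>
      intro l y hy
      obtain ⟨l1, h1⟩ := iha l y hy
      obtain ⟨l2, h2⟩ := ihb l1 _ h1
      exact ⟨l2, by rw [← mul_assoc]; exact h2⟩
  have h1 : (1 : D) ∈ QQ j u v 0 := by
    rw [QQ]
    exact Submodule.mem_iSup_of_mem 0 ⟨1, map_one j⟩
  obtain ⟨l, hl⟩ := key z (by rw [hgen]; exact Algebra.mem_top) 0 1 h1
  rw [one_mul] at hl
  exact ⟨l, hl⟩

end target

end Pool.SF
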