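import Pool.Agent.Helper702.SF.PartID
import Pool.Agent.Helper702.SF.P_QQ_top

set_option autoImplicit false
set_option linter.unusedSectionVars false

namespace Pool.SF
section target
variable {F Cp ι D : Type} [Field F] [Ring Cp] [Algebra F Cp] [Ring D] [Algebra F D]
  (L : LamData F Cp ι) (j : Cp →ₐ[F] D) (u v : D)
theorem all_decomp (huv : ∀ c, u * j c * v = algebraMap F D (L.lam c))
    (hgen : Algebra.adjoin F (Set.range j ∪ {u, v}) = ⊤) (z : D) :
    ∃ (p : Cp), ∃ Y ∈ XL j v, ∃ X ∈ XR j u, z = j p + Y + X := by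
  have hP : ∀ k, PP j v k ≤ LinearMap.range j.toLinearMap ⊔ XL j v ⊔ XR j u := by
    intro k
    induction k with
    | zero => exact le_trans le_sup_left le_sup_left
    | succ k ih =>
      refine sup_le ih (le_trans ?_ (le_trans le_sup_right le_sup_left))
      refine Submodule.span_mono ?_
      rintro z ⟨c, w, -, rfl⟩
      exact ⟨c, w, rfl⟩
  have hQ : ∀ l, QQ j u v l ≤ LinearMap.range j.toLinearMap ⊔ XL j v ⊔ XR j u := by
    intro l
    induction l with
    | zero => exact iSup_le hP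
    | succ l ih =>
      refine sup_le ih (le_trans ?_ le_sup_right)
      refine Submodule.span_mono ?_
      rintro z ⟨c, w, -, rfl⟩
      exact ⟨c, w, rfl⟩
  obtain ⟨l, hl⟩ := QQ_top L j u v huv hgen z
  obtain ⟨a, ha, X, hX, rfl⟩ := Submodule.mem_sup.1 (hQ l hl)
  obtain ⟨b, ⟨p, rfl⟩, Y, hY, rfl⟩ := Submodule.mem_sup.1 ha
  exact ⟨p, Y, hY, X, hX, rfl⟩

end target

end Pool.SF
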