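import Pool.Agent.Helper702.SF.PartID

set_option autoImplicit false
set_option linter.unusedSectionVars false

namespace Pool.SF
section target
variable {F Cp ι D : Type} [Field F] [Ring Cp] [Algebra F Cp] [Ring D] [Algebra F D]
  (L : LamData F Cp ι) (j : Cp →ₐ[F] D) (u v : D)
theorem phase3_auxL (huv : ∀ c, u * j c * v = algebraMap F D (L.lam c)) (Y : D)
    (hY : Y ∈ XL j v) :
    ∃ s : Finset Cp, ∀ m : ℕ, (∀ c ∈ s, L.lam (c * L.τ ^ m) = 0) →
      u * j (L.τ ^ m) * Y = 0 := by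
  classical
  unfold XL at hY
  induction hY using Submodule.span_induction with
  | mem z hz =>
    obtain ⟨c, w, rfl⟩ := hz
    refine ⟨{c}, fun m hm => ?_⟩
    have h1 : L.lam (c * L.τ ^ m) = 0 := hm c (Finset.mem_singleton_self c)
    have h2 : L.τ ^ m * c = c * L.τ ^ m := ((L.cτ c).pow_left m).eq
    calc u * j (L.τ ^ m) * (j c * v * w) = (u * j (L.τ ^ m * c) * v) * w := by
          rw [map_mul]; noncomm_ring
      _ = 0 := by rw [huv, h2, h1, map_zero, zero_mul]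
  | zero => exact ⟨∅, fun m _ => mul_zero _⟩
  | add a b _ _ iha ihb =>
    obtain ⟨s, hs⟩ := iha
    obtain ⟨t, ht⟩ := ihb
    refine ⟨s ∪ t, fun m hm => ?_⟩
    rw [mul_add, hs m (fun c hc => hm c (Finset.mem_union_left _ hc)),
      ht m (fun c hc => hm c (Finset.mem_union_right _ hc)), add_zero]
  | smul r a _ iha =>
    obtain ⟨s, hs⟩ := iha
    refine ⟨s, fun m hm => ?_⟩
    rw [mul_smul_comm, hs m hm, smul_zero]

theorem phase3_auxR (huv : ∀ c, u * j c * v = algebraMap F D (L.lam c)) (X : D)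
    (hX : X ∈ XR j u) :
    ∃ s : Finset Cp, ∀ m : ℕ, (∀ c ∈ s, L.lam (c * L.τ ^ m) = 0) →
      X * (j (L.τ ^ m) * v) = 0 := by
  classical
  unfold XR at hX
  induction hX using Submodule.span_induction with
  | mem z hz =>
    obtain ⟨c, w, rfl⟩ := hz
    refine ⟨{c}, fun m hm => ?_⟩
    have h1 : L.lam (c * L.τ ^ m) = 0 := hm c (Finset.mem_singleton_self c)
    calc w * u * j c * (j (L.τ ^ m) * v) = w * (u * j (c * L.τ ^ m) * v) := by
          rw [map_mul]; noncomm_ring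
      _ = 0 := by rw [huv, h1, map_zero, mul_zero]
  | zero => exact ⟨∅, fun m _ => zero_mul _⟩
  | add a b _ _ iha ihb =>
    obtain ⟨s, hs⟩ := iha
    obtain ⟨t, ht⟩ := ihb
    refine ⟨s ∪ t, fun m hm => ?_⟩
    rw [add_mul, hs m (fun c hc => hm c (Finset.mem_union_left _ hc)),
      ht m (fun c hc => hm c (Finset.mem_union_right _ hc)), add_zero]
  | smul r a _ iha =>
    obtain ⟨s, hs⟩ := iha
    refine ⟨s, fun m hm => ?_⟩
    rw [smul_mul_assoc, hs m hm, smul_zero]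

/-- a generic pair of multipliers kills the terms beginning with `c v` or ending with `u c` -/
theorem phase3 (huv : ∀ c, u * j c * v = algebraMap F D (L.lam c)) (p : Cp) (hp : p ≠ 0)
    (p' : Cp) (Y X : D) (hY : Y ∈ XL j v) (hX : X ∈ XR j u) :
    ∃ m m' : ℕ, L.lam (p * L.τ ^ (m + m')) ≠ 0 ∧
      u * j (L.τ ^ m') * (j p' + Y + X) * (j (L.τ ^ m) * v) =
        algebraMap F D (L.lam (p' * L.τ ^ (m + m'))) := by
  classical
  obtain ⟨s, hs⟩ := phase3_auxL L j u v huv Y hY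
  obtain ⟨t, ht⟩ := phase3_auxR L j u v huv X hX
  obtain ⟨m, m', h1, h2, h3⟩ := L.gen (s ∪ t) p hp
  refine ⟨m, m', h3, ?_⟩
  have hYz : u * j (L.τ ^ m') * Y = 0 := hs m' (fun c hc => h2 c (Finset.mem_union_left _ hc))
  have hXz : X * (j (L.τ ^ m) * v) = 0 := ht m (fun c hc => h1 c (Finset.mem_union_right _ hc))
  have h4 : L.τ ^ m' * p' * L.τ ^ m = p' * L.τ ^ (m + m') := by
    have h5 : L.τ ^ m' * p' = p' * L.τ ^ m' := ((L.cτ p').pow_left m').eq
    rw [h5, mul_assoc, ← pow_add, add_comm m' m]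
  calc u * j (L.τ ^ m') * (j p' + Y + X) * (j (L.τ ^ m) * v)
      = u * (j (L.τ ^ m') * j p' * j (L.τ ^ m)) * v
        + (u * j (L.τ ^ m') * Y) * (j (L.τ ^ m) * v)
        + u * j (L.τ ^ m') * (X * (j (L.τ ^ m) * v)) := by noncomm_ring
    _ = algebraMap F D (L.lam (p' * L.τ ^ (m + m'))) := by
        rw [hYz, hXz, zero_mul, mul_zero, add_zero, add_zero, ← map_mul, ← map_mul, huv, h4]

end target

end Pool.SF
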