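import Pool.Agent.Helper702.SF.PartID
import Pool.Agent.Helper702.SF.P_all_decomp
import Pool.Agent.Helper702.SF.P_phase3

set_option autoImplicit false
set_option linter.unusedSectionVars false

namespace Pool.SF
section target
variable {F Cp ι D : Type} [Field F] [Ring Cp] [Algebra F Cp] [Ring D] [Algebra F D]
  (L : LamData F Cp ι) (j : Cp →ₐ[F] D) (u v : D)
theorem D_center (huv : ∀ c, u * j c * v = algebraMap F D (L.lam c))
    (hgen : Algebra.adjoin F (Set.range j ∪ {u, v}) = ⊤) [Nontrivial Cp] (z : D)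
    (hz : ∀ c, z * c = c * z) : ∃ r : F, algebraMap F D r = z := by
  obtain ⟨p', Y, hY, X, hX, hzd⟩ := all_decomp L j u v huv hgen z
  obtain ⟨m, m', hr, he⟩ := phase3 L j u v huv 1 one_ne_zero p' Y X hY hX
  rw [← hzd] at he
  have h1 : u * j (L.τ ^ m') * z * (j (L.τ ^ m) * v) =
      z * algebraMap F D (L.lam (1 * L.τ ^ (m + m'))) := by
    rw [← hz (u * j (L.τ ^ m')), ← huv, one_mul, pow_add, map_mul]
    have hc : j (L.τ ^ m) * j (L.τ ^ m') = j (L.τ ^ m') * j (L.τ ^ m) := by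
      rw [← map_mul, ← map_mul, ← pow_add, ← pow_add, add_comm]
    rw [hc]
    simp only [mul_assoc]
  rw [h1] at he
  refine ⟨L.lam (p' * L.τ ^ (m + m')) * (L.lam (1 * L.τ ^ (m + m')))⁻¹, ?_⟩
  rw [map_mul, ← he, mul_assoc, ← map_mul, mul_inv_cancel₀ hr, map_one, mul_one]

end target

end Pool.SF
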