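import Pool.Agent.Helper702.SF.SimpleD
import Pool.Agent.Helper702.SF.RepD
import Pool.Agent.Helper702.SF.MachD
import Pool.Agent.Helper702.SF.MainD
import Pool.Agent.Helper702.SF.PartID
import Pool.Agent.Helper702.SF.Main2D

set_option autoImplicit false
set_option linter.unusedSectionVars false

namespace Pool.SF
section target
variable {F A : Type} [Field F] [Ring A] [Algebra F A] {n : ℕ} (a : Fin n → A)
  (Bs : Set (List (Fin n))) (nf : List (Fin n) → ℕ × List (ℤ × List (Fin n)))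
theorem D_gen (ψ : Polynomial A →ₐ[F] CC F (relD Bs nf))
    (hψ : ∀ i, ψ (Polynomial.C (a i)) =
        RingQuot.mkAlgHom F (relC F (relD Bs nf)) (FreeAlgebra.ι F (.inl i)))
    (hψX : ψ Polynomial.X =
      RingQuot.mkAlgHom F (relC F (relD Bs nf)) (FreeAlgebra.ι F (.inr 0))) :
    Algebra.adjoin F (Set.range ψ ∪
      {RingQuot.mkAlgHom F (relC F (relD Bs nf)) (FreeAlgebra.ι F (.inr 1)),
       RingQuot.mkAlgHom F (relC F (relD Bs nf)) (FreeAlgebra.ι F (.inr 2))}) = ⊤ := by
  rw [eq_top_iff]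
  rintro x -
  obtain ⟨y, rfl⟩ := RingQuot.mkAlgHom_surjective F (relC F (relD Bs nf)) x
  have h : (⊤ : Subalgebra F (FreeAlgebra F (GD n))) ≤
      (Algebra.adjoin F (Set.range ψ ∪
      {RingQuot.mkAlgHom F (relC F (relD Bs nf)) (FreeAlgebra.ι F (.inr 1)),
       RingQuot.mkAlgHom F (relC F (relD Bs nf)) (FreeAlgebra.ι F (.inr 2))})).comap
        (RingQuot.mkAlgHom F (relC F (relD Bs nf))) := by
    rw [← FreeAlgebra.adjoin_range_ι, Algebra.adjoin_le_iff]
    rintro _ ⟨g, rfl⟩
    rw [SetLike.mem_coe, Subalgebra.mem_comap]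
    apply Algebra.subset_adjoin
    rcases g with i | i
    · exact Or.inl ⟨_, hψ i⟩
    · fin_cases i
      · exact Or.inl ⟨_, hψX⟩
      · exact Or.inr (Or.inl rfl)
      · exact Or.inr (Or.inr rfl)
  exact h (Algebra.mem_top (x := y))

end target

end Pool.SF
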