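import Pool.Agent.Helper702.SF.PartID

set_option autoImplicit false
set_option linter.unusedSectionVars false

namespace Pool.SF
section target
variable {F A : Type} [Field F] [Ring A] [Algebra F A]
theorem ev_rel1_app {G : Type} (c : G → A) (l1 l2 : List (Bool × List G)) :
    ev c (l1 ++ l2) = ev c l1 + ev c l2 := by
  unfold ev
  rw [List.map_append, List.sum_append]

theorem ev_rel1_rep {G : Type} (c : G → A) (k : ℕ) (b : Bool) (u : List G) :
    ev c (List.replicate k (b, u)) = (k : A) * ((if b then (1 : A) else -1) * (u.map c).prod) := by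
  unfold ev
  rw [List.map_replicate, List.sum_replicate, nsmul_eq_mul]

theorem ev_rel1_int {G : Type} (c : G → A) (z : ℤ) (u : List G) :
    ev c (List.replicate z.natAbs (decide (z < 0), u)) = -((z : A) * (u.map c).prod) := by
  rw [ev_rel1_rep]
  by_cases hz : z < 0
  · rw [decide_eq_true hz, if_pos rfl]
    have h1 : ((z.natAbs : ℤ)) = -z := by omega
    have h2 : ((z.natAbs : ℕ) : A) = -(z : A) := by
      have := congrArg (Int.cast : ℤ → A) h1
      rw [Int.cast_neg] at this
      rw [← this]
      simp
    rw [h2, one_mul, neg_mul]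
  · rw [decide_eq_false hz, if_neg (by simp)]
    have h1 : ((z.natAbs : ℤ)) = z := by omega
    have h2 : ((z.natAbs : ℕ) : A) = (z : A) := by
      have := congrArg (Int.cast : ℤ → A) h1
      rw [← this]
      simp
    rw [h2, neg_mul, one_mul, mul_neg]

theorem ev_rel1 {n : ℕ} (c : GD n → A) (w : List (Fin n)) (p : ℕ × List (ℤ × List (Fin n))) :
    ev c (rel1 w p) = (p.1 : A) * (w.map (fun i => c (.inl i))).prod -
      (p.2.map (fun q => (q.1 : A) * (q.2.map (fun i => c (.inl i))).prod)).sum := by
  unfold rel1
  rw [ev_rel1_app, ev_rel1_rep, if_pos rfl, one_mul, List.map_map, sub_eq_add_neg]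
  congr 1
  induction p.2 with
  | nil => simp [ev]
  | cons q l ih =>
    rw [List.flatMap_cons, ev_rel1_app, ih, ev_rel1_int, List.map_cons, List.sum_cons, neg_add,
      List.map_map]
    rfl


end target

end Pool.SF
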