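import Pool.Agent.Helper702.SF.PartID

set_option autoImplicit false
set_option linter.unusedSectionVars false

namespace Pool.SF
section target
variable {F A : Type} [Field F] [Ring A] [Algebra F A]
theorem ev_rel3 {n : ℕ} (c : GD n → A) (w : List (Fin n)) (m : ℕ) :
    ev c (rel3 w m) = c (.inr 1) * (w.map (fun i => c (.inl i))).prod * c (.inr 0) ^ m *
      c (.inr 2) - (if sqc (Encodable.encode w) m then 1 else 0) := by
  unfold ev rel3
  split_ifs with h
  · simp only [List.map_cons, List.map_nil, List.sum_cons, List.sum_nil, List.map_append,
      List.map_map, List.map_replicate, List.prod_cons, List.prod_append, List.prod_replicate,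
      List.prod_nil, if_true, one_mul, mul_one, add_zero, Bool.false_eq_true, if_false]
    rw [sub_eq_add_neg]
    congr 1
    simp only [mul_assoc]
    rfl
  · simp only [List.map_cons, List.map_nil, List.sum_cons, List.sum_nil, List.map_append,
      List.map_map, List.map_replicate, List.prod_cons, List.prod_append, List.prod_replicate,
      List.prod_nil, if_true, one_mul, mul_one, add_zero, sub_zero]
    simp only [mul_assoc]
    rfl

end target

end Pool.SF
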