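import Pool.Agent.Helper702.SF.SimpleD
import Pool.Agent.Helper702.SF.RepD
import Pool.Agent.Helper702.SF.MachD
import Pool.Agent.Helper702.SF.MainD
import Pool.Agent.Helper702.SF.PartID
import Pool.Agent.Helper702.SF.Main2D
import Pool.Agent.Helper702.SF.P_ev_rel1
import Pool.Agent.Helper702.SF.P_ev_rel3

set_option autoImplicit false
set_option linter.unusedSectionVars false

namespace Pool.SF
section target
variable {F A : Type} [Field F] [Ring A] [Algebra F A] {n : ℕ} (a : Fin n → A)
  (Bs : Set (List (Fin n))) (nf : List (Fin n) → ℕ × List (ℤ × List (Fin n)))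
/-- The relations of the simple algebra. -/
theorem D_relations (A' : Type) [Ring A'] [Algebra F A'] (c : GD n → A') :
    (∀ i, ev c (relD Bs nf i) = 0) ↔
      (∀ w, ((nf w).1 : F) • (w.map (fun i => c (.inl i))).prod =
        ((nf w).2.map (fun p => (p.1 : F) • (p.2.map (fun i => c (.inl i))).prod)).sum) ∧
      (∀ i, Commute (c (.inl i)) (c (.inr 0))) ∧
      (∀ w ∈ Bs, ∀ m, c (.inr 1) * (w.map (fun i => c (.inl i))).prod * c (.inr 0) ^ m *
        c (.inr 2) = if sqc (Encodable.encode w) m then 1 else 0) := by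
  have hdec : ∀ i, relD Bs nf i =
      match (Encodable.decode i : Option (List (Fin n) ⊕ (Fin n ⊕ (List (Fin n) × ℕ)))) with
      | none => []
      | some (.inl w) => rel1 w (nf w)
      | some (.inr (.inl k)) => rel2 k
      | some (.inr (.inr p)) => open Classical in if p.1 ∈ Bs then rel3 p.1 p.2 else [] := fun i => rfl
  have hnil : ev c ([] : List (Bool × List (GD n))) = 0 := by simp [ev]
  have h1 : ∀ w, ev c (rel1 w (nf w)) = 0 ↔ ((nf w).1 : F) • (w.map (fun i => c (.inl i))).prod =
        ((nf w).2.map (fun p => (p.1 : F) • (p.2.map (fun i => c (.inl i))).prod)).sum := by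
    intro w
    rw [ev_rel1, sub_eq_zero, Algebra.smul_def, map_natCast]
    have : (fun p : ℤ × List (Fin n) => (p.1 : F) • (p.2.map (fun i => c (.inl i))).prod) =
        fun q : ℤ × List (Fin n) => (q.1 : A') * (q.2.map (fun i => c (.inl i))).prod := by
      funext p
      rw [Algebra.smul_def, map_intCast]
    rw [this]
  have h2 : ∀ i, ev c (rel2 i) = 0 ↔ Commute (c (.inl i)) (c (.inr 0)) := by
    intro i
    simp only [ev, rel2, List.map_cons, List.map_nil, List.sum_cons, List.sum_nil, List.prod_cons,
      List.prod_nil, mul_one, if_true, one_mul, Bool.false_eq_true, if_false, add_zero]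
    rw [neg_one_mul, ← sub_eq_add_neg, sub_eq_zero]
    rfl
  have h3 : ∀ w m, ev c (rel3 w m) = 0 ↔
      c (.inr 1) * (w.map (fun i => c (.inl i))).prod * c (.inr 0) ^ m *
        c (.inr 2) = if sqc (Encodable.encode w) m then 1 else 0 := by
    intro w m
    rw [ev_rel3, sub_eq_zero]
  constructor
  · intro h
    refine ⟨fun w => (h1 w).1 ?_, fun i => (h2 i).1 ?_, fun w hw m => (h3 w m).1 ?_⟩
    · have := h (Encodable.encode (Sum.inl w : List (Fin n) ⊕ (Fin n ⊕ (List (Fin n) × ℕ))))
      rw [hdec, Encodable.encodek] at this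
      exact this
    · have := h (Encodable.encode (Sum.inr (Sum.inl i) : List (Fin n) ⊕ (Fin n ⊕ (List (Fin n) × ℕ))))
      rw [hdec, Encodable.encodek] at this
      exact this
    · have := h (Encodable.encode (Sum.inr (Sum.inr (w, m)) : List (Fin n) ⊕ (Fin n ⊕ (List (Fin n) × ℕ))))
      rw [hdec, Encodable.encodek] at this
      simp only [hw, if_true] at this
      exact this
  · rintro ⟨g1, g2, g3⟩ i
    rw [hdec]
    split
    · exact hnil
    · exact (h1 _).2 (g1 _)
    · exact (h2 _).2 (g2 _)
    · rename_i p _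
      split_ifs with hp
      · exact (h3 _ _).2 (g3 _ hp _)
      · exact hnil

end target

end Pool.SF
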