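import Pool.Agent.Helper702.SF.PartID

set_option autoImplicit false
set_option linter.unusedSectionVars false

namespace Pool.SF
section target
variable {F A : Type} [Field F] [Ring A] [Algebra F A]
/-- Homomorphisms from an algebra with a basis of words. -/
theorem exists_hom_of_basis {A' : Type} [Ring A'] [Algebra F A'] {n : ℕ} (a : Fin n → A)
    (hgen : Algebra.adjoin F (Set.range a) = ⊤) (c : Fin n → A')
    (Bs : Set (List (Fin n))) (hli : LinearIndependent F (fun w : Bs => (w.1.map a).prod))
    (nf : List (Fin n) → ℕ × List (ℤ × List (Fin n)))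
    (hd : ∀ w, ((nf w).1 : F) ≠ 0) (hB : ∀ w, ∀ p ∈ (nf w).2, p.2 ∈ Bs)
    (h1 : ∀ w, ((nf w).1 : F) • (w.map a).prod =
        ((nf w).2.map (fun p => (p.1 : F) • (p.2.map a).prod)).sum)
    (h2 : ∀ w, ((nf w).1 : F) • (w.map c).prod =
        ((nf w).2.map (fun p => (p.1 : F) • (p.2.map c).prod)).sum) :
    ∃ φ : A →ₐ[F] A', ∀ i, φ (a i) = c i := by
  let g : Fin n → A × A' := fun i => (a i, c i)
  let Q : Subalgebra F (A × A') := Algebra.adjoin F (Set.range g)
  let p1 : Q →ₐ[F] A := (AlgHom.fst F A A').comp Q.val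
  let p2 : Q →ₐ[F] A' := (AlgHom.snd F A A').comp Q.val
  have hprod : ∀ w : List (Fin n), (w.map g).prod = ((w.map a).prod, (w.map c).prod) := by
    intro w
    induction w with
    | nil => rfl
    | cons i w ih =>
      rw [List.map_cons, List.prod_cons, ih, List.map_cons, List.prod_cons, List.map_cons, List.prod_cons]
      rfl
  let wd : List (Fin n) → A × A' := fun w => ((w.map a).prod, (w.map c).prod)
  let P : Submodule F (A × A') := Submodule.span F (Set.range fun b : Bs => wd b.1)
  have hword : ∀ w, wd w ∈ P := by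
    intro w
    rw [← P.smul_mem_iff (hd w)]
    have hsum : ((nf w).1 : F) • wd w = ((nf w).2.map (fun p => (p.1 : F) • wd p.2)).sum := by
      have hfst : ∀ l : List (ℤ × List (Fin n)), (l.map (fun p => (p.1 : F) • wd p.2)).sum =
          ((l.map (fun p => (p.1 : F) • (p.2.map a).prod)).sum,
           (l.map (fun p => (p.1 : F) • (p.2.map c).prod)).sum) := by
        intro l
        induction l with
        | nil => rfl
        | cons p l ih =>
          rw [List.map_cons, List.sum_cons, ih, List.map_cons, List.sum_cons, List.map_cons, List.sum_cons]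
          rfl
      rw [hfst, ← h1, ← h2]
      rfl
    rw [hsum]
    apply list_sum_mem
    intro x hx
    rw [List.mem_map] at hx
    obtain ⟨p, hp, rfl⟩ := hx
    exact P.smul_mem _ (Submodule.subset_span ⟨⟨p.2, hB w p hp⟩, rfl⟩)
  have hQP : ∀ x ∈ Q, x ∈ P := by
    intro x hx
    have hx' : x ∈ Subalgebra.toSubmodule Q := hx
    rw [show Subalgebra.toSubmodule Q = Submodule.span F (Submonoid.closure (Set.range g)) from
      Algebra.adjoin_eq_span _ _] at hx'
    refine (Submodule.span_le.2 ?_) hx'
    intro y hy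
    obtain ⟨l, hl, rfl⟩ := Submonoid.exists_list_of_mem_closure hy
    have : l ∈ Set.range (List.map g) := by
      rw [Set.range_list_map]
      exact hl
    obtain ⟨w, rfl⟩ := this
    rw [hprod]
    exact hword w
  have hzero : ∀ y, ((0 : A), y) ∈ P → y = 0 := by
    intro y hy
    obtain ⟨f, hf⟩ := Finsupp.mem_span_range_iff_exists_finsupp.1 hy
    have e1 := congrArg (LinearMap.fst F A A') hf
    rw [map_finsuppSum] at e1
    have e2 : Finsupp.linearCombination F (fun w : Bs => (w.1.map a).prod) f = 0 := by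
      rw [Finsupp.linearCombination_apply]
      exact e1
    have e3 := linearIndependent_iff.1 hli f e2
    rw [e3] at hf
    have e4 := congrArg Prod.snd hf
    simpa using e4.symm
  have hinj : Function.Injective p1 := by
    rw [injective_iff_map_eq_zero]
    intro x hx
    have hx1 : x.1.1 = 0 := hx
    have hxP := hQP x.1 x.2
    have hx2 : x.1 = ((0:A), x.1.2) := Prod.ext hx1 rfl
    rw [hx2] at hxP
    have := hzero _ hxP
    apply Subtype.ext
    exact Prod.ext hx1 this
  have hsurj : Function.Surjective p1 := by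
    have : p1.range = ⊤ := by
      rw [eq_top_iff, ← hgen]
      apply Algebra.adjoin_le
      rintro _ ⟨i, rfl⟩
      exact ⟨⟨g i, Algebra.subset_adjoin ⟨i, rfl⟩⟩, rfl⟩
    exact AlgHom.range_eq_top _ |>.1 this
  let e : Q ≃ₐ[F] A := AlgEquiv.ofBijective p1 ⟨hinj, hsurj⟩
  refine ⟨p2.comp e.symm.toAlgHom, fun i => ?_⟩
  have : e.symm (a i) = ⟨g i, Algebra.subset_adjoin ⟨i, rfl⟩⟩ := by
    rw [AlgEquiv.symm_apply_eq]
    rfl
  show p2 (e.symm (a i)) = c i
  rw [this]
  rfl

end target

end Pool.SF
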