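import Pool.Agent.Helper702.SF.PartID

set_option autoImplicit false
set_option linter.unusedSectionVars false

namespace Pool.SF
section target
variable {F A : Type} [Field F] [Ring A] [Algebra F A]
/-- Homomorphisms from `A[X]`. -/
theorem exists_poly_hom {A' : Type} [Ring A'] [Algebra F A'] (φ : A →ₐ[F] A') (x : A')
    (hx : ∀ a, Commute (φ a) x) :
    ∃ ψ : Polynomial A →ₐ[F] A', (∀ a, ψ (Polynomial.C a) = φ a) ∧ ψ Polynomial.X = x := by
  have hC : ∀ a, Polynomial.eval₂RingHom' (φ : A →+* A') x hx (Polynomial.C a) = φ a := by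
    intro a
    change Polynomial.eval₂ (φ : A →+* A') x (Polynomial.C a) = φ a
    rw [Polynomial.eval₂_C]
    rfl
  refine ⟨{ Polynomial.eval₂RingHom' (φ : A →+* A') x hx with
    commutes' := fun r => ?_ }, hC, ?_⟩
  · change Polynomial.eval₂RingHom' (φ : A →+* A') x hx (algebraMap F (Polynomial A) r) = _
    have h1 : algebraMap F (Polynomial A) r = Polynomial.C (algebraMap F A r) := rfl
    rw [h1, hC, φ.commutes]
  · change Polynomial.eval₂ (φ : A →+* A') x Polynomial.X = x
    rw [Polynomial.eval₂_X]


end target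

end Pool.SF
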