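import Pool.Agent.Helper702.SF.SimpleD
import Pool.Agent.Helper702.SF.RepD
import Pool.Agent.Helper702.SF.MachD
import Pool.Agent.Helper702.SF.MainD
import Pool.Agent.Helper702.SF.PartID
import Pool.Agent.Helper702.SF.Main2D
import Pool.Agent.Helper702.SF.P_exists_hom_of_basis
import Pool.Agent.Helper702.SF.P_exists_poly_hom
import Pool.Agent.Helper702.SF.P_D_relations

set_option autoImplicit false
set_option linter.unusedSectionVars false

namespace Pool.SF
section target
variable {F A : Type} [Field F] [Ring A] [Algebra F A] {n : ℕ} (a : Fin n → A)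
  (Bs : Set (List (Fin n))) (nf : List (Fin n) → ℕ × List (ℤ × List (Fin n)))
theorem D_hom (hgen : Algebra.adjoin F (Set.range a) = ⊤)
    (hli : LinearIndependent F (fun w : Bs => (w.1.map a).prod))
    (hd : ∀ w, ((nf w).1 : F) ≠ 0) (hB : ∀ w, ∀ p ∈ (nf w).2, p.2 ∈ Bs)
    (h1 : ∀ w, ((nf w).1 : F) • (w.map a).prod =
        ((nf w).2.map (fun p => (p.1 : F) • (p.2.map a).prod)).sum) :
    ∃ ψ : Polynomial A →ₐ[F] CC F (relD Bs nf),
      (∀ i, ψ (Polynomial.C (a i)) =
        RingQuot.mkAlgHom F (relC F (relD Bs nf)) (FreeAlgebra.ι F (.inl i))) ∧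
      ψ Polynomial.X = RingQuot.mkAlgHom F (relC F (relD Bs nf)) (FreeAlgebra.ι F (.inr 0)) := by
  classical
  let π : FreeAlgebra F (GD n) →ₐ[F] CC F (relD Bs nf) := RingQuot.mkAlgHom F (relC F (relD Bs nf))
  let c : GD n → CC F (relD Bs nf) := fun g => π (FreeAlgebra.ι F g)
  have hev : ∀ r : List (Bool × List (GD n)), ev c r = π (ev (FreeAlgebra.ι F) r) := by
    intro r
    unfold ev
    rw [map_list_sum, List.map_map]
    congr 1
    refine List.map_congr_left fun p _ => ?_
    simp only [Function.comp]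
    rw [map_mul, map_list_prod, List.map_map]
    congr 1
    split_ifs
    · rw [map_one]
    · rw [map_neg, map_one]
  have h0 : ∀ i, ev c (relD Bs nf i) = 0 := by
    intro i
    rw [hev]
    have : π (ev (FreeAlgebra.ι F) (relD Bs nf i)) = π 0 :=
      RingQuot.mkAlgHom_rel F (s := relC F (relD Bs nf)) ⟨i, rfl, rfl⟩
    rw [this, map_zero]
  obtain ⟨r1, r2, -⟩ := (D_relations (F := F) Bs nf (CC F (relD Bs nf)) c).1 h0
  obtain ⟨φ, hφ⟩ := exists_hom_of_basis a hgen (fun i => c (.inl i)) Bs hli nf hd hB h1 r1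
  have hcomm : ∀ x : A, Commute (φ x) (c (.inr 0)) := by
    intro x
    have hx : x ∈ Algebra.adjoin F (Set.range a) := by rw [hgen]; trivial
    induction hx using Algebra.adjoin_induction with
    | mem x hx =>
      obtain ⟨i, rfl⟩ := hx
      rw [hφ]
      exact r2 i
    | algebraMap r =>
      rw [AlgHom.commutes]
      exact Algebra.commutes (A := CC F (relD Bs nf)) r _
    | add x y _ _ hx hy =>
      rw [map_add]
      exact hx.add_left hy
    | mul x y _ _ hx hy =>
      rw [map_mul]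
      exact hx.mul_left hy
  obtain ⟨ψ, hψ1, hψ2⟩ := exists_poly_hom φ (c (.inr 0)) hcomm
  refine ⟨ψ, fun i => ?_, ?_⟩
  · rw [hψ1, hφ]
  · rw [hψ2]

end target

end Pool.SF
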