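import Pool.Agent.Helper702.SF.PartID

set_option autoImplicit false
set_option linter.unusedSectionVars false

namespace Pool.SF
section target
variable {F A : Type} [Field F] [Ring A] [Algebra F A]
/-- A module on which the relations hold. -/
theorem D_rep {Cp : Type} [Ring Cp] [Algebra F Cp] [Nontrivial Cp] (lam : Cp →ₗ[F] F) :
    ∃ (M : Type) (_ : AddCommGroup M) (_ : Module F M) (ρ : Cp →ₐ[F] Module.End F M)
      (u v : Module.End F M), Function.Injective ρ ∧
        ∀ c, u * ρ c * v = algebraMap F (Module.End F M) (lam c) := by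
  classical
  let β := Module.Basis.ofVectorSpace F Cp
  let ι : Type := Module.Basis.ofVectorSpaceIndex F Cp
  let κ : Type := List ι
  -- an injective linear map
  have hφ : ∃ φ : (κ →₀ Cp) →ₗ[F] (κ →₀ F), Function.Injective φ := by
    refine ⟨(Finsupp.lmapDomain F F (fun p : κ × ι => p.2 :: p.1)) ∘ₗ
      (Finsupp.curryLinearEquiv (α := κ) (β := ι) (M := F) F).symm.toLinearMap ∘ₗ
      (Finsupp.mapRange.linearMap (β.repr : Cp →ₗ[F] (ι →₀ F))), ?_⟩
    have h1 : Function.Injective (fun p : κ × ι => p.2 :: p.1) := by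
      rintro ⟨x, i⟩ ⟨y, j⟩ h
      simp only [List.cons.injEq] at h
      exact Prod.ext h.2 h.1
    have h2 : Function.Injective (Finsupp.lmapDomain F F (fun p : κ × ι => p.2 :: p.1)) :=
      Finsupp.mapDomain_injective h1
    have h3 : Function.Injective (Finsupp.mapRange.linearMap (α := κ)
        (β.repr : Cp →ₗ[F] (ι →₀ F))) :=
      Finsupp.mapRange_injective _ (map_zero _) β.repr.injective
    exact h2.comp (((Finsupp.curryLinearEquiv F).symm.injective).comp h3)
  obtain ⟨φ, hφ⟩ := hφ
  obtain ⟨ψ, hψ⟩ := LinearMap.exists_leftInverse_of_injective φ (LinearMap.ker_eq_bot.2 hφ)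
  refine ⟨κ →₀ Cp, inferInstance, inferInstance, Algebra.lsmul F F (κ →₀ Cp),
    ψ ∘ₗ Finsupp.mapRange.linearMap lam,
    (Finsupp.mapRange.linearMap (Algebra.linearMap F Cp)) ∘ₗ φ, ?_, ?_⟩
  · intro a b hab
    have h1 := congrArg (fun f : Module.End F (κ →₀ Cp) => f (Finsupp.single [] 1) []) hab
    simpa using h1
  · intro c
    apply LinearMap.ext
    intro m
    have hψ' : ∀ x, ψ (φ x) = x := fun x => LinearMap.congr_fun hψ x
    have key : Finsupp.mapRange.linearMap lam (c • (Finsupp.mapRange.linearMap
        (Algebra.linearMap F Cp)) (φ m)) = lam c • φ m := by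
      ext k
      simp only [Finsupp.mapRange.linearMap_apply, Finsupp.mapRange_apply, Finsupp.smul_apply,
        Algebra.linearMap_apply, smul_eq_mul]
      rw [← Algebra.commutes, ← Algebra.smul_def, map_smul, smul_eq_mul, mul_comm]
    rw [Module.algebraMap_end_apply]
    change ψ (Finsupp.mapRange.linearMap lam (c • (Finsupp.mapRange.linearMap
        (Algebra.linearMap F Cp)) (φ m))) = lam c • m
    rw [key, map_smul, hψ']

end target

end Pool.SF
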