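import Pool.Agent.Helper702.SF.SimpleD
import Pool.Agent.Helper702.SF.RepD
import Pool.Agent.Helper702.SF.MachD
import Pool.Agent.Helper702.SF.MainD
import Pool.Agent.Helper702.SF.PartID
import Pool.Agent.Helper702.SF.Main2D
import Pool.Agent.Helper702.SF.P_D_rep
import Pool.Agent.Helper702.SF.P_D_relations

set_option autoImplicit false
set_option linter.unusedSectionVars false

namespace Pool.SF
theorem map_ev_aux_Dinj {F A1 A2 G : Type} [Field F] [Ring A1] [Algebra F A1] [Ring A2] [Algebra F A2]
    (φ : A1 →ₐ[F] A2) (c : G → A1) (r : List (Bool × List G)) :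
    φ (ev c r) = ev (fun g => φ (c g)) r := by
  unfold ev
  rw [map_list_sum, List.map_map]
  congr 1
  apply List.map_congr_left
  intro p _
  simp only [Function.comp_apply, map_mul]
  rw [map_list_prod, List.map_map]
  congr 1
  split_ifs <;> simp


section target
variable {F A : Type} [Field F] [Ring A] [Algebra F A] {n : ℕ} (a : Fin n → A)
  (Bs : Set (List (Fin n))) (nf : List (Fin n) → ℕ × List (ℤ × List (Fin n)))
theorem D_inj [Nontrivial A] (hgen : Algebra.adjoin F (Set.range a) = ⊤)
    (h1 : ∀ w, ((nf w).1 : F) • (w.map a).prod =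
        ((nf w).2.map (fun p => (p.1 : F) • (p.2.map a).prod)).sum)
    (bA : Module.Basis Bs F A) (hbA : ∀ w, bA w = (w.1.map a).prod)
    (L : LamData F (Polynomial A) (Bs × ℕ))
    (hlam : ∀ (i : Bs) m, L.lam (Polynomial.monomial m (bA i)) =
      if sqc (Encodable.encode i.1) m then 1 else 0)
    (ψ : Polynomial A →ₐ[F] CC F (relD Bs nf))
    (hψ : ∀ i, ψ (Polynomial.C (a i)) =
        RingQuot.mkAlgHom F (relC F (relD Bs nf)) (FreeAlgebra.ι F (.inl i)))
    (hψX : ψ Polynomial.X =
      RingQuot.mkAlgHom F (relC F (relD Bs nf)) (FreeAlgebra.ι F (.inr 0))) :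
    Function.Injective ψ := by
  obtain ⟨M, _, _, ρ, u, v, hρ, huv⟩ := D_rep (Cp := Polynomial A) L.lam
  let ρC : A →ₐ[F] Module.End F M := ρ.comp Polynomial.CAlgHom
  let c' : GD n → Module.End F M := Sum.elim (fun i => ρ (Polynomial.C (a i))) ![ρ Polynomial.X, u, v]
  have hc1 : ∀ w : List (Fin n), (w.map (fun i => c' (.inl i))).prod = ρC ((w.map a).prod) := by
    intro w
    rw [map_list_prod, List.map_map]
    rfl
  have hrel : ∀ i, ev c' (relD Bs nf i) = 0 := by
    rw [D_relations (F := F) Bs nf (Module.End F M) c']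
    refine ⟨?_, ?_, ?_⟩
    · intro w
      have h2 := congrArg ρC (h1 w)
      rw [map_smul, map_list_sum, List.map_map] at h2
      rw [hc1, h2]
      congr 1
      apply List.map_congr_left
      intro p _
      simp only [Function.comp_apply, map_smul]
      rw [hc1]
    · intro i
      exact (Polynomial.commute_X (Polynomial.C (a i))).symm.map ρ
    · intro w hw m
      rw [hc1]
      have h3 := huv (Polynomial.monomial m (bA ⟨w, hw⟩))
      rw [hlam, ← Polynomial.C_mul_X_pow_eq_monomial, map_mul, map_pow, hbA] at h3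
      show u * ρ (Polynomial.C ((w.map a).prod)) * ρ Polynomial.X ^ m * v = _
      rw [mul_assoc u, h3]
      simp only
      split_ifs
      · exact map_one _
      · exact map_zero _
  let θ : CC F (relD Bs nf) →ₐ[F] Module.End F M :=
    RingQuot.liftAlgHom F ⟨FreeAlgebra.lift F c', by
      rintro p q ⟨i, rfl, rfl⟩
      rw [map_ev_aux_Dinj, map_zero]
      simp only [FreeAlgebra.lift_ι_apply]
      exact hrel i⟩
  have hθ : ∀ g : GD n, θ (RingQuot.mkAlgHom F (relC F (relD Bs nf)) (FreeAlgebra.ι F g)) = c' g := by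
    intro g
    simp only [θ]
    rw [RingQuot.liftAlgHom_mkAlgHom_apply, FreeAlgebra.lift_ι_apply]
  have hC : (θ.comp ψ).comp Polynomial.CAlgHom = ρ.comp Polynomial.CAlgHom := by
    apply AlgHom.ext_of_adjoin_eq_top hgen
    rintro _ ⟨i, rfl⟩
    show θ (ψ (Polynomial.C (a i))) = ρ (Polynomial.C (a i))
    rw [hψ, hθ]
    rfl
  have hX : θ (ψ Polynomial.X) = ρ Polynomial.X := by
    rw [hψX, hθ]
    rfl
  have hall : ∀ p, θ (ψ p) = ρ p := by
    intro p
    induction p using Polynomial.induction_on' with
    | add p q hp hq => rw [map_add, map_add, map_add, hp, hq]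
    | monomial m x =>
      rw [← Polynomial.C_mul_X_pow_eq_monomial, map_mul, map_mul, map_mul, map_pow, map_pow,
        map_pow, hX]
      congr 1
      exact DFunLike.congr_fun hC x
  intro p q hpq
  apply hρ
  rw [← hall, ← hall, hpq]

end target

end Pool.SF
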