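import Pool.Agent.Helper702.SF.SimpleD
import Pool.Agent.Helper702.SF.RepD
import Pool.Agent.Helper702.SF.MachD
import Pool.Agent.Helper702.SF.MainD
import Pool.Agent.Helper702.SF.PartID
import Pool.Agent.Helper702.SF.Main2D
import Pool.Agent.Helper702.SF.P_D_relations

set_option autoImplicit false
set_option linter.unusedSectionVars false

namespace Pool.SF
section target
variable {F A : Type} [Field F] [Ring A] [Algebra F A] {n : ℕ} (a : Fin n → A)
  (Bs : Set (List (Fin n))) (nf : List (Fin n) → ℕ × List (ℤ × List (Fin n)))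
theorem D_lam (bA : Module.Basis Bs F A) (hbA : ∀ w, bA w = (w.1.map a).prod)
    (L : LamData F (Polynomial A) (Bs × ℕ))
    (hlam : ∀ (i : Bs) m, L.lam (Polynomial.monomial m (bA i)) =
      if sqc (Encodable.encode i.1) m then 1 else 0)
    (ψ : Polynomial A →ₐ[F] CC F (relD Bs nf))
    (hψ : ∀ i, ψ (Polynomial.C (a i)) =
        RingQuot.mkAlgHom F (relC F (relD Bs nf)) (FreeAlgebra.ι F (.inl i)))
    (hψX : ψ Polynomial.X =
      RingQuot.mkAlgHom F (relC F (relD Bs nf)) (FreeAlgebra.ι F (.inr 0))) (c : Polynomial A) :
    RingQuot.mkAlgHom F (relC F (relD Bs nf)) (FreeAlgebra.ι F (.inr 1)) * ψ c *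
      RingQuot.mkAlgHom F (relC F (relD Bs nf)) (FreeAlgebra.ι F (.inr 2)) =
      algebraMap F _ (L.lam c) := by
  have hev : ∀ r : List (Bool × List (GD n)),
      ev (fun g => RingQuot.mkAlgHom F (relC F (relD Bs nf)) (FreeAlgebra.ι F g)) r =
        RingQuot.mkAlgHom F (relC F (relD Bs nf)) (ev (FreeAlgebra.ι F) r) := by
    intro r
    unfold ev
    rw [map_list_sum, List.map_map]
    congr 1
    apply List.map_congr_left
    intro p _
    simp only [Function.comp_apply, map_mul, map_list_prod, List.map_map]
    congr 1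
    split_ifs
    · simp
    · simp
  have hrel : ∀ i, ev (fun g => RingQuot.mkAlgHom F (relC F (relD Bs nf)) (FreeAlgebra.ι F g))
      (relD Bs nf i) = 0 := by
    intro i
    rw [hev]
    have h1 : relC F (relD Bs nf) (ev (FreeAlgebra.ι F) (relD Bs nf i)) 0 := ⟨i, rfl, rfl⟩
    have h2 := RingQuot.mkAlgHom_rel F h1
    rw [h2, map_zero]
  have h3 := ((D_relations (F := F) Bs nf (CC F (relD Bs nf))
    (fun g => RingQuot.mkAlgHom F (relC F (relD Bs nf)) (FreeAlgebra.ι F g))).1 hrel).2.2
  have key : ∀ (m : ℕ) (x : A),
      RingQuot.mkAlgHom F (relC F (relD Bs nf)) (FreeAlgebra.ι F (.inr 1)) *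
        ψ (Polynomial.monomial m x) *
        RingQuot.mkAlgHom F (relC F (relD Bs nf)) (FreeAlgebra.ι F (.inr 2)) =
      algebraMap F _ (L.lam (Polynomial.monomial m x)) := by
    intro m x
    have hx : x ∈ Submodule.span F (Set.range bA) := bA.mem_span x
    induction hx using Submodule.span_induction with
    | mem x hx =>
      obtain ⟨w, rfl⟩ := hx
      have e1 : ψ (Polynomial.monomial m (bA w)) =
          (w.1.map (fun i => RingQuot.mkAlgHom F (relC F (relD Bs nf))
            (FreeAlgebra.ι F (.inl i)))).prod *
          (RingQuot.mkAlgHom F (relC F (relD Bs nf)) (FreeAlgebra.ι F (.inr 0))) ^ m := by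
        rw [← Polynomial.C_mul_X_pow_eq_monomial, map_mul, map_pow, hψX, hbA, map_list_prod,
          map_list_prod, List.map_map, List.map_map]
        congr 2
        apply List.map_congr_left
        intro i _
        simp only [Function.comp_apply]
        exact hψ i
      rw [e1, hlam, ← mul_assoc]
      rw [h3 w.1 w.2 m]
      split_ifs
      · simp
      · simp
    | zero => simp
    | add x y _ _ hx hy =>
      rw [map_add, map_add, mul_add, add_mul, hx, hy, map_add, map_add]
    | smul r x _ hx =>
      have e2 : Polynomial.monomial m (r • x) = r • Polynomial.monomial m x := by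
        rw [Polynomial.smul_monomial]
      rw [e2, map_smul, map_smul, mul_smul_comm, smul_mul_assoc, hx, smul_eq_mul, map_mul,
        Algebra.smul_def]
  induction c using Polynomial.induction_on' with
  | add p q hp hq => rw [map_add, mul_add, add_mul, hp, hq, map_add, map_add]
  | monomial m x => exact key m x

end target

end Pool.SF
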