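import Pool.Agent.Helper702.SF.PartID

set_option autoImplicit false
set_option linter.unusedSectionVars false

namespace Pool.SF
section target
variable {F Cp ι D : Type} [Field F] [Ring Cp] [Algebra F Cp] [Ring D] [Algebra F D]
  (L : LamData F Cp ι) (j : Cp →ₐ[F] D) (u v : D)
/-- decomposable elements -/
def DecQ (l : ℕ) (z : D) : Prop :=
  ∃ P ∈ ⨆ k, PP j v k, ∃ (s : Finset ι) (T : ι → D), (∀ i, T i ∈ QQ j u v l) ∧
      z = P + ∑ i ∈ s, T i * u * j (L.β i)

theorem DecQ_add (l : ℕ) (z w : D) (hz : DecQ L j u v l z) (hw : DecQ L j u v l w) :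
    DecQ L j u v l (z + w) := by
  classical
  obtain ⟨P, hP, s, T, hT, rfl⟩ := hz
  obtain ⟨P', hP', s', T', hT', rfl⟩ := hw
  refine ⟨P + P', Submodule.add_mem _ hP hP', s ∪ s',
    fun i => (if i ∈ s then T i else 0) + (if i ∈ s' then T' i else 0), ?_, ?_⟩
  · intro i
    refine Submodule.add_mem _ ?_ ?_
    · split_ifs
      · exact hT i
      · exact Submodule.zero_mem _
    · split_ifs
      · exact hT' i
      · exact Submodule.zero_mem _
  · have h1 : ∑ i ∈ s ∪ s', (if i ∈ s then T i else 0) * u * j (L.β i) =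
        ∑ i ∈ s, T i * u * j (L.β i) := by
      rw [← Finset.sum_subset (Finset.subset_union_left (s₁ := s) (s₂ := s'))]
      · refine Finset.sum_congr rfl fun i hi => ?_
        rw [if_pos hi]
      · intro i _ hi
        rw [if_neg hi, zero_mul, zero_mul]
    have h2 : ∑ i ∈ s ∪ s', (if i ∈ s' then T' i else 0) * u * j (L.β i) =
        ∑ i ∈ s', T' i * u * j (L.β i) := by
      rw [← Finset.sum_subset (Finset.subset_union_right (s₁ := s) (s₂ := s'))]
      · refine Finset.sum_congr rfl fun i hi => ?_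
        rw [if_pos hi]
      · intro i _ hi
        rw [if_neg hi, zero_mul, zero_mul]
    simp only [add_mul, Finset.sum_add_distrib]
    rw [h1, h2]
    abel

theorem DecQ_of_PP (l : ℕ) (z : D) (hz : z ∈ ⨆ k, PP j v k) : DecQ L j u v l z :=
  ⟨z, hz, ∅, fun _ => 0, fun _ => Submodule.zero_mem _, by simp⟩

theorem DecQ_smul (l : ℕ) (r : F) (z : D) (hz : DecQ L j u v l z) : DecQ L j u v l (r • z) := by
  obtain ⟨P, hP, s, T, hT, rfl⟩ := hz
  refine ⟨r • P, Submodule.smul_mem _ _ hP, s, fun i => r • T i,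
    fun i => Submodule.smul_mem _ _ (hT i), ?_⟩
  rw [smul_add, Finset.smul_sum]
  simp only [smul_mul_assoc]

theorem DecQ_gen (l : ℕ) (c : Cp) (w : D) (hw : w ∈ QQ j u v l) :
    DecQ L j u v l (w * u * j c) := by
  refine ⟨0, Submodule.zero_mem _, (L.β.repr c).support, fun i => (L.β.repr c i) • w,
    fun i => Submodule.smul_mem _ _ hw, ?_⟩
  have h1 : c = ∑ i ∈ (L.β.repr c).support, (L.β.repr c i) • L.β i := by
    conv_lhs => rw [← L.β.linearCombination_repr c]
    rfl
  conv_lhs => rw [h1]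
  rw [map_sum, Finset.mul_sum, zero_add]
  refine Finset.sum_congr rfl fun i _ => ?_
  rw [map_smul, mul_smul_comm, smul_mul_assoc, smul_mul_assoc]

theorem DecQ_mono (l : ℕ) (z : D) (hz : DecQ L j u v l z) : DecQ L j u v (l + 1) z := by
  obtain ⟨P, hP, s, T, hT, rfl⟩ := hz
  refine ⟨P, hP, s, T, fun i => ?_, rfl⟩
  show T i ∈ QQ j u v l ⊔ _
  exact Submodule.mem_sup_left (hT i)

/-- splitting off the last factor with a basis -/
theorem QQ_decomp (l : ℕ) (z : D) (hz : z ∈ QQ j u v (l + 1)) :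
    ∃ P ∈ ⨆ k, PP j v k, ∃ (s : Finset ι) (T : ι → D), (∀ i, T i ∈ QQ j u v l) ∧
      z = P + ∑ i ∈ s, T i * u * j (L.β i) := by
  show DecQ L j u v l z
  induction l generalizing z with
  | zero =>
    have hz' : z ∈ QQ j u v 0 ⊔ Submodule.span F {z | ∃ c, ∃ w ∈ QQ j u v 0, z = w * u * j c} := hz
    obtain ⟨a, ha, b, hb, rfl⟩ := Submodule.mem_sup.1 hz'
    refine DecQ_add L j u v 0 a b (DecQ_of_PP L j u v 0 a ha) ?_
    refine Submodule.span_induction ?_ ?_ ?_ ?_ hb
    · rintro x ⟨c, w, hw, rfl⟩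
      exact DecQ_gen L j u v 0 c w hw
    · exact DecQ_of_PP L j u v 0 0 (Submodule.zero_mem _)
    · intro x y _ _ hx hy
      exact DecQ_add L j u v 0 x y hx hy
    · intro r x _ hx
      exact DecQ_smul L j u v 0 r x hx
  | succ l ih =>
    have hz' : z ∈ QQ j u v (l + 1) ⊔
      Submodule.span F {z | ∃ c, ∃ w ∈ QQ j u v (l + 1), z = w * u * j c} := hz
    obtain ⟨a, ha, b, hb, rfl⟩ := Submodule.mem_sup.1 hz'
    refine DecQ_add L j u v (l + 1) a b (DecQ_mono L j u v l a (ih a ha)) ?_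
    refine Submodule.span_induction ?_ ?_ ?_ ?_ hb
    · rintro x ⟨c, w, hw, rfl⟩
      exact DecQ_gen L j u v (l + 1) c w hw
    · exact DecQ_of_PP L j u v (l + 1) 0 (Submodule.zero_mem _)
    · intro x y _ _ hx hy
      exact DecQ_add L j u v (l + 1) x y hx hy
    · intro r x _ hx
      exact DecQ_smul L j u v (l + 1) r x hx

end target

end Pool.SF
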