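import Pool.Agent.Helper702.SF.PartID
import Pool.Agent.Helper702.SF.P_QQ_decomp

set_option autoImplicit false
set_option linter.unusedSectionVars false

namespace Pool.SF
section target
variable {F Cp ι D : Type} [Field F] [Ring Cp] [Algebra F Cp] [Ring D] [Algebra F D]
  (L : LamData F Cp ι) (j : Cp →ₐ[F] D) (u v : D)
theorem phase1 (huv : ∀ c, u * j c * v = algebraMap F D (L.lam c)) (J : TwoSidedIdeal D)
    (l : ℕ) (T : D) (hT : T ∈ QQ j u v l) (hTJ : T ∈ J) (h0 : T ≠ 0) :
    ∃ P ∈ ⨆ k, PP j v k, P ≠ 0 ∧ ∃ X ∈ XR j u, P + X ∈ J := by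
  classical
  induction l generalizing T with
  | zero => exact ⟨T, hT, h0, 0, Submodule.zero_mem _, by rwa [add_zero]⟩
  | succ l ih =>
    obtain ⟨P, hP, s, T', hT', hz⟩ := QQ_decomp L j u v l T hT
    by_cases hP0 : P = 0
    · have hz' : T = ∑ i ∈ s, T' i * u * j (L.β i) := by rw [hz, hP0, zero_add]
      have hex : ∃ i0 ∈ s, T' i0 ≠ 0 := by
        by_contra hcon
        push Not at hcon
        apply h0
        rw [hz']
        refine Finset.sum_eq_zero fun i hi => ?_
        rw [hcon i hi, zero_mul, zero_mul]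
      obtain ⟨i0, hi0, hne⟩ := hex
      obtain ⟨m, hm1, hm2⟩ := L.coord s i0 hi0
      have key : T * (j (L.τ ^ m) * v) = T' i0 := by
        rw [hz', Finset.sum_mul, Finset.sum_eq_single_of_mem i0 hi0]
        · calc T' i0 * u * j (L.β i0) * (j (L.τ ^ m) * v)
              = T' i0 * (u * (j (L.β i0) * j (L.τ ^ m)) * v) := by noncomm_ring
            _ = T' i0 * (u * j (L.β i0 * L.τ ^ m) * v) := by rw [map_mul j]
            _ = T' i0 := by rw [huv, hm1, map_one, mul_one]
        · intro i hi hne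
          calc T' i * u * j (L.β i) * (j (L.τ ^ m) * v)
              = T' i * (u * (j (L.β i) * j (L.τ ^ m)) * v) := by noncomm_ring
            _ = T' i * (u * j (L.β i * L.τ ^ m) * v) := by rw [map_mul j]
            _ = 0 := by rw [huv, hm2 i hi hne, map_zero, mul_zero]
      exact ih (T' i0) (hT' i0) (by rw [← key]; exact J.mul_mem_right _ _ hTJ) hne
    · refine ⟨P, hP, hP0, ∑ i ∈ s, T' i * u * j (L.β i), ?_, by rw [← hz]; exact hTJ⟩
      exact Submodule.sum_mem _ fun i _ => Submodule.subset_span ⟨L.β i, T' i, rfl⟩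

end target

end Pool.SF
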