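import Pool.Agent.Helper702.SF.PartID

set_option autoImplicit false
set_option linter.unusedSectionVars false

namespace Pool.SF
section target
variable {F Cp ι D : Type} [Field F] [Ring Cp] [Algebra F Cp] [Ring D] [Algebra F D]
  (L : LamData F Cp ι) (j : Cp →ₐ[F] D) (u v : D)
theorem PP_decomp_add (k : ℕ) (z1 z2 : D)
    (h1 : ∃ (p : Cp) (s : Finset ι) (T : ι → D), (∀ i, T i ∈ PP j v k) ∧
      z1 = j p + ∑ i ∈ s, j (L.β i) * v * T i)
    (h2 : ∃ (p : Cp) (s : Finset ι) (T : ι → D), (∀ i, T i ∈ PP j v k) ∧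
      z2 = j p + ∑ i ∈ s, j (L.β i) * v * T i) :
    ∃ (p : Cp) (s : Finset ι) (T : ι → D), (∀ i, T i ∈ PP j v k) ∧
      z1 + z2 = j p + ∑ i ∈ s, j (L.β i) * v * T i := by
  classical
  obtain ⟨p1, s1, T1, hT1, e1⟩ := h1
  obtain ⟨p2, s2, T2, hT2, e2⟩ := h2
  refine ⟨p1 + p2, s1 ∪ s2,
    fun i => (if i ∈ s1 then T1 i else 0) + (if i ∈ s2 then T2 i else 0), ?_, ?_⟩
  · intro i
    refine Submodule.add_mem _ ?_ ?_
    · split_ifs
      · exact hT1 i
      · exact Submodule.zero_mem _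
    · split_ifs
      · exact hT2 i
      · exact Submodule.zero_mem _
  · have a1 : ∑ i ∈ s1, j (L.β i) * v * T1 i =
        ∑ i ∈ s1 ∪ s2, j (L.β i) * v * (if i ∈ s1 then T1 i else 0) := by
      rw [← Finset.sum_subset (Finset.subset_union_left : s1 ⊆ s1 ∪ s2)
        (fun a _ ha => by rw [if_neg ha, mul_zero])]
      exact Finset.sum_congr rfl fun i hi => by rw [if_pos hi]
    have a2 : ∑ i ∈ s2, j (L.β i) * v * T2 i =
        ∑ i ∈ s1 ∪ s2, j (L.β i) * v * (if i ∈ s2 then T2 i else 0) := by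
      rw [← Finset.sum_subset (Finset.subset_union_right : s2 ⊆ s1 ∪ s2)
        (fun a _ ha => by rw [if_neg ha, mul_zero])]
      exact Finset.sum_congr rfl fun i hi => by rw [if_pos hi]
    simp only [mul_add, Finset.sum_add_distrib]
    rw [← a1, ← a2, e1, e2, map_add]
    abel

theorem PP_decomp_gen (k : ℕ) (z : D)
    (hz : z ∈ Submodule.span F {z | ∃ c, ∃ w ∈ PP j v k, z = j c * v * w}) :
    ∃ (p : Cp) (s : Finset ι) (T : ι → D), (∀ i, T i ∈ PP j v k) ∧
      z = j p + ∑ i ∈ s, j (L.β i) * v * T i := by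
  induction hz using Submodule.span_induction with
  | mem z hz =>
    obtain ⟨c, w, hw, rfl⟩ := hz
    refine ⟨0, (L.β.repr c).support, fun i => L.β.repr c i • w,
      fun i => Submodule.smul_mem _ _ hw, ?_⟩
    have e : c = ∑ i ∈ (L.β.repr c).support, L.β.repr c i • L.β i := by
      conv_lhs => rw [← L.β.linearCombination_repr c]
      rw [Finsupp.linearCombination_apply, Finsupp.sum]
    conv_lhs => rw [e]
    rw [map_zero, zero_add, map_sum, Finset.sum_mul, Finset.sum_mul]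
    refine Finset.sum_congr rfl fun i _ => ?_
    rw [map_smul, smul_mul_assoc, smul_mul_assoc, mul_smul_comm]
  | zero => exact ⟨0, ∅, fun _ => 0, fun _ => Submodule.zero_mem _, by simp⟩
  | add x y _ _ hx hy => exact PP_decomp_add L j v k x y hx hy
  | smul a x _ hx =>
    obtain ⟨p, s, T, hT, rfl⟩ := hx
    refine ⟨a • p, s, fun i => a • T i, fun i => Submodule.smul_mem _ _ (hT i), ?_⟩
    rw [smul_add, map_smul, Finset.smul_sum]
    congr 1
    refine Finset.sum_congr rfl fun i _ => ?_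
    rw [mul_smul_comm]

/-- splitting off the first factor with a basis -/
theorem PP_decomp (k : ℕ) (z : D) (hz : z ∈ PP j v (k + 1)) :
    ∃ (p : Cp) (s : Finset ι) (T : ι → D), (∀ i, T i ∈ PP j v k) ∧
      z = j p + ∑ i ∈ s, j (L.β i) * v * T i := by
  induction k generalizing z with
  | zero =>
    rw [PP] at hz
    obtain ⟨z1, hz1, z2, hz2, rfl⟩ := Submodule.mem_sup.1 hz
    refine PP_decomp_add L j v 0 z1 z2 ?_ ?_
    · obtain ⟨p, rfl⟩ := hz1
      exact ⟨p, ∅, fun _ => 0, fun _ => Submodule.zero_mem _, by simp⟩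
    · exact PP_decomp_gen L j v 0 z2 hz2
  | succ k ih =>
    rw [PP] at hz
    obtain ⟨z1, hz1, z2, hz2, rfl⟩ := Submodule.mem_sup.1 hz
    refine PP_decomp_add L j v (k + 1) z1 z2 ?_ ?_
    · obtain ⟨p, s, T, hT, e⟩ := ih z1 hz1
      exact ⟨p, s, T, fun i => Submodule.mem_sup_left (hT i), e⟩
    · exact PP_decomp_gen L j v (k + 1) z2 hz2

end target

end Pool.SF
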