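import Pool.Agent.Helper702.SF.PartID
import Pool.Agent.Helper702.SF.P_PP_decomp

set_option autoImplicit false
set_option linter.unusedSectionVars false

namespace Pool.SF
section target
variable {F Cp ι D : Type} [Field F] [Ring Cp] [Algebra F Cp] [Ring D] [Algebra F D]
  (L : LamData F Cp ι) (j : Cp →ₐ[F] D) (u v : D)

theorem phase2_aux (a z : D) (hz : z ∈ XR j u) : a * z ∈ XR j u := by
  unfold XR at hz ⊢
  induction hz using Submodule.span_induction with
  | mem x hx =>
    obtain ⟨c, w, rfl⟩ := hx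
    exact Submodule.subset_span ⟨c, a * w, by simp only [mul_assoc]⟩
  | zero => rw [mul_zero]; exact Submodule.zero_mem _
  | add x y _ _ hx hy => rw [mul_add]; exact Submodule.add_mem _ hx hy
  | smul r x _ hx => rw [mul_smul_comm]; exact Submodule.smul_mem _ r hx

theorem phase2 (huv : ∀ c, u * j c * v = algebraMap F D (L.lam c)) (J : TwoSidedIdeal D)
    (k : ℕ) (P : D) (hP : P ∈ PP j v k) (h0 : P ≠ 0) (X : D) (hX : X ∈ XR j u) (hJ : P + X ∈ J) :
    ∃ p : Cp, p ≠ 0 ∧ ∃ Y ∈ XL j v, ∃ X' ∈ XR j u, j p + Y + X' ∈ J := by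
  induction k generalizing P X with
  | zero =>
    obtain ⟨p, hp⟩ := hP
    have hp' : j p = P := hp
    refine ⟨p, ?_, 0, Submodule.zero_mem _, X, hX, ?_⟩
    · rintro rfl
      rw [map_zero] at hp'
      exact h0 hp'.symm
    · rw [add_zero, hp']
      exact hJ
  | succ k ih =>
    obtain ⟨p, s, T, hT, hz⟩ := PP_decomp L j v k P hP
    by_cases hp : p = 0
    · have hz' : P = ∑ i ∈ s, j (L.β i) * v * T i := by
        rw [hz, hp, map_zero, zero_add]
      obtain ⟨i0, hi0, hT0⟩ : ∃ i0 ∈ s, T i0 ≠ 0 := by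
        by_contra hcon
        push Not at hcon
        apply h0
        rw [hz']
        exact Finset.sum_eq_zero (fun i hi => by rw [hcon i hi, mul_zero])
      obtain ⟨m, hm1, hm0⟩ := L.coord s i0 hi0
      have hterm : ∀ i, u * j (L.τ ^ m) * (j (L.β i) * v * T i) =
          algebraMap F D (L.lam (L.β i * L.τ ^ m)) * T i := by
        intro i
        rw [← huv (L.β i * L.τ ^ m)]
        have hc : L.β i * L.τ ^ m = L.τ ^ m * L.β i := ((L.cτ (L.β i)).pow_left m).eq.symm
        rw [hc, map_mul]
        simp only [mul_assoc]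
      have hkey : u * j (L.τ ^ m) * P = T i0 := by
        rw [hz', Finset.mul_sum, Finset.sum_eq_single i0]
        · rw [hterm, hm1, map_one, one_mul]
        · intro i hi hne
          rw [hterm, hm0 i hi hne, map_zero, zero_mul]
        · intro hni
          exact absurd hi0 hni
      have hJ' : u * j (L.τ ^ m) * (P + X) ∈ J := J.mul_mem_left _ _ hJ
      rw [mul_add, hkey] at hJ'
      exact ih (T i0) (hT i0) hT0 (u * j (L.τ ^ m) * X) (phase2_aux j u _ _ hX) hJ'
    · refine ⟨p, hp, ∑ i ∈ s, j (L.β i) * v * T i, ?_, X, hX, ?_⟩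
      · unfold XL
        exact Submodule.sum_mem _ (fun i _ => Submodule.subset_span ⟨L.β i, T i, rfl⟩)
      · rw [← hz]
        exact hJ

end target

end Pool.SF
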