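import Pool.Agent.Helper702.SF.PartID
import Pool.Agent.Helper702.SF.P_QQ_top
import Pool.Agent.Helper702.SF.P_phase1
import Pool.Agent.Helper702.SF.P_phase2
import Pool.Agent.Helper702.SF.P_phase3

set_option autoImplicit false
set_option linter.unusedSectionVars false

namespace Pool.SF
section target
variable {F Cp ι D : Type} [Field F] [Ring Cp] [Algebra F Cp] [Ring D] [Algebra F D]
  (L : LamData F Cp ι) (j : Cp →ₐ[F] D) (u v : D)
theorem D_simple (huv : ∀ c, u * j c * v = algebraMap F D (L.lam c))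
    (hgen : Algebra.adjoin F (Set.range j ∪ {u, v}) = ⊤) [Nontrivial D] : IsSimpleRing D := by
  have key : ∀ J : TwoSidedIdeal D, ∀ T ∈ J, T ≠ 0 → (1 : D) ∈ J := by
    intro J T hTJ hT0
    obtain ⟨l, hl⟩ := QQ_top L j u v huv hgen T
    obtain ⟨P, hP, hP0, X, hX, hPX⟩ := phase1 L j u v huv J l T hl hTJ hT0
    have hmono : Monotone (fun k => PP j v k) := monotone_nat_of_le_succ fun k => by
      show PP j v k ≤ PP j v (k + 1)
      rw [PP]
      exact le_sup_left
    obtain ⟨k, hk⟩ := (Submodule.mem_iSup_of_directed (fun k => PP j v k) hmono.directed_le).1 hP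
    obtain ⟨p, hp0, Y, hY, X', hX', hJ⟩ := phase2 L j u v huv J k P hk hP0 X hX hPX
    obtain ⟨m, m', hlam, heq⟩ := phase3 L j u v huv p hp0 p Y X' hY hX'
    have h1 : algebraMap F D (L.lam (p * L.τ ^ (m + m'))) ∈ J := by
      rw [← heq]
      exact J.mul_mem_right _ _ (J.mul_mem_left _ _ hJ)
    have h2 := J.mul_mem_left (algebraMap F D (L.lam (p * L.τ ^ (m + m')))⁻¹) _ h1
    rwa [← map_mul, inv_mul_cancel₀ hlam, map_one] at h2
  refine ⟨{ exists_pair_ne := ⟨⊥, ⊤, fun h => ?_⟩, eq_bot_or_eq_top := fun J => ?_ }⟩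
  · have h1 : (1 : D) ∈ (⊤ : TwoSidedIdeal D) := trivial
    rw [← h, TwoSidedIdeal.mem_bot] at h1
    exact one_ne_zero h1
  · by_cases hJ : ∃ T ∈ J, T ≠ 0
    · obtain ⟨T, hT, hT0⟩ := hJ
      right
      exact (TwoSidedIdeal.one_mem_iff J).1 (key J T hT hT0)
    · left
      push Not at hJ
      rw [eq_bot_iff]
      intro x hx
      rw [TwoSidedIdeal.mem_bot]
      exact hJ x hx

end target

end Pool.SF
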