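import Pool.Agent.Helper702.SF.MachD

set_option autoImplicit false
set_option linter.unusedSectionVars false

namespace Pool.SF
section target
open Turing
variable {A G Γ Λ : Type} [Ring A] [Fintype G] [DecidableEq G] [Fintype Γ]
  [DecidableEq Γ] [Inhabited Γ] [Fintype Λ] [DecidableEq Λ] [Inhabited Λ]
omit [Fintype Γ] [DecidableEq Γ] in
theorem rs_blank : (ListBlank.mk ([default] : List Γ)) = ListBlank.mk [] :=
  Quotient.sound (Or.inr ⟨1, rfl⟩)

/-- action of a statement on a tape -/
def rsApp (T : Tape Γ) : TM0.Stmt Γ → Tape Γ
  | .move d => T.move d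
  | .write a => T.write a

omit [Fintype Γ] [DecidableEq Γ] [Fintype Λ] [DecidableEq Λ] in
theorem rs_step (M : TM0.Machine Γ Λ) (l0 l' : Λ) (L0 R1 : List Γ) (g : Γ) (st : TM0.Stmt Γ)
    (hM : M l0 g = some (l', st)) :
    (⟨l', rsApp (Tape.mk' (ListBlank.mk L0) (ListBlank.mk (g :: R1))) st⟩ : TM0.Cfg Γ Λ) ∈
      TM0.step M ⟨l0, Tape.mk' (ListBlank.mk L0) (ListBlank.mk (g :: R1))⟩ := by
  show TM0.step M ⟨l0, Tape.mk' (ListBlank.mk L0) (ListBlank.mk (g :: R1))⟩ = some _
  unfold TM0.step
  simp only [Tape.mk'_head, ListBlank.head_mk, List.headI]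
  rw [hM]
  cases st <;> rfl

theorem run_sound (M : TM0.Machine Γ Λ) (cd : G ⊕ Bool → List Γ) (top : List Γ)
    (z : List (Gl G)) (w : List (G ⊕ Bool)) (l : Λ) (L R : List Γ)
    (h : z.foldl (nxt M cd top) (.sp []) = .rn w l L R) :
    StateTransition.Reaches (TM0.step M) (TM0.init (top ++ tapeR cd w))
      ⟨l, Tape.mk' (ListBlank.mk L) (ListBlank.mk R)⟩ := by
  induction z using List.reverseRecOn generalizing w l L R with
  | nil => exact absurd h (by simp)
  | append_singleton z i ih =>
    rw [List.foldl_append] at h
    simp only [List.foldl_cons, List.foldl_nil] at h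
    rcases hc : z.foldl (nxt M cd top) (.sp []) with w0 | ⟨w0, l0, L0, R0⟩ | _
    · rw [hc] at h
      rcases i with l' | _ | _ | _ | _
      · simp [nxt] at h
      · simp only [nxt, Cf.rn.injEq] at h
        obtain ⟨rfl, rfl, rfl, rfl⟩ := h
        exact Relation.ReflTransGen.refl
      · simp [nxt] at h
      · simp [nxt] at h
      · simp [nxt] at h
    · rw [hc] at h
      have ih' := ih w0 l0 L0 R0 hc
      rcases i with l' | _ | _ | _ | _
      · simp [nxt] at h
      · simp [nxt] at h
      · rcases R0 with _ | ⟨g, R1⟩
        · rcases L0 with _ | ⟨_, _⟩ <;> simp [nxt] at h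
        · have h' : ins w0 g L0 R1 (M l0 g) = .rn w l L R := by
            rw [← h]
            rcases L0 with _ | ⟨_, _⟩ <;> rfl
          clear h
          rcases hM : M l0 g with _ | ⟨l', st⟩
          · rw [hM] at h'
            simp [ins] at h'
          · rw [hM] at h'
            have key : ∀ T', rsApp (Tape.mk' (ListBlank.mk L0) (ListBlank.mk (g :: R1))) st = T' →
                StateTransition.Reaches (TM0.step M) (TM0.init (top ++ tapeR cd w0)) ⟨l', T'⟩ := by
              intro T' hT'
              rw [← hT']
              exact Relation.ReflTransGen.tail ih' (rs_step M l0 l' L0 R1 g st hM)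
            rcases st with ⟨_ | _⟩ | b
            · rcases L0 with _ | ⟨h0, L1⟩
              · simp [ins] at h'
              · simp only [ins, Cf.rn.injEq] at h'
                obtain ⟨rfl, rfl, rfl, rfl⟩ := h'
                apply key
                simp only [rsApp, Tape.move_left_mk', ListBlank.tail_mk, List.tail_cons,
                  ListBlank.head_mk, List.headI, ListBlank.cons_mk]
            · simp only [ins, Cf.rn.injEq] at h'
              obtain ⟨rfl, rfl, rfl, rfl⟩ := h'
              apply key
              simp only [rsApp, Tape.move_right_mk', ListBlank.tail_mk, List.tail_cons,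
                  ListBlank.head_mk, List.headI, ListBlank.cons_mk]
            · simp only [ins, Cf.rn.injEq] at h'
              obtain ⟨rfl, rfl, rfl, rfl⟩ := h'
              apply key
              simp only [rsApp, Tape.write_mk', ListBlank.tail_mk, List.tail_cons, ListBlank.cons_mk]
      · rcases L0 with _ | ⟨h0, L1⟩
        · simp only [nxt, Cf.rn.injEq] at h
          obtain ⟨rfl, rfl, rfl, rfl⟩ := h
          rw [rs_blank]
          exact ih'
        · simp [nxt] at h
      · rcases R0 with _ | ⟨g, R1⟩
        · have h' : (.rn w0 l0 L0 [default] : Cf G Γ Λ) = .rn w l L R := by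
            rw [← h]
            rcases L0 with _ | ⟨_, _⟩ <;> rfl
          simp only [Cf.rn.injEq] at h'
          obtain ⟨rfl, rfl, rfl, rfl⟩ := h'
          rw [rs_blank]
          exact ih'
        · rcases L0 with _ | ⟨_, _⟩ <;> simp [nxt] at h
    · rw [hc] at h
      simp [nxt] at h

end target

end Pool.SF
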