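import Pool.Agent.Helper702.SF.MachD
import Pool.Agent.Helper702.SF.P_run_sound

set_option autoImplicit false
set_option linter.unusedSectionVars false

namespace Pool.SF
section target
open Turing
variable {A G Γ Λ : Type} [Ring A] [Fintype G] [DecidableEq G] [Fintype Γ]
  [DecidableEq Γ] [Inhabited Γ] [Fintype Λ] [DecidableEq Λ] [Inhabited Λ]
theorem run_halt (M : TM0.Machine Γ Λ) (cd : G ⊕ Bool → List Γ) (top : List Γ)
    (z : List (Gl G)) (w : List (G ⊕ Bool)) (l : Λ) (L R : List Γ) (g : Γ)
    (h : z.foldl (nxt M cd top) (.sp []) = .rn w l L (g :: R)) (hM : M l g = none) :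
    (StateTransition.eval (TM0.step M) (TM0.init (top ++ tapeR cd w))).Dom := by
  have h1 := run_sound M cd top z w l L (g :: R) h
  rw [Part.dom_iff_mem]
  refine ⟨_, StateTransition.mem_eval.2 ⟨h1, ?_⟩⟩
  have h2 : (Tape.mk' (ListBlank.mk L) (ListBlank.mk (g :: R))).head = g := rfl
  simp [TM0.step, h2, hM]

end target

end Pool.SF
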