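import Pool.Agent.Helper702.SF.SimpleD
import Pool.Agent.Helper702.SF.RepD
import Pool.Agent.Helper702.SF.MachD
import Pool.Agent.Helper702.SF.MainD
import Pool.Agent.Helper702.SF.PartID
import Pool.Agent.Helper702.SF.Main2D
import Pool.Agent.Helper702.SF.P_Vz_eq
import Pool.Agent.Helper702.SF.P_run_halt

set_option autoImplicit false
set_option linter.unusedSectionVars false

namespace Pool.SF
section target
open Turing
variable {F : Type} [Field F] {G Γ Λ : Type} [Fintype G] [DecidableEq G] [Fintype Γ]
  [DecidableEq Γ] [Inhabited Γ] [Fintype Λ] [DecidableEq Λ] [Inhabited Λ]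
/-- If the accepted formal sums vanish then all outputs vanish. -/
theorem V_zero {A : Type} [Ring A]
    (M : TM0.Machine Γ Λ) (cd : G ⊕ Bool → List Γ) (top : List Γ)
    (a : G → A) (x x' t t' : KK G Γ Λ → A) (h : MH a x x' t t')
    (hs : ∀ w, (StateTransition.eval (TM0.step M) (TM0.init (top ++ tapeR cd w))).Dom → sv a w = 0)
    (z : List (Gl G)) :
    Vz (mio x) (mps M x x') (mph M cd top a x x' t t') z = 0 := by
  rw [Vz_eq M cd top a x x' t t' h z]
  rcases hc : z.foldl (nxt M cd top) (.sp []) with w | ⟨w, l, L, R⟩ | _
  · rfl
  · cases R with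
    | nil => rfl
    | cons g R =>
      show (match M l g with
        | none => wd t (L.map sy' ++ [bz']) * sv a w * wd x ((g :: R).map sy' ++ [bz'])
        | some _ => 0) = 0
      cases hM : M l g with
      | none =>
        have hd := run_halt M cd top z w l L R g hc hM
        simp only
        rw [hs w hd, mul_zero, zero_mul]
      | some p => rfl
  · rfl

end target

end Pool.SF
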