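import Pool.Agent.Helper702.SF.PartID

set_option autoImplicit false
set_option linter.unusedSectionVars false

namespace Pool.SF
section target
variable {F A : Type} [Field F] [Ring A] [Algebra F A]
theorem exists_lam_notsq {q k : ℕ} (h1 : q * q < k) (h2 : k < (q + 1) * (q + 1)) :
    ¬ (Nat.sqrt k * Nat.sqrt k = k) := by
  intro h
  rw [← h] at h1 h2
  have a1 := Nat.mul_self_lt_mul_self_iff.1 h1
  have a2 := Nat.mul_self_lt_mul_self_iff.1 h2
  omega

theorem exists_lam_notsq' {j k d : ℕ} (hd : 0 < d) (hdj : d + 1 ≤ j) (hk : k + d = j * j) :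
    ¬ (Nat.sqrt k * Nat.sqrt k = k) := by
  obtain ⟨q, rfl⟩ : ∃ q, j = q + 1 := ⟨j - 1, by omega⟩
  apply exists_lam_notsq (q := q)
  · nlinarith
  · omega

theorem exists_lam_notsq'' {j k d : ℕ} (hd : 0 < d) (hdj : d ≤ j) (hk : k = j * j + d) :
    ¬ (Nat.sqrt k * Nat.sqrt k = k) := by
  apply exists_lam_notsq (q := j)
  · omega
  · nlinarith

/-- the F-linear monomial map -/
noncomputable def exists_lam_mono (F A : Type) [Field F] [Ring A] [Algebra F A] (n : ℕ) :
    A →ₗ[F] Polynomial A := (Polynomial.monomial n : A →ₗ[A] Polynomial A).restrictScalars F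

theorem exists_lam_mono_apply (n : ℕ) (a : A) :
    exists_lam_mono F A n a = Polynomial.monomial n a := rfl

theorem exists_lam_li {ι : Type} (bA : Module.Basis ι F A) :
    LinearIndependent F (fun p : ι × ℕ => (Polynomial.monomial p.2 (bA p.1) : Polynomial A)) := by
  classical
  rw [linearIndependent_iff']
  intro s g hg p hp
  have h1 := congrArg (fun P : Polynomial A => bA.coord p.1 (P.coeff p.2)) hg
  simp only [Polynomial.finsetSum_coeff, Polynomial.coeff_smul, Polynomial.coeff_monomial,
    Polynomial.coeff_zero, map_zero, map_sum, map_smul] at h1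
  rw [Finset.sum_eq_single p] at h1
  · simpa using h1
  · rintro ⟨i, n⟩ _ hne
    by_cases hn : n = p.2
    · have hi : i ≠ p.1 := fun hi => hne (Prod.ext hi hn)
      simp only [hn, if_true]
      rw [Module.Basis.coord_apply, bA.repr_self, Finsupp.single_eq_of_ne hi.symm, smul_zero]
    · simp only [hn, if_false, map_zero, smul_zero]
  · exact fun h => absurd hp h

theorem exists_lam_span {ι : Type} (bA : Module.Basis ι F A) :
    ⊤ ≤ Submodule.span F (Set.range
      (fun p : ι × ℕ => (Polynomial.monomial p.2 (bA p.1) : Polynomial A))) := by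
  intro P _
  induction P using Polynomial.induction_on' with
  | add p q hp hq => exact Submodule.add_mem _ (hp trivial) (hq trivial)
  | monomial n a =>
    have h1 : a ∈ Submodule.span F (Set.range bA) := by
      rw [bA.span_eq]; exact Submodule.mem_top
    have h2 : exists_lam_mono F A n a ∈ (Submodule.span F (Set.range bA)).map (exists_lam_mono F A n) :=
      Submodule.mem_map_of_mem h1
    rw [Submodule.map_span] at h2
    refine Submodule.span_mono ?_ h2
    rintro _ ⟨_, ⟨i, rfl⟩, rfl⟩
    exact ⟨(i, n), rfl⟩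

/-- the basis -/
noncomputable def exists_lam_basis {ι : Type} (bA : Module.Basis ι F A) :
    Module.Basis (ι × ℕ) F (Polynomial A) :=
  Module.Basis.mk (exists_lam_li bA) (exists_lam_span bA)

theorem exists_lam_basis_apply {ι : Type} (bA : Module.Basis ι F A) (p : ι × ℕ) :
    exists_lam_basis bA p = Polynomial.monomial p.2 (bA p.1) := by
  unfold exists_lam_basis
  rw [Module.Basis.mk_apply]

/-- the functional -/
noncomputable def exists_lam_fn {ι : Type} (bA : Module.Basis ι F A) (cd : ι → ℕ) :
    Polynomial A →ₗ[F] F :=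
  (exists_lam_basis bA).constr F (fun p => if sqc (cd p.1) p.2 then (1 : F) else 0)

theorem exists_lam_fn_basis {ι : Type} (bA : Module.Basis ι F A) (cd : ι → ℕ) (i : ι) (n : ℕ) :
    exists_lam_fn bA cd (Polynomial.monomial n (bA i)) = if sqc (cd i) n then 1 else 0 := by
  have := (exists_lam_basis bA).constr_basis F (fun p => if sqc (cd p.1) p.2 then (1 : F) else 0)
    (i, n)
  rw [exists_lam_basis_apply] at this
  exact this

/-- vanishing on non-squares -/
theorem exists_lam_fn_zero {ι : Type} (bA : Module.Basis ι F A) (cd : ι → ℕ) (n : ℕ) (a : A)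
    (hn : ¬ (Nat.sqrt n * Nat.sqrt n = n)) :
    exists_lam_fn bA cd (Polynomial.monomial n a) = 0 := by
  have h : (exists_lam_fn bA cd).comp (exists_lam_mono F A n) = 0 := by
    apply bA.ext
    intro i
    rw [LinearMap.comp_apply, exists_lam_mono_apply, exists_lam_fn_basis, LinearMap.zero_apply,
      if_neg (fun h => hn h.1)]
  exact LinearMap.congr_fun h a

/-- value on squares -/
theorem exists_lam_fn_sq {ι : Type} (bA : Module.Basis ι F A) (cd : ι → ℕ)
    (hcd : Function.Injective cd) (i0 : ι) (j : ℕ) (hj : (Nat.unpair j).1 = cd i0) (a : A) :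
    exists_lam_fn bA cd (Polynomial.monomial (j * j) a) = bA.repr a i0 := by
  have h : (exists_lam_fn bA cd).comp (exists_lam_mono F A (j * j)) = bA.coord i0 := by
    classical
    apply bA.ext
    intro i
    rw [LinearMap.comp_apply, exists_lam_mono_apply, exists_lam_fn_basis, Module.Basis.coord_apply,
      bA.repr_self]
    have hs : Nat.sqrt (j * j) = j := Nat.sqrt_eq j
    by_cases hi : i = i0
    · subst hi
      rw [Finsupp.single_eq_same, if_pos]
      exact ⟨by rw [hs], by rw [hs, hj]⟩
    · rw [Finsupp.single_eq_of_ne (Ne.symm hi), if_neg]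
      rintro ⟨-, h2⟩
      rw [hs, hj] at h2
      exact hi (hcd h2.symm)
  exact LinearMap.congr_fun h a

theorem exists_lam_fn_mul {ι : Type} (bA : Module.Basis ι F A) (cd : ι → ℕ) (c : Polynomial A)
    (N m : ℕ) (hN : c.natDegree ≤ N) :
    exists_lam_fn bA cd (c * Polynomial.X ^ m) =
      ∑ n ∈ Finset.range (N + 1), exists_lam_fn bA cd (Polynomial.monomial (n + m) (c.coeff n)) := by
  conv_lhs => rw [c.as_sum_range' (N + 1) (by omega), Finset.sum_mul, map_sum]
  refine Finset.sum_congr rfl fun n _ => ?_
  rw [Polynomial.monomial_mul_X_pow]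

/-- The generic functional on `A[X]`. -/
theorem exists_lam {ι : Type} (bA : Module.Basis ι F A) (cd : ι → ℕ)
    (hcd : Function.Injective cd) :
    ∃ L : LamData F (Polynomial A) (ι × ℕ), L.τ = Polynomial.X ∧
      (∀ p : ι × ℕ, L.β p = Polynomial.monomial p.2 (bA p.1)) ∧
      ∀ i n, L.lam (Polynomial.monomial n (bA i)) = if sqc (cd i) n then 1 else 0 := by
  classical
  refine ⟨{ τ := Polynomial.X, cτ := fun c => Polynomial.commute_X c, β := exists_lam_basis bA,
            lam := exists_lam_fn bA cd, coord := ?_, gen := ?_ }, rfl,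
    exists_lam_basis_apply bA, exists_lam_fn_basis bA cd⟩
  · rintro s ⟨i0, n0⟩ hs
    obtain ⟨N, hN⟩ : ∃ N : ℕ, ∀ p ∈ s, p.2 ≤ N := ⟨s.sup Prod.snd, fun p hp => Finset.le_sup hp⟩
    have hn0 : n0 ≤ N := hN _ hs
    set j := Nat.pair (cd i0) (N + 2) with hj
    have hjN : N + 2 ≤ j := Nat.right_le_pair _ _
    have hju : (Nat.unpair j).1 = cd i0 := by rw [hj, Nat.unpair_pair]
    have hjj : j ≤ j * j := by nlinarith
    refine ⟨j * j - n0, ?_, ?_⟩
    · rw [exists_lam_basis_apply, Polynomial.monomial_mul_X_pow]
      have e : n0 + (j * j - n0) = j * j := by omega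
      show exists_lam_fn bA cd (Polynomial.monomial (n0 + (j * j - n0)) (bA i0)) = 1
      rw [e, exists_lam_fn_sq bA cd hcd i0 j hju, bA.repr_self, Finsupp.single_eq_same]
    · rintro ⟨i, n⟩ hp hne
      have hn : n ≤ N := hN _ hp
      rw [exists_lam_basis_apply, Polynomial.monomial_mul_X_pow]
      show exists_lam_fn bA cd (Polynomial.monomial (n + (j * j - n0)) (bA i)) = 0
      rcases lt_trichotomy n n0 with h | h | h
      · apply exists_lam_fn_zero
        exact exists_lam_notsq' (j := j) (d := n0 - n) (by omega) (by omega) (by omega)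
      · subst h
        have e : n + (j * j - n) = j * j := by omega
        have hi : i ≠ i0 := fun hi => hne (by rw [hi])
        rw [e, exists_lam_fn_sq bA cd hcd i0 j hju, bA.repr_self, Finsupp.single_eq_of_ne hi.symm]
      · apply exists_lam_fn_zero
        exact exists_lam_notsq'' (j := j) (d := n - n0) (by omega) (by omega) (by omega)
  · intro s p hp
    obtain ⟨N, hN, hpN⟩ : ∃ N : ℕ, (∀ c ∈ s, c.natDegree ≤ N) ∧ p.natDegree ≤ N :=
      ⟨max (s.sup Polynomial.natDegree) p.natDegree,
        fun c hc => (Finset.le_sup (f := Polynomial.natDegree) hc).trans (le_max_left _ _),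
        le_max_right _ _⟩
    obtain ⟨n0, hn0⟩ : ∃ n0, p.coeff n0 ≠ 0 := by
      by_contra h
      push Not at h
      exact hp (Polynomial.ext fun n => by simpa using h n)
    have hn0N : n0 ≤ N := (Polynomial.le_natDegree_of_ne_zero hn0).trans hpN
    obtain ⟨i0, hi0⟩ : ∃ i0, bA.repr (p.coeff n0) i0 ≠ 0 := by
      by_contra h
      push Not at h
      apply hn0
      apply bA.repr.injective
      rw [map_zero]
      exact Finsupp.ext h
    set q := N + 1 with hq
    set m := q * q + 1 with hm
    set j := Nat.pair (cd i0) (N + m + 2) with hj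
    have hjN : N + m + 2 ≤ j := Nat.right_le_pair _ _
    have hju : (Nat.unpair j).1 = cd i0 := by rw [hj, Nat.unpair_pair]
    have hjj : j ≤ j * j := by nlinarith
    refine ⟨m, j * j - n0 - m, ?_, ?_, ?_⟩
    · intro c hc
      rw [exists_lam_fn_mul bA cd c N m (hN c hc)]
      refine Finset.sum_eq_zero fun n hn => exists_lam_fn_zero bA cd _ _ ?_
      have hn' : n ≤ N := by have := Finset.mem_range.1 hn; omega
      exact exists_lam_notsq'' (j := q) (d := n + 1) (by omega) (by omega) (by omega)
    · intro c hc
      rw [exists_lam_fn_mul bA cd c N _ (hN c hc)]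
      refine Finset.sum_eq_zero fun n hn => exists_lam_fn_zero bA cd _ _ ?_
      have hn' : n ≤ N := by have := Finset.mem_range.1 hn; omega
      have hqm : q ≤ m := by rw [hm]; nlinarith
      exact exists_lam_notsq' (j := j) (d := n0 + m - n) (by omega) (by omega) (by omega)
    · rw [exists_lam_fn_mul bA cd p N _ hpN, Finset.sum_eq_single n0]
      · have e : n0 + (m + (j * j - n0 - m)) = j * j := by omega
        rw [e, exists_lam_fn_sq bA cd hcd i0 j hju]
        exact hi0
      · intro n hn hne
        have hn' : n ≤ N := by have := Finset.mem_range.1 hn; omega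
        apply exists_lam_fn_zero
        rcases lt_or_gt_of_ne hne with h | h
        · exact exists_lam_notsq' (j := j) (d := n0 - n) (by omega) (by omega) (by omega)
        · exact exists_lam_notsq'' (j := j) (d := n - n0) (by omega) (by omega) (by omega)
      · intro h
        exact absurd (Finset.mem_range.2 (by omega)) h

end target

end Pool.SF
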