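import Pool.Agent.Helper702.SF.RepD

set_option autoImplicit false
set_option linter.unusedSectionVars false

namespace Pool.SF
section target
variable {F : Type} [Field F]
/-- approximations of the reader -/
noncomputable def er_Rn {V K S : Type} [AddCommGroup V] [Module F V] [Fintype K]
    [Fintype S] (u' : K → Module.End F V) (M : K → S → S → Module.End F V)
    (τ : K → S → Module.End F V) : ℕ → S → Module.End F V
  | 0, _ => 0
  | n + 1, s => ∑ j, (∑ s', er_Rn u' M τ n s' * M j s s' + τ j s) * u' j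

theorem er_succ {V K S : Type} [AddCommGroup V] [Module F V] [Fintype K]
    [Fintype S] (u' : K → Module.End F V) (M : K → S → S → Module.End F V)
    (τ : K → S → Module.End F V) (n : ℕ) (s : S) (v : V) :
    er_Rn u' M τ (n + 1) s v =
      ∑ j, (∑ s', er_Rn u' M τ n s' (M j s s' (u' j v)) + τ j s (u' j v)) := by
  show (∑ j, (∑ s', er_Rn u' M τ n s' * M j s s' + τ j s) * u' j) v = _
  rw [LinearMap.sum_apply]
  refine Finset.sum_congr rfl fun j _ => ?_
  rw [Module.End.mul_apply, LinearMap.add_apply, LinearMap.sum_apply]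
  rfl

theorem er_stab {V K S : Type} [AddCommGroup V] [Module F V] [Fintype K] [DecidableEq K]
    [Fintype S] (k0 : K) (u' : K → Module.End F V) (fil : ℕ → Submodule F V)
    (hpop : ∀ n j, ∀ v ∈ fil (n + 1), u' j v ∈ fil n)
    (hpop0 : ∀ j, ∀ v ∈ fil 0, j ≠ k0 → u' j v = 0)
    (M : K → S → S → Module.End F V) (τ : K → S → Module.End F V)
    (hM0 : ∀ s s', M k0 s s' = 0)
    (hMf : ∀ j s s' n, ∀ v ∈ fil n, M j s s' v ∈ fil n) :
    ∀ n, ∀ v ∈ fil n, ∀ m, n + 1 ≤ m → ∀ s, er_Rn u' M τ m s v = er_Rn u' M τ (n + 1) s v := by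
  intro n
  induction n with
  | zero =>
    intro v hv m hm s
    have h1 : ∀ m, er_Rn u' M τ (m + 1) s v = τ k0 s (u' k0 v) := by
      intro m
      rw [er_succ, Finset.sum_eq_single k0]
      · simp [hM0]
      · intro j _ hj
        rw [hpop0 j v hv hj]
        simp
      · intro h
        exact absurd (Finset.mem_univ _) h
    obtain ⟨m', rfl⟩ : ∃ m', m = m' + 1 := ⟨m - 1, by omega⟩
    rw [h1, h1]
  | succ n ih =>
    intro v hv m hm s
    obtain ⟨m', rfl⟩ : ∃ m', m = m' + 1 := ⟨m - 1, by omega⟩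
    rw [er_succ, er_succ]
    refine Finset.sum_congr rfl fun j _ => ?_
    congr 1
    refine Finset.sum_congr rfl fun s' _ => ?_
    exact ih _ (hMf j s s' n _ (hpop n j v hv)) m' (by omega) s'

/-- Existence of readers of a stack given by recursion. -/
theorem exists_reader {V K S : Type} [AddCommGroup V] [Module F V] [Fintype K] [DecidableEq K]
    [Fintype S] (k0 : K) (u u' : K → Module.End F V) (huu : Orth u u')
    (hone : ∑ j, u j * u' j = 1) (fil : ℕ → Submodule F V) (hfil : ∀ v, ∃ n, v ∈ fil n)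
    (hpop : ∀ n j, ∀ v ∈ fil (n + 1), u' j v ∈ fil n)
    (hpop0 : ∀ j, ∀ v ∈ fil 0, j ≠ k0 → u' j v = 0) (hpop00 : ∀ v ∈ fil 0, u' k0 v ∈ fil 0)
    (M : K → S → S → Module.End F V) (τ : K → S → Module.End F V)
    (hM0 : ∀ s s', M k0 s s' = 0)
    (hMf : ∀ j s s' n, ∀ v ∈ fil n, M j s s' v ∈ fil n) :
    ∃ R : S → Module.End F V, ∀ s j, R s * u j = ∑ s', R s' * M j s s' + τ j s := by
  have hst := er_stab k0 u' fil hpop hpop0 M τ hM0 hMf
  have hex : ∀ v : V, ∃ N : ℕ, ∀ m, N ≤ m → ∀ s, er_Rn u' M τ m s v = er_Rn u' M τ N s v := by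
    intro v
    obtain ⟨n, hn⟩ := hfil v
    exact ⟨n + 1, hst n v hn⟩
  choose N hN using hex
  let R0 : S → V → V := fun s v => er_Rn u' M τ (N v) s v
  have hR0 : ∀ v, ∀ᶠ m in Filter.atTop, ∀ s, er_Rn u' M τ m s v = R0 s v := by
    intro v
    filter_upwards [Filter.eventually_ge_atTop (N v)] with m hm s
    exact hN v m hm s
  let R : S → Module.End F V := fun s =>
    { toFun := R0 s
      map_add' := fun v w => by
        obtain ⟨m, h1, h2, h3⟩ := ((hR0 v).and ((hR0 w).and (hR0 (v + w)))).exists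
        rw [← h1 s, ← h2 s, ← h3 s, map_add]
      map_smul' := fun c v => by
        obtain ⟨m, h1, h2⟩ := ((hR0 v).and (hR0 (c • v))).exists
        rw [← h1 s, ← h2 s, map_smul]
        rfl }
  have hrec : ∀ s v, R s v = ∑ j, (∑ s', R s' (M j s s' (u' j v)) + τ j s (u' j v)) := by
    intro s v
    have h1 : ∀ᶠ m in Filter.atTop, ∀ s, er_Rn u' M τ (m + 1) s v = R0 s v :=
      (Filter.tendsto_add_atTop_nat 1).eventually (hR0 v)
    have h2 : ∀ᶠ m in Filter.atTop, ∀ j s', ∀ s'', er_Rn u' M τ m s'' (M j s s' (u' j v)) =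
        R0 s'' (M j s s' (u' j v)) :=
      Filter.eventually_all.2 fun j => Filter.eventually_all.2 fun s' => hR0 _
    obtain ⟨m, h3, h4⟩ := (h1.and h2).exists
    show R0 s v = _
    rw [← h3 s, er_succ]
    refine Finset.sum_congr rfl fun j _ => ?_
    congr 1
    refine Finset.sum_congr rfl fun s' _ => ?_
    exact h4 j s' s'
  refine ⟨R, fun s j => ?_⟩
  apply LinearMap.ext
  intro v
  rw [Module.End.mul_apply, hrec, Finset.sum_eq_single j]
  · have h1 : u' j (u j v) = v := by
      have := LinearMap.congr_fun (huu j j) v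
      rwa [if_pos rfl] at this
    rw [h1, LinearMap.add_apply, LinearMap.sum_apply]
    rfl
  · intro i _ hi
    have h1 : u' i (u j v) = 0 := by
      have := LinearMap.congr_fun (huu i j) v
      rwa [if_neg hi] at this
    rw [h1]
    simp
  · intro h
    exact absurd (Finset.mem_univ _) h

end target

end Pool.SF
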