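import Pool.Agent.Helper702.SF.RepD
import Pool.Agent.Helper702.SF.P_exists_reader

set_option autoImplicit false
set_option linter.unusedSectionVars false

namespace Pool.SF
section target
variable {F : Type} [Field F]

variable {C V G I S E : Type} [Ring C] [Algebra F C] [AddCommGroup V] [Module F V]
  [Fintype G] [DecidableEq G] [Fintype I] [DecidableEq I]
  [Fintype S] [DecidableEq S] [Fintype E] [DecidableEq E]

omit [Fintype G] [Fintype I] [Fintype S] [Fintype E] in
theorem er_wd_commute {B K : Type} [Ring B] (y : K → B) (b : B) (h : ∀ j, Commute b (y j))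
    (J : List K) : Commute b (wd y J) := by
  induction J with
  | nil => exact Commute.one_right b
  | cons j J ih =>
    have : wd y (j :: J) = y j * wd y J := by simp [wd]
    rw [this]
    exact (h j).mul_right ih

theorem er_adjY (st : Stk F C V (Kd G I S E) .kill) (b : Module.End F V)
    (hb : b ∈ Algebra.adjoin F (Set.range st.γ ∪ Set.range st.x ∪ Set.range st.x'))
    (n : ℕ) (v : V) (hv : v ∈ st.fY n) : b v ∈ st.fY n := by
  induction hb using Algebra.adjoin_induction generalizing v with
  | mem b hb =>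
    rcases hb with (⟨c, rfl⟩ | ⟨j, rfl⟩) | ⟨j, rfl⟩
    · exact st.fYγ n c v hv
    · exact st.fYx n j v hv
    · exact st.fYx' n j v hv
  | algebraMap r =>
    rw [Module.algebraMap_end_apply]
    exact (st.fY n).smul_mem r hv
  | add a b _ _ iha ihb =>
    rw [LinearMap.add_apply]
    exact (st.fY n).add_mem (iha v hv) (ihb v hv)
  | mul a b _ _ iha ihb =>
    rw [Module.End.mul_apply]
    exact iha _ (ihb v hv)

theorem er_adjC (st : Stk F C V (Kd G I S E) .kill) (b : Module.End F V)
    (hb : b ∈ Algebra.adjoin F (Set.range st.γ ∪ Set.range st.x ∪ Set.range st.x'))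
    (j : Kd G I S E) : Commute b (st.y j) := by
  induction hb using Algebra.adjoin_induction with
  | mem b hb =>
    rcases hb with (⟨c, rfl⟩ | ⟨i, rfl⟩) | ⟨i, rfl⟩
    · exact st.cy c j
    · exact st.cxy i j
    · exact st.cx'y i j
  | algebraMap r => exact Algebra.commute_algebraMap_left r (st.y j)
  | add a b _ _ iha ihb => exact iha.add_left ihb
  | mul a b _ _ iha ihb => exact iha.mul_left ihb

omit [Fintype G] [Fintype I] [Fintype S] [Fintype E] [Field F] [Ring C] [Algebra F C]
  [AddCommGroup V] [Module F V] [DecidableEq G] [DecidableEq I] [DecidableEq S] [DecidableEq E] in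
theorem er_qq_mem {K V : Type} [Field F] [AddCommGroup V] [Module F V] [Fintype K] {N : ℕ}
    (idx : K ≃ Fin N) (u u' : K → Module.End F V) (U : Submodule F V)
    (h : ∀ j, ∀ v ∈ U, u j v ∈ U) (h' : ∀ j, ∀ v ∈ U, u' j v ∈ U) (v : V) (hv : v ∈ U) :
    qq idx u u' v ∈ U := by
  unfold qq
  rw [LinearMap.sum_apply]
  refine U.sum_mem fun a _ => ?_
  rw [LinearMap.sum_apply]
  refine U.sum_mem fun b _ => ?_
  split_ifs
  · rw [Module.End.mul_apply]
    exact h a _ (h' b v hv)
  · rw [LinearMap.zero_apply]
    exact U.zero_mem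

/-- letters of a command reader -/
def er_M {A : Type} [Ring A] {N : ℕ} (idx : Kd G I S E ≃ Fin N) (y y' : Kd G I S E → A)
    (a : G → A) : Kd G I S E → A
  | .noop => 1
  | .cq => qq idx y y'
  | .cs => y' .kill
  | .cg g => a g
  | _ => 0

theorem er_RX (st : Stk F C V (Kd G I S E) .kill) {N : ℕ} (idx : Kd G I S E ≃ Fin N)
    (cgen : G → C) : ∃ RX : Module.End F V, ∀ j, RX * st.x j =
      RX * er_M idx st.y st.y' (fun g => st.γ (cgen g)) j +
        (if j = .fin then st.y' .fin else 0) := by
  obtain ⟨R, hR⟩ := exists_reader (S := Unit) (Kd.kill : Kd G I S E) st.x st.x' st.xx st.xone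
    st.fX st.fXtop st.fXx' st.fX0 st.fX00
    (fun j _ _ => er_M idx st.y st.y' (fun g => st.γ (cgen g)) j)
    (fun j _ => if j = .fin then st.y' .fin else 0)
    (fun _ _ => rfl)
    (by
      intro j _ _ n v hv
      cases j with
      | noop => exact hv
      | cq => exact er_qq_mem idx st.y st.y' (st.fX n) (st.fXy n) (st.fXy' n) v hv
      | cs => exact st.fXy' n .kill v hv
      | cg g => exact st.fXγ n (cgen g) v hv
      | _ => exact (st.fX n).zero_mem)
  refine ⟨R (), fun j => ?_⟩
  rw [hR () j]
  simp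

theorem er_RY (st : Stk F C V (Kd G I S E) .kill) {N : ℕ} (idx : Kd G I S E ≃ Fin N)
    (cgen : G → C) : ∃ RY : Module.End F V, ∀ j, RY * st.y j =
      RY * er_M idx st.x st.x' (fun g => st.γ (cgen g)) j +
        (if j = .fin then st.x' .fin else 0) := by
  obtain ⟨R, hR⟩ := exists_reader (S := Unit) (Kd.kill : Kd G I S E) st.y st.y' st.yy st.yone
    st.fY st.fYtop st.fYy' st.fY0 st.fY00
    (fun j _ _ => er_M idx st.x st.x' (fun g => st.γ (cgen g)) j)
    (fun j _ => if j = .fin then st.x' .fin else 0)
    (fun _ _ => rfl)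
    (by
      intro j _ _ n v hv
      cases j with
      | noop => exact hv
      | cq => exact er_qq_mem idx st.x st.x' (st.fY n) (st.fYx n) (st.fYx' n) v hv
      | cs => exact st.fYx' n .kill v hv
      | cg g => exact st.fYγ n (cgen g) v hv
      | _ => exact (st.fY n).zero_mem)
  refine ⟨R (), fun j => ?_⟩
  rw [hR () j]
  simp

/-- letters of the exit and machine readers -/
def er_N {A : Type} [Ring A] (t : Kd G I S E → A) (ph : I → S → S → A) :
    Kd G I S E → Bool ⊕ S → Bool ⊕ S → A
  | .inp i, .inl a, .inl b => if a = b then t (.inp i) else 0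
  | .inp i, .inr q, .inr q' => ph i q q'
  | _, _, _ => 0

/-- outputs of the exit and machine readers -/
def er_T {A : Type} [Ring A] (t : Kd G I S E → A) (RX RY : A) (ps : S → A) :
    Kd G I S E → Bool ⊕ S → A
  | .inp _, .inl _ => 0
  | .bot, .inl _ => 0
  | .ex b, .inl a => if b = a then RY else RX * t (.ex b)
  | j, .inl _ => RX * t j
  | .bot, .inr s => ps s
  | .mk s', .inr s => if s = s' then RY else 0
  | _, .inr _ => 0

theorem er_HR (st : Stk F C V (Kd G I S E) .kill)
    (t : Kd G I S E → C) (ps : S → Module.End F V) (ph : I → S → S → Module.End F V)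
    (hph : ∀ i s s', ph i s s' ∈ Algebra.adjoin F
      (Set.range st.γ ∪ Set.range st.x ∪ Set.range st.x')) (RX RY : Module.End F V) :
    ∃ R : Bool ⊕ S → Module.End F V, ∀ s j, R s * st.y j =
      ∑ s', R s' * er_N (fun j => st.γ (t j)) ph j s s' +
        er_T (fun j => st.γ (t j)) RX RY ps j s := by
  refine exists_reader (S := Bool ⊕ S) (Kd.kill : Kd G I S E) st.y st.y' st.yy st.yone
    st.fY st.fYtop st.fYy' st.fY0 st.fY00
    (er_N (fun j => st.γ (t j)) ph)
    (er_T (fun j => st.γ (t j)) RX RY ps)
    (fun s s' => by cases s <;> cases s' <;> rfl) ?_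
  intro j s s' n v hv
  cases j with
  | inp i =>
    cases s with
    | inl a =>
      cases s' with
      | inl b =>
        show (if a = b then st.γ (t (.inp i)) else 0 : Module.End F V) v ∈ _
        split_ifs
        · exact st.fYγ n _ v hv
        · exact (st.fY n).zero_mem
      | inr q => exact (st.fY n).zero_mem
    | inr q =>
      cases s' with
      | inl b => exact (st.fY n).zero_mem
      | inr q' => exact er_adjY st _ (hph i q q') n v hv
  | _ =>
    cases s <;> cases s' <;> exact (st.fY n).zero_mem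

/-- letters of the virgin reader -/
def er_P {A : Type} [Ring A] (y : Kd G I S E → A) : Kd G I S E → A
  | .inp i => y (.inp i)
  | _ => 0

/-- outputs of the virgin reader -/
def er_Q {A : Type} [Ring A] (h : A) (H : Bool → A) : Kd G I S E → A
  | .hash => h
  | .ex a => H a
  | _ => 0

theorem er_R0 (st : Stk F C V (Kd G I S E) .kill) (h : Module.End F V)
    (H : Bool → Module.End F V) : ∃ R0 : Module.End F V, ∀ j, R0 * st.x j =
      R0 * er_P st.y j + er_Q h H j := by
  obtain ⟨R, hR⟩ := exists_reader (S := Unit) (Kd.kill : Kd G I S E) st.x st.x' st.xx st.xone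
    st.fX st.fXtop st.fXx' st.fX0 st.fX00
    (fun j _ _ => er_P st.y j)
    (fun j _ => er_Q h H j)
    (fun _ _ => rfl)
    (by
      intro j _ _ n v hv
      cases j with
      | inp i => exact st.fXy n (.inp i) v hv
      | _ => exact (st.fX n).zero_mem)
  refine ⟨R (), fun j => ?_⟩
  rw [hR () j]
  simp

theorem er_mach (st : Stk F C V (Kd G I S E) .kill)
    (ps : S → Module.End F V) (ph : I → S → S → Module.End F V)
    (hph : ∀ i s s', ph i s s' ∈ Algebra.adjoin F
      (Set.range st.γ ∪ Set.range st.x ∪ Set.range st.x'))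
    (R : S → Module.End F V) (hbot : ∀ s, R s * st.y .bot = ps s)
    (hinp : ∀ s i, R s * st.y (.inp i) = ∑ s', R s' * ph i s s') (z : List I) :
    ∀ w : S → Module.End F V, (∀ s j, Commute (w s) (st.y j)) →
      (∑ s, R s * w s) * wd st.y (z.map Kd.inp) * st.y .bot = ∑ s, ps s * phv ph z w s := by
  induction z with
  | nil =>
    intro w hw
    have h1 : wd st.y ([].map (Kd.inp : I → Kd G I S E)) = 1 := by simp [wd]
    rw [h1, mul_one, Finset.sum_mul]
    refine Finset.sum_congr rfl fun s _ => ?_
    rw [mul_assoc, (hw s .bot).eq, ← mul_assoc, hbot]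
    rfl
  | cons i z ih =>
    intro w hw
    have h1 : wd st.y ((i :: z).map (Kd.inp : I → Kd G I S E)) =
      st.y (.inp i) * wd st.y (z.map Kd.inp) := by simp [wd]
    have h2 : (∑ s, R s * w s) * st.y (.inp i) =
        ∑ s', R s' * (∑ s, ph i s s' * w s) := by
      rw [Finset.sum_mul]
      have : ∀ s, R s * w s * st.y (.inp i) = ∑ s', R s' * (ph i s s' * w s) := by
        intro s
        rw [mul_assoc, (hw s (.inp i)).eq, ← mul_assoc, hinp, Finset.sum_mul]
        exact Finset.sum_congr rfl fun s' _ => mul_assoc _ _ _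
      simp only [this, Finset.mul_sum]
      exact Finset.sum_comm
    rw [h1, ← mul_assoc, h2]
    rw [ih (fun s' => ∑ s, ph i s s' * w s) (fun s' j => ?_)]
    · rfl
    · refine Commute.sum_left _ _ _ fun s _ => ?_
      exact (er_adjC st _ (hph i s s') j).mul_left (hw s j)

theorem er_exit (st : Stk F C V (Kd G I S E) .kill) (H : Module.End F V)
    (t : I → C) (hinp : ∀ i, H * st.y (.inp i) = H * st.γ (t i))
    (hbot : H * st.y .bot = 0) (z : List I) :
    H * wd st.y (z.map Kd.inp) * st.y .bot = 0 := by
  induction z with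
  | nil =>
    have h1 : wd st.y ([].map (Kd.inp : I → Kd G I S E)) = 1 := by simp [wd]
    rw [h1, mul_one, hbot]
  | cons i z ih =>
    have h1 : wd st.y ((i :: z).map (Kd.inp : I → Kd G I S E)) =
      st.y (.inp i) * wd st.y (z.map Kd.inp) := by simp [wd]
    have h2 : Commute (st.γ (t i)) (wd st.y (z.map Kd.inp)) :=
      er_wd_commute st.y _ (st.cy (t i)) _
    rw [h1, ← mul_assoc, hinp, mul_assoc H, h2.eq, ← mul_assoc, mul_assoc _ (st.γ (t i)),
      (st.cy (t i) .bot).eq, ← mul_assoc, ih, zero_mul]

theorem er_y (st : Stk F C V (Kd G I S E) .kill) (R0 h : Module.End F V)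
    (H : Bool → Module.End F V)
    (h0 : ∀ j, R0 * st.x j = R0 * er_P st.y j + er_Q h H j)
    (hh : ∀ z : List I, h * wd st.y (z.map Kd.inp) * st.y .bot = 0)
    (hH : ∀ a, ∀ z : List I, H a * wd st.y (z.map Kd.inp) * st.y .bot = 0) (n : ℕ) :
    ∀ z : List I, ∀ v ∈ st.fX n, (R0 * wd st.y (z.map Kd.inp) * st.y .bot) v = 0 := by
  have key : ∀ z : List I, ∀ v, (R0 * wd st.y (z.map Kd.inp) * st.y .bot) v =
      ∑ j, (R0 * st.x j * wd st.y (z.map Kd.inp) * st.y .bot) (st.x' j v) := by
    intro z v
    have h1 : v = ∑ j, st.x j (st.x' j v) := by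
      have := congrArg (fun f : Module.End F V => f v) st.xone
      simp only [LinearMap.sum_apply, Module.End.mul_apply, Module.End.one_apply] at this
      exact this.symm
    conv_lhs => rw [h1]
    rw [map_sum]
    refine Finset.sum_congr rfl fun j _ => ?_
    have h2 : Commute (st.x j) (wd st.y (z.map Kd.inp)) :=
      er_wd_commute st.y _ (st.cxy j) _
    rw [← Module.End.mul_apply]
    congr 1
    rw [mul_assoc _ (st.y .bot), ← (st.cxy j .bot).eq, ← mul_assoc, mul_assoc R0, ← h2.eq,
      ← mul_assoc]
  induction n with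
  | zero =>
    intro z v hv
    rw [key]
    refine Finset.sum_eq_zero fun j _ => ?_
    by_cases hj : j = .kill
    · subst hj
      rw [h0]
      show ((R0 * 0 + 0) * _ * _ : Module.End F V) _ = 0
      rw [mul_zero, add_zero, zero_mul, zero_mul, LinearMap.zero_apply]
    · rw [st.fX0 j v hv hj, map_zero]
  | succ n ih =>
    intro z v hv
    rw [key]
    refine Finset.sum_eq_zero fun j _ => ?_
    rw [h0]
    cases j with
    | inp i =>
      show ((R0 * st.y (.inp i) + 0) * _ * _ : Module.End F V) _ = 0
      have h1 : wd st.y ((i :: z).map (Kd.inp : I → Kd G I S E)) =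
        st.y (.inp i) * wd st.y (z.map Kd.inp) := by simp [wd]
      rw [add_zero, mul_assoc R0, ← h1]
      exact ih (i :: z) _ (st.fXx' n _ v hv)
    | hash =>
      show ((R0 * 0 + h) * _ * _ : Module.End F V) _ = 0
      rw [mul_zero, zero_add, hh, LinearMap.zero_apply]
    | ex a =>
      show ((R0 * 0 + H a) * _ * _ : Module.End F V) _ = 0
      rw [mul_zero, zero_add, hH, LinearMap.zero_apply]
    | _ =>
      show ((R0 * 0 + 0) * _ * _ : Module.End F V) _ = 0
      rw [mul_zero, add_zero, zero_mul, zero_mul, LinearMap.zero_apply]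

/-- All readers exist on the module. -/
theorem exists_rep (st : Stk F C V (Kd G I S E) .kill) {N : ℕ} (idx : Kd G I S E ≃ Fin N)
    (cgen : G → C) (t t' : Kd G I S E → C) (ht : Orth t t')
    (io ps : S → Module.End F V) (ph : I → S → S → Module.End F V)
    (hio : ∀ s, io s ∈ Algebra.adjoin F (Set.range st.γ ∪ Set.range st.x ∪ Set.range st.x'))
    (hps : ∀ s, ps s ∈ Algebra.adjoin F (Set.range st.γ ∪ Set.range st.x ∪ Set.range st.x'))
    (hph : ∀ i s s', ph i s s' ∈ Algebra.adjoin F
      (Set.range st.γ ∪ Set.range st.x ∪ Set.range st.x'))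
    (hV : ∀ z : List I, Vz io ps ph z = 0) :
    ∃ (R0 RX RY : Module.End F V) (H : Bool → Module.End F V) (R : S → Module.End F V),
      ∀ r : RI G I S E,
        lhs (El.mk (fun g => st.γ (cgen g)) st.x st.x' st.y st.y' R0 RX RY H R
          (fun j => st.γ (t j)) (fun j => st.γ (t' j)) io ps ph) r =
        rhs idx (El.mk (fun g => st.γ (cgen g)) st.x st.x' st.y st.y' R0 RX RY H R
          (fun j => st.γ (t j)) (fun j => st.γ (t' j)) io ps ph) r := by
  obtain ⟨RX, hRX⟩ := er_RX st idx cgen
  obtain ⟨RY, hRY⟩ := er_RY st idx cgen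
  obtain ⟨R, hR⟩ := er_HR st t ps ph hph RX RY
  have hHinp : ∀ a i, R (.inl a) * st.y (.inp i) = R (.inl a) * st.γ (t (.inp i)) := by
    intro a i
    rw [hR, Fintype.sum_sum_type]
    simp [er_N, er_T]
  have hHbot : ∀ a, R (.inl a) * st.y .bot = 0 := by
    intro a
    rw [hR, Fintype.sum_sum_type]
    simp [er_N, er_T]
  have hRinp : ∀ s i, R (.inr s) * st.y (.inp i) = ∑ s', R (.inr s') * ph i s s' := by
    intro s i
    rw [hR, Fintype.sum_sum_type]
    simp [er_N, er_T]
  have hRbot : ∀ s, R (.inr s) * st.y .bot = ps s := by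
    intro s
    rw [hR, Fintype.sum_sum_type]
    simp [er_N, er_T]
  obtain ⟨R0, hR0⟩ := er_R0 st (∑ s, R (.inr s) * io s) (fun a => R (.inl a))
  have hR0y : R0 * st.y .bot = 0 := by
    ext v
    obtain ⟨n, hn⟩ := st.fXtop v
    have := er_y st R0 (∑ s, R (.inr s) * io s) (fun a => R (.inl a)) hR0
      (fun z => by
        rw [er_mach st ps ph hph (fun s => R (.inr s)) hRbot hRinp z io
          (fun s j => er_adjC st _ (hio s) j)]
        exact hV z)
      (fun a z => er_exit st (R (.inl a)) (fun i => t (.inp i)) (hHinp a) (hHbot a) z)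
      n [] v hn
    have h1 : wd st.y ([].map (Kd.inp : I → Kd G I S E)) = 1 := by simp [wd]
    rw [h1, mul_one] at this
    rw [this, LinearMap.zero_apply]
  refine ⟨R0, RX, RY, fun a => R (.inl a), fun s => R (.inr s), ?_⟩
  intro r
  cases r with
  | st k i j =>
    cases k with
    | xx => exact st.xx i j
    | yy => exact st.yy i j
    | tt =>
      show st.γ (t' i) * st.γ (t j) = if i = j then 1 else 0
      rw [← map_mul, ht i j]
      split_ifs
      · exact map_one _
      · exact map_zero _
    | xy => exact (st.cxy i j).eq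
    | xy' => exact (st.cxy' i j).eq
    | x'y => exact (st.cx'y i j).eq
    | x'y' => exact (st.cx'y' i j).eq
  | one b =>
    cases b with
    | true => exact st.xone
    | false => exact st.yone
  | co k g j =>
    cases k with
    | x => exact (st.cx (cgen g) j).eq
    | x' => exact (st.cx' (cgen g) j).eq
    | y => exact (st.cy (cgen g) j).eq
    | y' => exact (st.cy' (cgen g) j).eq
  | r0 j =>
    show R0 * st.x j = _
    rw [hR0]
    cases j <;> simp [er_P, er_Q, rhs, r0R]
  | r0y => exact hR0y
  | h a j =>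
    show R (.inl a) * st.y j = _
    cases j with
    | inp i => exact hHinp a i
    | bot => exact hHbot a
    | ex b =>
      rw [hR, Fintype.sum_sum_type]
      simp [er_N, er_T, rhs, Pool.SF.hR]
    | _ =>
      rw [hR, Fintype.sum_sum_type]
      simp [er_N, er_T, rhs, Pool.SF.hR]
  | r q j =>
    show R (.inr q) * st.y j = _
    cases j with
    | inp i => exact hRinp q i
    | bot => exact hRbot q
    | mk s' =>
      rw [hR, Fintype.sum_sum_type]
      simp [er_N, er_T, rhs, rR]
    | _ =>
      rw [hR, Fintype.sum_sum_type]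
      simp [er_N, er_T, rhs, rR]
  | cm b j =>
    cases b with
    | true =>
      show RX * st.x j = _
      rw [hRX]
      cases j <;> simp [er_M, rhs, rxR]
    | false =>
      show RY * st.y j = _
      rw [hRY]
      cases j <;> simp [er_M, rhs, ryR]

end target

end Pool.SF
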