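import Pool.Agent.Helper702.SF.RepD

set_option autoImplicit false
set_option linter.unusedSectionVars false

namespace Pool.SF
section target
variable {F : Type} [Field F]
/-- letter on the first stack -/
def esX (F C : Type) [Field F] [Ring C] [Algebra F C] (N d : ℕ) :
    (ℕ → ℕ → C) →ₗ[F] (ℕ → ℕ → C) where
  toFun f := fun a b => if a % N = d then f (a / N) b else 0
  map_add' f g := by
    funext a b
    simp only [Pi.add_apply]
    split_ifs <;> simp
  map_smul' r f := by
    funext a b
    simp only [Pi.smul_apply, RingHom.id_apply]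
    split_ifs <;> simp

/-- strip on the first stack -/
def esX' (F C : Type) [Field F] [Ring C] [Algebra F C] (N d : ℕ) :
    (ℕ → ℕ → C) →ₗ[F] (ℕ → ℕ → C) where
  toFun f := fun a b => f (N * a + d) b
  map_add' f g := rfl
  map_smul' r f := rfl

/-- letter on the second stack -/
def esY (F C : Type) [Field F] [Ring C] [Algebra F C] (N d : ℕ) :
    (ℕ → ℕ → C) →ₗ[F] (ℕ → ℕ → C) where
  toFun f := fun a b => if b % N = d then f a (b / N) else 0
  map_add' f g := by
    funext a b
    simp only [Pi.add_apply]
    split_ifs <;> simp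
  map_smul' r f := by
    funext a b
    simp only [Pi.smul_apply, RingHom.id_apply]
    split_ifs <;> simp

/-- strip on the second stack -/
def esY' (F C : Type) [Field F] [Ring C] [Algebra F C] (N d : ℕ) :
    (ℕ → ℕ → C) →ₗ[F] (ℕ → ℕ → C) where
  toFun f := fun a b => f a (N * b + d)
  map_add' f g := rfl
  map_smul' r f := rfl

/-- multiplication by an element of `C` -/
def esG (F C : Type) [Field F] [Ring C] [Algebra F C] (c : C) :
    (ℕ → ℕ → C) →ₗ[F] (ℕ → ℕ → C) where
  toFun f := fun a b => c * f a b
  map_add' f g := by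
    funext a b
    simp only [Pi.add_apply, mul_add]
  map_smul' r f := by
    funext a b
    simp only [Pi.smul_apply, RingHom.id_apply, mul_smul_comm]

/-- the functions with bounded support -/
def esW (F C : Type) [Field F] [Ring C] [Algebra F C] (N : ℕ) (hN : 2 ≤ N) :
    Submodule F (ℕ → ℕ → C) where
  carrier := {f | ∃ n : ℕ, ∀ a b, (N ^ n ≤ a ∨ N ^ n ≤ b) → f a b = 0}
  zero_mem' := ⟨0, fun _ _ _ => rfl⟩
  add_mem' := by
    rintro f g ⟨n, hn⟩ ⟨m, hm⟩
    refine ⟨n + m, fun a b h => ?_⟩
    have h1 : N ^ n ≤ N ^ (n + m) := Nat.pow_le_pow_right (by omega) (by omega)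
    have h2 : N ^ m ≤ N ^ (n + m) := Nat.pow_le_pow_right (by omega) (by omega)
    rw [Pi.add_apply, Pi.add_apply, hn a b (by omega), hm a b (by omega), add_zero]
  smul_mem' := by
    rintro r f ⟨n, hn⟩
    refine ⟨n, fun a b h => ?_⟩
    rw [Pi.smul_apply, Pi.smul_apply, hn a b h, smul_zero]

section esLemmas
variable {C : Type} [Ring C] [Algebra F C] {N : ℕ} (hN : 2 ≤ N)

theorem esX_mem (d : ℕ) : ∀ f ∈ esW F C N hN, esX F C N d f ∈ esW F C N hN := by
  rintro f ⟨n, hn⟩
  refine ⟨n + 1, fun a b h => ?_⟩
  change (if a % N = d then f (a / N) b else 0) = 0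
  split_ifs with h1
  · apply hn
    rcases h with h | h
    · left
      rw [Nat.le_div_iff_mul_le (by omega)]
      rwa [pow_succ] at h
    · right
      exact (Nat.pow_le_pow_right (by omega) (by omega)).trans h
  · rfl

theorem esX'_mem (d : ℕ) : ∀ f ∈ esW F C N hN, esX' F C N d f ∈ esW F C N hN := by
  rintro f ⟨n, hn⟩
  refine ⟨n, fun a b h => ?_⟩
  change f (N * a + d) b = 0
  apply hn
  rcases h with h | h
  · left
    nlinarith
  · right
    exact h

theorem esY_mem (d : ℕ) : ∀ f ∈ esW F C N hN, esY F C N d f ∈ esW F C N hN := by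
  rintro f ⟨n, hn⟩
  refine ⟨n + 1, fun a b h => ?_⟩
  change (if b % N = d then f a (b / N) else 0) = 0
  split_ifs with h1
  · apply hn
    rcases h with h | h
    · left
      exact (Nat.pow_le_pow_right (by omega) (by omega)).trans h
    · right
      rw [Nat.le_div_iff_mul_le (by omega)]
      rwa [pow_succ] at h
  · rfl

theorem esY'_mem (d : ℕ) : ∀ f ∈ esW F C N hN, esY' F C N d f ∈ esW F C N hN := by
  rintro f ⟨n, hn⟩
  refine ⟨n, fun a b h => ?_⟩
  change f a (N * b + d) = 0
  apply hn
  rcases h with h | h
  · left
    exact h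
  · right
    nlinarith

theorem esG_mem (c : C) : ∀ f ∈ esW F C N hN, esG F C c f ∈ esW F C N hN := by
  rintro f ⟨n, hn⟩
  refine ⟨n, fun a b h => ?_⟩
  change c * f a b = 0
  rw [hn a b h, mul_zero]

theorem es_ext {S T : Module.End F (esW F C N hN)} (h : ∀ v a b, (S v).1 a b = (T v).1 a b) :
    S = T := by
  apply LinearMap.ext
  intro v
  apply Subtype.ext
  funext a b
  exact h v a b

/-- the action of `C` -/
def esγ : C →ₐ[F] Module.End F (esW F C N hN) where
  toFun c := (esG F C c).restrict (esG_mem hN c)
  map_one' := by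
    apply es_ext
    intro v a b
    change (1 : C) * v.1 a b = v.1 a b
    rw [one_mul]
  map_mul' c d := by
    apply es_ext
    intro v a b
    change (c * d) * v.1 a b = c * (d * v.1 a b)
    rw [mul_assoc]
  map_zero' := by
    apply es_ext
    intro v a b
    change (0 : C) * v.1 a b = 0
    rw [zero_mul]
  map_add' c d := by
    apply es_ext
    intro v a b
    change (c + d) * v.1 a b = c * v.1 a b + d * v.1 a b
    rw [add_mul]
  commutes' r := by
    apply es_ext
    intro v a b
    change algebraMap F C r * v.1 a b = r • v.1 a b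
    rw [Algebra.smul_def]

/-- first filtration -/
def esfX (n : ℕ) : Submodule F (esW F C N hN) where
  carrier := {v | ∀ a b, N ^ n ≤ a → v.1 a b = 0}
  zero_mem' := fun _ _ _ => rfl
  add_mem' := by
    intro v w hv hw a b h
    change v.1 a b + w.1 a b = 0
    rw [hv a b h, hw a b h, add_zero]
  smul_mem' := by
    intro r v hv a b h
    change r • v.1 a b = 0
    rw [hv a b h, smul_zero]

/-- second filtration -/
def esfY (n : ℕ) : Submodule F (esW F C N hN) where
  carrier := {v | ∀ a b, N ^ n ≤ b → v.1 a b = 0}
  zero_mem' := fun _ _ _ => rfl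
  add_mem' := by
    intro v w hv hw a b h
    change v.1 a b + w.1 a b = 0
    rw [hv a b h, hw a b h, add_zero]
  smul_mem' := by
    intro r v hv a b h
    change r • v.1 a b = 0
    rw [hv a b h, smul_zero]

theorem es_nontrivial [Nontrivial C] : Nontrivial (esW F C N hN) := by
  let f : ℕ → ℕ → C := fun a b => if a = 0 ∧ b = 0 then 1 else 0
  have hf : f ∈ esW F C N hN := by
    refine ⟨0, fun a b h => ?_⟩
    change (if a = 0 ∧ b = 0 then (1 : C) else 0) = 0
    rw [if_neg]
    rw [pow_zero] at h
    omega
  refine ⟨⟨⟨f, hf⟩, 0, ?_⟩⟩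
  intro h
  have h1 := congrFun (congrFun (congrArg Subtype.val h) 0) 0
  change (if (0 : ℕ) = 0 ∧ (0 : ℕ) = 0 then (1 : C) else 0) = 0 at h1
  rw [if_pos ⟨rfl, rfl⟩] at h1
  exact one_ne_zero h1

end esLemmas

/-- The stacks are natural numbers written in base `card K`, the letter `k0` is the digit `0`. -/
theorem exists_stk (C : Type) [Ring C] [Algebra F C] [Nontrivial C] (K : Type) [Fintype K]
    [DecidableEq K] (k0 k1 : K) (h01 : k0 ≠ k1) :
    ∃ (V : Type) (_ : AddCommGroup V) (_ : Module F V) (_ : Nontrivial V),
      Nonempty (Stk F C V K k0) := by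
  have hN : 2 ≤ Fintype.card K := by
    have : 1 < Fintype.card K := Fintype.one_lt_card_iff.2 ⟨k0, k1, h01⟩
    omega
  obtain ⟨e, hinj, hlt, hsurj, h0⟩ : ∃ e : K → ℕ, Function.Injective e ∧
      (∀ j, e j < Fintype.card K) ∧ (∀ r < Fintype.card K, ∃ j, e j = r) ∧ e k0 = 0 := by
    have hpos : 0 < Fintype.card K := by omega
    let e1 := Fintype.equivFin K
    let e2 : K ≃ Fin (Fintype.card K) := e1.trans (Equiv.swap (e1 k0) ⟨0, hpos⟩)
    refine ⟨fun j => (e2 j : ℕ), ?_, fun j => (e2 j).2, fun r hr => ⟨e2.symm ⟨r, hr⟩, ?_⟩, ?_⟩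
    · intro i j h
      exact e2.injective (Fin.ext h)
    · simp
    · simp [e2]
  generalize Fintype.card K = N at hN hlt hsurj
  have hmod : ∀ (a : ℕ) (j : K), (N * a + e j) % N = e j := by
    intro a j
    rw [Nat.mul_add_mod, Nat.mod_eq_of_lt (hlt j)]
  have hdiv : ∀ (a : ℕ) (j : K), (N * a + e j) / N = a := by
    intro a j
    rw [Nat.mul_add_div (by omega), Nat.div_eq_of_lt (hlt j), add_zero]
  have hne : ∀ j, j ≠ k0 → e j ≠ 0 := by
    intro j hj h
    exact hj (hinj (h.trans h0.symm))
  have hpw : ∀ n a d : ℕ, N ^ n ≤ a → N ^ (n + 1) ≤ N * a + d := by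
    intro n a d h
    rw [pow_succ, mul_comm]
    exact (Nat.mul_le_mul_left N h).trans (Nat.le_add_right _ _)
  have hpw0 : ∀ a d : ℕ, N ^ 0 ≤ a → N ^ 0 ≤ N * a + d := by
    intro a d h
    rw [pow_zero] at h ⊢
    nlinarith
  have hpw1 : ∀ a d : ℕ, d ≠ 0 → N ^ 0 ≤ N * a + d := by
    intro a d h
    rw [pow_zero]
    omega
  refine ⟨esW F C N hN, inferInstance, inferInstance, es_nontrivial hN, ⟨?_⟩⟩
  exact
  { x := fun j => (esX F C N (e j)).restrict (esX_mem hN _)
    x' := fun j => (esX' F C N (e j)).restrict (esX'_mem hN _)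
    y := fun j => (esY F C N (e j)).restrict (esY_mem hN _)
    y' := fun j => (esY' F C N (e j)).restrict (esY'_mem hN _)
    γ := esγ hN
    xx := by
      intro i j
      apply es_ext
      intro v a b
      change (if (N * a + e i) % N = e j then v.1 ((N * a + e i) / N) b else 0) = _
      rw [hmod, hdiv]
      by_cases hij : i = j
      · subst hij
        rw [if_pos rfl, if_pos rfl]
        rfl
      · rw [if_neg (fun h => hij (hinj h)), if_neg hij]
        rfl
    yy := by
      intro i j
      apply es_ext
      intro v a b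
      change (if (N * b + e i) % N = e j then v.1 a ((N * b + e i) / N) else 0) = _
      rw [hmod, hdiv]
      by_cases hij : i = j
      · subst hij
        rw [if_pos rfl, if_pos rfl]
        rfl
      · rw [if_neg (fun h => hij (hinj h)), if_neg hij]
        rfl
    xone := by
      apply es_ext
      intro v a b
      obtain ⟨j0, hj0⟩ := hsurj (a % N) (Nat.mod_lt _ (by omega))
      have e1 : ((∑ j, (esX F C N (e j)).restrict (esX_mem hN _) *
          (esX' F C N (e j)).restrict (esX'_mem hN _) : Module.End F (esW F C N hN)) v).1 a b =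
          ∑ j, (if a % N = e j then v.1 (N * (a / N) + e j) b else 0) := by
        rw [LinearMap.sum_apply, Submodule.coe_sum, Finset.sum_apply, Finset.sum_apply]
        rfl
      rw [e1, Finset.sum_eq_single j0]
      · rw [if_pos hj0.symm, hj0, Nat.div_add_mod]
        rfl
      · intro j _ hj
        rw [if_neg]
        intro h
        exact hj (hinj (h.symm.trans hj0.symm))
      · intro h
        exact absurd (Finset.mem_univ _) h
    yone := by
      apply es_ext
      intro v a b
      obtain ⟨j0, hj0⟩ := hsurj (b % N) (Nat.mod_lt _ (by omega))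
      have e1 : ((∑ j, (esY F C N (e j)).restrict (esY_mem hN _) *
          (esY' F C N (e j)).restrict (esY'_mem hN _) : Module.End F (esW F C N hN)) v).1 a b =
          ∑ j, (if b % N = e j then v.1 a (N * (b / N) + e j) else 0) := by
        rw [LinearMap.sum_apply, Submodule.coe_sum, Finset.sum_apply, Finset.sum_apply]
        rfl
      rw [e1, Finset.sum_eq_single j0]
      · rw [if_pos hj0.symm, hj0, Nat.div_add_mod]
        rfl
      · intro j _ hj
        rw [if_neg]
        intro h
        exact hj (hinj (h.symm.trans hj0.symm))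
      · intro h
        exact absurd (Finset.mem_univ _) h
    cxy := by
      intro i j
      apply es_ext
      intro v a b
      change (if a % N = e i then (if b % N = e j then v.1 (a / N) (b / N) else 0) else 0) =
        (if b % N = e j then (if a % N = e i then v.1 (a / N) (b / N) else 0) else 0)
      split_ifs <;> rfl
    cxy' := by
      intro i j
      apply es_ext
      intro v a b
      rfl
    cx'y := by
      intro i j
      apply es_ext
      intro v a b
      rfl
    cx'y' := by
      intro i j
      apply es_ext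
      intro v a b
      rfl
    cx := by
      intro c j
      apply es_ext
      intro v a b
      change c * (if a % N = e j then v.1 (a / N) b else 0) =
        (if a % N = e j then c * v.1 (a / N) b else 0)
      split_ifs
      · rfl
      · rw [mul_zero]
    cx' := by
      intro c j
      apply es_ext
      intro v a b
      rfl
    cy := by
      intro c j
      apply es_ext
      intro v a b
      change c * (if b % N = e j then v.1 a (b / N) else 0) =
        (if b % N = e j then c * v.1 a (b / N) else 0)
      split_ifs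
      · rfl
      · rw [mul_zero]
    cy' := by
      intro c j
      apply es_ext
      intro v a b
      rfl
    fX := esfX hN
    fY := esfY hN
    fXtop := by
      rintro ⟨v, n, hn⟩
      exact ⟨n, fun a b h => hn a b (Or.inl h)⟩
    fYtop := by
      rintro ⟨v, n, hn⟩
      exact ⟨n, fun a b h => hn a b (Or.inr h)⟩
    fXx' := by
      intro n j v hv a b h
      exact hv (N * a + e j) b (hpw n a (e j) h)
    fYy' := by
      intro n j v hv a b h
      exact hv a (N * b + e j) (hpw n b (e j) h)
    fX0 := by
      intro j v hv hj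
      apply Subtype.ext
      funext a b
      exact hv (N * a + e j) b (hpw1 a (e j) (hne j hj))
    fY0 := by
      intro j v hv hj
      apply Subtype.ext
      funext a b
      exact hv a (N * b + e j) (hpw1 b (e j) (hne j hj))
    fX00 := by
      intro v hv a b h
      exact hv (N * a + e k0) b (hpw0 a (e k0) h)
    fY00 := by
      intro v hv a b h
      exact hv a (N * b + e k0) (hpw0 b (e k0) h)
    fXy := by
      intro n j v hv a b h
      change (if b % N = e j then v.1 a (b / N) else 0) = 0
      rw [hv a (b / N) h, ite_self]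
    fXy' := by
      intro n j v hv a b h
      exact hv a (N * b + e j) h
    fYx := by
      intro n j v hv a b h
      change (if a % N = e j then v.1 (a / N) b else 0) = 0
      rw [hv (a / N) b h, ite_self]
    fYx' := by
      intro n j v hv a b h
      exact hv (N * a + e j) b h
    fXγ := by
      intro n c v hv a b h
      change c * v.1 a b = 0
      rw [hv a b h, mul_zero]
    fYγ := by
      intro n c v hv a b h
      change c * v.1 a b = 0
      rw [hv a b h, mul_zero] }

end target

end Pool.SF
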