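import Pool.Agent.Helper702.SF.MainD
import Pool.Agent.Helper702.SF.PartID
import Pool.Agent.Helper702.SF.Main2D

set_option autoImplicit false
set_option linter.unusedSectionVars false

namespace Pool.SF
section target
variable {F : Type} [Field F]
theorem fpnu_central {X T : Type} [Ring T] (m : FreeAlgebra F X →+* T) (e : FreeAlgebra F X)
    (h1 : ∀ i, m e * m (FreeAlgebra.ι F i) = m (FreeAlgebra.ι F i))
    (h2 : ∀ i, m (FreeAlgebra.ι F i) * m e = m (FreeAlgebra.ι F i)) (q : FreeAlgebra F X) :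
    m e * m q = m q * m e := by
  induction q using FreeAlgebra.induction with
  | grade0 r => rw [← map_mul, ← map_mul, Algebra.commutes]
  | grade1 i => rw [h1, h2]
  | mul a b ha hb => rw [map_mul, ← mul_assoc, ha, mul_assoc, hb, mul_assoc]
  | add a b ha hb => rw [map_add, mul_add, add_mul, ha, hb]

theorem fpnu_B {X T : Type} [Ring T] (m : FreeAlgebra F X →+* T) (e : FreeAlgebra F X)
    (h1 : ∀ i, m e * m (FreeAlgebra.ι F i) = m (FreeAlgebra.ι F i)) (y : FreeAlgebra F X)
    (hy : y ∈ NonUnitalAlgebra.adjoin F (Set.range (FreeAlgebra.ι F (X := X)))) :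
    m e * m y = m y := by
  induction hy using NonUnitalAlgebra.adjoin_induction with
  | mem x hx => obtain ⟨i, rfl⟩ := hx; exact h1 i
  | add x y _ _ hx hy => rw [map_add, mul_add, hx, hy]
  | zero => simp
  | mul x y _ _ hx hy => rw [map_mul, ← mul_assoc, hx]
  | smul r x _ hx =>
    rw [Algebra.smul_def, map_mul, ← mul_assoc, ← map_mul, ← Algebra.commutes, map_mul,
      mul_assoc, hx]

theorem fpnu_A {X T : Type} [Ring T] (m : FreeAlgebra F X →+* T) (e : FreeAlgebra F X)
    (h1 : ∀ i, m e * m (FreeAlgebra.ι F i) = m (FreeAlgebra.ι F i))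
    (h2 : ∀ i, m (FreeAlgebra.ι F i) * m e = m (FreeAlgebra.ι F i))
    (ζ : FreeAlgebra F X →ₐ[F] FreeAlgebra F X)
    (hζ : ∀ i, m e * m (FreeAlgebra.ι F i) = m e * m (ζ (FreeAlgebra.ι F i)))
    (q : FreeAlgebra F X) : m e * m q = m e * m (ζ q) := by
  induction q using FreeAlgebra.induction with
  | grade0 r => rw [AlgHom.commutes]
  | grade1 i => exact hζ i
  | mul a b ha hb =>
    rw [map_mul ζ, map_mul m, map_mul m, ← mul_assoc, ha, ← mul_assoc,
      fpnu_central m e h1 h2 (ζ a), mul_assoc, hb, mul_assoc]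
  | add a b ha hb => rw [map_add ζ, map_add m, map_add m, mul_add, mul_add, ha, hb]

/-- A finitely presented algebra with unit is finitely presented as an algebra without unit. -/
theorem finPresNU_of {S : Type} [Ring S] [Algebra F S] (h : FinPres F S) : FinPresNU F S := by
  classical
  obtain ⟨n, R, ⟨iso⟩⟩ := h
  obtain ⟨rel, hrel⟩ : ∃ rel : FreeAlgebra F (Fin n) → FreeAlgebra F (Fin n) → Prop,
    rel = fun p q : FreeAlgebra F (Fin n) => p ∈ R ∧ q = 0 := ⟨_, rfl⟩
  rw [← hrel] at iso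
  -- the projection
  obtain ⟨π, hπ⟩ : ∃ π : FreeAlgebra F (Fin n) →ₐ[F] S,
      π = (iso.symm : RingQuot rel →ₐ[F] S).comp (RingQuot.mkAlgHom F rel) := ⟨_, rfl⟩
  have hπs : Function.Surjective π := by
    rw [hπ]
    exact iso.symm.surjective.comp (RingQuot.mkAlgHom_surjective F rel)
  have hπR : ∀ r ∈ R, π r = 0 := by
    intro r hr
    have h1 : RingQuot.mkAlgHom F rel r = RingQuot.mkAlgHom F rel 0 :=
      RingQuot.mkAlgHom_rel F (by rw [hrel]; exact ⟨hr, rfl⟩)
    rw [hπ, AlgHom.comp_apply, h1, map_zero, map_zero]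
  have hπk : ∀ J : TwoSidedIdeal (FreeAlgebra F (Fin n)), (∀ r ∈ R, r ∈ J) →
      ∀ p, π p = 0 → p ∈ J := by
    intro J hJ p hp
    have h1 : RingQuot.mkAlgHom F rel p = 0 := by
      rw [hπ, AlgHom.comp_apply] at hp
      exact (map_eq_zero_iff iso.symm iso.symm.injective).1 hp
    have h2 : RingQuot.mkRingHom rel p = 0 := by
      rw [← RingQuot.mkAlgHom_coe F rel]; exact h1
    have hker : ∀ q, J.ringCon.mk' q = 0 ↔ q ∈ J := by
      intro q
      rw [← TwoSidedIdeal.mem_ker, TwoSidedIdeal.ker_ringCon_mk']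
    have hw : ∀ ⦃x y⦄, rel x y → J.ringCon.mk' x = J.ringCon.mk' y := by
      intro x y hxy
      rw [hrel] at hxy
      rw [hxy.2, map_zero]
      exact (hker x).2 (hJ x hxy.1)
    have h3 := RingQuot.lift_mkRingHom_apply J.ringCon.mk' hw p
    rw [h2, map_zero] at h3
    exact (hker p).1 h3.symm
  -- generators
  obtain ⟨c, hc⟩ : ∃ c : Fin (n + 1) → S,
    c = Fin.snoc (fun i => π (FreeAlgebra.ι F i)) (1 : S) := ⟨_, rfl⟩
  have hc1 : ∀ i : Fin n, c (Fin.castSucc i) = π (FreeAlgebra.ι F i) := by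
    intro i; rw [hc]; exact Fin.snoc_castSucc _ _ _
  have hc2 : c (Fin.last n) = 1 := by
    rw [hc]; exact Fin.snoc_last _ _
  obtain ⟨θ, hθ⟩ : ∃ θ : FreeAlgebra F (Fin n) →ₐ[F] FreeAlgebra F (Fin (n + 1)),
    ∀ i, θ (FreeAlgebra.ι F i) = FreeAlgebra.ι F (Fin.castSucc i) :=
    ⟨FreeAlgebra.lift F (fun i => FreeAlgebra.ι F (Fin.castSucc i)), fun i => by simp⟩
  obtain ⟨η, hη1, hη2⟩ : ∃ η : FreeAlgebra F (Fin (n + 1)) →ₐ[F] FreeAlgebra F (Fin n),
    (∀ i : Fin n, η (FreeAlgebra.ι F (Fin.castSucc i)) = FreeAlgebra.ι F i) ∧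
      η (FreeAlgebra.ι F (Fin.last n)) = 1 :=
    ⟨FreeAlgebra.lift F (Fin.snoc (fun i => FreeAlgebra.ι F i) 1), fun i => by
      rw [FreeAlgebra.lift_ι_apply]; exact Fin.snoc_castSucc _ _ _, by
      rw [FreeAlgebra.lift_ι_apply]; exact Fin.snoc_last _ _⟩
  obtain ⟨φ, hφ⟩ : ∃ φ : FreeAlgebra F (Fin (n + 1)) →ₐ[F] S, φ = FreeAlgebra.lift F c := ⟨_, rfl⟩
  have hφι : ∀ i, φ (FreeAlgebra.ι F i) = c i := by
    intro i; rw [hφ, FreeAlgebra.lift_ι_apply]
  have hφη : ∀ q, φ q = π (η q) := by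
    have h1 : φ = π.comp η := by
      apply FreeAlgebra.hom_ext
      funext i
      change φ (FreeAlgebra.ι F i) = π (η (FreeAlgebra.ι F i))
      rw [hφι]
      induction i using Fin.lastCases with
      | last => rw [hη2, hc2, map_one]
      | cast i => rw [hη1, hc1]
    intro q
    rw [h1]; rfl
  have hηθ : ∀ p, η (θ p) = p := by
    have h1 : η.comp θ = AlgHom.id F _ := by
      apply FreeAlgebra.hom_ext
      funext i
      change η (θ (FreeAlgebra.ι F i)) = FreeAlgebra.ι F i
      rw [hθ, hη1]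
    intro p
    have := congrArg (fun f : FreeAlgebra F (Fin n) →ₐ[F] FreeAlgebra F (Fin n) => f p) h1
    exact this
  obtain ⟨e, he⟩ : ∃ e : FreeAlgebra F (Fin (n + 1)), e = FreeAlgebra.ι F (Fin.last n) := ⟨_, rfl⟩
  have hφe : φ e = 1 := by rw [he, hφι, hc2]
  obtain ⟨R', hR'⟩ : ∃ R' : Finset (FreeAlgebra F (Fin (n + 1))),
    R' = (Finset.univ.image (fun i : Fin (n + 1) => e * FreeAlgebra.ι F i - FreeAlgebra.ι F i)) ∪
      (Finset.univ.image (fun i : Fin (n + 1) => FreeAlgebra.ι F i * e - FreeAlgebra.ι F i)) ∪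
      R.image (fun r => e * θ r) := ⟨_, rfl⟩
  have hR'm : ∀ z, z ∈ R' ↔ (∃ i, e * FreeAlgebra.ι F i - FreeAlgebra.ι F i = z) ∨
      (∃ i, FreeAlgebra.ι F i * e - FreeAlgebra.ι F i = z) ∨ ∃ r ∈ R, e * θ r = z := by
    intro z
    rw [hR', Finset.mem_union, Finset.mem_union, Finset.mem_image, Finset.mem_image,
      Finset.mem_image, or_assoc]
    simp only [Finset.mem_univ, true_and]
  refine ⟨n + 1, c, R', ?_, ?_, ?_⟩
  · -- generation
    have h1 : ∀ q, φ q ∈ NonUnitalAlgebra.adjoin F (Set.range c) := by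
      intro q
      induction q using FreeAlgebra.induction with
      | grade0 r =>
        rw [AlgHom.commutes, Algebra.algebraMap_eq_smul_one, ← hc2]
        exact SMulMemClass.smul_mem r (NonUnitalAlgebra.subset_adjoin F ⟨_, rfl⟩)
      | grade1 i =>
        rw [hφι]
        exact NonUnitalAlgebra.subset_adjoin F ⟨_, rfl⟩
      | mul a b ha hb => rw [map_mul]; exact mul_mem ha hb
      | add a b ha hb => rw [map_add]; exact add_mem ha hb
    rw [eq_top_iff]
    intro s _
    obtain ⟨p, rfl⟩ := hπs s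
    have h2 := h1 (θ p)
    rwa [hφη, hηθ] at h2
  · -- no constant terms
    intro z hz
    have hgen : ∀ i, FreeAlgebra.ι F i ∈
        NonUnitalAlgebra.adjoin F (Set.range (FreeAlgebra.ι F (X := Fin (n + 1)))) :=
      fun i => NonUnitalAlgebra.subset_adjoin F ⟨i, rfl⟩
    have heN : e ∈ NonUnitalAlgebra.adjoin F (Set.range (FreeAlgebra.ι F (X := Fin (n + 1)))) := by
      rw [he]; exact hgen _
    have hmul : ∀ q : FreeAlgebra F (Fin (n + 1)), ∀ y ∈
        NonUnitalAlgebra.adjoin F (Set.range (FreeAlgebra.ι F (X := Fin (n + 1)))),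
        y * q ∈ NonUnitalAlgebra.adjoin F (Set.range (FreeAlgebra.ι F (X := Fin (n + 1)))) := by
      intro q
      induction q using FreeAlgebra.induction with
      | grade0 r =>
        intro y hy
        rw [← Algebra.commutes, ← Algebra.smul_def]
        exact SMulMemClass.smul_mem r hy
      | grade1 i => intro y hy; exact mul_mem hy (hgen i)
      | mul a b ha hb => intro y hy; rw [← mul_assoc]; exact hb _ (ha y hy)
      | add a b ha hb => intro y hy; rw [mul_add]; exact add_mem (ha y hy) (hb y hy)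
    rcases (hR'm z).1 hz with ⟨i, rfl⟩ | ⟨i, rfl⟩ | ⟨r, hr, rfl⟩
    · exact sub_mem (mul_mem heN (hgen i)) (hgen i)
    · exact sub_mem (mul_mem (hgen i) heN) (hgen i)
    · exact hmul _ _ heN
  · -- relations
    intro p hp
    rw [← hφ]
    constructor
    · intro hp0
      obtain ⟨I, hI⟩ : ∃ I : TwoSidedIdeal (FreeAlgebra F (Fin (n + 1))),
        I = TwoSidedIdeal.span (R' : Set (FreeAlgebra F (Fin (n + 1)))) := ⟨_, rfl⟩
      rw [← hI]
      have hR'I : ∀ z ∈ R', z ∈ I := by
        intro z hz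
        rw [hI]
        exact TwoSidedIdeal.subset_span (Finset.mem_coe.2 hz)
      have hker : ∀ q, I.ringCon.mk' q = 0 ↔ q ∈ I := by
        intro q
        rw [← TwoSidedIdeal.mem_ker, TwoSidedIdeal.ker_ringCon_mk']
      obtain ⟨m, hm⟩ : ∃ m : FreeAlgebra F (Fin (n + 1)) →+* I.ringCon.Quotient,
        m = I.ringCon.mk' := ⟨_, rfl⟩
      rw [← hm] at hker
      have h1 : ∀ i, m e * m (FreeAlgebra.ι F i) = m (FreeAlgebra.ι F i) := by
        intro i
        have h2 := (hker _).2 (hR'I _ ((hR'm _).2 (Or.inl ⟨i, rfl⟩)))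
        rw [map_sub, map_mul, sub_eq_zero] at h2
        exact h2
      have h2 : ∀ i, m (FreeAlgebra.ι F i) * m e = m (FreeAlgebra.ι F i) := by
        intro i
        have h2 := (hker _).2 (hR'I _ ((hR'm _).2 (Or.inr (Or.inl ⟨i, rfl⟩))))
        rw [map_sub, map_mul, sub_eq_zero] at h2
        exact h2
      have hcen := fpnu_central m e h1 h2
      obtain ⟨J, hJ⟩ : ∃ J : TwoSidedIdeal (FreeAlgebra F (Fin n)),
          ∀ q, q ∈ J ↔ m e * m (θ q) = 0 := by
        refine ⟨TwoSidedIdeal.mk' {q | m e * m (θ q) = 0} ?_ ?_ ?_ ?_ ?_, ?_⟩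
        · change m e * m (θ 0) = 0
          rw [map_zero, map_zero, mul_zero]
        · intro x y hx hy
          change m e * m (θ x) = 0 at hx
          change m e * m (θ y) = 0 at hy
          change m e * m (θ (x + y)) = 0
          rw [map_add, map_add, mul_add, hx, hy, add_zero]
        · intro x hx
          change m e * m (θ x) = 0 at hx
          change m e * m (θ (-x)) = 0
          rw [map_neg, map_neg, mul_neg, hx, neg_zero]
        · intro x y hy
          change m e * m (θ y) = 0 at hy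
          change m e * m (θ (x * y)) = 0
          rw [map_mul, map_mul, ← mul_assoc, hcen (θ x), mul_assoc, hy, mul_zero]
        · intro x y hx
          change m e * m (θ x) = 0 at hx
          change m e * m (θ (x * y)) = 0
          rw [map_mul, map_mul, ← mul_assoc, hx, zero_mul]
        · intro q
          rw [TwoSidedIdeal.mem_mk']
          exact Iff.rfl
      have hJR : ∀ r ∈ R, r ∈ J := by
        intro r hr
        rw [hJ, ← map_mul]
        exact (hker _).2 (hR'I _ ((hR'm _).2 (Or.inr (Or.inr ⟨r, hr, rfl⟩))))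
      have h3 : η p ∈ J := hπk J hJR (η p) (by rw [← hφη]; exact hp0)
      rw [hJ] at h3
      have h4 := fpnu_A m e h1 h2 (θ.comp η) (fun i => by
        change m e * m (FreeAlgebra.ι F i) = m e * m (θ (η (FreeAlgebra.ι F i)))
        induction i using Fin.lastCases with
        | last => rw [hη2, map_one, map_one, mul_one, h1, he]
        | cast i => rw [hη1, hθ]) p
      change m e * m p = m e * m (θ (η p)) at h4
      rw [h3, fpnu_B m e h1 p hp] at h4
      exact (hker p).1 h4
    · intro hpI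
      have hle : TwoSidedIdeal.span (R' : Set (FreeAlgebra F (Fin (n + 1)))) ≤
          TwoSidedIdeal.ker φ := by
        rw [TwoSidedIdeal.span_le]
        intro z hz
        rw [SetLike.mem_coe, TwoSidedIdeal.mem_ker]
        rcases (hR'm z).1 (Finset.mem_coe.1 hz) with ⟨i, rfl⟩ | ⟨i, rfl⟩ | ⟨r, hr, rfl⟩
        · rw [map_sub, map_mul, hφe, one_mul, sub_self]
        · rw [map_sub, map_mul, hφe, mul_one, sub_self]
        · rw [map_mul, hφe, one_mul, hφη, hηθ, hπR r hr]
      exact (TwoSidedIdeal.mem_ker φ).1 (hle hpI)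

end target

end Pool.SF
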