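import Pool.Agent.Helper702.SF.SimpleD
import Pool.Agent.Helper702.SF.RepD
import Pool.Agent.Helper702.SF.MachD
import Pool.Agent.Helper702.SF.MainD
import Pool.Agent.Helper702.SF.PartID
import Pool.Agent.Helper702.SF.Main2D

set_option autoImplicit false
set_option linter.unusedSectionVars false

namespace Pool.SF
section target
variable {F A : Type} [Field F] [Ring A] [Algebra F A] {n : ℕ} (a : Fin n → A)
  (Bs : Set (List (Fin n))) (nf : List (Fin n) → ℕ × List (ℤ × List (Fin n)))
/-- Orthogonality of powers of `X` with respect to the functional. -/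
theorem lam_orth [Nontrivial A] {ι : Type} (bA : Module.Basis ι F A)
    (L : LamData F (Polynomial A) (ι × ℕ)) (hτ : L.τ = Polynomial.X)
    (hβ : ∀ p : ι × ℕ, L.β p = Polynomial.monomial p.2 (bA p.1))
    (K : Type) [Fintype K] [DecidableEq K] :
    ∃ (m m' : K → ℕ) (α : F), ∀ i j, α * L.lam (Polynomial.X ^ (m' i + m j)) =
      if i = j then 1 else 0 := by
  classical
  have hne : bA.repr (1 : A) ≠ 0 := by
    intro h
    have : (1 : A) = 0 := by
      have h1 := bA.repr.map_eq_zero_iff.1 h
      exact h1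
    exact one_ne_zero this
  obtain ⟨i0, hi0⟩ := Finsupp.support_nonempty_iff.2 hne
  have hc0 : bA.repr (1 : A) i0 ≠ 0 := Finsupp.mem_support_iff.1 hi0
  set s0 := (bA.repr (1 : A)).support with hs0
  set c : ι → F := fun i => bA.repr (1 : A) i with hc
  have h1 : (1 : A) = ∑ i ∈ s0, c i • bA i := by
    have := bA.linearCombination_repr (1 : A)
    rw [Finsupp.linearCombination_apply, Finsupp.sum] at this
    exact this.symm
  let e := Fintype.equivFin K
  let k := Fintype.card K
  have hmem : ∀ j : K, (i0, (e j : ℕ)) ∈ s0 ×ˢ Finset.range k := by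
    intro j
    rw [Finset.mem_product]
    exact ⟨hi0, Finset.mem_range.2 (e j).2⟩
  choose m hm1 hm2 using fun j : K => L.coord (s0 ×ˢ Finset.range k) (i0, (e j : ℕ)) (hmem j)
  refine ⟨m, fun i => (e i : ℕ), (c i0)⁻¹, ?_⟩
  have hX : ∀ n r : ℕ, (Polynomial.X : Polynomial A) ^ (n + r) =
      ∑ i ∈ s0, c i • (L.β (i, n) * L.τ ^ r) := by
    intro n r
    have h2 : (Polynomial.X : Polynomial A) ^ n = ∑ i ∈ s0, c i • Polynomial.monomial n (bA i) := by
      rw [← Polynomial.monomial_one_right_eq_X_pow]
      conv_lhs => rw [h1]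
      rw [map_sum]
      apply Finset.sum_congr rfl
      intro i _
      rw [Polynomial.smul_monomial]
    rw [pow_add, h2, Finset.sum_mul, hτ]
    apply Finset.sum_congr rfl
    intro i _
    rw [hβ, smul_mul_assoc]
  intro i j
  rw [hX, map_sum]
  have hterm : ∀ q ∈ s0, L.lam (c q • (L.β (q, (e i : ℕ)) * L.τ ^ m j)) =
      if q = i0 then (c i0 * if i = j then 1 else 0) else 0 := by
    intro q hq
    rw [map_smul, smul_eq_mul]
    by_cases hqi : q = i0 ∧ i = j
    · obtain ⟨rfl, rfl⟩ := hqi
      rw [hm1 i, if_pos rfl, if_pos rfl]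
    · have hz : L.lam (L.β (q, (e i : ℕ)) * L.τ ^ m j) = 0 := by
        apply hm2 j (q, (e i : ℕ))
        · rw [Finset.mem_product]
          exact ⟨hq, Finset.mem_range.2 (e i).2⟩
        · intro hcon
          apply hqi
          have h3 := Prod.ext_iff.1 hcon
          refine ⟨h3.1, ?_⟩
          apply e.injective
          exact Fin.ext h3.2
      rw [hz, mul_zero]
      by_cases hq0 : q = i0
      · rw [if_pos hq0]
        have : i ≠ j := fun h => hqi ⟨hq0, h⟩
        rw [if_neg this, mul_zero]
      · rw [if_neg hq0]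
  rw [Finset.sum_congr rfl hterm, Finset.sum_ite_eq' s0 i0, if_pos hi0, ← mul_assoc,
    inv_mul_cancel₀ hc0, one_mul]

end target

end Pool.SF
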