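import Pool.Agent.Helper702.SF.PartID

set_option autoImplicit false
set_option linter.unusedSectionVars false

namespace Pool.SF
section target
variable {F A : Type} [Field F] [Ring A] [Algebra F A]
theorem natAbs_comp : Primrec Int.natAbs ∧ Primrec (fun z : ℤ => decide (z < 0)) := by
  have he1 : ∀ n : ℕ, @Encodable.encode ℤ (Primcodable.toEncodable) (n : ℤ) = 2 * n := fun n => rfl
  have he2 : ∀ n : ℕ, @Encodable.encode ℤ (Primcodable.toEncodable) (Int.negSucc n) = 2 * n + 1 :=
    fun n => rfl
  have hE : Primrec (@Encodable.encode ℤ Primcodable.toEncodable) := Primrec.encode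
  constructor
  · have h1 : Primrec (fun z : ℤ => (@Encodable.encode ℤ Primcodable.toEncodable z + 1) / 2) :=
      Primrec.nat_div.comp (Primrec.succ.comp hE) (Primrec.const 2)
    refine h1.of_eq ?_
    intro z
    cases z with
    | ofNat n =>
      have : Int.ofNat n = (n : ℤ) := rfl
      rw [this, he1]
      simp only [Int.natAbs_natCast]
      omega
    | negSucc n =>
      rw [he2]
      simp only [Int.natAbs_negSucc, Nat.succ_eq_add_one]
      omega
  · have h1 : PrimrecPred (fun z : ℤ => @Encodable.encode ℤ Primcodable.toEncodable z % 2 = 1) :=
      Primrec.eq.comp (Primrec.nat_mod.comp hE (Primrec.const 2)) (Primrec.const 1)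
    refine h1.decide.of_eq ?_
    intro z
    cases z with
    | ofNat n =>
      have : Int.ofNat n = (n : ℤ) := rfl
      rw [this, he1, decide_eq_decide]
      omega
    | negSucc n =>
      rw [he2, decide_eq_decide]
      constructor
      · intro _
        exact Int.negSucc_lt_zero n
      · intro _
        omega

end target

end Pool.SF
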