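import Pool.Agent.Helper702.SF.SimpleD
import Pool.Agent.Helper702.SF.RepD
import Pool.Agent.Helper702.SF.MachD
import Pool.Agent.Helper702.SF.MainD
import Pool.Agent.Helper702.SF.PartID
import Pool.Agent.Helper702.SF.Main2D
import Pool.Agent.Helper702.SF.P_exists_stk
import Pool.Agent.Helper702.SF.P_exists_rep
import Pool.Agent.Helper702.SF.P_map_lhs
import Pool.Agent.Helper702.SF.P_map_rhs
import Pool.Agent.Helper702.SF.P_comm_t
import Pool.Agent.Helper702.SF.P_V_zero

set_option autoImplicit false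
set_option linter.unusedSectionVars false

namespace Pool.SF
section target
open Turing
variable {F : Type} [Field F] {G Γ Λ : Type} [Fintype G] [DecidableEq G] [Fintype Γ]
  [DecidableEq Γ] [Inhabited Γ] [Fintype Λ] [DecidableEq Λ] [Inhabited Λ]

theorem nontriv_aux_wd {A K : Type} [Ring A] [Algebra F A] (U : Subalgebra F A) (u : K → A)
    (hu : ∀ j, u j ∈ U) (J : List K) : wd u J ∈ U := by
  unfold wd
  apply Subalgebra.list_prod_mem
  intro z hz
  obtain ⟨j, _, rfl⟩ := List.mem_map.mp hz
  exact hu j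

theorem nontriv_aux_mio {A : Type} [Ring A] [Algebra F A] (U : Subalgebra F A)
    (x : KK G Γ Λ → A) (hx : ∀ j, x j ∈ U) (s : Stt Λ) : mio x s ∈ U := by
  cases s with
  | c => exact hx _
  | d => exact U.zero_mem
  | e => exact hx _
  | q l => exact U.zero_mem

theorem nontriv_aux_mps {A : Type} [Ring A] [Algebra F A] (U : Subalgebra F A)
    (M : TM0.Machine Γ Λ)
    (x x' : KK G Γ Λ → A) (hx : ∀ j, x j ∈ U) (hx' : ∀ j, x' j ∈ U) (s : Stt Λ) :
    mps M x x' s ∈ U := by
  cases s with
  | c => exact U.zero_mem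
  | d => exact U.zero_mem
  | e => exact U.zero_mem
  | q l =>
    show (∑ g : Γ, match M l g with
      | some _ => 0
      | none => x (sy' g) * x' (sy' g)) ∈ U
    apply Subalgebra.sum_mem
    intro g _
    cases M l g with
    | some _ => exact U.zero_mem
    | none => exact U.mul_mem (hx _) (hx' _)

theorem nontriv_aux_smat {A : Type} [Ring A] [Algebra F A] (U : Subalgebra F A)
    (a : G → A) (ha : ∀ g, a g ∈ U) (l : G ⊕ Bool) (s s' : Stt Λ) :
    smat a l s s' ∈ U := by
  unfold smat
  split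
  · exact ha _
  · exact U.one_mem
  · exact U.one_mem
  · split_ifs
    · exact U.one_mem
    · exact U.neg_mem U.one_mem
  · exact U.one_mem
  · exact U.one_mem
  · exact U.one_mem
  · exact U.zero_mem

theorem nontriv_aux_mop {A : Type} [Ring A] [Algebra F A] (U : Subalgebra F A)
    (x x' t t' : KK G Γ Λ → A) (hx : ∀ j, x j ∈ U) (hx' : ∀ j, x' j ∈ U)
    (ht : ∀ j, t j ∈ U) (ht' : ∀ j, t' j ∈ U) (st : TM0.Stmt Γ) (g : Γ) :
    mop x x' t t' st g ∈ U := by
  unfold mop
  split
  · exact U.mul_mem (ht _) (hx' _)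
  · refine U.mul_mem ?_ (U.mul_mem (hx _) (hx' _))
    apply Subalgebra.sum_mem
    intro h _
    exact U.mul_mem (hx _) (ht' _)
  · exact U.mul_mem (hx _) (hx' _)

theorem nontriv_aux_mph {A : Type} [Ring A] [Algebra F A] (U : Subalgebra F A)
    (M : TM0.Machine Γ Λ) (cd : G ⊕ Bool → List Γ) (top : List Γ) (a : G → A)
    (x x' t t' : KK G Γ Λ → A) (ha : ∀ g, a g ∈ U) (hx : ∀ j, x j ∈ U) (hx' : ∀ j, x' j ∈ U)
    (ht : ∀ j, t j ∈ U) (ht' : ∀ j, t' j ∈ U) (i : Gl G) (s s' : Stt Λ) :
    mph M cd top a x x' t t' i s s' ∈ U := by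
  unfold mph
  split
  · exact U.mul_mem (nontriv_aux_smat U a ha _ _ _) (nontriv_aux_wd U x hx _)
  · split_ifs
    · exact U.mul_mem (ht _) (nontriv_aux_wd U x hx _)
    · exact U.zero_mem
  · apply Subalgebra.sum_mem
    intro g _
    split
    · split_ifs
      · exact nontriv_aux_mop U x x' t t' hx hx' ht ht' _ _
      · exact U.zero_mem
    · exact U.zero_mem
  · split_ifs
    · exact U.mul_mem (U.mul_mem (ht _) (ht _)) (ht' _)
    · exact U.zero_mem
  · split_ifs
    · exact U.mul_mem (U.mul_mem (hx _) (hx _)) (hx' _)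
    · exact U.zero_mem
  · exact U.zero_mem

theorem nontriv_aux_mv {A A' : Type} [Ring A] [Ring A'] (φ : A →+* A') (a : G → A)
    (w : List (G ⊕ Bool)) : mv (fun g => φ (a g)) w = φ (mv a w) := by
  induction w with
  | nil => simp [mv]
  | cons l w ih =>
    cases l with
    | inl g => simp [mv, ih]
    | inr b => simp [mv]

theorem nontriv_aux_sv {A A' : Type} [Ring A] [Ring A'] (φ : A →+* A') (a : G → A)
    (w : List (G ⊕ Bool)) : sv (fun g => φ (a g)) w = φ (sv a w) := by
  induction w with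
  | nil => simp [sv]
  | cons l w ih =>
    cases l with
    | inl g => simp [sv, ih]
    | inr b =>
      simp only [sv, ih, nontriv_aux_mv, map_add]
      split_ifs <;> simp

/-- The finitely presented algebra is not zero. -/
theorem nontriv {C : Type} [Ring C] [Algebra F C] [Nontrivial C]
    {N : ℕ} (idx : KK G Γ Λ ≃ Fin N)
    (M : TM0.Machine Γ Λ) (cd : G ⊕ Bool → List Γ) (top : List Γ)
    (tp tp' : KK G Γ Λ → FreeAlgebra F G) (cgen : G → C)
    (ht : Orth (fun j => FreeAlgebra.lift F cgen (tp j)) (fun j => FreeAlgebra.lift F cgen (tp' j)))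
    (hs : ∀ w, (StateTransition.eval (TM0.step M) (TM0.init (top ++ tapeR cd w))).Dom →
      sv cgen w = 0) :
    Nontrivial (BB (F := F) idx M cd top tp tp') := by
  obtain ⟨V, _, _, hVn, ⟨st⟩⟩ := exists_stk (F := F) C (KK G Γ Λ) .kill .noop (by simp)
  let U : Subalgebra F (Module.End F V) :=
    Algebra.adjoin F (Set.range st.γ ∪ Set.range st.x ∪ Set.range st.x')
  have hγU : ∀ c, st.γ c ∈ U := fun c =>
    Algebra.subset_adjoin (Or.inl (Or.inl ⟨c, rfl⟩))
  have hxU : ∀ j, st.x j ∈ U := fun j =>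
    Algebra.subset_adjoin (Or.inl (Or.inr ⟨j, rfl⟩))
  have hx'U : ∀ j, st.x' j ∈ U := fun j =>
    Algebra.subset_adjoin (Or.inr ⟨j, rfl⟩)
  have hMH : MH (fun g => st.γ (cgen g)) st.x st.x'
      (fun j => st.γ (FreeAlgebra.lift F cgen (tp j)))
      (fun j => st.γ (FreeAlgebra.lift F cgen (tp' j))) := by
    refine ⟨st.xx, ?_, ?_, ?_, ?_, ?_, ?_, ?_⟩
    · intro i j
      show st.γ (FreeAlgebra.lift F cgen (tp' i)) * st.γ (FreeAlgebra.lift F cgen (tp j)) = _
      rw [← map_mul]
      have := ht i j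
      simp only at this
      rw [this]
      split_ifs
      · exact map_one _
      · exact map_zero _
    · exact fun g j => st.cx _ j
    · exact fun g j => st.cx' _ j
    · exact fun g j => st.cx _ j
    · exact fun g j => st.cx' _ j
    · exact fun g j => st.cx _ j
    · exact fun g j => st.cx' _ j
  obtain ⟨R0, RX, RY, H, R, hrel⟩ := exists_rep (F := F) (C := C) (V := V) (G := G) (I := Gl G)
    (S := Stt Λ) (E := Ex Γ) st idx cgen
    (fun j => FreeAlgebra.lift F cgen (tp j)) (fun j => FreeAlgebra.lift F cgen (tp' j)) ht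
    (mio st.x) (mps M st.x st.x')
    (mph M cd top (fun g => st.γ (cgen g)) st.x st.x'
      (fun j => st.γ (FreeAlgebra.lift F cgen (tp j)))
      (fun j => st.γ (FreeAlgebra.lift F cgen (tp' j))))
    (fun s => nontriv_aux_mio U st.x hxU s)
    (fun s => nontriv_aux_mps U M st.x st.x' hxU hx'U s)
    (fun i s s' => nontriv_aux_mph U M cd top _ _ _ _ _ (fun g => hγU _) hxU hx'U
      (fun j => hγU _) (fun j => hγU _) i s s')
    (fun z => V_zero M cd top _ _ _ _ _ hMH (fun w hw => by
      have h1 := nontriv_aux_sv (st.γ : C →+* Module.End F V) cgen w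
      have h2 := hs w hw
      rw [h2, map_zero] at h1
      exact h1) z)
  let f : Gn G (Gl G) (Stt Λ) (Ex Γ) → Module.End F V := fun g => match g with
    | .c g => st.γ (cgen g)
    | .x j => st.x j
    | .x' j => st.x' j
    | .y j => st.y j
    | .y' j => st.y' j
    | .R0 => R0
    | .RX => RX
    | .RY => RY
    | .H a => H a
    | .R q => R q
  have hlift : ∀ p : FreeAlgebra F G,
      FreeAlgebra.lift F (fun g => f (.c g)) p = st.γ (FreeAlgebra.lift F cgen p) := by
    intro p
    have : FreeAlgebra.lift F (fun g => f (.c g)) = st.γ.comp (FreeAlgebra.lift F cgen) := by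
      apply FreeAlgebra.hom_ext
      funext g
      simp [f]
    rw [this]
    rfl
  have hmk : mkEl M cd top tp tp' f =
      El.mk (fun g => st.γ (cgen g)) st.x st.x' st.y st.y' R0 RX RY H R
          (fun j => st.γ (FreeAlgebra.lift F cgen (tp j)))
          (fun j => st.γ (FreeAlgebra.lift F cgen (tp' j))) (mio st.x) (mps M st.x st.x')
          (mph M cd top (fun g => st.γ (cgen g)) st.x st.x'
            (fun j => st.γ (FreeAlgebra.lift F cgen (tp j)))
            (fun j => st.γ (FreeAlgebra.lift F cgen (tp' j)))) := by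
    unfold mkEl
    simp only [hlift]
    rfl
  have hcomp : ∀ x y, Rln (F := F) idx M cd top tp tp' x y →
      FreeAlgebra.lift F f x = FreeAlgebra.lift F f y := by
    rintro x y ⟨r, rfl, rfl⟩
    rw [map_lhs, map_rhs]
    have hf : (fun g => FreeAlgebra.lift F f (FreeAlgebra.ι F g)) = f := by
      funext g
      exact FreeAlgebra.lift_ι_apply f g
    rw [hf, hmk]
    exact hrel r
  let Φ : BB (F := F) idx M cd top tp tp' →ₐ[F] Module.End F V :=
    RingQuot.liftAlgHom F ⟨FreeAlgebra.lift F f, hcomp⟩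
  have : Nontrivial (Module.End F V) := inferInstance
  exact RingHom.domain_nontrivial (Φ : _ →+* Module.End F V)

end target

end Pool.SF
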