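import Pool.Agent.Helper702.SF.PartID
import Pool.Agent.Helper702.SF.P_natAbs_comp

set_option autoImplicit false
set_option linter.unusedSectionVars false

namespace Pool.SF
section rch

theorem rc_rep {α : Type} [Primcodable α] : Primrec₂ (fun (k : ℕ) (x : α) => List.replicate k x) := by
  have h : Primrec (fun p : ℕ × α => (List.range p.1).map (fun _ => p.2)) :=
    Primrec.list_map (Primrec.list_range.comp Primrec.fst) (Primrec.snd.comp Primrec.fst).to₂
  have h2 : Primrec (fun p : ℕ × α => List.replicate p.1 p.2) := h.of_eq fun p => by simp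
  exact h2

theorem rc_inl {n : ℕ} : Primrec (fun w : List (Fin n) => (w.map Sum.inl : List (GD n))) :=
  Primrec.list_map Primrec.id (Primrec.sumInl.comp Primrec.snd).to₂

theorem rc_rel1 {n : ℕ} : Primrec₂ (@rel1 n) := by
  unfold rel1
  show Primrec (fun r : List (Fin n) × (ℕ × List (ℤ × List (Fin n))) =>
    List.replicate r.2.1 (true, (r.1.map .inl : List (GD n))) ++
    r.2.2.flatMap (fun q => List.replicate q.1.natAbs (decide (q.1 < 0), q.2.map .inl)))
  refine Primrec.list_append.comp ?_ ?_
  · exact rc_rep.comp (Primrec.fst.comp Primrec.snd)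
      ((Primrec.const true).pair (rc_inl.comp Primrec.fst))
  · refine Primrec.list_flatMap (Primrec.snd.comp Primrec.snd) ?_
    show Primrec (fun r : (List (Fin n) × (ℕ × List (ℤ × List (Fin n)))) × (ℤ × List (Fin n)) =>
      List.replicate r.2.1.natAbs (decide (r.2.1 < 0), (r.2.2.map .inl : List (GD n))))
    refine rc_rep.comp (natAbs_comp.1.comp (Primrec.fst.comp Primrec.snd)) ?_
    exact (natAbs_comp.2.comp (Primrec.fst.comp Primrec.snd)).pair
      (rc_inl.comp (Primrec.snd.comp Primrec.snd))

theorem rc_rel2 {n : ℕ} : Primrec (@rel2 n) := Primrec.dom_finite _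

theorem rc_sqrt : Primrec Nat.sqrt := Nat.Primrec'.prim_iff₁.1 Nat.Primrec'.sqrt

theorem rc_sqc : PrimrecRel sqc := by
  unfold sqc
  refine PrimrecPred.and ?_ ?_
  · exact Primrec.eq.comp (Primrec.nat_mul.comp (rc_sqrt.comp Primrec.snd)
      (rc_sqrt.comp Primrec.snd)) Primrec.snd
  · exact Primrec.eq.comp (Primrec.fst.comp (Primrec.unpair.comp (rc_sqrt.comp Primrec.snd)))
      Primrec.fst

theorem rc_rel3 {n : ℕ} : Primrec₂ (@rel3 n) := by
  unfold rel3
  show Primrec (fun r : List (Fin n) × ℕ =>
    ((true, .inr 1 :: (r.1.map .inl ++ (List.replicate r.2 (.inr 0) ++ [.inr 2]))) ::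
    (if sqc (Encodable.encode r.1) r.2 then [(false, [])] else []) : List (Bool × List (GD n))))
  refine Primrec.list_cons.comp ?_ ?_
  · refine (Primrec.const true).pair ?_
    refine Primrec.list_cons.comp (Primrec.const _) ?_
    refine Primrec.list_append.comp (rc_inl.comp Primrec.fst) ?_
    exact Primrec.list_append.comp (rc_rep.comp Primrec.snd (Primrec.const _)) (Primrec.const _)
  · exact Primrec.ite (rc_sqc.comp (Primrec.encode.comp Primrec.fst) Primrec.snd)
      (Primrec.const _) (Primrec.const _)

end rch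



section target
variable {F A : Type} [Field F] [Ring A] [Algebra F A]
theorem relD_comp {n : ℕ} (Bs : Set (List (Fin n)))
    (nf : List (Fin n) → ℕ × List (ℤ × List (Fin n)))
    (hB : ComputablePred (fun w => w ∈ Bs)) (hnf : Computable nf) :
    Computable (relD Bs nf) := by
  obtain ⟨inst, hD⟩ := hB
  have h3 : Computable (fun t : Fin n ⊕ (List (Fin n) × ℕ) =>
      (Sum.casesOn t (fun k => rel2 k)
        (fun p => bif decide (p.1 ∈ Bs) then rel3 p.1 p.2 else []) : List (Bool × List (GD n)))) := by
    refine Computable.sumCasesOn Computable.id ?_ ?_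
    · exact (rc_rel2.to_comp.comp Computable.snd).to₂
    · show Computable (fun r : (Fin n ⊕ (List (Fin n) × ℕ)) × (List (Fin n) × ℕ) =>
        bif decide (r.2.1 ∈ Bs) then rel3 r.2.1 r.2.2 else [])
      refine Computable.cond (hD.comp (Computable.fst.comp Computable.snd)) ?_ (Computable.const _)
      exact rc_rel3.to_comp.comp (Computable.fst.comp Computable.snd)
        (Computable.snd.comp Computable.snd)
  have h2 : Computable (fun s : List (Fin n) ⊕ (Fin n ⊕ (List (Fin n) × ℕ)) =>
      (Sum.casesOn s (fun w => rel1 w (nf w))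
        (fun t => Sum.casesOn t (fun k => rel2 k)
        (fun p => bif decide (p.1 ∈ Bs) then rel3 p.1 p.2 else [])) :
        List (Bool × List (GD n)))) := by
    refine Computable.sumCasesOn Computable.id ?_ ?_
    · exact (rc_rel1.to_comp.comp Computable.snd (hnf.comp Computable.snd)).to₂
    · exact (h3.comp Computable.snd).to₂
  have h1 := Computable.option_casesOn (o := fun i : ℕ =>
    (Encodable.decode i : Option (List (Fin n) ⊕ (Fin n ⊕ (List (Fin n) × ℕ)))))
    Computable.decode (Computable.const ([] : List (Bool × List (GD n))))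
    (h2.comp Computable.snd).to₂
  refine h1.of_eq fun i => ?_
  unfold relD
  generalize (Encodable.decode i : Option (List (Fin n) ⊕ (Fin n ⊕ (List (Fin n) × ℕ)))) = o
  rcases o with _ | (w | (k | p))
  · rfl
  · rfl
  · rfl
  · show (bif decide (p.1 ∈ Bs) then rel3 p.1 p.2 else []) = _
    by_cases hp : p.1 ∈ Bs
    · simp [hp]
    · simp [hp]

end target

end Pool.SF
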