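import Pool.Agent.Helper702.SF.SimpleD
import Pool.Agent.Helper702.SF.RepD
import Pool.Agent.Helper702.SF.MachD
import Pool.Agent.Helper702.SF.MainD
import Pool.Agent.Helper702.SF.PartID
import Pool.Agent.Helper702.SF.Main2D
import Pool.Agent.Helper702.SF.P_D_simple
import Pool.Agent.Helper702.SF.P_D_center
import Pool.Agent.Helper702.SF.P_exists_lam
import Pool.Agent.Helper702.SF.P_relD_comp
import Pool.Agent.Helper702.SF.P_D_hom
import Pool.Agent.Helper702.SF.P_D_basis
import Pool.Agent.Helper702.SF.P_D_lam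
import Pool.Agent.Helper702.SF.P_D_gen
import Pool.Agent.Helper702.SF.P_D_inj
import Pool.Agent.Helper702.SF.P_lam_orth

set_option autoImplicit false
set_option linter.unusedSectionVars false

namespace Pool.SF
section target
variable {F A : Type} [Field F] [Ring A] [Algebra F A] {n : ℕ} (a : Fin n → A)
  (Bs : Set (List (Fin n))) (nf : List (Fin n) → ℕ × List (ℤ × List (Fin n)))
/-- Part I: an algebra with a recursive basis embeds in a recursively presented central simple
algebra with orthogonal families. -/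
theorem partI [Nontrivial A] (hgen : Algebra.adjoin F (Set.range a) = ⊤)
    (h : HasRecBasis F a) :
    ∃ rel : ℕ → List (Bool × List (GD n)), Computable rel ∧ IsSimpleRing (CC F rel) ∧
      (∀ z : CC F rel, (∀ c, z * c = c * z) → ∃ r : F, algebraMap F (CC F rel) r = z) ∧
      (∀ (K : Type) [Fintype K] [DecidableEq K], ∃ tp tp' : K → FreeAlgebra F (GD n),
        Orth (fun j => RingQuot.mkAlgHom F (relC F rel) (tp j))
          (fun j => RingQuot.mkAlgHom F (relC F rel) (tp' j))) ∧
      ∃ φ : A →ₐ[F] CC F rel, Function.Injective φ := by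
  obtain ⟨Bs, nf, hBc, hnf, hli, h⟩ := h
  have hd : ∀ w, ((nf w).1 : F) ≠ 0 := fun w => (h w).1
  have hB : ∀ w, ∀ p ∈ (nf w).2, p.2 ∈ Bs := fun w => (h w).2.1
  have h1 : ∀ w, ((nf w).1 : F) • (w.map a).prod =
        ((nf w).2.map (fun p => (p.1 : F) • (p.2.map a).prod)).sum := fun w => (h w).2.2
  obtain ⟨bA, hbA⟩ := D_basis a Bs nf hgen hli hd hB h1
  have henc : Function.Injective (fun w : Bs => Encodable.encode w.1) := by
    intro w w' hww
    exact Subtype.ext (Encodable.encode_injective hww)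
  obtain ⟨L, hτ, hβ, hlam⟩ := exists_lam bA (fun w : Bs => Encodable.encode w.1) henc
  obtain ⟨ψ, hψ, hψX⟩ := D_hom a Bs nf hgen hli hd hB h1
  have hlam' : ∀ (i : Bs) m, L.lam (Polynomial.monomial m (bA i)) =
      if sqc (Encodable.encode i.1) m then 1 else 0 := fun i m => hlam i m
  have hinj := D_inj a Bs nf hgen h1 bA hbA L hlam' ψ hψ hψX
  have hDl := D_lam a Bs nf bA hbA L hlam' ψ hψ hψX
  have hDg := D_gen a Bs nf ψ hψ hψX
  have hnt : Nontrivial (CC F (relD Bs nf)) := hinj.nontrivial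
  refine ⟨relD Bs nf, relD_comp Bs nf hBc hnf, ?_, ?_, ?_, ?_⟩
  · exact D_simple L ψ _ _ hDl hDg
  · exact fun z hz => D_center L ψ _ _ hDl hDg z hz
  · intro K _ _
    obtain ⟨m, m', α, hmm⟩ := lam_orth bA L hτ hβ K
    refine ⟨fun j => FreeAlgebra.ι F (.inr 0) ^ (m j) * FreeAlgebra.ι F (.inr 2),
      fun i => α • (FreeAlgebra.ι F (.inr 1) * FreeAlgebra.ι F (.inr 0) ^ (m' i)), ?_⟩
    intro i j
    have h2 := hDl (Polynomial.X ^ (m' i + m j))
    rw [pow_add, map_mul, map_pow, map_pow, hψX] at h2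
    have h3 := hmm i j
    show RingQuot.mkAlgHom F (relC F (relD Bs nf))
        (α • (FreeAlgebra.ι F (.inr 1) * FreeAlgebra.ι F (.inr 0) ^ (m' i))) *
      RingQuot.mkAlgHom F (relC F (relD Bs nf))
        (FreeAlgebra.ι F (.inr 0) ^ (m j) * FreeAlgebra.ι F (.inr 2)) = _
    rw [map_smul, map_mul, map_mul, map_pow, map_pow, smul_mul_assoc]
    have h4 : RingQuot.mkAlgHom F (relC F (relD Bs nf)) (FreeAlgebra.ι F (.inr 1)) *
        RingQuot.mkAlgHom F (relC F (relD Bs nf)) (FreeAlgebra.ι F (.inr 0)) ^ m' i *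
        (RingQuot.mkAlgHom F (relC F (relD Bs nf)) (FreeAlgebra.ι F (.inr 0)) ^ m j *
          RingQuot.mkAlgHom F (relC F (relD Bs nf)) (FreeAlgebra.ι F (.inr 2))) =
        algebraMap F _ (L.lam (Polynomial.X ^ (m' i + m j))) := by
      rw [pow_add, ← h2]
      simp only [mul_assoc]
    rw [h4, Algebra.smul_def, ← map_mul, h3]
    split_ifs
    · exact map_one _
    · exact map_zero _
  · refine ⟨ψ.comp Polynomial.CAlgHom, ?_⟩
    intro x y hxy
    exact Polynomial.C_injective (hinj hxy)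

end target

end Pool.SF
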