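import Pool.Agent.Helper702.SF.Defs

set_option autoImplicit false

namespace Pool.SF

--@@defs
section machineDefs

/-- guide letters of the machine: spelling letters, end of the spelling, step of the Turing
machine, adding a blank at the bottom of one of the two stacks -/
inductive Gl (G : Type) : Type
  | sp (l : G ⊕ Bool) | dol | stp | blT | blX
deriving DecidableEq, Fintype

/-- states of the machine readers -/
inductive Stt (Λ : Type) : Type
  | c | d | e | q (l : Λ)
deriving DecidableEq, Fintype

/-- tape symbols and bottom marker -/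
inductive Ex (Γ : Type) : Type
  | sy (g : Γ) | bz
deriving DecidableEq, Fintype

/-- the letters of all stacks -/
abbrev KK (G Γ Λ : Type) : Type := Kd G (Gl G) (Stt Λ) (Ex Γ)

/-- processing of a vector along a word of guide letters -/
def phv {A S I : Type} [Ring A] [Fintype S] (ph : I → S → S → A) : List I → (S → A) → (S → A)
  | [], v => v
  | i :: z, v => phv ph z (fun s' => ∑ s, ph i s s' * v s)

/-- the output of the machine for a word of guide letters -/
def Vz {A S I : Type} [Ring A] [Fintype S] (io ps : S → A) (ph : I → S → S → A) (z : List I) : A :=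
  ∑ s, ps s * phv ph z io s

variable {A G Γ Λ : Type} [Ring A] [Fintype Γ] [DecidableEq Γ] [Inhabited Γ] [DecidableEq Λ]
  [Inhabited Λ]

/-- the letter of a tape symbol -/
def sy' (g : Γ) : KK G Γ Λ := .ext (.sy g)

/-- the bottom marker -/
def bz' : KK G Γ Λ := .ext .bz

/-- evaluation of the spelling letters -/
def smat (a : G → A) : G ⊕ Bool → Stt Λ → Stt Λ → A
  | .inl g, .c, .c => a g
  | .inl _, .d, .d => 1
  | .inl _, .e, .e => 1
  | .inr b, .c, .d => if b then 1 else -1
  | .inr _, .d, .d => 1
  | .inr _, .e, .e => 1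
  | .inr _, .e, .c => 1
  | _, _, _ => 0

/-- action of an instruction of the Turing machine reading the symbol `g` -/
def mop (x x' t t' : KK G Γ Λ → A) : Turing.TM0.Stmt Γ → Γ → A
  | .move .right, g => t (sy' g) * x' (sy' g)
  | .move .left, g => (∑ h : Γ, x (sy' h) * t' (sy' h)) * (x (sy' g) * x' (sy' g))
  | .write b, g => x (sy' b) * x' (sy' g)

/-- the transitions of the machine readers -/
def mph (M : Turing.TM0.Machine Γ Λ) (cd : G ⊕ Bool → List Γ) (top : List Γ)
    (a : G → A) (x x' t t' : KK G Γ Λ → A) : Gl G → Stt Λ → Stt Λ → A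
  | .sp l, s, s' => smat a l s s' * wd x ((cd l).map sy')
  | .dol, .d, .q l => if l = default then t bz' * wd x (top.map sy') else 0
  | .stp, .q l, .q l' => ∑ g : Γ, match M l g with
      | some (l'', st) => if l'' = l' then mop x x' t t' st g else 0
      | none => 0
  | .blT, .q l, .q l' => if l = l' then t (sy' default) * t bz' * t' bz' else 0
  | .blX, .q l, .q l' => if l = l' then x (sy' default) * x bz' * x' bz' else 0
  | _, _, _ => 0

/-- the outputs -/
def mps (M : Turing.TM0.Machine Γ Λ) (x x' : KK G Γ Λ → A) : Stt Λ → A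
  | .q l => ∑ g : Γ, match M l g with
      | some _ => 0
      | none => x (sy' g) * x' (sy' g)
  | _ => 0

/-- the initial vector -/
def mio (x : KK G Γ Λ → A) : Stt Λ → A
  | .c => x bz'
  | .e => x bz'
  | _ => 0

/-- the value of a formal sum of signed words -/
def ev (a : G → A) (r : List (Bool × List G)) : A :=
  (r.map (fun p => (if p.1 then (1 : A) else -1) * (p.2.map a).prod)).sum

end machineDefs

section presDefs

/-- generators of the finitely presented algebra -/
inductive Gn (G I S E : Type) : Type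
  | c (g : G) | x (j : Kd G I S E) | x' (j : Kd G I S E) | y (j : Kd G I S E)
  | y' (j : Kd G I S E) | R0 | RX | RY | H (a : Bool) | R (q : S)
deriving DecidableEq, Fintype

/-- names of relations of the stacks -/
inductive Sk : Type
  | xx | yy | tt | xy | xy' | x'y | x'y'
deriving DecidableEq

instance : Fintype Sk := ⟨{.xx, .yy, .tt, .xy, .xy', .x'y, .x'y'}, by intro x; cases x <;> decide⟩

/-- names of stack operations -/
inductive Ck : Type
  | x | x' | y | y'
deriving DecidableEq

instance : Fintype Ck := ⟨{.x, .x', .y, .y'}, by intro x; cases x <;> decide⟩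

/-- names of the relations -/
inductive RI (G I S E : Type) : Type
  | st (k : Sk) (i j : Kd G I S E)
  | one (b : Bool)
  | co (k : Ck) (g : G) (j : Kd G I S E)
  | r0 (j : Kd G I S E) | r0y | h (a : Bool) (j : Kd G I S E) | r (q : S) (j : Kd G I S E)
  | cm (b : Bool) (j : Kd G I S E)
deriving DecidableEq, Fintype

variable {A G I S E : Type} [Ring A] [Fintype G] [DecidableEq G] [Fintype I] [DecidableEq I]
  [Fintype S] [DecidableEq S] [Fintype E] [DecidableEq E]

/-- the elements given for the relations: `a` generators of the coefficient algebra,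
stacks, `t, t'`, machine data, readers -/
structure El (A G I S E : Type) where
  a : G → A
  x : Kd G I S E → A
  x' : Kd G I S E → A
  y : Kd G I S E → A
  y' : Kd G I S E → A
  R0 : A
  RX : A
  RY : A
  H : Bool → A
  R : S → A
  t : Kd G I S E → A
  t' : Kd G I S E → A
  io : S → A
  ps : S → A
  ph : I → S → S → A

def r0R (e : El A G I S E) : Kd G I S E → A
  | .inp i => e.R0 * e.y (.inp i)
  | .hash => ∑ s, e.R s * e.io s
  | .ex a => e.H a
  | _ => 0

def hR (e : El A G I S E) (a : Bool) : Kd G I S E → A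
  | .inp i => e.H a * e.t (.inp i)
  | .bot => 0
  | .ex b => if b = a then e.RY else e.RX * e.t (.ex b)
  | j => e.RX * e.t j

def rR (e : El A G I S E) (s : S) : Kd G I S E → A
  | .inp i => ∑ s', e.R s' * e.ph i s s'
  | .bot => e.ps s
  | .mk s' => if s = s' then e.RY else 0
  | _ => 0

def rxR {N : ℕ} (idx : Kd G I S E ≃ Fin N) (e : El A G I S E) : Kd G I S E → A
  | .noop => e.RX
  | .fin => e.y' .fin
  | .cq => e.RX * qq idx e.y e.y'
  | .cs => e.RX * e.y' .kill
  | .cg g => e.RX * e.a g
  | _ => 0

def ryR {N : ℕ} (idx : Kd G I S E ≃ Fin N) (e : El A G I S E) : Kd G I S E → A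
  | .noop => e.RY
  | .fin => e.x' .fin
  | .cq => e.RY * qq idx e.x e.x'
  | .cs => e.RY * e.x' .kill
  | .cg g => e.RY * e.a g
  | _ => 0

/-- left hand sides of the relations -/
def lhs (e : El A G I S E) : RI G I S E → A
  | .st .xx i j => e.x' i * e.x j
  | .st .yy i j => e.y' i * e.y j
  | .st .tt i j => e.t' i * e.t j
  | .st .xy i j => e.x i * e.y j
  | .st .xy' i j => e.x i * e.y' j
  | .st .x'y i j => e.x' i * e.y j
  | .st .x'y' i j => e.x' i * e.y' j
  | .one true => ∑ j, e.x j * e.x' j
  | .one false => ∑ j, e.y j * e.y' j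
  | .co .x g j => e.a g * e.x j
  | .co .x' g j => e.a g * e.x' j
  | .co .y g j => e.a g * e.y j
  | .co .y' g j => e.a g * e.y' j
  | .r0 j => e.R0 * e.x j
  | .r0y => e.R0 * e.y .bot
  | .h a j => e.H a * e.y j
  | .r q j => e.R q * e.y j
  | .cm true j => e.RX * e.x j
  | .cm false j => e.RY * e.y j

/-- right hand sides of the relations -/
def rhs {N : ℕ} (idx : Kd G I S E ≃ Fin N) (e : El A G I S E) : RI G I S E → A
  | .st .xx i j => if i = j then 1 else 0
  | .st .yy i j => if i = j then 1 else 0
  | .st .tt i j => if i = j then 1 else 0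
  | .st .xy i j => e.y j * e.x i
  | .st .xy' i j => e.y' j * e.x i
  | .st .x'y i j => e.y j * e.x' i
  | .st .x'y' i j => e.y' j * e.x' i
  | .one _ => 1
  | .co .x g j => e.x j * e.a g
  | .co .x' g j => e.x' j * e.a g
  | .co .y g j => e.y j * e.a g
  | .co .y' g j => e.y' j * e.a g
  | .r0 j => r0R e j
  | .r0y => 0
  | .h a j => hR e a j
  | .r q j => rR e q j
  | .cm true j => rxR idx e j
  | .cm false j => ryR idx e j

end presDefs

section fullDefs
variable {F : Type} [Field F] {G Γ Λ : Type} [Fintype G] [DecidableEq G] [Fintype Γ]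
  [DecidableEq Γ] [Inhabited Γ] [Fintype Λ] [DecidableEq Λ] [Inhabited Λ]

/-- The elements defined by generators `c, x, x', ...` in an algebra. -/
def mkEl {A : Type} [Ring A] [Algebra F A] (M : Turing.TM0.Machine Γ Λ)
    (cd : G ⊕ Bool → List Γ) (top : List Γ) (tp tp' : KK G Γ Λ → FreeAlgebra F G)
    (f : Gn G (Gl G) (Stt Λ) (Ex Γ) → A) : El A G (Gl G) (Stt Λ) (Ex Γ) where
  a g := f (.c g)
  x j := f (.x j)
  x' j := f (.x' j)
  y j := f (.y j)
  y' j := f (.y' j)
  R0 := f .R0
  RX := f .RX
  RY := f .RY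
  H a := f (.H a)
  R q := f (.R q)
  t j := FreeAlgebra.lift F (fun g => f (.c g)) (tp j)
  t' j := FreeAlgebra.lift F (fun g => f (.c g)) (tp' j)
  io := mio (fun j => f (.x j))
  ps := mps M (fun j => f (.x j)) (fun j => f (.x' j))
  ph := mph M cd top (fun g => f (.c g)) (fun j => f (.x j)) (fun j => f (.x' j))
    (fun j => FreeAlgebra.lift F (fun g => f (.c g)) (tp j))
    (fun j => FreeAlgebra.lift F (fun g => f (.c g)) (tp' j))

/-- The relations. -/
def Rln {N : ℕ} (idx : KK G Γ Λ ≃ Fin N) (M : Turing.TM0.Machine Γ Λ)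
    (cd : G ⊕ Bool → List Γ) (top : List Γ) (tp tp' : KK G Γ Λ → FreeAlgebra F G)
    (p q : FreeAlgebra F (Gn G (Gl G) (Stt Λ) (Ex Γ))) : Prop :=
  ∃ r, p = lhs (mkEl M cd top tp tp' (FreeAlgebra.ι F)) r ∧
    q = rhs idx (mkEl M cd top tp tp' (FreeAlgebra.ι F)) r

/-- The finitely presented algebra. -/
abbrev BB {N : ℕ} (idx : KK G Γ Λ ≃ Fin N) (M : Turing.TM0.Machine Γ Λ)
    (cd : G ⊕ Bool → List Γ) (top : List Γ) (tp tp' : KK G Γ Λ → FreeAlgebra F G) : Type :=
  RingQuot (Rln (F := F) idx M cd top tp tp')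

/-- The algebra presented by the formal sums `rel i`. -/
def relC (F : Type) [Field F] {G : Type} (rel : ℕ → List (Bool × List G))
    (p q : FreeAlgebra F G) : Prop :=
  ∃ i, p = ev (FreeAlgebra.ι F) (rel i) ∧ q = 0

abbrev CC (F : Type) [Field F] {G : Type} (rel : ℕ → List (Bool × List G)) : Type :=
  RingQuot (relC F rel)

end fullDefs
--@@end

end Pool.SF
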