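import Pool.Agent.Helper702.SF.Defs

set_option autoImplicit false

namespace Pool.SF

section genericDefs
variable {F B C G I S E : Type} [Field F] [Ring B] [Algebra F B] [Ring C] [Algebra F C]
  [Fintype G] [DecidableEq G] [Fintype I] [DecidableEq I] [Fintype S] [DecidableEq S]
  [Fintype E] [DecidableEq E]

/-- A command reader `R` which reads the stack `u, u'`; the other stack is `v, v'`. -/
structure CmdRd {N : ℕ} (idx : Kd G I S E ≃ Fin N) (γ : C →ₐ[F] B) (cgen : G → C) (R : B)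
    (u u' v v' : Kd G I S E → B) : Prop where
  idx_kill : (idx .kill : ℕ) = 0
  idx_noop : (idx .noop : ℕ) = 1
  cgen_top : Algebra.adjoin F (Set.range cgen) = ⊤
  uu : Orth u u'
  vv : Orth v v'
  cuv : ∀ i j, Commute (u i) (v j)
  cuv' : ∀ i j, Commute (u i) (v' j)
  cu'v : ∀ i j, Commute (u' i) (v j)
  cu'v' : ∀ i j, Commute (u' i) (v' j)
  cu : ∀ c j, Commute (γ c) (u j)
  cu' : ∀ c j, Commute (γ c) (u' j)
  cv : ∀ c j, Commute (γ c) (v j)
  cv' : ∀ c j, Commute (γ c) (v' j)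
  noop : R * u .noop = R
  fin : R * u .fin = v' .fin
  cq : R * u .cq = R * qq idx v v'
  cs : R * u .cs = R * v' .kill
  cg : ∀ g, R * u (.cg g) = R * γ (cgen g)
  other : ∀ j, ¬ j.isCmd → j ≠ .fin → R * u j = 0

/-- readers of the stack `y` -/
inductive YR (S : Type) : Type
  | ry | h (a : Bool) | r (s : S)
deriving DecidableEq

variable (s : Sys F B C G I S E)

/-- the reader with a given name -/
def rd : YR S → B
  | .ry => s.RY
  | .h a => s.H a
  | .r q => s.R q

def Om : Subalgebra F B := Algebra.adjoin F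
  (Set.range s.γ ∪ Set.range s.x ∪ Set.range s.x' ∪ Set.range s.y ∪ Set.range s.y')

def OmX : Subalgebra F B := Algebra.adjoin F (Set.range s.γ ∪ Set.range s.y ∪ Set.range s.y')

def OmY : Subalgebra F B := Algebra.adjoin F (Set.range s.γ ∪ Set.range s.x ∪ Set.range s.x')

/-- sums of products with at most `k` readers -/
def lev : ℕ → Submodule F B
  | 0 => Subalgebra.toSubmodule (Om s)
  | k + 1 => lev k ⊔ Submodule.span F {z | ∃ b ∈ lev k, ∃ ρ, (ρ = s.R0 ∨ ρ = s.RX ∨ ∃ r, ρ = rd s r) ∧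
      ∃ ω ∈ Om s, z = b * ρ * ω}

def LY (k : ℕ) : Submodule F B := Submodule.span F
  {z | ∃ b ∈ lev s k, ∃ (p : YR S × List (Kd G I S E)) (c : C),
    z = b * (rd s p.1 * wd s.x p.2) * s.γ c}

def LX (k : ℕ) : Submodule F B := Submodule.span F
  {z | ∃ b ∈ lev s k, ∃ ω ∈ OmX s, z = b * s.RX * ω}

def LXp (k : ℕ) : Submodule F B := Submodule.span F
  {z | ∃ b ∈ lev s k, ∃ (J : List (Kd G I S E)) (c : C), z = b * (s.RX * wd s.y J) * s.γ c}

def LR (k : ℕ) : Submodule F B := Submodule.span F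
  {z | ∃ b ∈ lev s k, ∃ (J : List (Kd G I S E)) (c : C), z = b * (s.R0 * wd s.y J) * s.γ c}

def Loc : Submodule F B := Submodule.span F
  {z | ∃ (p : List (Kd G I S E) × List (Kd G I S E)) (c : C),
    z = wd s.x p.1 * wd s.y p.2 * s.γ c}

def GG : ℕ → Submodule F B
  | 0 => Loc s
  | k + 1 => LY s k ⊔ LX s k ⊔ LR s k ⊔ Loc s

def Good (P : Submodule F B) (T : B) : Prop :=
  ∀ p q : ℕ → Kd G I S E, ∃ a, ∀ r2 ≥ a, ∃ a', ∀ r1 ≥ a',
    T * wd s.x (pre p r1) * wd s.y (pre q r2) ∈ P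

end genericDefs

end Pool.SF
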